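import Mathlib

set_option autoImplicit false

namespace Q146.Chev

open Set

/-- the plane -/
abbrev E := EuclideanSpace ℝ (Fin 2)

/-- first lattice coordinate -/
noncomputable def cu (x : E) : ℝ := 2 / Real.sqrt 3 * x 0

/-- second lattice coordinate -/
noncomputable def cv (x : E) : ℝ := x 1 - x 0 / Real.sqrt 3

/-- the point with given lattice coordinates -/
noncomputable def pt (u v : ℝ) : E := !₂[Real.sqrt 3 / 2 * u, v + u / 2]

theorem s3 : Real.sqrt 3 ≠ 0 := by positivity

theorem s3sq : Real.sqrt 3 * Real.sqrt 3 = 3 := Real.mul_self_sqrt (by norm_num)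

theorem s32 : Real.sqrt 3 ^ 2 = 3 := by
  rw [pow_two, s3sq]

theorem s33 : Real.sqrt 3 ^ 3 = 3 * Real.sqrt 3 := by
  rw [pow_succ, pow_two, s3sq]

@[simp] theorem cu_pt (u v : ℝ) : cu (pt u v) = u := by
  have := s3
  simp only [cu, pt, Matrix.cons_val_zero]
  field_simp

@[simp] theorem cv_pt (u v : ℝ) : cv (pt u v) = v := by
  have := s3
  simp only [cv, pt, Matrix.cons_val_zero, Matrix.cons_val_one]
  field_simp
  ring

theorem pt_cu_cv (x : E) : pt (cu x) (cv x) = x := by
  have := s3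
  ext i
  fin_cases i
  · simp only [cu, cv, pt]
    simp
    field_simp
  · simp only [cu, cv, pt]
    simp
    field_simp
    ring

theorem continuous_cu : Continuous cu := by unfold cu; fun_prop
theorem continuous_cv : Continuous cv := by unfold cv; fun_prop

/-- the shape in lattice coordinates: the three orientations -/
def inD (d : Fin 3) (u v : ℝ) : Prop :=
  match d with
  | 0 => (-2 ≤ -v ∧ -v ≤ 2) ∧ -1 ≤ u + v + max (-v) 0 ∧ u + v + max (-v) 0 ≤ 0
  | 1 => (-2 ≤ u ∧ u ≤ 2) ∧ -1 ≤ v + max u 0 ∧ v + max u 0 ≤ 0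
  | 2 => (-2 ≤ u + v ∧ u + v ≤ 2) ∧ -1 ≤ -u + max (u + v) 0 ∧ -u + max (u + v) 0 ≤ 0

/-- the placed tile -/
def tile (d : Fin 3) (a b : ℤ) : Set E := {x | inD d (cu x - a) (cv x - b)}

/-- the prototile -/
def C : Set E := tile 1 0 0

/-- rotation with cosine `c` and sine `s` followed by the translation by `p` -/
noncomputable def mv (c s : ℝ) (h : c ^ 2 + s ^ 2 = 1) (p : E) : E ≃ᵢ E :=
  IsometryEquiv.mk' (fun x => !₂[p 0 + (c * x 0 - s * x 1), p 1 + (s * x 0 + c * x 1)])
    (fun x => !₂[c * (x 0 - p 0) + s * (x 1 - p 1), -s * (x 0 - p 0) + c * (x 1 - p 1)])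
    (by
      intro x
      ext i
      fin_cases i
      · simp
        linear_combination (x 0 - p 0) * h
      · simp
        linear_combination (x 1 - p 1) * h)
    (by
      refine Isometry.of_dist_eq fun x y => ?_
      rw [EuclideanSpace.dist_eq, EuclideanSpace.dist_eq]
      congr 1
      simp only [Fin.sum_univ_two, Real.dist_eq, sq_abs]
      simp
      linear_combination ((x 0 - y 0) ^ 2 + (x 1 - y 1) ^ 2) * h)

theorem mv_image (c s : ℝ) (h : c ^ 2 + s ^ 2 = 1) (p : E) (S : Set E) (x : E) :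
    x ∈ mv c s h p '' S ↔
      !₂[c * (x 0 - p 0) + s * (x 1 - p 1), -s * (x 0 - p 0) + c * (x 1 - p 1)] ∈ S := by
  constructor
  · rintro ⟨y, hy, rfl⟩
    have : (!₂[c * ((mv c s h p y) 0 - p 0) + s * ((mv c s h p y) 1 - p 1),
        -s * ((mv c s h p y) 0 - p 0) + c * ((mv c s h p y) 1 - p 1)] : E) = y := by
      have := (mv c s h p).symm_apply_apply y
      exact this
    rw [this]; exact hy
  · intro hx
    exact ⟨_, hx, (mv c s h p).apply_symm_apply x⟩

theorem tile_image (d : Fin 3) (a b : ℤ) : ∃ f : E ≃ᵢ E, tile d a b = f '' C := by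
  have h3 := s3
  have h3s := s3sq
  have key : ∀ x : E, x 0 = Real.sqrt 3 / 2 * cu x ∧ x 1 = cv x + cu x / 2 := by
    intro x
    have h := pt_cu_cv x
    constructor
    · conv_lhs => rw [← h]
      simp [pt]
    · conv_lhs => rw [← h]
      simp [pt]
  have hp : ∀ u v : ℝ, (pt u v) 0 = Real.sqrt 3 / 2 * u ∧ (pt u v) 1 = v + u / 2 := by
    intro u v; simp [pt]
  fin_cases d
  · refine ⟨mv (1/2) (-(Real.sqrt 3 / 2)) (by nlinarith) (pt a b), ?_⟩
    ext x
    rw [mv_image]
    obtain ⟨k0, k1⟩ := key x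
    obtain ⟨q0, q1⟩ := hp a b
    rw [k0, k1, q0, q1]
    simp only [tile, C, mem_ofPred_eq, inD]
    have e1 : cu (!₂[1 / 2 * (Real.sqrt 3 / 2 * cu x - Real.sqrt 3 / 2 * a) +
        -(Real.sqrt 3 / 2) * (cv x + cu x / 2 - (b + a / 2)),
        - -(Real.sqrt 3 / 2) * (Real.sqrt 3 / 2 * cu x - Real.sqrt 3 / 2 * a) +
        1 / 2 * (cv x + cu x / 2 - (b + a / 2))] : E) = -(cv x - b) := by
      simp only [cu, Matrix.cons_val_zero]
      field_simp
      ring
    have e2 : cv (!₂[1 / 2 * (Real.sqrt 3 / 2 * cu x - Real.sqrt 3 / 2 * a) +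
        -(Real.sqrt 3 / 2) * (cv x + cu x / 2 - (b + a / 2)),
        - -(Real.sqrt 3 / 2) * (Real.sqrt 3 / 2 * cu x - Real.sqrt 3 / 2 * a) +
        1 / 2 * (cv x + cu x / 2 - (b + a / 2))] : E) = (cu x - a) + (cv x - b) := by
      simp only [cv, Matrix.cons_val_zero, Matrix.cons_val_one]
      simp only [cu]
      field_simp
      ring_nf
      rw [s33, s32]
      ring
    rw [e1, e2]
    simp
  · refine ⟨mv 1 0 (by norm_num) (pt a b), ?_⟩
    ext x
    rw [mv_image]
    obtain ⟨k0, k1⟩ := key x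
    obtain ⟨q0, q1⟩ := hp a b
    rw [k0, k1, q0, q1]
    simp only [tile, C, mem_ofPred_eq, inD]
    have e1 : cu (!₂[1 * (Real.sqrt 3 / 2 * cu x - Real.sqrt 3 / 2 * a) +
        0 * (cv x + cu x / 2 - (b + a / 2)),
        - 0 * (Real.sqrt 3 / 2 * cu x - Real.sqrt 3 / 2 * a) +
        1 * (cv x + cu x / 2 - (b + a / 2))] : E) = cu x - a := by
      simp only [cu, Matrix.cons_val_zero]
      field_simp
      ring
    have e2 : cv (!₂[1 * (Real.sqrt 3 / 2 * cu x - Real.sqrt 3 / 2 * a) +
        0 * (cv x + cu x / 2 - (b + a / 2)),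
        - 0 * (Real.sqrt 3 / 2 * cu x - Real.sqrt 3 / 2 * a) +
        1 * (cv x + cu x / 2 - (b + a / 2))] : E) = cv x - b := by
      simp only [cv, Matrix.cons_val_zero, Matrix.cons_val_one]
      simp only [cu]
      field_simp
      ring
    rw [e1, e2]
    simp
  · refine ⟨mv (1/2) (Real.sqrt 3 / 2) (by nlinarith) (pt a b), ?_⟩
    ext x
    rw [mv_image]
    obtain ⟨k0, k1⟩ := key x
    obtain ⟨q0, q1⟩ := hp a b
    rw [k0, k1, q0, q1]
    simp only [tile, C, mem_ofPred_eq, inD]
    have e1 : cu (!₂[1 / 2 * (Real.sqrt 3 / 2 * cu x - Real.sqrt 3 / 2 * a) +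
        (Real.sqrt 3 / 2) * (cv x + cu x / 2 - (b + a / 2)),
        -(Real.sqrt 3 / 2) * (Real.sqrt 3 / 2 * cu x - Real.sqrt 3 / 2 * a) +
        1 / 2 * (cv x + cu x / 2 - (b + a / 2))] : E) = (cu x - a) + (cv x - b) := by
      simp only [cu, Matrix.cons_val_zero]
      field_simp
      ring
    have e2 : cv (!₂[1 / 2 * (Real.sqrt 3 / 2 * cu x - Real.sqrt 3 / 2 * a) +
        (Real.sqrt 3 / 2) * (cv x + cu x / 2 - (b + a / 2)),
        -(Real.sqrt 3 / 2) * (Real.sqrt 3 / 2 * cu x - Real.sqrt 3 / 2 * a) +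
        1 / 2 * (cv x + cu x / 2 - (b + a / 2))] : E) = -(cu x - a) := by
      simp only [cv, Matrix.cons_val_zero, Matrix.cons_val_one]
      simp only [cu]
      field_simp
      ring_nf
      rw [s33, s32]
      ring
    rw [e1, e2]
    simp

/-- the prototile is a topological disc -/
theorem C_disc : Nonempty (C ≃ₜ Metric.closedBall (0 : E) 1) := by
  have h3 := s3
  have h3s := s3sq
  have hpos : 0 < Real.sqrt 3 := by positivity
  -- shear homeomorphism
  let h : E ≃ₜ E :=
    { toFun := fun x => !₂[x 0, x 1 + |x 0| / Real.sqrt 3]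
      invFun := fun x => !₂[x 0, x 1 - |x 0| / Real.sqrt 3]
      left_inv := fun x => by ext i; fin_cases i <;> simp
      right_inv := fun x => by ext i; fin_cases i <;> simp
      continuous_toFun := by
        refine (PiLp.continuous_toLp 2 _).comp (continuous_pi fun i => ?_)
        fin_cases i
        · show Continuous fun x : E => x 0
          fun_prop
        · show Continuous fun x : E => x 1 + |x 0| / Real.sqrt 3
          fun_prop
      continuous_invFun := by
        refine (PiLp.continuous_toLp 2 _).comp (continuous_pi fun i => ?_)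
        fin_cases i
        · show Continuous fun x : E => x 0
          fun_prop
        · show Continuous fun x : E => x 1 - |x 0| / Real.sqrt 3
          fun_prop }
  let R : Set E := {x | (-Real.sqrt 3 ≤ x 0 ∧ x 0 ≤ Real.sqrt 3) ∧ -1 ≤ x 1 ∧ x 1 ≤ 0}
  have hR : h '' C = R := by
    ext y
    constructor
    · rintro ⟨x, hx, rfl⟩
      simp only [C, tile, inD, mem_ofPred_eq] at hx
      obtain ⟨⟨h1, h2⟩, h4, h5⟩ := hx
      simp only [cu, cv, Int.cast_zero, sub_zero] at h1 h2 h4 h5
      have a1 : -Real.sqrt 3 ≤ x 0 := by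
        have : 2 / Real.sqrt 3 * x 0 * (Real.sqrt 3 / 2) = x 0 := by field_simp
        nlinarith
      have a2 : x 0 ≤ Real.sqrt 3 := by
        have : 2 / Real.sqrt 3 * x 0 * (Real.sqrt 3 / 2) = x 0 := by field_simp
        nlinarith
      have a3 : x 1 - x 0 / Real.sqrt 3 + max (2 / Real.sqrt 3 * x 0) 0 =
          x 1 + |x 0| / Real.sqrt 3 := by
        rcases le_total 0 (x 0) with h0 | h0
        · rw [abs_of_nonneg h0, max_eq_left (by positivity)]; ring
        · rw [abs_of_nonpos h0, max_eq_right (mul_nonpos_of_nonneg_of_nonpos (by positivity) h0)]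
          ring
      rw [a3] at h4 h5
      exact ⟨⟨a1, a2⟩, h4, h5⟩
    · intro hy
      obtain ⟨⟨h1, h2⟩, h4, h5⟩ := hy
      refine ⟨h.symm y, ?_, h.apply_symm_apply y⟩
      show (!₂[y 0, y 1 - |y 0| / Real.sqrt 3] : E) ∈ C
      simp only [C, tile, inD, mem_ofPred_eq, cu, cv, Int.cast_zero, sub_zero]
      simp only [Matrix.cons_val_zero, Matrix.cons_val_one]
      have a3 : y 1 - |y 0| / Real.sqrt 3 - y 0 / Real.sqrt 3 + max (2 / Real.sqrt 3 * y 0) 0 =
          y 1 := by
        rcases le_total 0 (y 0) with h0 | h0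
        · rw [abs_of_nonneg h0, max_eq_left (by positivity)]; ring
        · rw [abs_of_nonpos h0, max_eq_right (mul_nonpos_of_nonneg_of_nonpos (by positivity) h0)]
          ring
      rw [a3]
      refine ⟨⟨?_, ?_⟩, h4, h5⟩
      · rw [show (-2 : ℝ) = 2 / Real.sqrt 3 * (-Real.sqrt 3) by field_simp]
        exact mul_le_mul_of_nonneg_left h1 (by positivity)
      · have h6 := mul_le_mul_of_nonneg_left h2 (show 0 ≤ 2 / Real.sqrt 3 by positivity)
        have h7 : 2 / Real.sqrt 3 * Real.sqrt 3 = 2 := by field_simp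
        linarith
  have hconv : Convex ℝ R := by
    intro x hx y hy s t hs ht hst
    obtain ⟨⟨h1, h2⟩, h4, h5⟩ := hx
    obtain ⟨⟨g1, g2⟩, g4, g5⟩ := hy
    simp only [R, mem_ofPred_eq, PiLp.add_apply, PiLp.smul_apply, smul_eq_mul]
    have ht' : t = 1 - s := by linarith
    subst ht'
    refine ⟨⟨?_, ?_⟩, ?_, ?_⟩ <;> nlinarith
  have hclosed : IsClosed R := by
    have c0 : Continuous fun x : E => x 0 := by fun_prop
    have c1 : Continuous fun x : E => x 1 := by fun_prop
    exact ((isClosed_le continuous_const c0).inter (isClosed_le c0 continuous_const)).inter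
      ((isClosed_le continuous_const c1).inter (isClosed_le c1 continuous_const))
  have hbdd : Bornology.IsBounded R := by
    refine (Metric.isBounded_iff_subset_closedBall (0 : E)).2 ⟨2, ?_⟩
    intro x hx
    obtain ⟨⟨h1, h2⟩, h4, h5⟩ := hx
    rw [mem_closedBall_zero_iff, EuclideanSpace.norm_eq, Fin.sum_univ_two, Real.sqrt_le_left (by norm_num)]
    simp only [Real.norm_eq_abs, sq_abs]
    nlinarith
  have hint : (interior R).Nonempty := by
    refine ⟨pt 0 (-1/2), ?_⟩
    rw [mem_interior]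
    refine ⟨{x | (-1 < x 0 ∧ x 0 < 1) ∧ -1 < x 1 ∧ x 1 < 0}, ?_, ?_, ?_⟩
    · intro x hx
      obtain ⟨⟨h1, h2⟩, h4, h5⟩ := hx
      have : (1:ℝ) ≤ Real.sqrt 3 := by
        rw [Real.one_le_sqrt]; norm_num
      exact ⟨⟨by linarith, by linarith⟩, h4.le, h5.le⟩
    · have c0 : Continuous fun x : E => x 0 := by fun_prop
      have c1 : Continuous fun x : E => x 1 := by fun_prop
      exact ((isOpen_lt continuous_const c0).inter (isOpen_lt c0 continuous_const)).inter
        ((isOpen_lt continuous_const c1).inter (isOpen_lt c1 continuous_const))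
    · simp [pt]
      norm_num
  obtain ⟨H, -, hH, -⟩ := exists_homeomorph_image_interior_closure_frontier_eq_unitBall hconv hint hbdd
  rw [hclosed.closure_eq] at hH
  have : (h.trans H) '' C = Metric.closedBall (0 : E) 1 := by
    rw [← hH, ← hR, ← image_comp]
    rfl
  exact ⟨((h.trans H).image C).trans (Homeomorph.setCongr this)⟩

end Q146.Chev
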