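import Mathlib

set_option autoImplicit false

namespace Q146.NotSC

open Set

/-- If the circle maps into `X` and `X` maps back to the circle so that the composite is the identity,
then `X` is not simply connected. -/
theorem not_simplyConnected_of_circle {X : Type*} [TopologicalSpace X] (γ : C(Circle, X))
    (g : C(X, Circle)) (h : ∀ z, g (γ z) = z) : ¬ SimplyConnectedSpace X := by
  intro hX
  let l : C(unitInterval, Circle) := ⟨fun t => Circle.exp (2 * Real.pi * t), by fun_prop⟩
  have l0 : l 0 = 1 := by simp [l]
  have l1 : l 1 = 1 := by simp [l]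
  let p1 : Path (γ 1) (γ 1) :=
    { toContinuousMap := γ.comp l
      source' := by simp [l0]
      target' := by simp [l1] }
  have hh : Path.Homotopic p1 (Path.refl _) := SimplyConnectedSpace.paths_homotopic _ _
  have h2 : (g.comp p1.toContinuousMap).HomotopicRel
      (g.comp (Path.refl (γ 1)).toContinuousMap) {0, 1} :=
    ContinuousMap.HomotopicRel.comp_continuousMap hh g
  have e0 : (g.comp p1.toContinuousMap) 0 = Circle.exp 0 := by
    simp [p1, h, l0]
  have e0' : (g.comp (Path.refl (γ 1)).toContinuousMap) 0 = Circle.exp 0 := by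
    simp [h]
  have h3 := Circle.isCoveringMap_exp.liftPath_apply_one_eq_of_homotopicRel h2 0 e0 e0'
  have h4 : (⟨fun t => 2 * Real.pi * t, by fun_prop⟩ : C(unitInterval, ℝ)) =
      Circle.isCoveringMap_exp.liftPath (g.comp p1.toContinuousMap) 0 e0 := by
    rw [Circle.isCoveringMap_exp.eq_liftPath_iff']
    constructor
    · ext t
      simp [p1, h, l]
    · simp
  have h5 : (ContinuousMap.const unitInterval (0 : ℝ)) =
      Circle.isCoveringMap_exp.liftPath (g.comp (Path.refl (γ 1)).toContinuousMap) 0 e0' := by
    rw [Circle.isCoveringMap_exp.eq_liftPath_iff']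
    constructor
    · ext t
      simp [h]
    · simp
  rw [← h4, ← h5] at h3
  simp at h3

end Q146.NotSC
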