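import Mathlib
import Pool.Agent.Q146.Chev
import Pool.Agent.Q146.NotSC

set_option autoImplicit false

namespace Q146.Chev

open Set

/-- residues of the apex and orientations of the eight classes of tiles -/
def tl : List (ℤ × Fin 3) :=
  [(0, 1), (6, 1), (12, 1), (28, 1), (23, 2), (16, 2), (15, 0), (16, 0)]

/-- the eight triangles of a tile; `true` means upward triangles -/
def cells (d : Fin 3) : List (ℤ × ℤ × Bool) :=
  match d with
  | 0 => [(-3, 1, false), (-2, 0, false), (-2, 1, true), (-1, -2, false), (-1, -2, true),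
      (-1, -1, false), (-1, -1, true), (-1, 0, true)]
  | 1 => [(-2, -1, false), (-2, -1, true), (-1, -1, false), (-1, -1, true), (0, -2, false),
      (0, -1, true), (1, -3, false), (1, -2, true)]
  | 2 => [(0, -3, false), (0, -2, false), (0, -2, true), (0, -1, false), (0, -1, true),
      (1, -1, false), (1, -1, true), (2, -1, true)]

theorem cover_tab : ∀ r : Fin 32, ∀ t : Bool, ∃ τ ∈ tl, ∃ c ∈ cells τ.2,
    c.2.2 = t ∧ (((r : ℕ) : ℤ) - (c.1 - 6 * c.2.1) - τ.1) % 32 = 0 := by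
  decide +kernel

theorem uniq_tab : ∀ τ ∈ tl, ∀ τ' ∈ tl, ∀ c ∈ cells τ.2, ∀ c' ∈ cells τ'.2, c.2.2 = c'.2.2 →
    (τ.1 + (c.1 - 6 * c.2.1) - (τ'.1 + (c'.1 - 6 * c'.2.1))) % 32 = 0 → τ = τ' ∧ c = c' := by
  decide +kernel

/-- a closed triangle of the triangular lattice -/
def tri (t : Bool) (s r : ℝ) : Prop :=
  match t with
  | true => 0 ≤ s ∧ 0 ≤ r ∧ s + r ≤ 1
  | false => s ≤ 1 ∧ r ≤ 1 ∧ 1 ≤ s + r

/-- an open triangle of the triangular lattice -/
def trio (t : Bool) (s r : ℝ) : Prop :=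
  match t with
  | true => 0 < s ∧ 0 < r ∧ s + r < 1
  | false => s < 1 ∧ r < 1 ∧ 1 < s + r

/-- the triangles of the list lie in the tile -/
theorem cell_sub (d : Fin 3) (c : ℤ × ℤ × Bool) (hc : c ∈ cells d) (s r : ℝ)
    (h : tri c.2.2 s r) : inD d (c.1 + s) (c.2.1 + r) := by
  fin_cases d <;> simp only [cells, List.mem_cons, List.not_mem_nil, or_false] at hc <;>
    rcases hc with rfl | rfl | rfl | rfl | rfl | rfl | rfl | rfl <;>
    simp only [tri] at h <;> obtain ⟨h1, h2, h3⟩ := h <;>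
    simp only [inD] <;> push_cast <;>
    refine ⟨⟨by linarith, by linarith⟩, ?_, ?_⟩ <;>
    first
      | (rw [max_eq_left (by linarith)]; linarith)
      | (rw [max_eq_right (by linarith)]; linarith)

/-- a generic point of the tile lies in one of the triangles of the list -/
theorem cell_sup (d : Fin 3) (m n : ℤ) (t : Bool) (s r : ℝ) (hs : 0 < s) (hs1 : s < 1)
    (hr : 0 < r) (hr1 : r < 1) (h : trio t s r) (hD : inD d (m + s) (n + r)) :
    (m, n, t) ∈ cells d := by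
  have hb : ((-5 < m ∧ m < 5) ∧ -5 < n ∧ n < 5) := by
    fin_cases d <;> simp only [inD] at hD <;> obtain ⟨⟨h1, h2⟩, h3, h4⟩ := hD
    · have a1 := le_max_left (-((n:ℝ) + r)) 0
      have a2 := le_max_right (-((n:ℝ) + r)) 0
      have a3 := max_choice (-((n:ℝ) + r)) 0
      refine ⟨⟨?_, ?_⟩, ?_, ?_⟩ <;>
        first
          | (have : (-5 : ℝ) < m := by rcases a3 with a3 | a3 <;> linarith
             exact_mod_cast this)
          | (have : (m : ℝ) < 5 := by rcases a3 with a3 | a3 <;> linarith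
             exact_mod_cast this)
          | (have : (-5 : ℝ) < n := by rcases a3 with a3 | a3 <;> linarith
             exact_mod_cast this)
          | (have : (n : ℝ) < 5 := by rcases a3 with a3 | a3 <;> linarith
             exact_mod_cast this)
    · have a1 := le_max_left ((m:ℝ) + s) 0
      have a2 := le_max_right ((m:ℝ) + s) 0
      have a3 := max_choice ((m:ℝ) + s) 0
      refine ⟨⟨?_, ?_⟩, ?_, ?_⟩ <;>
        first
          | (have : (-5 : ℝ) < m := by rcases a3 with a3 | a3 <;> linarith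
             exact_mod_cast this)
          | (have : (m : ℝ) < 5 := by rcases a3 with a3 | a3 <;> linarith
             exact_mod_cast this)
          | (have : (-5 : ℝ) < n := by rcases a3 with a3 | a3 <;> linarith
             exact_mod_cast this)
          | (have : (n : ℝ) < 5 := by rcases a3 with a3 | a3 <;> linarith
             exact_mod_cast this)
    · have a1 := le_max_left ((m:ℝ) + s + (n + r)) 0
      have a2 := le_max_right ((m:ℝ) + s + (n + r)) 0
      have a3 := max_choice ((m:ℝ) + s + (n + r)) 0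
      refine ⟨⟨?_, ?_⟩, ?_, ?_⟩ <;>
        first
          | (have : (-5 : ℝ) < m := by rcases a3 with a3 | a3 <;> linarith
             exact_mod_cast this)
          | (have : (m : ℝ) < 5 := by rcases a3 with a3 | a3 <;> linarith
             exact_mod_cast this)
          | (have : (-5 : ℝ) < n := by rcases a3 with a3 | a3 <;> linarith
             exact_mod_cast this)
          | (have : (n : ℝ) < 5 := by rcases a3 with a3 | a3 <;> linarith
             exact_mod_cast this)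
  obtain ⟨⟨hm1, hm2⟩, hn1, hn2⟩ := hb
  fin_cases d <;> simp only [inD] at hD <;> obtain ⟨⟨h1, h2⟩, h3, h4⟩ := hD
  · obtain ⟨q, hq⟩ : ∃ q, q = max (-((n:ℝ) + r)) 0 := ⟨_, rfl⟩
    have a1 := le_max_left (-((n:ℝ) + r)) 0
    have a2 := le_max_right (-((n:ℝ) + r)) 0
    have a3 := max_choice (-((n:ℝ) + r)) 0
    rw [← hq] at a1 a2 a3 h3 h4
    clear hq
    cases t <;> simp only [trio] at h <;> obtain ⟨b1, b2, b3⟩ := h <;>
      interval_cases m <;> interval_cases n <;>
      first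
        | decide
        | (exfalso; push_cast at *; rcases a3 with a3 | a3 <;> linarith)
  · obtain ⟨q, hq⟩ : ∃ q, q = max ((m:ℝ) + s) 0 := ⟨_, rfl⟩
    have a1 := le_max_left ((m:ℝ) + s) 0
    have a2 := le_max_right ((m:ℝ) + s) 0
    have a3 := max_choice ((m:ℝ) + s) 0
    rw [← hq] at a1 a2 a3 h3 h4
    clear hq
    cases t <;> simp only [trio] at h <;> obtain ⟨b1, b2, b3⟩ := h <;>
      interval_cases m <;> interval_cases n <;>
      first
        | decide
        | (exfalso; push_cast at *; rcases a3 with a3 | a3 <;> linarith)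
  · obtain ⟨q, hq⟩ : ∃ q, q = max ((m:ℝ) + s + (n + r)) 0 := ⟨_, rfl⟩
    have a1 := le_max_left ((m:ℝ) + s + (n + r)) 0
    have a2 := le_max_right ((m:ℝ) + s + (n + r)) 0
    have a3 := max_choice ((m:ℝ) + s + (n + r)) 0
    rw [← hq] at a1 a2 a3 h3 h4
    clear hq
    cases t <;> simp only [trio] at h <;> obtain ⟨b1, b2, b3⟩ := h <;>
      interval_cases m <;> interval_cases n <;>
      first
        | decide
        | (exfalso; push_cast at *; rcases a3 with a3 | a3 <;> linarith)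

/-- the index set of the tiles -/
def Valid (d : Fin 3) (a b : ℤ) : Prop := ∃ τ ∈ tl, τ.2 = d ∧ (a - 6 * b - τ.1) % 32 = 0

/-- the tiling -/
def Til : Set (Set E) := {T | ∃ d a b, Valid d a b ∧ T = tile d a b}

theorem cover (x : E) : ∃ d a b, Valid d a b ∧ x ∈ tile d a b := by
  obtain ⟨a, ha⟩ : ∃ a, a = ⌊cu x⌋ := ⟨_, rfl⟩
  obtain ⟨b, hb⟩ : ∃ b, b = ⌊cv x⌋ := ⟨_, rfl⟩
  have a1 : (a : ℝ) ≤ cu x := by rw [ha]; exact Int.floor_le _
  have a2 : cu x < a + 1 := by rw [ha]; exact Int.lt_floor_add_one _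
  have b1 : (b : ℝ) ≤ cv x := by rw [hb]; exact Int.floor_le _
  have b2 : cv x < b + 1 := by rw [hb]; exact Int.lt_floor_add_one _
  obtain ⟨t, ht⟩ : ∃ t, tri t (cu x - a) (cv x - b) := by
    rcases le_total (cu x - a + (cv x - b)) 1 with h | h
    · exact ⟨true, by linarith, by linarith, h⟩
    · exact ⟨false, by linarith, by linarith, h⟩
  have hr0 : 0 ≤ (a - 6 * b) % 32 := Int.emod_nonneg _ (by norm_num)
  have hr1 : (a - 6 * b) % 32 < 32 := Int.emod_lt_of_pos _ (by norm_num)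
  obtain ⟨τ, hτ, c, hc, hct, hk⟩ := cover_tab ⟨((a - 6 * b) % 32).toNat, by omega⟩ t
  refine ⟨τ.2, a - c.1, b - c.2.1, ⟨τ, hτ, rfl, ?_⟩, ?_⟩
  · simp only at hk
    rw [Int.toNat_of_nonneg hr0] at hk
    omega
  · have := cell_sub τ.2 c hc (cu x - a) (cv x - b) (by rw [hct]; exact ht)
    show inD τ.2 (cu x - ((a - c.1 : ℤ) : ℝ)) (cv x - ((b - c.2.1 : ℤ) : ℝ))
    convert this using 1 <;> push_cast <;> ring

/-- a point with no integral barycentric coordinate -/
def Gen (x : E) : Prop := (∀ n : ℤ, cu x ≠ n) ∧ (∀ n : ℤ, cv x ≠ n) ∧ ∀ n : ℤ, cu x + cv x ≠ n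

theorem uniq (x : E) (hx : Gen x) (d d' : Fin 3) (a b a' b' : ℤ) (hv : Valid d a b)
    (hv' : Valid d' a' b') (h : x ∈ tile d a b) (h' : x ∈ tile d' a' b') :
    d = d' ∧ a = a' ∧ b = b' := by
  obtain ⟨g1, g2, g3⟩ := hx
  obtain ⟨m, hm⟩ : ∃ m, m = ⌊cu x⌋ := ⟨_, rfl⟩
  obtain ⟨n, hn⟩ : ∃ n, n = ⌊cv x⌋ := ⟨_, rfl⟩
  have a1 : (m : ℝ) < cu x := lt_of_le_of_ne (by rw [hm]; exact Int.floor_le _) (fun e => g1 m e.symm)
  have a2 : cu x < m + 1 := by rw [hm]; exact Int.lt_floor_add_one _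
  have b1 : (n : ℝ) < cv x := lt_of_le_of_ne (by rw [hn]; exact Int.floor_le _) (fun e => g2 n e.symm)
  have b2 : cv x < n + 1 := by rw [hn]; exact Int.lt_floor_add_one _
  obtain ⟨t, ht⟩ : ∃ t, trio t (cu x - m) (cv x - n) := by
    rcases lt_trichotomy (cu x - m + (cv x - n)) 1 with e | e | e
    · exact ⟨true, by linarith, by linarith, e⟩
    · exact absurd (show cu x + cv x = ((m + n + 1 : ℤ) : ℝ) by push_cast; linarith) (g3 _)
    · exact ⟨false, by linarith, by linarith, e⟩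
  have key : ∀ (d : Fin 3) (a b : ℤ), x ∈ tile d a b → (m - a, n - b, t) ∈ cells d := by
    intro d a b h
    refine cell_sup d (m - a) (n - b) t (cu x - m) (cv x - n) (by linarith) (by linarith)
      (by linarith) (by linarith) ht ?_
    have : inD d (cu x - a) (cv x - b) := h
    convert this using 1 <;> push_cast <;> ring
  have k1 := key d a b h
  have k2 := key d' a' b' h'
  obtain ⟨τ, hτ, rfl, hr⟩ := hv
  obtain ⟨τ', hτ', rfl, hr'⟩ := hv'
  have := uniq_tab τ hτ τ' hτ' _ k1 _ k2 rfl (by simp only; omega)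
  obtain ⟨e1, e2⟩ := this
  simp only [Prod.mk.injEq] at e2
  obtain ⟨e3, e4, -⟩ := e2
  exact ⟨by rw [e1], by omega, by omega⟩

/-- generic points are dense -/
theorem exists_gen (O : Set E) (hO : IsOpen O) (hne : O.Nonempty) : ∃ x ∈ O, Gen x := by
  obtain ⟨x, hx⟩ := hne
  have hc : Continuous fun ε : ℝ => pt (cu x + ε) (cv x + ε) := by
    unfold pt
    refine (PiLp.continuous_toLp 2 _).comp (continuous_pi fun i => ?_)
    fin_cases i
    · show Continuous fun ε : ℝ => Real.sqrt 3 / 2 * (cu x + ε)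
      fun_prop
    · show Continuous fun ε : ℝ => (cv x + ε) + (cu x + ε) / 2
      fun_prop
  have h0 : (0 : ℝ) ∈ (fun ε : ℝ => pt (cu x + ε) (cv x + ε)) ⁻¹' O := by
    show pt (cu x + 0) (cv x + 0) ∈ O
    rw [add_zero, add_zero, pt_cu_cv]; exact hx
  obtain ⟨δ, hδ, hball⟩ := Metric.isOpen_iff.1 (hO.preimage hc) 0 h0
  -- choose ε
  obtain ⟨ε, he0, heδ, he1, he2, he3⟩ : ∃ ε : ℝ, 0 < ε ∧ ε < δ ∧ cu x + ε < ⌊cu x⌋ + 1 ∧
      cv x + ε < ⌊cv x⌋ + 1 ∧ cu x + cv x + 2 * ε < ⌊cu x + cv x⌋ + 1 := by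
    have h1 := Int.lt_floor_add_one (cu x)
    have h2 := Int.lt_floor_add_one (cv x)
    have h3 := Int.lt_floor_add_one (cu x + cv x)
    refine ⟨min δ (min (⌊cu x⌋ + 1 - cu x) (min (⌊cv x⌋ + 1 - cv x)
      (⌊cu x + cv x⌋ + 1 - (cu x + cv x)))) / 4, ?_, ?_, ?_, ?_, ?_⟩
    · have : 0 < min δ (min (⌊cu x⌋ + 1 - cu x) (min (⌊cv x⌋ + 1 - cv x)
        (⌊cu x + cv x⌋ + 1 - (cu x + cv x)))) := by
        refine lt_min hδ (lt_min (by linarith) (lt_min (by linarith) (by linarith)))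
      linarith
    all_goals
      have m0 : 0 < min δ (min (⌊cu x⌋ + 1 - cu x) (min (⌊cv x⌋ + 1 - cv x)
        (⌊cu x + cv x⌋ + 1 - (cu x + cv x)))) := by
        refine lt_min hδ (lt_min (by linarith) (lt_min (by linarith) (by linarith)))
      have m1 : min δ (min (⌊cu x⌋ + 1 - cu x) (min (⌊cv x⌋ + 1 - cv x)
        (⌊cu x + cv x⌋ + 1 - (cu x + cv x)))) ≤ δ := min_le_left _ _
      have m2 : min δ (min (⌊cu x⌋ + 1 - cu x) (min (⌊cv x⌋ + 1 - cv x)
        (⌊cu x + cv x⌋ + 1 - (cu x + cv x)))) ≤ (⌊cu x⌋ + 1 - cu x) :=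
        (min_le_right _ _).trans (min_le_left _ _)
      have m3 : min δ (min (⌊cu x⌋ + 1 - cu x) (min (⌊cv x⌋ + 1 - cv x)
        (⌊cu x + cv x⌋ + 1 - (cu x + cv x)))) ≤ (⌊cv x⌋ + 1 - cv x) :=
        ((min_le_right _ _).trans (min_le_right _ _)).trans (min_le_left _ _)
      have m4 : min δ (min (⌊cu x⌋ + 1 - cu x) (min (⌊cv x⌋ + 1 - cv x)
        (⌊cu x + cv x⌋ + 1 - (cu x + cv x)))) ≤ (⌊cu x + cv x⌋ + 1 - (cu x + cv x)) :=
        ((min_le_right _ _).trans (min_le_right _ _)).trans (min_le_right _ _)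
      linarith
  refine ⟨pt (cu x + ε) (cv x + ε), hball ?_, ?_, ?_, ?_⟩
  · rw [Metric.mem_ball, dist_zero_right, Real.norm_eq_abs, abs_of_pos he0]; exact heδ
  · intro n hn
    rw [cu_pt] at hn
    have h1 := Int.floor_le (cu x)
    have l1 : (⌊cu x⌋ : ℝ) < n := by linarith
    have l2 : (n : ℝ) < ⌊cu x⌋ + 1 := by linarith
    have l1' : ⌊cu x⌋ < n := by exact_mod_cast l1
    have l2' : n < ⌊cu x⌋ + 1 := by exact_mod_cast l2
    omega
  · intro n hn
    rw [cv_pt] at hn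
    have h1 := Int.floor_le (cv x)
    have l1 : (⌊cv x⌋ : ℝ) < n := by linarith
    have l2 : (n : ℝ) < ⌊cv x⌋ + 1 := by linarith
    have l1' : ⌊cv x⌋ < n := by exact_mod_cast l1
    have l2' : n < ⌊cv x⌋ + 1 := by exact_mod_cast l2
    omega
  · intro n hn
    rw [cu_pt, cv_pt] at hn
    have h1 := Int.floor_le (cu x + cv x)
    have l1 : (⌊cu x + cv x⌋ : ℝ) < n := by linarith
    have l2 : (n : ℝ) < ⌊cu x + cv x⌋ + 1 := by linarith
    have l1' : ⌊cu x + cv x⌋ < n := by exact_mod_cast l1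
    have l2' : n < ⌊cu x + cv x⌋ + 1 := by exact_mod_cast l2
    omega

theorem til_iso : ∀ T ∈ Til, ∃ f : E ≃ᵢ E, T = f '' C := by
  rintro T ⟨d, a, b, -, rfl⟩
  exact tile_image d a b

theorem til_cover : ⋃₀ Til = Set.univ := by
  refine eq_univ_of_forall fun x => ?_
  obtain ⟨d, a, b, hv, hx⟩ := cover x
  exact ⟨_, ⟨d, a, b, hv, rfl⟩, hx⟩

theorem til_disj : Til.Pairwise (fun A B => Disjoint (interior A) (interior B)) := by
  rintro A ⟨d, a, b, hv, rfl⟩ B ⟨d', a', b', hv', rfl⟩ hne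
  rw [Set.disjoint_iff_inter_eq_empty]
  by_contra hcon
  rw [← Ne, ← nonempty_iff_ne_empty] at hcon
  obtain ⟨x, hx, hg⟩ := exists_gen _ (isOpen_interior.inter isOpen_interior) hcon
  obtain ⟨rfl, rfl, rfl⟩ := uniq x hg d d' a b a' b' hv hv' (interior_subset hx.1) (interior_subset hx.2)
  exact hne rfl

/-- the neighbourhood of the tile `tile 1 0 (-2)` -/
def K : Set E := ⋃₀ {T' ∈ Til | (T' ∩ tile 1 0 (-2)).Nonempty}

theorem valid0 : Valid 1 0 0 := ⟨(0, 1), by decide, rfl, by decide⟩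
theorem validT : Valid 1 0 (-2) := ⟨(12, 1), by decide, rfl, by decide⟩
theorem validA : Valid 2 (-3) 1 := ⟨(23, 2), by decide, rfl, by decide⟩
theorem validB : Valid 0 3 (-2) := ⟨(15, 0), by decide, rfl, by decide⟩

theorem subT : tile 1 0 (-2) ⊆ K := by
  refine subset_sUnion_of_mem ⟨⟨_, _, _, validT, rfl⟩, ?_⟩
  refine ⟨pt 0 (-2), ?_, ?_⟩ <;> simp [tile, inD]

theorem subA : tile 2 (-3) 1 ⊆ K := by
  refine subset_sUnion_of_mem ⟨⟨_, _, _, validA, rfl⟩, ?_⟩
  refine ⟨pt (-2) (-2), ?_, ?_⟩ <;> simp [tile, inD] <;> norm_num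

theorem subB : tile 0 3 (-2) ⊆ K := by
  refine subset_sUnion_of_mem ⟨⟨_, _, _, validB, rfl⟩, ?_⟩
  refine ⟨pt 2 (-4), ?_, ?_⟩ <;> simp [tile, inD] <;> norm_num

theorem not_mem : pt (-1/2) (-3/4) ∉ K := by
  rintro ⟨T', ⟨⟨d, a, b, hv, rfl⟩, y, hy1, hy2⟩, hp⟩
  have hg : Gen (pt (-1/2) (-3/4)) := by
    refine ⟨fun n hn => ?_, fun n hn => ?_, fun n hn => ?_⟩
    · rw [cu_pt] at hn
      have l1 : (-1 : ℝ) < n := by linarith
      have l2 : (n : ℝ) < 0 := by linarith
      have l1' : -1 < n := by exact_mod_cast l1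
      have l2' : n < 0 := by exact_mod_cast l2
      omega
    · rw [cv_pt] at hn
      have l1 : (-1 : ℝ) < n := by linarith
      have l2 : (n : ℝ) < 0 := by linarith
      have l1' : -1 < n := by exact_mod_cast l1
      have l2' : n < 0 := by exact_mod_cast l2
      omega
    · rw [cu_pt, cv_pt] at hn
      have l1 : (-2 : ℝ) < n := by linarith
      have l2 : (n : ℝ) < -1 := by linarith
      have l1' : -2 < n := by exact_mod_cast l1
      have l2' : n < -1 := by exact_mod_cast l2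
      omega
  have h0 : pt (-1/2) (-3/4) ∈ tile 1 0 0 := by
    simp [tile, inD]
    norm_num
  obtain ⟨rfl, rfl, rfl⟩ := uniq _ hg d 1 a b 0 0 hv valid0 hp h0
  simp only [tile, inD, mem_ofPred_eq] at hy1 hy2
  obtain ⟨-, g1, g2⟩ := hy1
  obtain ⟨-, g3, g4⟩ := hy2
  push_cast at g1 g2 g3 g4
  simp only [sub_zero] at g1 g2 g3 g4
  linarith

end Q146.Chev
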