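import Mathlib
import Pool.Agent.Q146.ChevTiling

set_option autoImplicit false

namespace Q146.Chev

open Set

/-- gauge of the parallelogram around the marked point -/
noncomputable def G (x y : ℝ) : ℝ := max (max (2 * x / 5) (-(2 * x / 3))) (max y (-(y / 2)))

theorem continuous_G : Continuous fun z : ℂ => G z.re z.im := by
  unfold G; fun_prop

theorem G_pos {x y : ℝ} (h : x ≠ 0 ∨ y ≠ 0) : 0 < G x y := by
  unfold G
  rcases h with h | h
  · rcases lt_or_gt_of_ne h with h | h
    · exact lt_of_lt_of_le (by linarith : 0 < -(2 * x / 3)) ((le_max_right _ _).trans (le_max_left _ _))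
    · exact lt_of_lt_of_le (by linarith : 0 < 2 * x / 5) ((le_max_left _ _).trans (le_max_left _ _))
  · rcases lt_or_gt_of_ne h with h | h
    · exact lt_of_lt_of_le (by linarith : 0 < -(y / 2)) ((le_max_right _ _).trans (le_max_right _ _))
    · exact lt_of_lt_of_le h ((le_max_left _ _).trans (le_max_right _ _))

theorem G_smul {x y t : ℝ} (ht : 0 < t) : G (x / t) (y / t) = G x y / t := by
  unfold G
  rw [← max_div_div_right ht.le, ← max_div_div_right ht.le, ← max_div_div_right ht.le]
  congr 2 <;> ring_nf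

/-- the boundary of the parallelogram lies in `K` -/
theorem ring_mem (X Y : ℝ) (h : G X Y = 1) : pt (-1/2 + X) ((-1 + Y) - (-1/2 + X) / 2) ∈ K := by
  have h1 : 2 * X / 5 ≤ 1 := h ▸ ((le_max_left _ _).trans (le_max_left _ _))
  have h2 : -(2 * X / 3) ≤ 1 := h ▸ ((le_max_right _ _).trans (le_max_left _ _))
  have h3 : Y ≤ 1 := h ▸ ((le_max_left _ _).trans (le_max_right _ _))
  have h4 : -(Y / 2) ≤ 1 := h ▸ ((le_max_right _ _).trans (le_max_right _ _))
  have h5 : 2 * X / 5 = 1 ∨ -(2 * X / 3) = 1 ∨ Y = 1 ∨ -(Y / 2) = 1 := by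
    unfold G at h
    rcases max_choice (max (2 * X / 5) (-(2 * X / 3))) (max Y (-(Y / 2))) with e | e
    · rw [e] at h
      rcases max_choice (2 * X / 5) (-(2 * X / 3)) with e' | e'
      · rw [e'] at h; exact Or.inl h
      · rw [e'] at h; exact Or.inr (Or.inl h)
    · rw [e] at h
      rcases max_choice Y (-(Y / 2)) with e' | e'
      · rw [e'] at h; exact Or.inr (Or.inr (Or.inl h))
      · rw [e'] at h; exact Or.inr (Or.inr (Or.inr h))
  rcases h5 with h5 | h5 | h5 | h5
  · apply subB
    simp only [tile, inD, mem_ofPred_eq, cu_pt, cv_pt]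
    push_cast
    obtain rfl : X = 5 / 2 := by linarith
    refine ⟨⟨by linarith, by linarith⟩, ?_, ?_⟩
    · rcases max_choice (-(-1 + Y - (-1 / 2 + 5 / 2) / 2 - -2)) 0 with e | e <;>
        have e1 := le_max_left (-(-1 + Y - (-1 / 2 + 5 / 2) / 2 - -2)) 0 <;>
        have e2 := le_max_right (-(-1 + Y - (-1 / 2 + 5 / 2) / 2 - -2)) 0 <;> linarith
    · rcases max_choice (-(-1 + Y - (-1 / 2 + 5 / 2) / 2 - -2)) 0 with e | e <;>
        have e1 := le_max_left (-(-1 + Y - (-1 / 2 + 5 / 2) / 2 - -2)) 0 <;>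
        have e2 := le_max_right (-(-1 + Y - (-1 / 2 + 5 / 2) / 2 - -2)) 0 <;> linarith
  · apply subA
    simp only [tile, inD, mem_ofPred_eq, cu_pt, cv_pt]
    push_cast
    obtain rfl : X = -3 / 2 := by linarith
    refine ⟨⟨by linarith, by linarith⟩, ?_, ?_⟩
    · rcases max_choice (-1 / 2 + -3 / 2 - -3 + (-1 + Y - (-1 / 2 + -3 / 2) / 2 - 1)) 0 with e | e <;>
        have e1 := le_max_left (-1 / 2 + -3 / 2 - -3 + (-1 + Y - (-1 / 2 + -3 / 2) / 2 - 1)) 0 <;>
        have e2 := le_max_right (-1 / 2 + -3 / 2 - -3 + (-1 + Y - (-1 / 2 + -3 / 2) / 2 - 1)) 0 <;>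
        linarith
    · rcases max_choice (-1 / 2 + -3 / 2 - -3 + (-1 + Y - (-1 / 2 + -3 / 2) / 2 - 1)) 0 with e | e <;>
        have e1 := le_max_left (-1 / 2 + -3 / 2 - -3 + (-1 + Y - (-1 / 2 + -3 / 2) / 2 - 1)) 0 <;>
        have e2 := le_max_right (-1 / 2 + -3 / 2 - -3 + (-1 + Y - (-1 / 2 + -3 / 2) / 2 - 1)) 0 <;>
        linarith
  · subst h5
    rcases le_total (-1/2 + X) 0 with hx | hx
    · apply subA
      simp only [tile, inD, mem_ofPred_eq, cu_pt, cv_pt]
      push_cast
      refine ⟨⟨by linarith, by linarith⟩, ?_, ?_⟩ <;> rw [max_eq_left (by linarith)] <;> linarith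
    · apply subB
      simp only [tile, inD, mem_ofPred_eq, cu_pt, cv_pt]
      push_cast
      refine ⟨⟨by linarith, by linarith⟩, ?_, ?_⟩ <;> rw [max_eq_right (by linarith)] <;> linarith
  · obtain rfl : Y = -2 := by linarith
    apply subT
    simp only [tile, inD, mem_ofPred_eq, cu_pt, cv_pt]
    push_cast
    refine ⟨⟨by linarith, by linarith⟩, ?_, ?_⟩ <;>
      rcases le_total (-1/2 + X - 0) 0 with hx | hx <;>
      first
        | (rw [max_eq_left (by linarith)]; linarith)
        | (rw [max_eq_right (by linarith)]; linarith)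

/-- the direction from the marked point, as a complex number -/
noncomputable def ze (x : E) : ℂ := ⟨cu x + 1 / 2, cv x + cu x / 2 + 1⟩

theorem continuous_ze : Continuous ze := by
  have : ze = fun x => ((cu x + 1 / 2 : ℝ) : ℂ) + ((cv x + cu x / 2 + 1 : ℝ) : ℂ) * Complex.I := by
    ext x
    apply Complex.ext <;> simp [ze]
  rw [this]
  have h1 := continuous_cu
  have h2 := continuous_cv
  fun_prop

theorem ze_ne (x : E) (hx : x ∈ K) : ze x ≠ 0 := by
  intro h
  have h1 : cu x + 1 / 2 = 0 := congrArg Complex.re h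
  have h2 : cv x + cu x / 2 + 1 = 0 := congrArg Complex.im h
  apply not_mem
  rw [← pt_cu_cv x] at hx
  rwa [show cu x = -1/2 by linarith, show cv x = -3/4 by linarith] at hx

theorem not_sc : ¬ SimplyConnectedSpace K := by
  have hz : ∀ z : Circle, (z : ℂ).re ≠ 0 ∨ (z : ℂ).im ≠ 0 := by
    intro z
    by_contra hcon
    push Not at hcon
    exact Circle.coe_ne_zero z (Complex.ext hcon.1 hcon.2)
  have hG : ∀ z : Circle, 0 < G (z : ℂ).re (z : ℂ).im := fun z => G_pos (hz z)
  let γ : C(Circle, K) :=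
    { toFun := fun z => ⟨pt (-1/2 + (z : ℂ).re / G (z : ℂ).re (z : ℂ).im)
        ((-1 + (z : ℂ).im / G (z : ℂ).re (z : ℂ).im) -
          (-1/2 + (z : ℂ).re / G (z : ℂ).re (z : ℂ).im) / 2), ring_mem _ _ (by
            rw [G_smul (hG z), div_self (hG z).ne'])⟩
      continuous_toFun := by
        have hg : Continuous fun z : Circle => G (z : ℂ).re (z : ℂ).im :=
          continuous_G.comp continuous_subtype_val
        have hr : Continuous fun z : Circle => (z : ℂ).re := Complex.continuous_re.comp continuous_subtype_val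
        have hi : Continuous fun z : Circle => (z : ℂ).im := Complex.continuous_im.comp continuous_subtype_val
        have q1 : Continuous fun z : Circle => (z : ℂ).re / G (z : ℂ).re (z : ℂ).im :=
          hr.div hg fun z => (hG z).ne'
        have q2 : Continuous fun z : Circle => (z : ℂ).im / G (z : ℂ).re (z : ℂ).im :=
          hi.div hg fun z => (hG z).ne'
        refine Continuous.subtype_mk ?_ _
        unfold pt
        refine (PiLp.continuous_toLp 2 _).comp (continuous_pi fun i => ?_)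
        fin_cases i
        · show Continuous fun z : Circle => Real.sqrt 3 / 2 * (-1/2 + (z : ℂ).re / G (z : ℂ).re (z : ℂ).im)
          fun_prop
        · show Continuous fun z : Circle => ((-1 + (z : ℂ).im / G (z : ℂ).re (z : ℂ).im) -
            (-1/2 + (z : ℂ).re / G (z : ℂ).re (z : ℂ).im) / 2) +
            (-1/2 + (z : ℂ).re / G (z : ℂ).re (z : ℂ).im) / 2
          fun_prop }
  let g : C(K, Circle) :=
    { toFun := fun x => ⟨ze x / (‖ze x‖ : ℂ), by
        have := ze_ne x x.2
        show _ ∈ Metric.sphere (0 : ℂ) 1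
        rw [mem_sphere_zero_iff_norm, norm_div, Complex.norm_real, norm_norm, div_self]
        simpa using this⟩
      continuous_toFun := by
        refine Continuous.subtype_mk ?_ _
        have h1 : Continuous fun x : K => ze x := continuous_ze.comp continuous_subtype_val
        refine h1.div (Complex.continuous_ofReal.comp h1.norm) fun x => ?_
        have := ze_ne x x.2
        simpa using this }
  refine Q146.NotSC.not_simplyConnected_of_circle γ g fun z => ?_
  apply Circle.ext
  show ze (pt _ _) / (‖ze (pt _ _)‖ : ℂ) = z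
  have e : ze (pt (-1/2 + (z : ℂ).re / G (z : ℂ).re (z : ℂ).im)
        ((-1 + (z : ℂ).im / G (z : ℂ).re (z : ℂ).im) -
          (-1/2 + (z : ℂ).re / G (z : ℂ).re (z : ℂ).im) / 2)) =
      ((G (z : ℂ).re (z : ℂ).im)⁻¹ : ℝ) * (z : ℂ) := by
    apply Complex.ext
    · simp [ze]
      ring
    · simp [ze]
      ring
  rw [e, norm_mul, Circle.norm_coe, mul_one, Complex.norm_real, Real.norm_eq_abs,
    abs_of_pos (inv_pos.2 (hG z))]
  have : ((G (z : ℂ).re (z : ℂ).im)⁻¹ : ℝ) ≠ 0 := (inv_pos.2 (hG z)).ne'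
  have h2 : (((G (z : ℂ).re (z : ℂ).im)⁻¹ : ℝ) : ℂ) ≠ 0 := by exact_mod_cast this
  rw [mul_div_assoc, mul_comm, div_mul_cancel₀ _ h2]

end Q146.Chev
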