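import Pool.Agent.Q146.ClsDefs

/-!
# `t`-class `12 t`-component tilings
-/

set_option autoImplicit false
set_option linter.unusedSimpArgs false

open Set Metric

namespace Pool.Agent.Q146.Cls

/-! ### The point group -/

/-- the sixth root of unity -/
noncomputable def c : ℂ := ⟨1 / 2, Real.sqrt 3 / 2⟩

theorem s3 : Real.sqrt 3 ^ 2 = 3 := Real.sq_sqrt (by norm_num)

theorem s3pos : 0 < Real.sqrt 3 := by positivity

/-- the second coordinate, rescaled -/
noncomputable def q (z : ℂ) : ℝ := Real.sqrt 3 * z.im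

theorem q_add (z w : ℂ) : q (z + w) = q z + q w := by simp [q, mul_add]
theorem q_sub (z w : ℂ) : q (z - w) = q z - q w := by simp [q, mul_sub]
theorem q_neg (z : ℂ) : q (-z) = -q z := by simp [q]

theorem ext_pq {z w : ℂ} (h1 : z.re = w.re) (h2 : q z = q w) : z = w := by
  refine Complex.ext h1 ?_
  exact mul_left_cancel₀ s3pos.ne' h2

theorem norm_sq_pq (z : ℂ) : ‖z‖ ^ 2 = z.re ^ 2 + q z ^ 2 / 3 := by
  rw [Complex.sq_norm, Complex.normSq_apply, q, mul_pow, s3]
  ring

theorem re_c_mul (z : ℂ) : (c * z).re = (z.re - q z) / 2 := by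
  simp only [c, q, Complex.mul_re]
  ring

theorem q_c_mul (z : ℂ) : q (c * z) = (3 * z.re + q z) / 2 := by
  simp only [c, q, Complex.mul_im]
  linear_combination (z.re / 2) * s3

theorem re_conj (z : ℂ) : ((starRingEnd ℂ) z).re = z.re := rfl
theorem q_conj (z : ℂ) : q ((starRingEnd ℂ) z) = - q z := by simp [q]

theorem norm_c : ‖c‖ = 1 := by
  have h : ‖c‖ ^ 2 = 1 := by
    rw [norm_sq_pq]
    have h1 : c.re = 1 / 2 := rfl
    have h2 : q c = 3 / 2 := by
      simp only [c, q]
      linear_combination (1 / 2) * s3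
    rw [h1, h2]; norm_num
  have := norm_nonneg c
  nlinarith

theorem c_sq : c * c = c - 1 := by
  apply ext_pq
  · rw [re_c_mul]
    simp only [c, q, Complex.sub_re, Complex.one_re]
    linear_combination (-1 / 4) * s3
  · rw [q_c_mul]
    simp only [c, q, Complex.sub_im, Complex.one_im]
    linear_combination (-1 / 4) * s3

theorem c_pow_six : c ^ 6 = 1 := by
  have h3 : c ^ 3 = -1 := by
    calc c ^ 3 = c * (c * c) := by ring
      _ = c * (c - 1) := by rw [c_sq]
      _ = c * c - c := by ring
      _ = c - 1 - c := by rw [c_sq]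
      _ = -1 := by ring
  calc c ^ 6 = (c ^ 3) ^ 2 := by ring
    _ = 1 := by rw [h3]; ring

/-- `c` as an element of the circle -/
noncomputable def cc : Circle := ⟨c, mem_sphere_zero_iff_norm.2 norm_c⟩

theorem cc_pow_six : cc ^ 6 = 1 := by
  apply Circle.ext
  rw [Circle.coe_pow, Circle.coe_one]
  exact c_pow_six

noncomputable def rot (j : ZMod 6) : Circle := cc ^ j.val

theorem rot_add (j k : ZMod 6) : rot (j + k) = rot j * rot k := by
  unfold rot
  rw [ZMod.val_add, ← pow_eq_pow_mod _ cc_pow_six, pow_add]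

theorem rot_zero : rot 0 = 1 := by simp [rot]

theorem rot_neg (j : ZMod 6) : rot (-j) = (rot j)⁻¹ := by
  rw [eq_inv_iff_mul_eq_one, ← rot_add, neg_add_cancel, rot_zero]

theorem rot_sub (j k : ZMod 6) : rot (j - k) = (rot k)⁻¹ * rot j := by
  rw [sub_eq_add_neg, rot_add, rot_neg, mul_comm]

theorem conj_rot (a : Circle) :
    rotation a * Complex.conjLIE = Complex.conjLIE * rotation a⁻¹ := by
  ext z
  simp only [LinearIsometryEquiv.coe_mul, Function.comp_apply, rotation_apply,
    Complex.conjLIE_apply, map_mul, Circle.coe_inv_eq_conj, Complex.conj_conj]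

/-- the action of the dihedral group of order 12 -/
noncomputable def Af : DihedralGroup 6 → (ℂ ≃ₗᵢ[ℝ] ℂ)
  | .r j => rotation (rot j)
  | .sr j => Complex.conjLIE * rotation (rot j)

theorem conj_mul_conj : Complex.conjLIE * Complex.conjLIE = (1 : ℂ ≃ₗᵢ[ℝ] ℂ) := by
  ext z
  simp [LinearIsometryEquiv.coe_mul]

noncomputable def A : DihedralGroup 6 →* (ℂ ≃ₗᵢ[ℝ] ℂ) where
  toFun := Af
  map_one' := by
    change Af (.r 0) = 1
    simp [Af, rot_zero]
  map_mul' := by
    rintro (j | j) (k | k)
    · change Af (.r (j + k)) = _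
      simp only [Af]
      rw [rot_add, map_mul]
    · change Af (.sr (k - j)) = _
      simp only [Af]
      rw [← mul_assoc, conj_rot, mul_assoc, ← map_mul, rot_sub]
    · change Af (.sr (j + k)) = _
      simp only [Af]
      rw [rot_add, map_mul, mul_assoc]
    · change Af (.r (k - j)) = _
      simp only [Af]
      rw [mul_assoc, ← mul_assoc (rotation (rot j)), conj_rot, mul_assoc, ← map_mul, ← rot_sub,
        ← mul_assoc, conj_mul_conj, one_mul]

theorem A_r (j : ZMod 6) (z : ℂ) : A (.r j) z = c ^ j.val * z := by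
  change rotation (rot j) z = _
  rw [rotation_apply, rot, Circle.coe_pow]
  rfl

theorem A_sr (j : ZMod 6) (z : ℂ) : A (.sr j) z = (starRingEnd ℂ) (c ^ j.val * z) := by
  change (Complex.conjLIE * rotation (rot j)) z = _
  rw [LinearIsometryEquiv.coe_mul, Function.comp_apply, rotation_apply, rot, Circle.coe_pow]
  rfl

theorem A_mul (g h : DihedralGroup 6) (z : ℂ) : A (g * h) z = A g (A h z) := by
  rw [map_mul]; rfl

theorem A_one (z : ℂ) : A 1 z = z := by rw [map_one]; rfl

theorem A_inv (g : DihedralGroup 6) (z : ℂ) : A g⁻¹ (A g z) = z := by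
  rw [← A_mul, inv_mul_cancel, A_one]

theorem A_inv' (g : DihedralGroup 6) (z : ℂ) : A g (A g⁻¹ z) = z := by
  rw [← A_mul, mul_inv_cancel, A_one]

/-- The action is free on the open chamber. -/
theorem free {g : DihedralGroup 6} {z : ℂ} (h1 : 0 < q z) (h2 : q z < z.re)
    (h3 : 0 < q (A g z)) (h4 : q (A g z) < (A g z).re) : g = 1 := by
  rcases g with j | j
  · rw [A_r] at h3 h4
    fin_cases j
    · rfl
    all_goals
      exfalso
      simp only [ZMod.val, Fin.mk_one, Fin.isValue, Fin.reduceFinMk, Fin.val_one, pow_one, pow_succ,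
        pow_zero, one_mul, mul_assoc, re_c_mul, q_c_mul] at h3 h4
      linarith
  · rw [A_sr] at h3 h4
    fin_cases j
    all_goals
      exfalso
      simp only [ZMod.val, Fin.mk_one, Fin.isValue, Fin.reduceFinMk, Fin.val_one, pow_one, pow_succ,
        pow_zero, one_mul, mul_assoc, re_c_mul, q_c_mul, re_conj, q_conj, Fin.zero_eta,
        Fin.val_zero] at h3 h4
      linarith

end Pool.Agent.Q146.Cls
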