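import Pool.Agent.Q146.Cls

/-!
# `t`-class `12 t`-component tilings: lattice, cells
-/

set_option autoImplicit false
set_option linter.unusedSimpArgs false

open Set Metric

namespace Pool.Agent.Q146.Cls

/-- Every vector can be moved into the closed chamber. -/
theorem reduce (u : ℂ) : ∃ g : DihedralGroup 6, 0 ≤ q (A g u) ∧ q (A g u) ≤ (A g u).re := by
  obtain ⟨g, hg⟩ := Finite.exists_max (fun g : DihedralGroup 6 => 4 * (A g u).re + q (A g u))
  refine ⟨g, ?_, ?_⟩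
  · have h := hg (.sr 0 * g)
    rw [A_mul, A_sr] at h
    simp only [ZMod.val_zero, pow_zero, one_mul, re_conj, q_conj] at h
    linarith
  · have h := hg (.sr 5 * g)
    rw [A_mul, A_sr] at h
    have e5 : (5 : ZMod 6).val = 5 := rfl
    simp only [e5, pow_succ, pow_zero, one_mul, mul_assoc, re_conj, q_conj, re_c_mul, q_c_mul] at h
    linarith

/-! ### The lattice -/

/-- the lattice vector with coordinates `x`, for the parameter `t` -/
noncomputable def v (t : ℕ) (x : ℤ × ℤ) : ℂ := 2 * t * (x.1 + x.2 * c)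

theorem v_add (t : ℕ) (x y : ℤ × ℤ) : v t (x + y) = v t x + v t y := by
  simp only [v, Prod.fst_add, Prod.snd_add]
  push_cast
  ring

theorem v_sub (t : ℕ) (x y : ℤ × ℤ) : v t (x - y) = v t x - v t y := by
  simp only [v, Prod.fst_sub, Prod.snd_sub]
  push_cast
  ring

theorem v_re (t : ℕ) (x : ℤ × ℤ) : (v t x).re = t * (2 * x.1 + x.2) := by
  simp only [v, c, Complex.mul_re, Complex.add_re, Complex.add_im, Complex.mul_im,
    Complex.intCast_re, Complex.intCast_im, Complex.natCast_re, Complex.natCast_im,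
    Complex.re_ofNat, Complex.im_ofNat]
  ring

theorem v_q (t : ℕ) (x : ℤ × ℤ) : q (v t x) = 3 * t * x.2 := by
  simp only [q, v, c, Complex.mul_re, Complex.add_re, Complex.add_im, Complex.mul_im,
    Complex.intCast_re, Complex.intCast_im, Complex.natCast_re, Complex.natCast_im,
    Complex.re_ofNat, Complex.im_ofNat]
  linear_combination (t * x.2 : ℝ) * s3

theorem c_mul_v (t : ℕ) (x : ℤ × ℤ) : c * v t x = v t (-x.2, x.1 + x.2) := by
  simp only [v]
  push_cast
  linear_combination (2 * (t : ℂ) * x.2) * c_sq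

theorem conj_v (t : ℕ) (x : ℤ × ℤ) : (starRingEnd ℂ) (v t x) = v t (x.1 + x.2, -x.2) := by
  apply ext_pq
  · rw [re_conj, v_re, v_re]
    push_cast
    ring
  · rw [q_conj, v_q, v_q]
    push_cast
    ring

theorem A_v (t : ℕ) (g : DihedralGroup 6) (x : ℤ × ℤ) : ∃ y, A g (v t x) = v t y := by
  have hpow : ∀ n : ℕ, ∀ x : ℤ × ℤ, ∃ y, c ^ n * v t x = v t y := by
    intro n
    induction n with
    | zero => exact fun x => ⟨x, by simp⟩
    | succ n ih =>
      intro x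
      obtain ⟨y, hy⟩ := ih (-x.2, x.1 + x.2)
      exact ⟨y, by rw [pow_succ, mul_assoc, c_mul_v, hy]⟩
  rcases g with j | j
  · rw [A_r]; exact hpow _ _
  · obtain ⟨y, hy⟩ := hpow j.val x
    exact ⟨_, by rw [A_sr, hy, conj_v]⟩

theorem v_inj {t : ℕ} (ht : 0 < t) {x y : ℤ × ℤ} (h : v t x = v t y) : x = y := by
  have ht' : (0 : ℝ) < t := by exact_mod_cast ht
  have h1 := congrArg Complex.re h
  have h2 := congrArg q h
  rw [v_re, v_re] at h1
  rw [v_q, v_q] at h2
  have h3 : (x.2 : ℝ) = y.2 := by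
    have : (3 * (t : ℝ)) * x.2 = (3 * t) * y.2 := h2
    exact mul_left_cancel₀ (by positivity) this
  have h4 : (2 * (x.1 : ℝ) + x.2) = 2 * y.1 + y.2 := mul_left_cancel₀ ht'.ne' h1
  have h5 : (x.1 : ℝ) = y.1 := by linarith
  exact Prod.ext (by exact_mod_cast h5) (by exact_mod_cast h3)

/-- The origin is the unique lattice point next to a point of the open triangle. -/
theorem nearest {t : ℕ} {z : ℂ} (h0 : 0 < q z) (h1 : q z < z.re) (h2 : z.re < t)
    {x : ℤ × ℤ} (hx : x ≠ 0) : ‖z‖ < ‖z + v t x‖ := by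
  have key : ‖z‖ ^ 2 < ‖z + v t x‖ ^ 2 := by
    rw [norm_sq_pq, norm_sq_pq, Complex.add_re, q_add, v_re, v_q]
    obtain ⟨a, b⟩ := x
    simp only
    have ht : (0 : ℝ) < t := by linarith
    -- integer inequalities for `(-a, -b)`
    have i1 : (1 : ℤ) ≤ a ^ 2 + a * b + b ^ 2 := by
      by_contra hcon
      have h3 : a ^ 2 + a * b + b ^ 2 ≤ 0 := by omega
      have h4 : (2 * a + b) ^ 2 + 3 * b ^ 2 ≤ 0 := by nlinarith
      have h5 : b = 0 := by nlinarith [sq_nonneg (2 * a + b), sq_nonneg b]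
      subst h5
      have h6 : a = 0 := by nlinarith [sq_nonneg a]
      subst h6
      exact hx rfl
    have i2 : (0 : ℤ) ≤ 2 * (a ^ 2 + a * b + b ^ 2) + (2 * a + b) := by
      have h3 : 0 ≤ (2 * a + b) * (2 * a + b + 2) + 3 * b ^ 2 ∨ 2 * a + b = -1 := by
        rcases lt_trichotomy (2 * a + b) (-1) with h | h | h
        · left; nlinarith [sq_nonneg b]
        · exact Or.inr h
        · left; nlinarith [sq_nonneg b]
      rcases h3 with h3 | h3
      · nlinarith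
      · have hb : b ≠ 0 := by rintro rfl; omega
        have hb2 : 1 ≤ b ^ 2 := by
          rcases lt_or_gt_of_ne hb with h | h <;> nlinarith
        nlinarith
    have i3 : (0 : ℤ) ≤ 2 * (a ^ 2 + a * b + b ^ 2) + (2 * a + 2 * b) := by
      have h3 : 0 ≤ (2 * a + b) * (2 * a + b + 2) + 3 * b ^ 2 + 2 * b ∨ 2 * a + b = -1 := by
        have hbb : 0 ≤ 3 * b ^ 2 + 2 * b := by
          rcases le_or_gt 0 b with h | h <;> nlinarith
        rcases lt_trichotomy (2 * a + b) (-1) with h | h | h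
        · left; nlinarith
        · exact Or.inr h
        · left; nlinarith
      rcases h3 with h3 | h3
      · nlinarith
      · have hb : b ≠ 0 := by rintro rfl; omega
        have hb2 : 1 ≤ 3 * b ^ 2 + 2 * b := by
          rcases lt_or_gt_of_ne hb with h | h <;> nlinarith
        nlinarith
    have j1 : (1 : ℝ) ≤ (a : ℝ) ^ 2 + a * b + b ^ 2 := by exact_mod_cast i1
    have j2 : (0 : ℝ) ≤ 2 * ((a : ℝ) ^ 2 + a * b + b ^ 2) + (2 * a + b) := by exact_mod_cast i2
    have j3 : (0 : ℝ) ≤ 2 * ((a : ℝ) ^ 2 + a * b + b ^ 2) + (2 * a + 2 * b) := by exact_mod_cast i3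
    have k1 : 0 < (t - z.re) * (2 * ((a : ℝ) ^ 2 + a * b + b ^ 2)) := by
      apply mul_pos <;> linarith
    have k2 : 0 ≤ (z.re - q z) * (2 * ((a : ℝ) ^ 2 + a * b + b ^ 2) + (2 * a + b)) :=
      mul_nonneg (by linarith) j2
    have k3 : 0 ≤ q z * (2 * ((a : ℝ) ^ 2 + a * b + b ^ 2) + (2 * a + 2 * b)) :=
      mul_nonneg h0.le j3
    have k4 : 0 < (t : ℝ) * ((t - z.re) * (2 * ((a : ℝ) ^ 2 + a * b + b ^ 2)) +
        (z.re - q z) * (2 * ((a : ℝ) ^ 2 + a * b + b ^ 2) + (2 * a + b)) +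
        q z * (2 * ((a : ℝ) ^ 2 + a * b + b ^ 2) + (2 * a + 2 * b))) := by
      apply mul_pos ht
      linarith
    nlinarith
  exact lt_of_pow_lt_pow_left₀ 2 (norm_nonneg _) key

/-- Every point has a nearest lattice point. -/
theorem exists_nearest {t : ℕ} (ht : 0 < t) (u : ℂ) :
    ∃ x : ℤ × ℤ, ∀ y : ℤ × ℤ, ‖u - v t x‖ ≤ ‖u - v t y‖ := by
  have ht' : (1 : ℝ) ≤ t := by exact_mod_cast ht
  obtain ⟨N, hN⟩ := exists_nat_ge (2 * ‖u‖)
  let S : Finset (ℤ × ℤ) := Finset.Icc (-(N : ℤ)) N ×ˢ Finset.Icc (-(N : ℤ)) N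
  have h0 : (0 : ℤ × ℤ) ∈ S := by
    simp only [S, Finset.mem_product, Finset.mem_Icc, Prod.fst_zero, Prod.snd_zero]
    omega
  obtain ⟨x, -, hx⟩ := S.exists_min_image (fun x => ‖u - v t x‖) ⟨0, h0⟩
  refine ⟨x, fun y => ?_⟩
  by_cases hy : y ∈ S
  · exact hx y hy
  · refine (hx 0 h0).trans ?_
    have hv0 : v t 0 = 0 := by simp [v]
    rw [hv0, sub_zero]
    have h1 : 2 * ‖u‖ ≤ ‖v t y‖ := by
      refine hN.trans ?_
      have h2 : (N : ℝ) ^ 2 ≤ ‖v t y‖ ^ 2 := by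
        rw [norm_sq_pq, v_re, v_q]
        obtain ⟨a, b⟩ := y
        simp only
        have h3 : (N : ℤ) ^ 2 ≤ a ^ 2 ∨ (N : ℤ) ^ 2 ≤ b ^ 2 := by
          by_contra hcon
          push Not at hcon
          apply hy
          simp only [S, Finset.mem_product, Finset.mem_Icc]
          have h4 := abs_le_of_sq_le_sq' hcon.1.le (by positivity)
          have h5 := abs_le_of_sq_le_sq' hcon.2.le (by positivity)
          exact ⟨h4, h5⟩
        have h4 : ((N : ℝ)) ^ 2 ≤ (2 * (a : ℝ) + b) ^ 2 + 3 * b ^ 2 := by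
          rcases h3 with h | h
          · have h' : ((N : ℝ)) ^ 2 ≤ (a : ℝ) ^ 2 := by exact_mod_cast h
            nlinarith [sq_nonneg ((a : ℝ) + 2 * b)]
          · have h' : ((N : ℝ)) ^ 2 ≤ (b : ℝ) ^ 2 := by exact_mod_cast h
            nlinarith [sq_nonneg (2 * (a : ℝ) + b)]
        have h5 : ((t : ℝ) * (2 * a + b)) ^ 2 + (3 * t * b) ^ 2 / 3 =
            t ^ 2 * ((2 * (a : ℝ) + b) ^ 2 + 3 * b ^ 2) := by ring
        rw [h5]
        have h6 : (1 : ℝ) ≤ t ^ 2 := by nlinarith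
        nlinarith [sq_nonneg (N : ℝ)]
      exact le_of_sq_le_sq h2 (norm_nonneg _)
    have h2 := norm_sub_norm_le (v t y) u
    rw [norm_sub_rev] at h2
    linarith

/-! ### The pieces -/

/-- the `i`-th piece of the triangle -/
def C (i : ℕ) : Set ℂ := {z | i ≤ z.re ∧ z.re ≤ i + 1 ∧ 0 ≤ q z ∧ q z ≤ z.re}

/-- its interior -/
def O (i : ℕ) : Set ℂ := {z | i < z.re ∧ z.re < i + 1 ∧ 0 < q z ∧ q z < z.re}

theorem O_disj {t : ℕ} {y y' : ℤ × ℤ} {g g' : DihedralGroup 6} {i i' : ℕ}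
    (hi : i < t) (hi' : i' < t) {z z' : ℂ} (hz : z ∈ O i) (hz' : z' ∈ O i')
    (h : v t y + A g z = v t y' + A g' z') : y = y' ∧ g = g' ∧ i = i' := by
  have hit : ((i : ℝ) + 1) ≤ t := by exact_mod_cast hi
  have hit' : ((i' : ℝ) + 1) ≤ t := by exact_mod_cast hi'
  obtain ⟨a1, a2, a3, a4⟩ := hz
  obtain ⟨b1, b2, b3, b4⟩ := hz'
  have main : ∀ (y y' : ℤ × ℤ) (g g' : DihedralGroup 6) (z z' : ℂ), 0 < q z → q z < z.re →
      z.re < t → v t y + A g z = v t y' + A g' z' → y ≠ y' → ‖z‖ < ‖z'‖ := by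
    intro y y' g g' z z' h1 h2 h3 h hne
    obtain ⟨w, hw⟩ := A_v t g⁻¹ (y - y')
    have hw0 : w ≠ 0 := by
      rintro rfl
      apply hne
      have h4 := congrArg (A g) hw
      rw [A_inv', show v t 0 = 0 by simp [v], map_zero, v_sub] at h4
      have ht : 0 < t := by
        rcases Nat.eq_zero_or_pos t with h | h
        · exfalso
          rw [h, Nat.cast_zero] at h3
          linarith
        · exact h
      exact v_inj ht (sub_eq_zero.1 h4)
    have h4 : A g' z' = A g (z + v t w) := by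
      rw [map_add, ← hw, A_inv', v_sub]
      linear_combination -h
    have h5 : ‖z'‖ = ‖z + v t w‖ := by
      rw [← (A g').norm_map z', h4, (A g).norm_map]
    rw [h5]
    exact nearest h1 h2 h3 hw0
  have hy : y = y' := by
    by_contra hne
    have h1 := main y y' g g' z z' a3 a4 (by linarith) h hne
    have h2 := main y' y g' g z' z b3 b4 (by linarith) h.symm (Ne.symm hne)
    linarith
  subst hy
  have h1 : A g z = A g' z' := add_left_cancel h
  have h2 : A (g'⁻¹ * g) z = z' := by rw [A_mul, h1, A_inv]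
  have h3 : g'⁻¹ * g = 1 := free a3 a4 (by rw [h2]; exact b3) (by rw [h2]; exact b4)
  have h4 : g = g' := (inv_mul_eq_one.1 h3).symm
  refine ⟨rfl, h4, ?_⟩
  rw [h3, A_one] at h2
  subst h2
  have h5 : (i : ℝ) < i' + 1 := by linarith
  have h6 : (i' : ℝ) < i + 1 := by linarith
  have h7 : i < i' + 1 := by exact_mod_cast h5
  have h8 : i' < i + 1 := by exact_mod_cast h6
  omega

theorem cover {t : ℕ} (ht : 0 < t) (u : ℂ) :
    ∃ (y : ℤ × ℤ) (g : DihedralGroup 6) (i : ℕ), i < t ∧ ∃ z ∈ C i, u = v t y + A g z := by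
  obtain ⟨y, hy⟩ := exists_nearest ht u
  obtain ⟨g, h1, h2⟩ := reduce (u - v t y)
  set z := A g (u - v t y) with hz
  have hzt : z.re ≤ t := by
    obtain ⟨w, hw⟩ := A_v t g⁻¹ (1, 0)
    have h3 := hy (y + w)
    have h4 : ‖z‖ ≤ ‖z - v t (1, 0)‖ := by
      have e1 : ‖z‖ = ‖u - v t y‖ := (A g).norm_map _
      have e2 : z - v t (1, 0) = A g (u - v t (y + w)) := by
        rw [v_add, ← hw, ← sub_sub, map_sub (A g) (u - v t y), A_inv', ← hz]
      rw [e1, e2, (A g).norm_map]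
      exact h3
    have h5 : ‖z‖ ^ 2 ≤ ‖z - v t (1, 0)‖ ^ 2 := pow_le_pow_left₀ (norm_nonneg _) h4 2
    rw [norm_sq_pq, norm_sq_pq, Complex.sub_re, q_sub, v_re, v_q] at h5
    have ht' : (0 : ℝ) < t := by exact_mod_cast ht
    push_cast at h5
    have h6 : t * z.re ≤ t * t := by nlinarith
    exact le_of_mul_le_mul_left h6 ht'
  have hu : u = v t y + A g⁻¹ z := by
    rw [hz, A_inv]
    ring
  have hz0 : 0 ≤ z.re := h1.trans h2
  have hfl : (⌊z.re⌋₊ : ℝ) ≤ z.re := Nat.floor_le hz0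
  have hfl2 : z.re < ⌊z.re⌋₊ + 1 := Nat.lt_floor_add_one _
  by_cases hcase : ⌊z.re⌋₊ < t
  · exact ⟨y, g⁻¹, ⌊z.re⌋₊, hcase, z, ⟨hfl, hfl2.le, h1, h2⟩, hu⟩
  · have h3 : (t : ℝ) ≤ ⌊z.re⌋₊ := by exact_mod_cast not_lt.1 hcase
    have h4 : z.re = t := le_antisymm hzt (h3.trans hfl)
    refine ⟨y, g⁻¹, t - 1, by omega, z, ⟨?_, ?_, h1, h2⟩, hu⟩
    · rw [h4, Nat.cast_sub ht]
      push_cast
      linarith
    · rw [h4, Nat.cast_sub ht]
      push_cast
      linarith

end Pool.Agent.Q146.Cls
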