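import Pool.Agent.Q146.Cls2

/-!
# `t`-class `12 t`-component tilings: the tiling
-/

set_option autoImplicit false
set_option linter.unusedSimpArgs false

open Set Metric MeasureTheory

namespace Pool.Agent.Q146.Cls

/-! ### Topology of the pieces -/

theorem continuous_q : Continuous q := by unfold q; fun_prop

theorem q_smul (a : ℝ) (z : ℂ) : q (a • z) = a * q z := by
  simp only [q, Complex.smul_im, smul_eq_mul]
  ring

theorem C_convex (i : ℕ) : Convex ℝ (C i) := by
  rintro z ⟨h1, h2, h3, h4⟩ w ⟨k1, k2, k3, k4⟩ a b ha hb hab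
  have e1 : (a • z + b • w).re = a * z.re + b * w.re := by simp
  have e2 : q (a • z + b • w) = a * q z + b * q w := by rw [q_add, q_smul, q_smul]
  refine ⟨?_, ?_, ?_, ?_⟩
  · rw [e1]; nlinarith
  · rw [e1]; nlinarith
  · rw [e2]; positivity
  · rw [e1, e2]; nlinarith

theorem O_convex (i : ℕ) : Convex ℝ (O i) := by
  rintro z ⟨h1, h2, h3, h4⟩ w ⟨k1, k2, k3, k4⟩ a b ha hb hab
  have e1 : (a • z + b • w).re = a * z.re + b * w.re := by simp
  have e2 : q (a • z + b • w) = a * q z + b * q w := by rw [q_add, q_smul, q_smul]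
  rcases ha.lt_or_eq with ha | ha
  · refine ⟨?_, ?_, ?_, ?_⟩
    · rw [e1]; nlinarith
    · rw [e1]; nlinarith
    · rw [e2]; nlinarith [mul_pos ha h3, mul_nonneg hb k3.le]
    · rw [e1, e2]; nlinarith
  · have hb1 : b = 1 := by linarith
    rw [← ha, hb1, zero_smul, one_smul, zero_add]
    exact ⟨k1, k2, k3, k4⟩

theorem C_closed (i : ℕ) : IsClosed (C i) := by
  have : C i = {z : ℂ | (i : ℝ) ≤ z.re} ∩ ({z | z.re ≤ i + 1} ∩ ({z | 0 ≤ q z} ∩ {z | q z ≤ z.re})) := by
    ext z; rfl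
  rw [this]
  exact (isClosed_le continuous_const Complex.continuous_re).inter
    ((isClosed_le Complex.continuous_re continuous_const).inter
    ((isClosed_le continuous_const continuous_q).inter
      (isClosed_le continuous_q Complex.continuous_re)))

theorem O_open (i : ℕ) : IsOpen (O i) := by
  have : O i = {z : ℂ | (i : ℝ) < z.re} ∩ ({z | z.re < i + 1} ∩ ({z | 0 < q z} ∩ {z | q z < z.re})) := by
    ext z; rfl
  rw [this]
  exact (isOpen_lt continuous_const Complex.continuous_re).inter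
    ((isOpen_lt Complex.continuous_re continuous_const).inter
    ((isOpen_lt continuous_const continuous_q).inter
      (isOpen_lt continuous_q Complex.continuous_re)))

theorem O_sub_C (i : ℕ) : O i ⊆ C i := fun _ h => ⟨h.1.le, h.2.1.le, h.2.2.1.le, h.2.2.2.le⟩

/-- a point of the open piece -/
noncomputable def mid (i : ℕ) : ℂ := ⟨i + 1 / 2, (i + 1 / 2) / 2 / Real.sqrt 3⟩

theorem q_mid (i : ℕ) : q (mid i) = (i + 1 / 2) / 2 := by
  unfold q mid
  field_simp

theorem mid_mem (i : ℕ) : mid i ∈ O i := by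
  have hi : (0 : ℝ) ≤ i := by positivity
  refine ⟨?_, ?_, ?_, ?_⟩
  · simp [mid]
  · simp only [mid]; linarith
  · rw [q_mid]; positivity
  · rw [q_mid]; simp only [mid]; linarith

theorem C_sub_closure (i : ℕ) : C i ⊆ closure (O i) := by
  intro z hz
  rw [Metric.mem_closure_iff]
  intro ε hε
  set δ := min 1 (ε / (2 * (‖mid i - z‖ + 1))) with hδ
  have hn := norm_nonneg (mid i - z)
  have hδ0 : 0 < δ := lt_min one_pos (by positivity)
  have hδ1 : δ ≤ 1 := min_le_left _ _
  obtain ⟨h1, h2, h3, h4⟩ := hz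
  obtain ⟨k1, k2, k3, k4⟩ := mid_mem i
  refine ⟨(1 - δ) • z + δ • mid i, ?_, ?_⟩
  · have e1 : ((1 - δ) • z + δ • mid i).re = (1 - δ) * z.re + δ * (mid i).re := by simp
    have e2 : q ((1 - δ) • z + δ • mid i) = (1 - δ) * q z + δ * q (mid i) := by
      rw [q_add, q_smul, q_smul]
    refine ⟨?_, ?_, ?_, ?_⟩
    · rw [e1]; nlinarith
    · rw [e1]; nlinarith
    · rw [e2]; nlinarith [mul_pos hδ0 k3, mul_nonneg (sub_nonneg.2 hδ1) h3]
    · rw [e1, e2]; nlinarith
  · rw [dist_eq_norm]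
    have e3 : z - ((1 - δ) • z + δ • mid i) = -(δ • (mid i - z)) := by
      rw [sub_smul, one_smul, smul_sub]
      ring
    rw [e3, norm_neg, norm_smul, Real.norm_of_nonneg hδ0.le]
    have h5 : δ * (2 * (‖mid i - z‖ + 1)) ≤ ε := by
      have := min_le_right 1 (ε / (2 * (‖mid i - z‖ + 1)))
      rw [← hδ, le_div_iff₀ (by positivity)] at this
      exact this
    nlinarith

theorem null_C_O (i : ℕ) : volume (C i \ O i) = 0 := by
  refine measure_mono_null ?_ ((O_convex i).addHaar_frontier volume)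
  rw [(O_open i).frontier_eq]
  exact sdiff_subset_sdiff_left (C_sub_closure i)

theorem C_bounded (i : ℕ) : Bornology.IsBounded (C i) := by
  refine (isBounded_closedBall (x := (0 : ℂ)) (r := 2 * (i + 1))).subset ?_
  rintro z ⟨h1, h2, h3, h4⟩
  rw [mem_closedBall, dist_zero_right]
  have hi : (0 : ℝ) ≤ i := by positivity
  have h5 : ‖z‖ ^ 2 ≤ (2 * ((i : ℝ) + 1)) ^ 2 := by
    rw [norm_sq_pq]
    nlinarith
  exact le_of_sq_le_sq h5 (by positivity)

theorem isDisk_C (i : ℕ) : IsDisk (C i) := by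
  have hne : (interior (C i)).Nonempty :=
    ⟨mid i, interior_maximal (O_sub_C i) (O_open i) (mid_mem i)⟩
  obtain ⟨h, -, h2, -⟩ :=
    exists_homeomorph_image_interior_closure_frontier_eq_unitBall (C_convex i) hne (C_bounded i)
  rw [(C_closed i).closure_eq] at h2
  exact ⟨C_closed i, ⟨(h.image (C i)).trans (Homeomorph.setCongr h2)⟩⟩

theorem IsDisk.image {D : Set ℂ} (h : IsDisk D) (φ : ℂ ≃ₜ ℂ) : IsDisk (φ '' D) := by
  obtain ⟨h1, ⟨e⟩⟩ := h
  exact ⟨φ.isClosedMap _ h1, ⟨(φ.image D).symm.trans e⟩⟩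

/-! ### Isometries -/

/-- `z ↦ v t x + A g z` -/
noncomputable def iso (t : ℕ) (x : ℤ × ℤ) (g : DihedralGroup 6) : ℂ ≃ᵢ ℂ :=
  (A g).toIsometryEquiv.trans (IsometryEquiv.addLeft (v t x))

theorem iso_apply (t : ℕ) (x : ℤ × ℤ) (g : DihedralGroup 6) (z : ℂ) :
    iso t x g z = v t x + A g z := rfl

theorem null_image (t : ℕ) (x : ℤ × ℤ) (g : DihedralGroup 6) {S : Set ℂ} (h : volume S = 0) :
    volume (iso t x g '' S) = 0 := by
  apply addHaar_image_eq_zero_of_differentiableOn_of_addHaar_eq_zero volume _ h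
  have h1 : Differentiable ℝ (fun z : ℂ => v t x + A g z) :=
    (A g).toContinuousLinearEquiv.differentiable.const_add _
  exact h1.differentiableOn

/-! ### The tiles -/

/-- the lattice vector used for the piece `i` -/
def W (i : ℕ) : ℤ × ℤ := (2 * (i + 1), i + 1)

/-- the component with index `(g, i)` of the tile with index `x` -/
noncomputable def comp (t : ℕ) (x : ℤ × ℤ) (g : DihedralGroup 6) (i : ℕ) : Set ℂ :=
  (fun z => v t x + A g (v t (W i) + z)) '' C i

/-- the tile with index `x` -/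
noncomputable def tile (t : ℕ) (x : ℤ × ℤ) : Set ℂ :=
  ⋃ g : DihedralGroup 6, ⋃ i : Fin t, comp t x g i

theorem comp_eq_cell (t : ℕ) (g : DihedralGroup 6) (i : ℕ) :
    ∃ w : ℤ × ℤ, (∀ x, comp t x g i = iso t (x + w) g '' C i) := by
  obtain ⟨w, hw⟩ := A_v t g (W i)
  refine ⟨w, fun x => ?_⟩
  apply image_congr
  intro z _
  rw [iso_apply, v_add, map_add, hw, add_assoc]

end Pool.Agent.Q146.Cls
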