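import Pool.Agent.Q146.Cls3

/-!
# `t`-class `12 t`-component tilings: proof of the properties
-/

set_option autoImplicit false
set_option linter.unusedSimpArgs false

open Set Metric MeasureTheory

namespace Pool.Agent.Q146.Cls

theorem comp_disj {t : ℕ} (x : ℤ × ℤ) {g g' : DihedralGroup 6} {i i' : ℕ}
    (hi : i < t) {u : ℂ} (hu : u ∈ comp t x g i) (hu' : u ∈ comp t x g' i') :
    g = g' ∧ i = i' := by
  have ht : (1 : ℝ) ≤ t := by
    have : 1 ≤ t := by omega
    exact_mod_cast this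
  obtain ⟨z, ⟨a1, a2, a3, a4⟩, rfl⟩ := hu
  obtain ⟨z', ⟨b1, b2, b3, b4⟩, h⟩ := hu'
  have h1 : A g' (v t (W i') + z') = A g (v t (W i) + z) := add_left_cancel h
  have hr : ∀ i : ℕ, ∀ z : ℂ, (v t (W i) + z).re = 5 * t * (i + 1) + z.re := by
    intro i z
    rw [Complex.add_re, v_re, W]
    push_cast
    ring
  have hq : ∀ i : ℕ, ∀ z : ℂ, q (v t (W i) + z) = 3 * t * (i + 1) + q z := by
    intro i z
    rw [q_add, v_q, W]
    push_cast
    ring
  have hi0 : (0 : ℝ) ≤ i := by positivity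
  have hi0' : (0 : ℝ) ≤ i' := by positivity
  have p1 : 0 < (t : ℝ) * (i + 1) := by positivity
  have p2 : 0 < (t : ℝ) * (i' + 1) := by positivity
  have h2 : A (g⁻¹ * g') (v t (W i') + z') = v t (W i) + z := by rw [A_mul, h1, A_inv]
  have h3 : g⁻¹ * g' = 1 := free (z := v t (W i') + z') (by rw [hq]; nlinarith)
    (by rw [hq, hr]; nlinarith) (by rw [h2, hq]; nlinarith) (by rw [h2, hq, hr]; nlinarith)
  refine ⟨inv_mul_eq_one.1 h3, ?_⟩
  rw [h3, A_one] at h2
  have h4 := congrArg Complex.re h2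
  rw [hr, hr] at h4
  rcases lt_trichotomy i i' with h | h | h
  · exfalso
    have h5 : (i : ℝ) + 1 ≤ i' := by exact_mod_cast h
    nlinarith
  · exact h
  · exfalso
    have h5 : (i' : ℝ) + 1 ≤ i := by exact_mod_cast h
    nlinarith

theorem C_nonempty (i : ℕ) : (C i).Nonempty := ⟨mid i, O_sub_C i (mid_mem i)⟩

theorem comp_nonempty (t : ℕ) (x : ℤ × ℤ) (g : DihedralGroup 6) (i : ℕ) :
    (comp t x g i).Nonempty := (C_nonempty i).image _

theorem comp_inj {t : ℕ} (x : ℤ × ℤ) {g g' : DihedralGroup 6} {i i' : ℕ}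
    (hi : i < t) (h : comp t x g i = comp t x g' i') : g = g' ∧ i = i' := by
  obtain ⟨u, hu⟩ := comp_nonempty t x g i
  exact comp_disj x hi hu (h ▸ hu)

theorem comp_isDisk (t : ℕ) (x : ℤ × ℤ) (g : DihedralGroup 6) (i : ℕ) :
    IsDisk (comp t x g i) := by
  obtain ⟨w, hw⟩ := comp_eq_cell t g i
  rw [hw]
  exact (isDisk_C i).image (iso t (x + w) g).toHomeomorph

theorem tile_closed (t : ℕ) (x : ℤ × ℤ) : IsClosed (tile t x) :=
  isClosed_iUnion_of_finite fun g => isClosed_iUnion_of_finite fun i => (comp_isDisk t x g i).1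

theorem tile_nonempty {t : ℕ} (ht : 0 < t) (x : ℤ × ℤ) : (tile t x).Nonempty := by
  obtain ⟨u, hu⟩ := comp_nonempty t x 1 0
  exact ⟨u, mem_iUnion₂.2 ⟨1, ⟨0, ht⟩, hu⟩⟩

theorem iso_comp (t : ℕ) {x w : ℤ × ℤ} (y : ℤ × ℤ) {h : DihedralGroup 6}
    (hw : A h (v t x) = v t w) (g : DihedralGroup 6) (i : ℕ) :
    iso t y h '' comp t x g i = comp t (y + w) (h * g) i := by
  unfold comp
  rw [image_image]
  apply image_congr
  intro z _
  rw [iso_apply, map_add, hw, v_add, A_mul, add_assoc]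

theorem iso_tile (t : ℕ) {x w : ℤ × ℤ} (y : ℤ × ℤ) {h : DihedralGroup 6}
    (hw : A h (v t x) = v t w) : iso t y h '' tile t x = tile t (y + w) := by
  unfold tile
  rw [image_iUnion]
  simp only [image_iUnion, iso_comp t y hw]
  exact (Equiv.mulLeft h).surjective.iUnion_comp (fun g => ⋃ i : Fin t, comp t (y + w) g i)

/-- the tiling -/
def tiling (t : ℕ) : Set (Set ℂ) := range (tile t)

theorem isSymm_iso (t : ℕ) (y : ℤ × ℤ) (h : DihedralGroup 6) : IsSymm (tiling t) (iso t y h) := by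
  unfold IsSymm tiling
  ext T
  constructor
  · rintro ⟨_, ⟨x, rfl⟩, rfl⟩
    obtain ⟨w, hw⟩ := A_v t h x
    exact ⟨y + w, (iso_tile t y hw).symm⟩
  · rintro ⟨z, rfl⟩
    obtain ⟨x, hx⟩ := A_v t h⁻¹ (z - y)
    have hw : A h (v t x) = v t (z - y) := by rw [← hx, A_inv']
    exact ⟨tile t x, ⟨x, rfl⟩, by
      change iso t y h '' tile t x = _
      rw [iso_tile t y hw, add_sub_cancel]⟩

theorem comp_inter_null {t : ℕ} {x x' : ℤ × ℤ} (hx : x ≠ x')
    (g g' : DihedralGroup 6) {i i' : ℕ} (hi : i < t) (hi' : i' < t) :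
    volume (comp t x g i ∩ comp t x' g' i') = 0 := by
  choose w hw using comp_eq_cell t
  rw [hw, hw]
  refine measure_mono_null (t := iso t (x + w g i) g '' (C i \ O i) ∪
    iso t (x' + w g' i') g' '' (C i' \ O i')) ?_
    (measure_union_null (null_image _ _ _ (null_C_O i)) (null_image _ _ _ (null_C_O i')))
  rintro u ⟨⟨z, hz, rfl⟩, ⟨z', hz', h⟩⟩
  by_cases h1 : z ∈ O i
  · by_cases h2 : z' ∈ O i'
    · exfalso
      rw [iso_apply, iso_apply] at h
      obtain ⟨e1, e2, e3⟩ := O_disj hi hi' h1 h2 h.symm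
      subst e2
      subst e3
      exact hx (add_right_cancel e1)
    · exact Or.inr ⟨z', ⟨hz', h2⟩, h⟩
  · exact Or.inl ⟨z, ⟨hz, h1⟩, rfl⟩

theorem interior_disj {t : ℕ} {x x' : ℤ × ℤ} (hx : x ≠ x') :
    Disjoint (interior (tile t x)) (interior (tile t x')) := by
  rw [disjoint_iff_inter_eq_empty]
  rw [← (isOpen_interior.inter isOpen_interior).measure_eq_zero_iff volume]
  refine measure_mono_null (inter_subset_inter interior_subset interior_subset) ?_
  have hsub : tile t x ∩ tile t x' ⊆ ⋃ g : DihedralGroup 6, ⋃ i : Fin t,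
      ⋃ g' : DihedralGroup 6, ⋃ i' : Fin t, comp t x g i ∩ comp t x' g' i' := by
    rintro u ⟨h1, h2⟩
    obtain ⟨g, i, h1⟩ := mem_iUnion₂.1 h1
    obtain ⟨g', i', h2⟩ := mem_iUnion₂.1 h2
    simp only [mem_iUnion]
    exact ⟨g, i, g', i', h1, h2⟩
  refine measure_mono_null hsub ?_
  rw [measure_iUnion_null_iff]
  intro g
  rw [measure_iUnion_null_iff]
  intro i
  rw [measure_iUnion_null_iff]
  intro g'
  rw [measure_iUnion_null_iff]
  intro i'
  exact comp_inter_null hx g g' i.2 i'.2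

theorem tile_inj {t : ℕ} (ht : 0 < t) {x x' : ℤ × ℤ} (h : tile t x = tile t x') : x = x' := by
  by_contra hne
  have h1 := interior_disj (t := t) hne
  rw [h, disjoint_self] at h1
  obtain ⟨w, hw⟩ := comp_eq_cell t 1 0
  have h2 : (iso t (x' + w) 1).toHomeomorph '' O 0 ⊆ interior (tile t x') := by
    refine interior_maximal ?_ ((iso t (x' + w) 1).toHomeomorph.isOpenMap _ (O_open 0))
    refine (image_mono (O_sub_C 0)).trans ?_
    have h3 : (iso t (x' + w) 1).toHomeomorph '' C 0 = comp t x' 1 0 := (hw x').symm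
    rw [h3]
    exact subset_iUnion₂_of_subset 1 ⟨0, ht⟩ le_rfl
  have h3 : ((iso t (x' + w) 1).toHomeomorph '' O 0).Nonempty := ⟨_, ⟨_, mid_mem 0, rfl⟩⟩
  have h4 : interior (tile t x') = ∅ := h1
  rw [h4] at h2
  exact h3.ne_empty (subset_empty_iff.1 h2)

theorem isTiling {t : ℕ} (ht : 0 < t) : IsTiling (tiling t) where
  countable := countable_range _
  closed := by
    rintro _ ⟨x, rfl⟩
    exact tile_closed t x
  cover := by
    rw [eq_univ_iff_forall]
    intro u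
    obtain ⟨y, g, i, hi, z, hz, hu⟩ := cover ht u
    choose w hw using comp_eq_cell t
    refine ⟨tile t (y - w g i), ⟨_, rfl⟩, mem_iUnion₂.2 ⟨g, ⟨i, hi⟩, ?_⟩⟩
    rw [hw, sub_add_cancel]
    exact ⟨z, hz, hu.symm⟩
  disjoint := by
    rintro _ ⟨x, rfl⟩ _ ⟨x', rfl⟩ hne
    exact interior_disj fun h => hne (by rw [h])

theorem isIsohedral (t : ℕ) : IsIsohedral (tiling t) := by
  rintro _ ⟨x, rfl⟩ _ ⟨x', rfl⟩
  refine ⟨iso t (x' - x) 1, isSymm_iso _ _ _, ?_⟩
  rw [iso_tile t (x' - x) (A_one (v t x)), sub_add_cancel]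

/-! ### The classes -/

theorem diam_C (i : ℕ) : Metric.diam (C i) = Real.sqrt (1 + (i + 1) ^ 2 / 3) := by
  apply le_antisymm
  · apply Metric.diam_le_of_forall_dist_le (Real.sqrt_nonneg _)
    rintro z ⟨h1, h2, h3, h4⟩ w ⟨k1, k2, k3, k4⟩
    apply Real.le_sqrt_of_sq_le
    rw [dist_eq_norm, norm_sq_pq, Complex.sub_re, q_sub]
    have e1 : (z.re - w.re) ^ 2 ≤ 1 ^ 2 := by
      apply sq_le_sq'
      · linarith
      · linarith
    have e2 : (q z - q w) ^ 2 ≤ ((i : ℝ) + 1) ^ 2 := by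
      apply sq_le_sq'
      · linarith
      · linarith
    linarith
  · have hi : (0 : ℝ) ≤ i := by positivity
    let z : ℂ := ⟨i + 1, (i + 1) / Real.sqrt 3⟩
    let w : ℂ := ⟨i, 0⟩
    have hqz : q z = i + 1 := by
      simp only [q, z]
      field_simp
    have hqw : q w = 0 := by simp [q, w]
    have hz : z ∈ C i := ⟨by simp only [z]; linarith, le_rfl, by rw [hqz]; positivity,
      by rw [hqz]⟩
    have hw : w ∈ C i := ⟨le_rfl, by simp only [w]; linarith, by rw [hqw],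
      by rw [hqw]; exact hi⟩
    have h1 := Metric.dist_le_diam_of_mem (C_bounded i) hz hw
    refine le_trans (le_of_eq ?_) h1
    rw [Real.sqrt_eq_iff_mul_self_eq (by positivity) dist_nonneg, ← sq, dist_eq_norm, norm_sq_pq,
      Complex.sub_re, q_sub, hqz, hqw]
    simp only [z, w]
    ring

theorem diam_comp (t : ℕ) (x : ℤ × ℤ) (g : DihedralGroup 6) (i : ℕ) :
    Metric.diam (comp t x g i) = Real.sqrt (1 + (i + 1) ^ 2 / 3) := by
  obtain ⟨w, hw⟩ := comp_eq_cell t g i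
  rw [hw, (iso t (x + w) g).isometry.diam_image, diam_C]

theorem equiv_index {t : ℕ} {x : ℤ × ℤ} {g g' : DihedralGroup 6} {i i' : ℕ} (σ : ℂ ≃ᵢ ℂ)
    (h : σ '' comp t x g i = comp t x g' i') : i = i' := by
  have h1 := σ.isometry.diam_image (comp t x g i)
  rw [h, diam_comp, diam_comp, Real.sqrt_inj (by positivity) (by positivity)] at h1
  have h2 : ((i' : ℝ) + 1) ^ 2 = (i + 1) ^ 2 := by linarith
  have h3 : (i' : ℝ) + 1 = i + 1 := by
    rwa [sq_eq_sq₀ (by positivity) (by positivity)] at h2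
  have h4 : (i' : ℝ) = i := by linarith
  exact (by exact_mod_cast h4.symm : i = i')

theorem equivalent_iff {t : ℕ} (x : ℤ × ℤ) (g g' : DihedralGroup 6) {i i' : ℕ} :
    Equivalent (tiling t) (tile t x) (comp t x g i) (comp t x g' i') ↔ i = i' := by
  constructor
  · rintro ⟨σ, -, -, h⟩
    exact equiv_index σ h
  · rintro rfl
    obtain ⟨w, hw⟩ := A_v t (g' * g⁻¹) x
    refine ⟨iso t (x - w) (g' * g⁻¹), isSymm_iso _ _ _, ?_, ?_⟩
    · rw [iso_tile t (x - w) hw, sub_add_cancel]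
    · rw [iso_comp t (x - w) hw, sub_add_cancel, inv_mul_cancel_right]

theorem isClassTiling {t : ℕ} (ht : 0 < t) : IsClassTiling t (12 * t) (tiling t) := by
  refine ⟨isTiling ht, isIsohedral t, ?_⟩
  rintro _ ⟨x, rfl⟩
  let F : DihedralGroup 6 × Fin t → Set ℂ := fun p => comp t x p.1 p.2
  have hF : Function.Injective F := by
    rintro ⟨g, i⟩ ⟨g', i'⟩ h
    obtain ⟨h1, h2⟩ := comp_inj x i.2 h
    exact Prod.ext h1 (Fin.ext h2)
  refine ⟨range F, ⟨?_, ?_, ?_⟩, finite_range F, ?_, ?_⟩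
  · rintro _ ⟨p, rfl⟩
    exact comp_isDisk t x _ _
  · rintro _ ⟨p, rfl⟩ _ ⟨p', rfl⟩ hne
    change Disjoint (F p) (F p')
    rw [Set.disjoint_left]
    intro u hu hu'
    obtain ⟨h1, h2⟩ := comp_disj x p.2.2 hu hu'
    exact hne (congrArg F (Prod.ext h1 (Fin.ext h2)))
  · ext u
    constructor
    · rintro ⟨_, ⟨p, rfl⟩, hu⟩
      exact mem_iUnion₂.2 ⟨p.1, p.2, hu⟩
    · intro hu
      obtain ⟨g, i, hu⟩ := mem_iUnion₂.1 hu
      exact ⟨F (g, i), ⟨(g, i), rfl⟩, hu⟩
  · rw [← image_univ, ncard_image_of_injective _ hF, ncard_univ, Nat.card_prod,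
      Nat.card_eq_fintype_card, DihedralGroup.card, Nat.card_eq_fintype_card, Fintype.card_fin]
  · let H : Fin t → Set (Set ℂ) := fun i => range fun g => comp t x g i
    have hH : Function.Injective H := by
      intro i j h
      have h1 : comp t x 1 i ∈ H j := h ▸ (⟨1, rfl⟩ : comp t x 1 i ∈ H i)
      obtain ⟨g, hg⟩ := h1
      exact Fin.ext (comp_inj x i.2 hg.symm).2
    have hset : {𝒟 : Set (Set ℂ) | ∃ D ∈ range F,
        𝒟 = {D' ∈ range F | Equivalent (tiling t) (tile t x) D D'}} = range H := by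
      have key : ∀ (g : DihedralGroup 6) (i : Fin t),
          {D' ∈ range F | Equivalent (tiling t) (tile t x) (comp t x g i) D'} = H i := by
        intro g i
        ext D'
        constructor
        · rintro ⟨⟨⟨g', i'⟩, rfl⟩, h⟩
          have h1 : i = i' := Fin.ext ((equivalent_iff x g g').1 h)
          subst h1
          exact ⟨g', rfl⟩
        · rintro ⟨g', rfl⟩
          exact ⟨⟨(g', i), rfl⟩, (equivalent_iff x g g').2 rfl⟩
      ext 𝒟
      constructor
      · rintro ⟨_, ⟨⟨g, i⟩, rfl⟩, rfl⟩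
        exact ⟨i, (key g i).symm⟩
      · rintro ⟨i, rfl⟩
        exact ⟨F (1, i), ⟨_, rfl⟩, (key 1 i).symm⟩
    rw [hset, ← image_univ, ncard_image_of_injective _ hH, ncard_univ, Nat.card_eq_fintype_card,
      Fintype.card_fin]

end Pool.Agent.Q146.Cls
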