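import Mathlib

/-!
# Isohedral tilings with multi-component tiles: definitions
-/

set_option autoImplicit false

open Set Metric

namespace Pool.Agent.Q146.Cls

/-- A tiling of the Euclidean plane: a countable family of closed sets (tiles) whose union is the
plane and whose interiors are pairwise disjoint. -/
structure IsTiling (𝒯 : Set (Set ℂ)) : Prop where
  countable : 𝒯.Countable
  closed : ∀ T ∈ 𝒯, IsClosed T
  cover : ⋃₀ 𝒯 = univ
  disjoint : ∀ T ∈ 𝒯, ∀ T' ∈ 𝒯, T ≠ T' → Disjoint (interior T) (interior T')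

/-- `σ` is a symmetry of the family `𝒯`: an isometry of the plane mapping `𝒯` onto itself. -/
def IsSymm (𝒯 : Set (Set ℂ)) (σ : ℂ ≃ᵢ ℂ) : Prop := (fun T => σ '' T) '' 𝒯 = 𝒯

/-- The symmetries act transitively on the tiles. -/
def IsIsohedral (𝒯 : Set (Set ℂ)) : Prop :=
  ∀ T ∈ 𝒯, ∀ T' ∈ 𝒯, ∃ σ : ℂ ≃ᵢ ℂ, IsSymm 𝒯 σ ∧ σ '' T = T'

/-- A closed topological disk. -/
def IsDisk (D : Set ℂ) : Prop := IsClosed D ∧ Nonempty (D ≃ₜ closedBall (0 : ℂ) 1)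

/-- `𝒞` is the family of the components of `T`: pairwise disjoint closed topological disks with
union `T`. -/
def IsComponents (T : Set ℂ) (𝒞 : Set (Set ℂ)) : Prop :=
  (∀ D ∈ 𝒞, IsDisk D) ∧ 𝒞.PairwiseDisjoint id ∧ ⋃₀ 𝒞 = T

/-- Two components `D`, `D'` of the tile `T` are equivalent if an element of the induced tile
group `S(𝒯 | T)` (a symmetry of `𝒯` mapping `T` onto itself) maps `D` onto `D'`. -/
def Equivalent (𝒯 : Set (Set ℂ)) (T D D' : Set ℂ) : Prop :=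
  ∃ σ : ℂ ≃ᵢ ℂ, IsSymm 𝒯 σ ∧ σ '' T = T ∧ σ '' D = D'

/-- `𝒯` is a `t`-class `k`-component tiling: an isohedral tiling whose tiles have exactly `k`
components, which fall into exactly `t` equivalence classes. -/
def IsClassTiling (t k : ℕ) (𝒯 : Set (Set ℂ)) : Prop :=
  IsTiling 𝒯 ∧ IsIsohedral 𝒯 ∧ ∀ T ∈ 𝒯, ∃ 𝒞 : Set (Set ℂ), IsComponents T 𝒞 ∧
    𝒞.Finite ∧ 𝒞.ncard = k ∧
    {𝒟 : Set (Set ℂ) | ∃ D ∈ 𝒞, 𝒟 = {D' ∈ 𝒞 | Equivalent 𝒯 T D D'}}.ncard = t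

end Pool.Agent.Q146.Cls
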