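import Pool.Agent.Q146.CovVal

/-!
# The covering radii: asymptotics
-/

set_option autoImplicit false

open Metric Set MeasureTheory

namespace Pool.Agent.Q146.CovConn

/-- the area of the plane per disc in the thinnest covering with unit discs, divided by `π` -/
noncomputable def kap : ℝ := 3 * Real.sqrt 3 / (2 * Real.pi)

theorem kap_pos : 0 < kap := by
  have := Real.pi_pos
  unfold kap
  positivity

theorem rho_upper (m : ℕ) : rho m ≤ 1 + Real.sqrt (kap * (m + 1)) := by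
  classical
  obtain ⟨y, hy⟩ := cov_rho m
  set r := rho m - 1 with hr
  have hr0 : 0 ≤ r := by linarith [one_le_rho m]
  set F : Finset Plane := insert 0 (Finset.univ.image y) with hF
  have hcard : F.card ≤ m + 1 := by
    refine (Finset.card_insert_le _ _).trans ?_
    have := Finset.card_image_le (s := (Finset.univ : Finset (Fin m))) (f := y)
    rw [Finset.card_univ, Fintype.card_fin] at this
    omega
  have h := Pool.Agent.Helper658.kershner_finite F r 1 one_pos hr0 (by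
    intro c hc
    have hc' : c ∈ closedBall (0 : Plane) (rho m) := by
      rw [hr] at hc
      simpa using hc
    rcases hy hc' with h1 | h1
    · exact ⟨0, Finset.mem_insert_self _ _, by rw [dist_comm]; exact h1⟩
    · obtain ⟨i, hi⟩ := mem_iUnion.1 h1
      exact ⟨y i, Finset.mem_insert_of_mem (Finset.mem_image_of_mem _ (Finset.mem_univ _)),
        by rw [dist_comm]; exact hi⟩)
  rw [vol_cb _ _ hr0, ← ENNReal.ofReal_natCast, ← ENNReal.ofReal_mul (by positivity),
    ENNReal.ofReal_le_ofReal_iff (by positivity)] at h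
  push_cast at h
  have hF' : (F.card : ℝ) ≤ m + 1 := by exact_mod_cast hcard
  have hpi := Real.pi_pos
  have h3 : 0 < Real.sqrt 3 := by positivity
  have h1 : r ^ 2 ≤ kap * (m + 1) := by
    have h2 : Real.pi * r ^ 2 ≤ 2 * (m + 1) * (3 * Real.sqrt 3 / 4) := by nlinarith
    have h4 : kap * (m + 1) = (2 * (m + 1) * (3 * Real.sqrt 3 / 4)) / Real.pi := by
      unfold kap
      field_simp
      ring
    rw [h4, le_div_iff₀ hpi]
    linarith
  have := Real.le_sqrt_of_sq_le h1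
  linarith

/-! ### The hexagonal lattice -/

/-- the points of the hexagonal lattice -/
noncomputable def hx (p : ℤ × ℤ) : Plane := !₂[Real.sqrt 3 * (p.1 + p.2 / 2), 3 / 2 * p.2]

theorem hx_cover (x : Plane) : ∃ p : ℤ × ℤ, dist x (hx p) ≤ 1 := by
  set b := x 1 / (3 / 2) with hb
  set a := x 0 / Real.sqrt 3 - b / 2 with ha
  have h3 : Real.sqrt 3 ^ 2 = 3 := Real.sq_sqrt (by norm_num)
  have h3' : 0 < Real.sqrt 3 := by positivity
  have hx0 : x 0 = Real.sqrt 3 * (a + b / 2) := by rw [ha]; field_simp; ring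
  have hx1 : x 1 = 3 / 2 * b := by rw [hb]; field_simp
  set f := Int.fract a with hf
  set g := Int.fract b with hg
  have hf0 := Int.fract_nonneg a
  have hf1 := (Int.fract_lt_one a).le
  have hg0 := Int.fract_nonneg b
  have hg1 := (Int.fract_lt_one b).le
  have hae : a = ⌊a⌋ + f := (Int.floor_add_fract a).symm
  have hbe : b = ⌊b⌋ + g := (Int.floor_add_fract b).symm
  have key : ∀ (i j : ℤ), (f - i) ^ 2 + (f - i) * (g - j) + (g - j) ^ 2 ≤ 1 / 3 →
      dist x (hx (⌊a⌋ + i, ⌊b⌋ + j)) ≤ 1 := by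
    intro i j hij
    have h1 : dist x (hx (⌊a⌋ + i, ⌊b⌋ + j)) ^ 2 ≤ 1 := by
      rw [EuclideanSpace.dist_eq, Real.sq_sqrt (by positivity), Fin.sum_univ_two]
      simp only [hx, Real.dist_eq, sq_abs]
      have e0 : x 0 - Real.sqrt 3 * (((⌊a⌋ + i : ℤ) : ℝ) + ((⌊b⌋ + j : ℤ) : ℝ) / 2) =
          Real.sqrt 3 * ((f - i) + (g - j) / 2) := by
        rw [hx0]
        nth_rewrite 1 [hae]
        nth_rewrite 1 [hbe]
        push_cast
        ring
      have e1 : x 1 - 3 / 2 * ((⌊b⌋ + j : ℤ) : ℝ) = 3 / 2 * (g - j) := by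
        rw [hx1]
        nth_rewrite 1 [hbe]
        push_cast
        ring
      have e2 : (x 0 - (!₂[Real.sqrt 3 * (((⌊a⌋ + i : ℤ) : ℝ) + ((⌊b⌋ + j : ℤ) : ℝ) / 2),
          3 / 2 * ((⌊b⌋ + j : ℤ) : ℝ)] : Plane) 0) = Real.sqrt 3 * ((f - i) + (g - j) / 2) := e0
      have e3 : (x 1 - (!₂[Real.sqrt 3 * (((⌊a⌋ + i : ℤ) : ℝ) + ((⌊b⌋ + j : ℤ) : ℝ) / 2),
          3 / 2 * ((⌊b⌋ + j : ℤ) : ℝ)] : Plane) 1) = 3 / 2 * (g - j) := e1
      rw [e2, e3, mul_pow, h3]
      nlinarith
    nlinarith [dist_nonneg (x := x) (y := hx (⌊a⌋ + i, ⌊b⌋ + j))]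
  -- three points in barycentric coordinates
  have tri : ∀ u v w : ℝ, 0 ≤ u → 0 ≤ v → 0 ≤ w → u + v + w = 1 →
      u ^ 2 + u * v + v ^ 2 ≤ 1 / 3 ∨ v ^ 2 + v * w + w ^ 2 ≤ 1 / 3 ∨
        u ^ 2 + u * w + w ^ 2 ≤ 1 / 3 := by
    have aux : ∀ u v w : ℝ, 0 ≤ u → 0 ≤ v → u ≤ w → v ≤ w → u + v + w = 1 →
        u ^ 2 + u * v + v ^ 2 ≤ 1 / 3 := by
      intro u v w hu hv huw hvw h
      have hw : w = 1 - u - v := by linarith
      rcases le_total u v with h1 | h1
      · nlinarith [mul_nonneg (sub_nonneg.2 h1) hu, mul_nonneg (sub_nonneg.2 hvw) hu,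
          mul_nonneg (sub_nonneg.2 hvw) hv, mul_nonneg (sub_nonneg.2 h1) hv,
          mul_nonneg (sub_nonneg.2 hvw) (sub_nonneg.2 hvw)]
      · nlinarith [mul_nonneg (sub_nonneg.2 h1) hv, mul_nonneg (sub_nonneg.2 huw) hu,
          mul_nonneg (sub_nonneg.2 huw) hv, mul_nonneg (sub_nonneg.2 h1) hu,
          mul_nonneg (sub_nonneg.2 huw) (sub_nonneg.2 huw)]
    intro u v w hu hv hw h
    rcases le_total u v with h1 | h1
    · rcases le_total v w with h2 | h2
      · exact Or.inl (aux u v w hu hv (h1.trans h2) h2 h)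
      · exact Or.inr (Or.inr (aux u w v hu hw h1 h2 (by linarith)))
    · rcases le_total u w with h2 | h2
      · exact Or.inl (aux u v w hu hv h2 (h1.trans h2) h)
      · exact Or.inr (Or.inl (aux v w u hv hw h1 h2 (by linarith)))
  rcases le_total (f + g) 1 with hfg | hfg
  · rcases tri f g (1 - f - g) hf0 hg0 (by linarith) (by ring) with h | h | h
    · exact ⟨_, key 0 0 (by push_cast; linarith)⟩
    · exact ⟨_, key 1 0 (by push_cast; nlinarith)⟩
    · exact ⟨_, key 0 1 (by push_cast; nlinarith)⟩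
  · rcases tri (1 - f) (1 - g) (f + g - 1) (by linarith) (by linarith) (by linarith)
      (by ring) with h | h | h
    · exact ⟨_, key 1 1 (by push_cast; nlinarith)⟩
    · exact ⟨_, key 0 1 (by push_cast; nlinarith)⟩
    · exact ⟨_, key 1 0 (by push_cast; nlinarith)⟩

/-- the rectangle to the upper right of a lattice point -/
noncomputable def rect (p : ℤ × ℤ) : Set Plane :=
  (WithLp.ofLp) ⁻¹' (Set.univ.pi fun i => Ico (hx p i) (hx p i + (![Real.sqrt 3, 3 / 2] : Fin 2 → ℝ) i))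

theorem mem_rect (p : ℤ × ℤ) (x : Plane) : x ∈ rect p ↔
    (Real.sqrt 3 * (p.1 + p.2 / 2) ≤ x 0 ∧ x 0 < Real.sqrt 3 * (p.1 + p.2 / 2) + Real.sqrt 3) ∧
    (3 / 2 * (p.2 : ℝ) ≤ x 1 ∧ x 1 < 3 / 2 * (p.2 : ℝ) + 3 / 2) := by
  constructor
  · intro hm
    have h : ∀ i, i ∈ (univ : Set (Fin 2)) → x i ∈
      Ico (hx p i) (hx p i + (![Real.sqrt 3, 3 / 2] : Fin 2 → ℝ) i) := hm
    exact ⟨h 0 (mem_univ _), h 1 (mem_univ _)⟩
  · rintro ⟨h0, h1⟩ i _
    fin_cases i
    · exact h0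
    · exact h1

theorem rect_meas (p : ℤ × ℤ) : MeasurableSet (rect p) := by
  unfold rect
  exact (PiLp.volume_preserving_ofLp (Fin 2)).measurable
    (MeasurableSet.univ_pi fun i => measurableSet_Ico)

theorem rect_vol (p : ℤ × ℤ) : volume (rect p) = ENNReal.ofReal (Real.sqrt 3 * (3 / 2)) := by
  unfold rect
  rw [(PiLp.volume_preserving_ofLp (Fin 2)).measure_preimage
    (MeasurableSet.univ_pi fun i => measurableSet_Ico).nullMeasurableSet, Real.volume_pi_Ico]
  rw [Fin.prod_univ_two, ENNReal.ofReal_mul (by positivity)]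
  simp

theorem rect_disj : Pairwise (Function.onFun Disjoint rect) := by
  intro p q hpq
  rw [Function.onFun, Set.disjoint_left]
  intro x hx hy
  apply hpq
  rw [mem_rect] at hx hy
  obtain ⟨⟨a1, a2⟩, ⟨a3, a4⟩⟩ := hx
  obtain ⟨⟨b1, b2⟩, ⟨b3, b4⟩⟩ := hy
  have h2 : p.2 = q.2 := by
    have h1 : (p.2 : ℝ) < q.2 + 1 := by linarith
    have h2 : (q.2 : ℝ) < p.2 + 1 := by linarith
    have h3 : p.2 < q.2 + 1 := by exact_mod_cast h1
    have h4 : q.2 < p.2 + 1 := by exact_mod_cast h2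
    omega
  have h3 : 0 < Real.sqrt 3 := by positivity
  have h1 : p.1 = q.1 := by
    rw [h2] at a1 a2
    have h1 : (p.1 : ℝ) < q.1 + 1 := by
      have : Real.sqrt 3 * (p.1 : ℝ) < Real.sqrt 3 * (q.1 + 1) := by linarith
      exact lt_of_mul_lt_mul_left this h3.le
    have h2 : (q.1 : ℝ) < p.1 + 1 := by
      have : Real.sqrt 3 * (q.1 : ℝ) < Real.sqrt 3 * (p.1 + 1) := by linarith
      exact lt_of_mul_lt_mul_left this h3.le
    have h3 : p.1 < q.1 + 1 := by exact_mod_cast h1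
    have h4 : q.1 < p.1 + 1 := by exact_mod_cast h2
    omega
  exact Prod.ext h1 h2

theorem rect_sub (p : ℤ × ℤ) (r : ℝ) (hp : ‖hx p‖ ≤ r) :
    rect p ⊆ closedBall (0 : Plane) (r + 5 / 2) := by
  intro x hx'
  rw [mem_rect] at hx'
  obtain ⟨⟨a1, a2⟩, ⟨a3, a4⟩⟩ := hx'
  rw [mem_closedBall]
  have h1 : dist x (hx p) ≤ 5 / 2 := by
    have h2 : dist x (hx p) ^ 2 ≤ (5 / 2) ^ 2 := by
      rw [EuclideanSpace.dist_eq, Real.sq_sqrt (by positivity), Fin.sum_univ_two]
      simp only [Real.dist_eq, sq_abs]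
      have e0 : hx p 0 = Real.sqrt 3 * (p.1 + p.2 / 2) := rfl
      have e1 : hx p 1 = 3 / 2 * (p.2 : ℝ) := rfl
      rw [e0, e1]
      have h3 : Real.sqrt 3 ^ 2 = 3 := Real.sq_sqrt (by norm_num)
      have h4 : (x 0 - Real.sqrt 3 * (p.1 + p.2 / 2)) ^ 2 ≤ Real.sqrt 3 ^ 2 := by
        apply pow_le_pow_left₀ <;> linarith
      have h5 : (x 1 - 3 / 2 * (p.2 : ℝ)) ^ 2 ≤ (3 / 2) ^ 2 := by
        apply pow_le_pow_left₀ <;> linarith
      linarith
    exact le_of_sq_le_sq h2 (by norm_num)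
  have h2 := dist_triangle x (hx p) 0
  rw [dist_zero_right (hx p)] at h2
  linarith

theorem hx_zero : hx (0, 0) = 0 := by
  ext i
  fin_cases i <;> simp [hx]

theorem cov_of_count {m : ℕ} {s : ℝ} (hs : 0 ≤ s)
    (h : Real.pi * (s + 1 + 5 / 2) ^ 2 ≤ (m + 1) * (Real.sqrt 3 * (3 / 2))) : Cov m s := by
  classical
  set L : Set (ℤ × ℤ) := {p | ‖hx p‖ ≤ s + 1} with hL
  have hpos : 0 < Real.sqrt 3 * (3 / 2) := by positivity
  have hcount : (L.encard : ENNReal) * ENNReal.ofReal (Real.sqrt 3 * (3 / 2)) ≤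
      ENNReal.ofReal ((m + 1) * (Real.sqrt 3 * (3 / 2))) := by
    have h1 : volume (⋃ p : L, rect p.1) = ∑' p : L, volume (rect p.1) := by
      refine measure_iUnion ?_ fun p => rect_meas _
      intro p q hpq
      exact rect_disj fun h => hpq (Subtype.ext h)
    have h2 : volume (⋃ p : L, rect p.1) ≤ volume (closedBall (0 : Plane) (s + 1 + 5 / 2)) :=
      measure_mono (iUnion_subset fun p => rect_sub _ _ p.2)
    rw [h1] at h2
    simp only [rect_vol] at h2
    rw [ENNReal.tsum_const, vol_cb _ _ (by linarith)] at h2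
    exact h2.trans (ENNReal.ofReal_le_ofReal h)
  have hfin : L.Finite := by
    by_contra hinf
    have : L.encard = ⊤ := Set.encard_eq_top_iff.2 hinf
    rw [this, ENat.toENNReal_top, ENNReal.top_mul (by
      rw [ne_eq, ENNReal.ofReal_eq_zero]; linarith)] at hcount
    exact ENNReal.ofReal_ne_top (top_le_iff.1 hcount)
  have hcard : hfin.toFinset.card ≤ m + 1 := by
    rw [hfin.encard_eq_coe_toFinset_card] at hcount
    have h1 : ((hfin.toFinset.card : ℕ) : ENNReal) * ENNReal.ofReal (Real.sqrt 3 * (3 / 2)) ≤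
        ENNReal.ofReal ((m + 1) * (Real.sqrt 3 * (3 / 2))) := by exact_mod_cast hcount
    rw [← ENNReal.ofReal_natCast, ← ENNReal.ofReal_mul (by positivity),
      ENNReal.ofReal_le_ofReal_iff (by positivity)] at h1
    have h2 := le_of_mul_le_mul_right h1 hpos
    exact_mod_cast h2
  have h0 : ((0, 0) : ℤ × ℤ) ∈ hfin.toFinset := by
    rw [Set.Finite.mem_toFinset]
    change ‖hx (0, 0)‖ ≤ s + 1
    rw [hx_zero, norm_zero]
    linarith
  refine cov_of_finset ((hfin.toFinset.erase (0, 0)).image hx) ?_ fun x hx' => ?_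
  · refine Finset.card_image_le.trans ?_
    rw [Finset.card_erase_of_mem h0]
    omega
  · obtain ⟨p, hp⟩ := hx_cover x
    rw [mem_closedBall, dist_zero_right] at hx'
    by_cases hp0 : p = (0, 0)
    · left
      rw [hp0, hx_zero] at hp
      exact hp
    · right
      refine mem_iUnion₂.2 ⟨hx p, Finset.mem_image_of_mem _ ?_, hp⟩
      rw [Finset.mem_erase, Set.Finite.mem_toFinset]
      refine ⟨hp0, ?_⟩
      change ‖hx p‖ ≤ s + 1
      have h1 := dist_triangle (hx p) x 0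
      rw [dist_zero_right, dist_zero_right, dist_comm] at h1
      linarith

theorem rho_lower (m : ℕ) : Real.sqrt (kap * (m + 1)) - 7 / 2 ≤ rho m := by
  rcases le_or_gt (Real.sqrt (kap * (m + 1)) - 7 / 2) 0 with h | h
  · linarith [one_le_rho m]
  · refine le_rho (cov_of_count h.le ?_)
    have hpi := Real.pi_pos
    have hk := kap_pos
    have h1 : Real.sqrt (kap * (m + 1)) - 7 / 2 + 1 + 5 / 2 = Real.sqrt (kap * (m + 1)) := by ring
    rw [h1, Real.sq_sqrt (by positivity)]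
    unfold kap
    field_simp
    exact le_rfl

end Pool.Agent.Q146.CovConn
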