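import Mathlib

/-!
# Coverage and edge connectivity of distance graphs: basic part
-/

set_option autoImplicit false

open Metric Set

namespace Pool.Agent.Q146.CovConn

/-- The Euclidean plane. -/
abbrev Plane := EuclideanSpace ℝ (Fin 2)

/-- The closed discs of radius `r` centred at the points of `P` cover the plane. -/
def Covers (r : ℝ) (P : Set Plane) : Prop := ∀ x : Plane, ∃ p ∈ P, dist x p ≤ r

/-- The graph `G_c(P)`: different points of `P` are adjacent when their distance is less than
`c r`. -/
def distGraph (r c : ℝ) (P : Set Plane) : SimpleGraph P where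
  Adj p q := p ≠ q ∧ dist (p : Plane) (q : Plane) < c * r
  symm := ⟨fun p q h => ⟨h.1.symm, by rw [dist_comm]; exact h.2⟩⟩
  loopless := ⟨fun p h => h.1 rfl⟩

/-- `k`-edge-connected: connected, and connected after the deletion of any set of fewer than `k`
edges. -/
def KEdgeConnected {V : Type} (k : ℕ) (G : SimpleGraph V) : Prop :=
  G.Connected ∧ ∀ s : Set (Sym2 V), s ⊆ G.edgeSet → s.encard < k → (G.deleteEdges s).Connected

/-- The constants `c > 0` for which `G_c(P)` is `k`-edge-connected for every arrangement `P` that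
covers the plane. -/
def good (r : ℝ) (k : ℕ) : Set ℝ :=
  {c | 0 < c ∧ ∀ P : Set Plane, Covers r P → KEdgeConnected k (distGraph r c P)}

/-- The closed disc of radius `s` about the origin is covered by the closed unit disc about the
origin and `m` further closed unit discs. -/
def Cov (m : ℕ) (s : ℝ) : Prop :=
  ∃ y : Fin m → Plane, closedBall (0 : Plane) s ⊆ closedBall 0 1 ∪ ⋃ i, closedBall (y i) 1

/-- The greatest radius of a disc that can be covered by the concentric unit disc and `m` further
unit discs. -/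
noncomputable def rho (m : ℕ) : ℝ := sSup {s | Cov m s}

theorem Cov.mono {m : ℕ} {s t : ℝ} (h : Cov m s) (hts : t ≤ s) : Cov m t := by
  obtain ⟨y, hy⟩ := h
  exact ⟨y, (closedBall_subset_closedBall hts).trans hy⟩

theorem cov_one (m : ℕ) : Cov m 1 := ⟨fun _ => 0, subset_union_left⟩

/-- A cover by a finite set of at most `m` discs. -/
theorem cov_of_finset {m : ℕ} {s : ℝ} (Y : Finset Plane) (hY : Y.card ≤ m)
    (h : closedBall (0 : Plane) s ⊆ closedBall 0 1 ∪ ⋃ y ∈ Y, closedBall y 1) : Cov m s := by
  classical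
  let e := Y.equivFin
  refine ⟨fun i => if h : i.1 < Y.card then (e.symm ⟨i.1, h⟩ : Plane) else 0, fun x hx => ?_⟩
  rcases h hx with h1 | h1
  · exact Or.inl h1
  · simp only [mem_iUnion] at h1
    obtain ⟨y, hy, hxy⟩ := h1
    refine Or.inr (mem_iUnion.2 ⟨⟨(e ⟨y, hy⟩).1, lt_of_lt_of_le (e ⟨y, hy⟩).2 hY⟩, ?_⟩)
    simp only [Fin.is_lt, dite_true]
    simpa using hxy

/-! ### The area bound and the maximum -/

theorem vol_cb (x : Plane) (s : ℝ) (hs : 0 ≤ s) :
    MeasureTheory.volume (closedBall x s) = ENNReal.ofReal (Real.pi * s ^ 2) := by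
  rw [EuclideanSpace.volume_closedBall_fin_two]
  rw [ENNReal.ofReal_mul Real.pi_pos.le, ENNReal.ofReal_pow hs, mul_comm]

theorem cov_sq_le {m : ℕ} {s : ℝ} (h : Cov m s) (hs : 0 ≤ s) : s ^ 2 ≤ m + 1 := by
  obtain ⟨y, hy⟩ := h
  have h1 := (MeasureTheory.measure_mono (μ := MeasureTheory.volume) hy).trans
    ((MeasureTheory.measure_union_le _ _).trans
      (add_le_add le_rfl (MeasureTheory.measure_iUnion_le _)))
  rw [vol_cb _ _ hs, vol_cb _ _ zero_le_one] at h1
  simp only [vol_cb _ _ zero_le_one] at h1
  rw [tsum_fintype, Finset.sum_const, Finset.card_univ, Fintype.card_fin, nsmul_eq_mul,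
    ← ENNReal.ofReal_natCast, ← ENNReal.ofReal_mul (by positivity),
    ← ENNReal.ofReal_add (by positivity) (by positivity),
    ENNReal.ofReal_le_ofReal_iff (by positivity)] at h1
  have := Real.pi_pos
  nlinarith

theorem bddAbove_cov (m : ℕ) : BddAbove {s | Cov m s} := by
  refine ⟨Real.sqrt (m + 1), fun s hs => ?_⟩
  rcases le_total s 0 with h | h
  · exact h.trans (Real.sqrt_nonneg _)
  · exact Real.le_sqrt_of_sq_le (cov_sq_le hs h)

theorem le_rho {m : ℕ} {s : ℝ} (h : Cov m s) : s ≤ rho m := le_csSup (bddAbove_cov m) h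

theorem one_le_rho (m : ℕ) : 1 ≤ rho m := le_rho (cov_one m)

theorem cov_rho (m : ℕ) : Cov m (rho m) := by
  classical
  set S := rho m with hS
  have hS1 : 1 ≤ S := one_le_rho m
  -- covers with all the centres in a fixed disc
  let K : Set (Fin m → Plane) := Set.univ.pi fun _ => closedBall (0 : Plane) (S + 1)
  have hK : IsCompact K := isCompact_univ_pi fun _ => isCompact_closedBall _ _
  let Z : ℕ → Set (Fin m → Plane) := fun n =>
    K ∩ {y | closedBall (0 : Plane) (S - 1 / (n + 1)) ⊆ closedBall 0 1 ∪ ⋃ i, closedBall (y i) 1}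
  have hclosed : ∀ t : ℝ,
      IsClosed {y : Fin m → Plane | closedBall (0 : Plane) t ⊆
        closedBall 0 1 ∪ ⋃ i, closedBall (y i) 1} := by
    intro t
    have : {y : Fin m → Plane | closedBall (0 : Plane) t ⊆
        closedBall 0 1 ∪ ⋃ i, closedBall (y i) 1} =
        ⋂ z ∈ closedBall (0 : Plane) t,
          ({y | z ∈ closedBall (0 : Plane) 1} ∪ ⋃ i, {y : Fin m → Plane | dist z (y i) ≤ 1}) := by
      ext y
      simp only [Set.mem_ofPred_eq, mem_iInter, Set.subset_def, mem_union, mem_iUnion,
        mem_closedBall]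
    rw [this]
    refine isClosed_biInter fun z _ => IsClosed.union isClosed_const
      (isClosed_iUnion_of_finite fun i => ?_)
    exact isClosed_le (continuous_const.dist (continuous_apply i)) continuous_const
  have hne : (⋂ n, Z n).Nonempty := by
    refine IsCompact.nonempty_iInter_of_sequence_nonempty_isCompact_isClosed Z ?_ ?_
      (hK.inter_right (hclosed _)) fun n => hK.isClosed.inter (hclosed _)
    · intro n y hy
      refine ⟨hy.1, ?_⟩
      have h2 : (1 : ℝ) / ((n + 1 : ℕ) + 1) ≤ 1 / (n + 1) := by
        apply one_div_le_one_div_of_le (by positivity)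
        push_cast
        linarith
      exact (closedBall_subset_closedBall (by linarith)).trans hy.2
    · intro n
      obtain ⟨s, hs, hlt⟩ := exists_lt_of_lt_csSup (s := {s | Cov m s}) ⟨1, cov_one m⟩
        (b := S - 1 / (n + 1)) (by
          have : (0 : ℝ) < 1 / ((n : ℝ) + 1) := by positivity
          change S - 1 / (n + 1) < S
          linarith)
      obtain ⟨y, hy⟩ := hs.mono hlt.le
      refine ⟨fun i => if y i ∈ closedBall (0 : Plane) (S + 1) then y i else 0, ?_, ?_⟩
      · intro i _
        dsimp only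
        split_ifs with h
        · exact h
        · exact mem_closedBall_self (by linarith)
      · intro x hx
        rcases hy hx with h1 | h1
        · exact Or.inl h1
        · obtain ⟨i, hi⟩ := mem_iUnion.1 h1
          refine Or.inr (mem_iUnion.2 ⟨i, ?_⟩)
          have h2 : y i ∈ closedBall (0 : Plane) (S + 1) := by
            rw [mem_closedBall] at hx hi ⊢
            have h3 := dist_triangle (y i) x 0
            rw [dist_comm (y i) x] at h3
            have : (0 : ℝ) < 1 / ((n : ℝ) + 1) := by positivity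
            linarith
          simp only [if_pos h2]
          exact hi
  obtain ⟨y, hy⟩ := hne
  rw [mem_iInter] at hy
  refine ⟨y, ?_⟩
  rw [← closure_ball (0 : Plane) (by linarith : S ≠ 0)]
  refine closure_minimal (fun x hx => ?_)
    (isClosed_closedBall.union (isClosed_iUnion_of_finite fun i => isClosed_closedBall))
  rw [mem_ball] at hx
  obtain ⟨n, hn⟩ := exists_nat_one_div_lt (sub_pos.2 hx)
  exact (hy n).2 (mem_closedBall.2 (by linarith))

theorem cov_iff (m : ℕ) (s : ℝ) : Cov m s ↔ s ≤ rho m :=
  ⟨le_rho, fun h => (cov_rho m).mono h⟩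

theorem isGreatest_rho (m : ℕ) : IsGreatest {s | Cov m s} (rho m) :=
  ⟨cov_rho m, fun _ hs => le_rho hs⟩

end Pool.Agent.Q146.CovConn
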