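import Pool.Agent.Q146.CovConn

/-!
# Coverage and edge connectivity of distance graphs: the cut argument
-/

set_option autoImplicit false

open Metric Set

namespace Pool.Agent.Q146.CovConn

theorem lip_aux (x y p q : Plane) (h1 : inner ℝ (x - p) (q - p) ≤ 0)
    (h2 : inner ℝ (y - q) (p - q) ≤ 0) : ‖(x - p) - (y - q)‖ ≤ ‖x - y‖ := by
  have e : x - y = ((x - p) - (y - q)) + (p - q) := by abel
  have h3 : 0 ≤ inner ℝ ((x - p) - (y - q)) (p - q) := by
    rw [inner_sub_left]
    have h4 : inner ℝ (x - p) (p - q) = - inner ℝ (x - p) (q - p) := by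
      rw [← inner_neg_right, neg_sub]
    linarith
  have h5 : ‖(x - p) - (y - q)‖ ^ 2 ≤ ‖x - y‖ ^ 2 := by
    rw [e, norm_add_sq_real]
    have := sq_nonneg ‖p - q‖
    linarith
  exact le_of_sq_le_sq h5 (norm_nonneg _)

theorem proj_unique (x p q : Plane) (h1 : inner ℝ (x - p) (q - p) ≤ 0)
    (h2 : inner ℝ (x - q) (p - q) ≤ 0) : p = q := by
  have h3 : inner ℝ (q - p) (q - p) ≤ (0 : ℝ) := by
    have e : q - p = (x - p) - (x - q) := by abel
    have h4 : inner ℝ (q - p) (q - p) = inner ℝ (x - p) (q - p) - inner ℝ (x - q) (q - p) := by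
      conv_lhs => rw [e]
      rw [inner_sub_left]
      congr 2 <;> abel_nf
    have h5 : inner ℝ (x - q) (p - q) = - inner ℝ (x - q) (q - p) := by
      rw [← inner_neg_right, neg_sub]
    linarith
  rw [real_inner_self_eq_norm_sq] at h3
  have h4 : ‖q - p‖ = 0 := by
    have := sq_nonneg ‖q - p‖
    nlinarith [norm_nonneg (q - p)]
  exact (sub_eq_zero.1 (norm_eq_zero.1 h4)).symm

theorem exists_proj {K : Set Plane} (hne : K.Nonempty) (hcl : IsClosed K) (hcv : Convex ℝ K)
    (x : Plane) : ∃ p ∈ K, ∀ w ∈ K, inner ℝ (x - p) (w - p) ≤ 0 := by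
  obtain ⟨p, hp, hx⟩ := exists_norm_eq_iInf_of_complete_convex hne hcl.isComplete hcv x
  exact ⟨p, hp, (norm_eq_iInf_iff_real_inner_le_zero hcv hp).1 hx⟩

/-- The cut argument. -/
theorem cut_cov {r c : ℝ} (hr : 0 < r) {P A B : Set Plane} (hP : Covers r P)
    (hA : A.Nonempty) (hb : Bornology.IsBounded A) (hAB : P ⊆ A ∪ B) {m : ℕ}
    (hT : {b | b ∈ B ∧ ∃ a ∈ A, dist a b < c * r}.encard ≤ m) {s : ℝ} (hs : s < c - 1) :
    Cov m s := by
  classical
  set K := closure (convexHull ℝ A) with hK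
  have hKne : K.Nonempty := (hA.mono (subset_convexHull ℝ A)).closure
  have hKcv : Convex ℝ K := (convex_convexHull ℝ A).closure
  choose π hπK hπ using exists_proj hKne isClosed_closure hKcv
  set T := {b | b ∈ B ∧ ∃ a ∈ A, dist a b < c * r} with hTdef
  have hTfin : T.Finite := finite_of_encard_le_coe hT
  have hcard : hTfin.toFinset.card ≤ m := by
    rw [hTfin.encard_eq_coe_toFinset_card] at hT
    exact_mod_cast hT
  refine cov_of_finset (hTfin.toFinset.image fun b => r⁻¹ • (b - π b))
    (Finset.card_image_le.trans hcard) fun z hz => ?_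
  rw [mem_closedBall, dist_zero_right] at hz
  by_cases hz1 : ‖z‖ ≤ 1
  · exact Or.inl (by simpa using hz1)
  push Not at hz1
  right
  set v := r • z with hv
  have hvn : ‖v‖ = r * ‖z‖ := by rw [hv, norm_smul, Real.norm_of_nonneg hr.le]
  have hcomp : IsCompact (closure A) := hb.isCompact_closure
  obtain ⟨au, hau, hmax⟩ := hcomp.exists_isMaxOn hA.closure
    (f := fun w => inner ℝ v w) (by fun_prop)
  have hmaxK : ∀ w ∈ K, inner ℝ v w ≤ inner ℝ v au := by
    have hcl : IsClosed {w : Plane | inner ℝ v w ≤ inner ℝ v au} :=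
      isClosed_le (by fun_prop) continuous_const
    have hcv : Convex ℝ {w : Plane | inner ℝ v w ≤ inner ℝ v au} :=
      convex_halfSpace_le (innerₛₗ ℝ v).isLinear _
    have hsub : A ⊆ {w : Plane | inner ℝ v w ≤ inner ℝ v au} := fun w hw =>
      hmax (subset_closure hw)
    exact fun w hw => closure_minimal (convexHull_min hsub hcv) hcl hw
  have hauK : au ∈ K := closure_mono (subset_convexHull ℝ A) hau
  have hproj : π (au + v) = au := by
    refine proj_unique (au + v) _ _ (hπ _ au hauK) ?_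
    rw [add_sub_cancel_left, inner_sub_right]
    linarith [hmaxK _ (hπK (au + v))]
  obtain ⟨p, hpP, hxp⟩ := hP (au + v)
  have hvpos : 0 < ‖v‖ := by rw [hvn]; positivity
  have hvr : r < ‖v‖ := by rw [hvn]; nlinarith
  have hpB : p ∈ B := by
    rcases hAB hpP with h | h
    · exfalso
      have h1 : inner ℝ v p ≤ inner ℝ v au := hmax (subset_closure h)
      have h2 : inner ℝ v (au + v - p) ≤ ‖v‖ * ‖au + v - p‖ := real_inner_le_norm _ _
      rw [inner_sub_right, inner_add_right, real_inner_self_eq_norm_sq] at h2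
      rw [dist_eq_norm] at hxp
      have h3 : ‖v‖ ^ 2 ≤ ‖v‖ * r := by
        have := mul_le_mul_of_nonneg_left hxp hvpos.le
        linarith
      nlinarith
    · exact h
  have hlt : 0 < (c - 1) * r - ‖v‖ := by
    rw [hvn]
    nlinarith
  obtain ⟨a, haA, haau⟩ := Metric.mem_closure_iff.1 hau _ hlt
  have hpT : p ∈ T := by
    refine ⟨hpB, a, haA, ?_⟩
    have h1 := dist_triangle4 a au (au + v) p
    have h2 : dist au (au + v) = ‖v‖ := by
      rw [dist_eq_norm]
      simp
    rw [dist_comm a au, h2] at h1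
    linarith
  refine mem_iUnion₂.2 ⟨r⁻¹ • (p - π p), ?_, ?_⟩
  · rw [Finset.mem_image]
    exact ⟨p, by simpa using hpT, rfl⟩
  · rw [mem_closedBall, dist_eq_norm]
    have h1 : ‖v - (p - π p)‖ ≤ r := by
      have h2 := lip_aux (au + v) p (π (au + v)) (π p) (hπ _ _ (hπK _)) (hπ _ _ (hπK _))
      rw [hproj, add_sub_cancel_left, ← dist_eq_norm (au + v) p] at h2
      exact h2.trans hxp
    have h3 : z - r⁻¹ • (p - π p) = r⁻¹ • (v - (p - π p)) := by
      have h4 : r⁻¹ • v = z := by rw [hv, smul_smul, inv_mul_cancel₀ hr.ne', one_smul]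
      rw [smul_sub r⁻¹ v (p - π p), h4]
    rw [h3, norm_smul, norm_inv, Real.norm_of_nonneg hr.le, inv_mul_le_iff₀ hr]
    linarith

theorem preconn_far {R : ℝ} (hR : 0 < R) : IsPreconnected {x : Plane | R ≤ ‖x‖} := by
  have hrank : 1 < Module.rank ℝ Plane := by
    rw [← Module.finrank_eq_rank, finrank_euclideanSpace]
    simp
  have h1 : IsPreconnected (Ici R ×ˢ sphere (0 : Plane) 1) :=
    isPreconnected_Ici.prod (isPreconnected_sphere hrank 0 1)
  have h2 := h1.image (fun q : ℝ × Plane => q.1 • q.2) (by fun_prop)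
  convert h2 using 1
  ext x
  constructor
  · intro hx
    have hx0 : 0 < ‖x‖ := hR.trans_le hx
    refine ⟨(‖x‖, ‖x‖⁻¹ • x), ⟨hx, ?_⟩, ?_⟩
    · rw [mem_sphere, dist_zero_right, norm_smul, norm_inv, norm_norm, inv_mul_cancel₀ hx0.ne']
    · simp only
      rw [smul_smul, mul_inv_cancel₀ hx0.ne', one_smul]
  · rintro ⟨⟨t, u⟩, ⟨ht, hu⟩, rfl⟩
    simp only [mem_Ici] at ht
    rw [mem_sphere, dist_zero_right] at hu
    simp only [mem_ofPred_eq]
    rw [norm_smul, hu, mul_one, Real.norm_of_nonneg (hR.le.trans ht)]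
    exact ht

theorem bounded_of_finite_cut {r c : ℝ} (hr : 0 < r) (hc : 2 < c) {P A B : Set Plane}
    (hP : Covers r P) (hAB : P ⊆ A ∪ B)
    (hfin : {a | a ∈ A ∧ ∃ b ∈ B, dist a b < c * r}.Finite) :
    Bornology.IsBounded A ∨ Bornology.IsBounded B := by
  rcases A.eq_empty_or_nonempty with hA | hA
  · left; rw [hA]; exact Bornology.isBounded_empty
  rcases B.eq_empty_or_nonempty with hB | hB
  · right; rw [hB]; exact Bornology.isBounded_empty
  obtain ⟨R0, hR0⟩ := hfin.isBounded.subset_closedBall (0 : Plane)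
  set R1 := max R0 0 + c * r / 2 with hR1
  have hcr : 0 < c * r := by positivity
  have hR1pos : 0 < R1 := by
    have := le_max_right R0 0
    linarith
  have hcl : ∀ S : Set Plane, IsClosed {x : Plane | infDist x S ≤ r} := fun S =>
    isClosed_le (continuous_infDist_pt S) continuous_const
  have hcov : {x : Plane | R1 ≤ ‖x‖} ⊆ {x | infDist x A ≤ r} ∪ {x | infDist x B ≤ r} := by
    intro x _
    obtain ⟨p, hp, hxp⟩ := hP x
    rcases hAB hp with h | h
    · exact Or.inl ((infDist_le_dist_of_mem h).trans hxp)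
    · exact Or.inr ((infDist_le_dist_of_mem h).trans hxp)
  have hpre := isPreconnected_closed_iff.1 (preconn_far hR1pos) _ _ (hcl A) (hcl B) hcov
  have hlt : r < c * r / 2 := by nlinarith
  have hdis : ¬ ({x : Plane | R1 ≤ ‖x‖} ∩
      ({x | infDist x A ≤ r} ∩ {x | infDist x B ≤ r})).Nonempty := by
    rintro ⟨x, hx, hxA, hxB⟩
    obtain ⟨a, ha, hxa⟩ := (infDist_lt_iff hA).1 (lt_of_le_of_lt hxA hlt)
    obtain ⟨b, hb, hxb⟩ := (infDist_lt_iff hB).1 (lt_of_le_of_lt hxB hlt)
    have hab : dist a b < c * r := by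
      have := dist_triangle a x b
      rw [dist_comm a x] at this
      linarith
    have h1 := hR0 ⟨ha, b, hb, hab⟩
    rw [mem_closedBall, dist_zero_right] at h1
    have h2 : ‖x‖ ≤ ‖a‖ + dist x a := by
      rw [dist_eq_norm]
      have := norm_add_le a (x - a)
      rw [add_sub_cancel] at this
      exact this
    have h3 : R1 ≤ ‖x‖ := hx
    have := le_max_left R0 0
    linarith
  by_cases h1 : ({x : Plane | R1 ≤ ‖x‖} ∩ {x | infDist x A ≤ r}).Nonempty
  · by_cases h2 : ({x : Plane | R1 ≤ ‖x‖} ∩ {x | infDist x B ≤ r}).Nonempty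
    · exact absurd (hpre h1 h2) hdis
    · right
      refine (isBounded_closedBall (x := (0 : Plane)) (r := R1)).subset fun b hb => ?_
      by_contra h3
      rw [mem_closedBall, dist_zero_right] at h3
      push Not at h3
      exact h2 ⟨b, h3.le, by
        change infDist b B ≤ r
        rw [infDist_zero_of_mem hb]
        exact hr.le⟩
  · left
    refine (isBounded_closedBall (x := (0 : Plane)) (r := R1)).subset fun b hb => ?_
    by_contra h3
    rw [mem_closedBall, dist_zero_right] at h3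
    push Not at h3
    exact h1 ⟨b, h3.le, by
      change infDist b A ≤ r
      rw [infDist_zero_of_mem hb]
      exact hr.le⟩

theorem pos_dir {r c : ℝ} {k : ℕ} (hr : 0 < r) (hk : 1 ≤ k) (hc : 1 + rho (k - 1) < c) :
    c ∈ good r k := by
  classical
  have hc2 : 2 < c := by linarith [one_le_rho (k - 1)]
  refine ⟨by linarith, fun P hP => ?_⟩
  have key : ∀ s : Set (Sym2 P), s.encard < k → ((distGraph r c P).deleteEdges s).Connected := by
    intro s hs
    set G' := (distGraph r c P).deleteEdges s with hG'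
    obtain ⟨p0, hp0, -⟩ := hP 0
    have : Nonempty P := ⟨⟨p0, hp0⟩⟩
    refine ⟨fun p q => ?_⟩
    by_contra hpq
    set A : Set Plane := {x | ∃ h : x ∈ P, G'.Reachable p ⟨x, h⟩} with hA
    set B : Set Plane := {x | ∃ h : x ∈ P, ¬ G'.Reachable p ⟨x, h⟩} with hB
    have hAne : A.Nonempty := ⟨p, p.2, SimpleGraph.Reachable.refl _⟩
    have hBne : B.Nonempty := ⟨q, q.2, hpq⟩
    have hAB : P ⊆ A ∪ B := by
      intro x hx
      by_cases h : G'.Reachable p ⟨x, hx⟩
      · exact Or.inl ⟨hx, h⟩
      · exact Or.inr ⟨hx, h⟩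
    have hcross : ∀ a b : Plane, ∀ (ha : a ∈ A) (hb : b ∈ B), dist a b < c * r →
        s(⟨a, ha.1⟩, ⟨b, hb.1⟩) ∈ s := by
      rintro a b ⟨ha, ha'⟩ ⟨hb, hb'⟩ hab
      by_contra hns
      apply hb'
      refine ha'.trans (SimpleGraph.Adj.reachable ?_)
      rw [hG', SimpleGraph.deleteEdges_adj]
      refine ⟨⟨?_, hab⟩, hns⟩
      rintro h
      have h2 : a = b := congrArg Subtype.val h
      subst h2
      exact hb' ha'
    have hTA : {a | a ∈ A ∧ ∃ b ∈ B, dist a b < c * r}.encard ≤ s.encard := by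
      let f : Plane → Sym2 P := fun a => if h : a ∈ A ∧ ∃ b ∈ B, dist a b < c * r then
        s(⟨a, h.1.1⟩, ⟨h.2.choose, h.2.choose_spec.1.1⟩) else s(p, p)
      refine encard_le_encard_of_injOn (f := f) ?_ ?_
      · rintro a (ha : a ∈ A ∧ ∃ b ∈ B, dist a b < c * r)
        simp only [f]
        rw [dif_pos ha]
        exact hcross _ _ ha.1 ha.2.choose_spec.1 ha.2.choose_spec.2
      · rintro a (ha : a ∈ A ∧ ∃ b ∈ B, dist a b < c * r) a'
          (ha' : a' ∈ A ∧ ∃ b ∈ B, dist a' b < c * r) h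
        simp only [f] at h
        rw [dif_pos ha, dif_pos ha', Sym2.eq_iff] at h
        rcases h with h | h
        · exact congrArg Subtype.val h.1
        · exfalso
          have h1 : a = ha'.2.choose := congrArg Subtype.val h.1
          have h5 : a ∈ B := by rw [h1]; exact ha'.2.choose_spec.1
          exact h5.2 ha.1.2
    have hTB : {b | b ∈ B ∧ ∃ a ∈ A, dist a b < c * r}.encard ≤ s.encard := by
      let f : Plane → Sym2 P := fun b => if h : b ∈ B ∧ ∃ a ∈ A, dist a b < c * r then
        s(⟨h.2.choose, h.2.choose_spec.1.1⟩, ⟨b, h.1.1⟩) else s(p, p)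
      refine encard_le_encard_of_injOn (f := f) ?_ ?_
      · rintro b (ha : b ∈ B ∧ ∃ a ∈ A, dist a b < c * r)
        simp only [f]
        rw [dif_pos ha]
        exact hcross _ _ ha.2.choose_spec.1 ha.1 ha.2.choose_spec.2
      · rintro b (ha : b ∈ B ∧ ∃ a ∈ A, dist a b < c * r) b'
          (ha' : b' ∈ B ∧ ∃ a ∈ A, dist a b' < c * r) h
        simp only [f] at h
        rw [dif_pos ha, dif_pos ha', Sym2.eq_iff] at h
        rcases h with h | h
        · exact congrArg Subtype.val h.2
        · exfalso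
          have h1 : b = ha'.2.choose := congrArg Subtype.val h.2
          have h5 : b ∈ A := by rw [h1]; exact ha'.2.choose_spec.1
          exact ha.1.2 h5.2
    have hsfin : s.Finite := finite_of_encard_le_coe hs.le
    have hsk : s.encard ≤ ((k - 1 : ℕ) : ℕ∞) := by
      rw [hsfin.encard_eq_coe_toFinset_card] at hs ⊢
      have : hsfin.toFinset.card < k := by exact_mod_cast hs
      have h2 : hsfin.toFinset.card ≤ k - 1 := by omega
      exact_mod_cast h2
    obtain ⟨t, ht1, ht2⟩ := exists_between (show rho (k - 1) < c - 1 by linarith)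
    have hfin : {a | a ∈ A ∧ ∃ b ∈ B, dist a b < c * r}.Finite :=
      finite_of_encard_le_coe (hTA.trans hsk)
    rcases bounded_of_finite_cut hr hc2 hP hAB hfin with h | h
    · have h1 : Cov (k - 1) t := cut_cov hr hP hAne h hAB (hTB.trans hsk) ht2
      linarith [le_rho h1]
    · have h1 : Cov (k - 1) t := by
        refine cut_cov hr hP hBne h (by rw [union_comm]; exact hAB) (m := k - 1) ?_ ht2
        refine le_trans (le_of_eq ?_) (hTA.trans hsk)
        congr 1
        ext a
        simp only [mem_ofPred_eq]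
        constructor
        · rintro ⟨h1, b, hb, hab⟩
          exact ⟨h1, b, hb, by rw [dist_comm]; exact hab⟩
        · rintro ⟨h1, b, hb, hab⟩
          exact ⟨h1, b, hb, by rw [dist_comm]; exact hab⟩
      linarith [le_rho h1]
  refine ⟨?_, fun s _ hs => key s hs⟩
  have := key ∅ (by rw [encard_empty]; exact_mod_cast hk)
  rwa [SimpleGraph.deleteEdges_empty] at this

theorem neg_dir {r c : ℝ} {k : ℕ} (hr : 0 < r) (hk : 1 ≤ k) (hc : c ≤ 1 + rho (k - 1)) :
    c ∉ good r k := by
  classical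
  rintro ⟨hc0, H⟩
  set c' := max c 2 with hc'
  have hc'1 : c' ≤ 1 + rho (k - 1) := max_le hc (by linarith [one_le_rho (k - 1)])
  have hc'2 : 2 ≤ c' := le_max_right _ _
  have hcc' : c ≤ c' := le_max_left _ _
  obtain ⟨y, hy⟩ := (cov_rho (k - 1)).mono (show c' - 1 ≤ rho (k - 1) by linarith)
  set P : Set Plane := {0} ∪ (range fun i => r • y i) ∪ {x | c' * r ≤ ‖x‖} with hPdef
  have hP : Covers r P := by
    intro x
    by_cases hx : ‖x‖ ≤ (c' - 1) * r
    · have hx1 : r⁻¹ • x ∈ closedBall (0 : Plane) (c' - 1) := by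
        rw [mem_closedBall, dist_zero_right, norm_smul, norm_inv, Real.norm_of_nonneg hr.le,
          inv_mul_le_iff₀ hr]
        linarith
      rcases hy hx1 with h | h
      · refine ⟨0, Or.inl (Or.inl rfl), ?_⟩
        rw [mem_closedBall, dist_zero_right, norm_smul, norm_inv, Real.norm_of_nonneg hr.le,
          inv_mul_le_iff₀ hr] at h
        rw [dist_zero_right]
        linarith
      · obtain ⟨i, hi⟩ := mem_iUnion.1 h
        refine ⟨r • y i, Or.inl (Or.inr ⟨i, rfl⟩), ?_⟩
        rw [mem_closedBall, dist_eq_norm] at hi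
        rw [dist_eq_norm]
        have h1 : x - r • y i = r • (r⁻¹ • x - y i) := by
          rw [smul_sub, smul_smul, mul_inv_cancel₀ hr.ne', one_smul]
        rw [h1, norm_smul, Real.norm_of_nonneg hr.le]
        nlinarith
    · push Not at hx
      by_cases hx2 : c' * r ≤ ‖x‖
      · exact ⟨x, Or.inr hx2, by rw [dist_self]; exact hr.le⟩
      · push Not at hx2
        have hxp : 0 < ‖x‖ := lt_of_le_of_lt (by nlinarith) hx
        refine ⟨(c' * r / ‖x‖) • x, Or.inr ?_, ?_⟩
        · change c' * r ≤ ‖(c' * r / ‖x‖) • x‖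
          rw [norm_smul, Real.norm_of_nonneg (by positivity), div_mul_cancel₀ _ hxp.ne']
        · have h1 : x - (c' * r / ‖x‖) • x = (1 - c' * r / ‖x‖) • x := by
            rw [sub_smul, one_smul]
          rw [dist_eq_norm, h1, norm_smul, Real.norm_eq_abs, abs_of_nonpos (by
            rw [sub_nonpos, le_div_iff₀ hxp]; linarith)]
          have h2 : -(1 - c' * r / ‖x‖) * ‖x‖ = c' * r - ‖x‖ := by
            field_simp
            ring
          rw [h2]
          nlinarith
  have h0 : (0 : Plane) ∈ P := Or.inl (Or.inl rfl)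
  obtain ⟨-, hcon⟩ := H P hP
  set s : Set (Sym2 P) := {e | e ∈ (distGraph r c P).edgeSet ∧ (⟨0, h0⟩ : P) ∈ e} with hs
  have hscard : s.encard ≤ ((k - 1 : ℕ) : ℕ∞) := by
    have hsub : s ⊆ range fun i : Fin (k - 1) =>
        (s(⟨0, h0⟩, ⟨r • y i, Or.inl (Or.inr ⟨i, rfl⟩)⟩) : Sym2 P) := by
      rintro e ⟨he, h0e⟩
      obtain ⟨q, rfl⟩ := Sym2.mem_iff_exists.1 h0e
      rw [SimpleGraph.mem_edgeSet] at he
      obtain ⟨hne, hd⟩ := he
      obtain ⟨q, hq⟩ := q
      have hq0 : q ≠ 0 := fun h => hne (Subtype.ext h.symm)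
      rcases hq with (h | ⟨i, hi⟩) | h
      · exact absurd h hq0
      · exact ⟨i, by simp only [← hi]⟩
      · exfalso
        simp only [dist_zero_left] at hd
        have h1 : c' * r ≤ ‖q‖ := h
        nlinarith
    refine (encard_le_encard hsub).trans ?_
    rw [← image_univ]
    refine (encard_image_le _ _).trans ?_
    rw [encard_univ, ENat.card_eq_coe_fintype_card, Fintype.card_fin]
  have hslt : s.encard < k := by
    refine lt_of_le_of_lt hscard ?_
    have : k - 1 < k := by omega
    exact_mod_cast this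
  have hconn := hcon s (fun e he => he.1) hslt
  -- another vertex
  obtain ⟨u, hu⟩ : ∃ u : Plane, ‖u‖ = c' * r :=
    ⟨(c' * r) • EuclideanSpace.single 0 1, by
      rw [norm_smul, PiLp.norm_single, Real.norm_of_nonneg (by positivity)]
      simp⟩
  have hu0 : u ≠ 0 := by
    rintro rfl
    rw [norm_zero] at hu
    have : 0 < c' * r := by positivity
    linarith
  have hreach := hconn.preconnected ⟨0, h0⟩ ⟨u, Or.inr hu.ge⟩
  rcases hreach with ⟨w⟩
  cases w with
  | nil => exact hu0 rfl
  | cons h _ =>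
    rw [SimpleGraph.deleteEdges_adj] at h
    exact h.2 ⟨h.1, Sym2.mem_mk_left _ _⟩

theorem good_eq {r : ℝ} {k : ℕ} (hr : 0 < r) (hk : 1 ≤ k) :
    good r k = Ioi (1 + rho (k - 1)) := by
  ext c
  constructor
  · intro h
    by_contra h1
    exact neg_dir hr hk (not_lt.1 h1) h
  · intro h
    exact pos_dir hr hk h

end Pool.Agent.Q146.CovConn
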