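import Pool.Agent.Q146.CovCut
import Pool.Agent.Helper658.Kershner

/-!
# The covering radii: explicit values and asymptotics
-/

set_option autoImplicit false

open Metric Set MeasureTheory

namespace Pool.Agent.Q146.CovConn

/-- the unit vector of angle `φ` -/
noncomputable def pt (φ : ℝ) : Plane := !₂[Real.cos φ, Real.sin φ]

theorem norm_pt (φ : ℝ) : ‖pt φ‖ = 1 := by
  rw [pt, EuclideanSpace.norm_eq, Fin.sum_univ_two]
  simp

theorem inner_pt (φ ψ : ℝ) : inner ℝ (pt φ) (pt ψ) = Real.cos (φ - ψ) := by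
  rw [pt, pt, PiLp.inner_apply, Fin.sum_univ_two, Real.cos_sub]
  simp
  ring

theorem polar (x : Plane) : ∃ φ : ℝ, x = ‖x‖ • pt φ := by
  let z : ℂ := ⟨x 0, x 1⟩
  have hz : ‖z‖ = ‖x‖ := by
    rw [Complex.norm_def, Complex.normSq_mk, EuclideanSpace.norm_eq, Fin.sum_univ_two]
    congr 1
    simp only [Real.norm_eq_abs, sq_abs]
    ring
  refine ⟨Complex.arg z, ?_⟩
  ext i
  have h1 := Complex.norm_mul_cos_arg z
  have h2 := Complex.norm_mul_sin_arg z
  rw [hz] at h1 h2
  fin_cases i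
  · simp only [pt, PiLp.smul_apply, smul_eq_mul]
    simpa using h1.symm
  · simp only [pt, PiLp.smul_apply, smul_eq_mul]
    simpa using h2.symm

theorem dist_pt (s t φ ψ : ℝ) :
    dist (s • pt φ) (t • pt ψ) ^ 2 = s ^ 2 + t ^ 2 - 2 * s * t * Real.cos (φ - ψ) := by
  rw [dist_eq_norm, norm_sub_sq_real, norm_smul, norm_smul, norm_pt, norm_pt, inner_smul_left,
    inner_smul_right, inner_pt]
  simp only [Real.norm_eq_abs, mul_one, sq_abs, conj_trivial]
  ring

theorem pt_periodic (φ : ℝ) (n : ℤ) : pt (φ + n * (2 * Real.pi)) = pt φ := by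
  rw [pt, pt, Real.cos_add_int_mul_two_pi, Real.sin_add_int_mul_two_pi]

/-- A circle of radius `s > 1` that is covered by `m` unit discs. -/
theorem circle_bound {m : ℕ} {s : ℝ} (hs : 1 < s) (h : Cov m s) :
    Real.pi ≤ m * Real.arcsin (1 / s) := by
  have : Fact (0 < 2 * Real.pi) := ⟨Real.two_pi_pos⟩
  obtain ⟨y, hy⟩ := h
  choose ψ hψ using fun i => polar (y i)
  set δ := Real.arcsin (1 / s) with hδ
  have hs0 : 0 < s := by linarith
  have hδ0 : 0 ≤ δ := Real.arcsin_nonneg.2 (by positivity)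
  have hδ1 : δ ≤ Real.pi / 2 := Real.arcsin_le_pi_div_two _
  have hcosδ : Real.cos δ = Real.sqrt (s ^ 2 - 1) / s := by
    rw [hδ, Real.cos_arcsin, show 1 - (1 / s) ^ 2 = (s ^ 2 - 1) / s ^ 2 by field_simp,
      Real.sqrt_div (by nlinarith), Real.sqrt_sq hs0.le]
  have hcov : (Set.univ : Set (AddCircle (2 * Real.pi))) ⊆
      ⋃ i, closedBall ((ψ i : ℝ) : AddCircle (2 * Real.pi)) δ := by
    intro a _
    obtain ⟨φ, rfl⟩ := QuotientAddGroup.mk_surjective a
    have h1 : s • pt φ ∈ closedBall (0 : Plane) s := by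
      rw [mem_closedBall, dist_zero_right, norm_smul, norm_pt, mul_one,
        Real.norm_of_nonneg hs0.le]
    rcases hy h1 with h2 | h2
    · exfalso
      rw [mem_closedBall, dist_zero_right, norm_smul, norm_pt, mul_one,
        Real.norm_of_nonneg hs0.le] at h2
      linarith
    · obtain ⟨i, hi⟩ := mem_iUnion.1 h2
      refine mem_iUnion.2 ⟨i, ?_⟩
      rw [mem_closedBall, hψ i] at hi
      set t := ‖y i‖ with ht
      have ht0 : 0 ≤ t := norm_nonneg _
      have h3 : s ^ 2 + t ^ 2 - 2 * s * t * Real.cos (φ - ψ i) ≤ 1 := by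
        rw [← dist_pt]
        nlinarith [dist_nonneg (x := s • pt φ) (y := t • pt (ψ i))]
      have ht1 : 0 < t := by
        rcases ht0.lt_or_eq with h | h
        · exact h
        · exfalso
          rw [← h] at h3
          nlinarith
      have hsq : Real.sqrt (s ^ 2 - 1) ^ 2 = s ^ 2 - 1 := Real.sq_sqrt (by nlinarith)
      have h4 : Real.cos δ ≤ Real.cos (φ - ψ i) := by
        rw [hcosδ, div_le_iff₀ hs0]
        have h5 : 0 ≤ (t - Real.sqrt (s ^ 2 - 1)) ^ 2 := sq_nonneg _
        have h6 : t * Real.sqrt (s ^ 2 - 1) ≤ t * (Real.cos (φ - ψ i) * s) := by nlinarith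
        exact le_of_mul_le_mul_left h6 ht1
      set x := φ - ψ i with hx
      set n := round ((2 * Real.pi)⁻¹ * x) with hn
      have hpi := Real.pi_pos
      have h7 : |x - n * (2 * Real.pi)| ≤ Real.pi := by
        have h8 := abs_sub_round ((2 * Real.pi)⁻¹ * x)
        have h9 : x - n * (2 * Real.pi) = (2 * Real.pi) * ((2 * Real.pi)⁻¹ * x - n) := by
          field_simp
        rw [h9, abs_mul, abs_of_pos Real.two_pi_pos]
        nlinarith
      have h10 : Real.cos |x - n * (2 * Real.pi)| = Real.cos x := by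
        rw [Real.cos_abs, Real.cos_sub_int_mul_two_pi]
      have h11 : |x - n * (2 * Real.pi)| ≤ δ := by
        by_contra hcon
        push Not at hcon
        have h12 := Real.cos_lt_cos_of_nonneg_of_le_pi hδ0 h7 hcon
        linarith
      rw [mem_closedBall, dist_eq_norm]
      have h13 : ((φ : ℝ) : AddCircle (2 * Real.pi)) - ((ψ i : ℝ) : AddCircle (2 * Real.pi)) =
          ((x : ℝ) : AddCircle (2 * Real.pi)) := by
        rw [hx, AddCircle.coe_sub]
      change ‖((φ : ℝ) : AddCircle (2 * Real.pi)) - ((ψ i : ℝ) : AddCircle (2 * Real.pi))‖ ≤ δ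
      rw [h13, AddCircle.norm_eq]
      exact h11
  have hmeas := (measure_mono (μ := volume) hcov).trans (measure_iUnion_le _)
  rw [AddCircle.measure_univ] at hmeas
  simp only [AddCircle.volume_closedBall] at hmeas
  rw [tsum_fintype, Finset.sum_const, Finset.card_univ, Fintype.card_fin, nsmul_eq_mul,
    ← ENNReal.ofReal_natCast, ← ENNReal.ofReal_mul (by positivity),
    ENNReal.ofReal_le_ofReal_iff (by
      have : 0 ≤ min (2 * Real.pi) (2 * δ) := le_min Real.two_pi_pos.le (by linarith)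
      positivity)] at hmeas
  have h14 : (m : ℝ) * min (2 * Real.pi) (2 * δ) ≤ m * (2 * δ) :=
    mul_le_mul_of_nonneg_left (min_le_right _ _) (by positivity)
  linarith

theorem rho_le_two {m : ℕ} (hm : m ≤ 2) : rho m = 1 := by
  refine le_antisymm (csSup_le ⟨1, cov_one m⟩ fun s hs => ?_) (one_le_rho m)
  by_contra h
  push Not at h
  have h1 := circle_bound h hs
  have h2 : Real.arcsin (1 / s) < Real.pi / 2 := by
    rw [Real.arcsin_lt_pi_div_two, div_lt_one (by linarith)]
    exact h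
  have h3 : (m : ℝ) ≤ 2 := by exact_mod_cast hm
  have h4 : 0 ≤ Real.arcsin (1 / s) := Real.arcsin_nonneg.2 (by positivity)
  nlinarith

theorem rho_le_sin {m : ℕ} (hm : 3 ≤ m) : rho m ≤ 1 / Real.sin (Real.pi / m) := by
  have hpi := Real.pi_pos
  have hm' : (3 : ℝ) ≤ m := by exact_mod_cast hm
  have hlt : Real.pi / m < Real.pi := by
    rw [div_lt_iff₀ (by linarith)]
    nlinarith
  have hsin : 0 < Real.sin (Real.pi / m) := Real.sin_pos_of_pos_of_lt_pi (by positivity) hlt
  refine csSup_le ⟨1, cov_one m⟩ fun s hs => ?_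
  rcases le_or_gt s 1 with h | h
  · refine h.trans ?_
    rw [le_div_iff₀ hsin, one_mul]
    exact Real.sin_le_one _
  · have h1 := circle_bound h hs
    have h2 : Real.pi / m ≤ Real.arcsin (1 / s) := by
      rw [div_le_iff₀ (by linarith)]
      linarith
    have hle : Real.pi / m ≤ Real.pi / 2 := by
      apply div_le_div_of_nonneg_left hpi.le <;> linarith
    rw [Real.le_arcsin_iff_sin_le' ⟨by linarith [show 0 < Real.pi / m by positivity], hle⟩] at h2
    rw [le_div_iff₀ hsin]
    rw [le_div_iff₀ (by linarith)] at h2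
    linarith

theorem cov_sin {m : ℕ} (hm : 3 ≤ m) (hm6 : m ≤ 6) : Cov m (1 / Real.sin (Real.pi / m)) := by
  have hpi := Real.pi_pos
  have hm' : (3 : ℝ) ≤ m := by exact_mod_cast hm
  have hm6' : (m : ℝ) ≤ 6 := by exact_mod_cast hm6
  set θ := Real.pi / m with hθ
  have hθ0 : 0 < θ := by positivity
  have hθ1 : Real.pi / 6 ≤ θ := by
    apply div_le_div_of_nonneg_left hpi.le <;> linarith
  have hθ2 : θ ≤ Real.pi / 3 := by
    apply div_le_div_of_nonneg_left hpi.le <;> linarith
  have hsin : 1 / 2 ≤ Real.sin θ := by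
    rw [← Real.sin_pi_div_six]
    exact Real.sin_le_sin_of_le_of_le_pi_div_two (by linarith) (by linarith) hθ1
  have hcos : 0 < Real.cos θ := Real.cos_pos_of_mem_Ioo ⟨by linarith, by linarith⟩
  set t := Real.cos θ / Real.sin θ with ht
  refine ⟨fun i => t • pt (i.1 * (2 * θ)), fun x hx => ?_⟩
  rw [mem_closedBall, dist_zero_right] at hx
  by_cases hx1 : ‖x‖ ≤ 1
  · exact Or.inl (by simpa using hx1)
  push Not at hx1
  right
  obtain ⟨φ, hφ⟩ := polar x
  set s := ‖x‖ with hs
  set n := round (φ / (2 * θ)) with hn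
  have hmpos : 0 < (m : ℤ) := by omega
  have hi0 : 0 ≤ n % m := Int.emod_nonneg _ hmpos.ne'
  have hi1 : n % m < m := Int.emod_lt_of_pos _ hmpos
  refine mem_iUnion.2 ⟨⟨(n % m).toNat, by omega⟩, ?_⟩
  have hcast : (((n % m).toNat : ℕ) : ℝ) = ((n % m : ℤ) : ℝ) := by
    have := Int.toNat_of_nonneg hi0
    exact_mod_cast this
  have hpt : pt ((((n % m).toNat : ℕ) : ℝ) * (2 * θ)) = pt (n * (2 * θ)) := by
    rw [hcast, ← pt_periodic _ (n / m)]
    congr 1
    have h1 : (n : ℝ) = ((n % m : ℤ) : ℝ) + m * ((n / m : ℤ) : ℝ) := by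
      exact_mod_cast (Int.emod_add_mul_ediv n m).symm
    rw [h1, hθ]
    have hm0 : (m : ℝ) ≠ 0 := by positivity
    field_simp
  simp only [hpt]
  rw [mem_closedBall]
  have h2 : |φ - n * (2 * θ)| ≤ θ := by
    have h3 := abs_sub_round (φ / (2 * θ))
    have h4 : φ - n * (2 * θ) = (2 * θ) * (φ / (2 * θ) - n) := by field_simp
    rw [h4, abs_mul, abs_of_pos (by positivity)]
    nlinarith
  have h5 : Real.cos θ ≤ Real.cos (φ - n * (2 * θ)) := by
    rw [← Real.cos_abs (φ - n * (2 * θ))]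
    exact Real.cos_le_cos_of_nonneg_of_le_pi (abs_nonneg _) (by linarith) h2
  have h6 : dist x (t • pt (n * (2 * θ))) ^ 2 ≤ 1 := by
    rw [hφ, dist_pt]
    have hsin0 : 0 < Real.sin θ := by linarith
    have htpos : 0 < t := by positivity
    have h7 : s ^ 2 + t ^ 2 - 2 * s * t * Real.cos (φ - n * (2 * θ)) ≤
        s ^ 2 + t ^ 2 - 2 * s * t * Real.cos θ := by
      have : 2 * s * t * Real.cos θ ≤ 2 * s * t * Real.cos (φ - n * (2 * θ)) :=
        mul_le_mul_of_nonneg_left h5 (by positivity)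
      linarith
    refine h7.trans ?_
    have h8 : s ^ 2 + t ^ 2 - 2 * s * t * Real.cos θ =
        1 + (s - 1 / Real.sin θ) * (s - (1 - 2 * Real.sin θ ^ 2) / Real.sin θ) := by
      rw [ht]
      field_simp
      rw [Real.cos_sq']
      ring
    have h9 : (1 - 2 * Real.sin θ ^ 2) / Real.sin θ ≤ 1 := by
      rw [div_le_one hsin0]
      nlinarith
    rw [h8]
    nlinarith
  nlinarith [dist_nonneg (x := x) (y := t • pt (n * (2 * θ)))]

theorem rho_eq_sin {m : ℕ} (hm : 3 ≤ m) (hm6 : m ≤ 6) : rho m = 1 / Real.sin (Real.pi / m) :=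
  le_antisymm (rho_le_sin hm) (le_rho (cov_sin hm hm6))

end Pool.Agent.Q146.CovConn
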