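import Mathlib
import Pool.Agent.Results.MP_ca213f_co.AllArms

set_option autoImplicit false

/-! # Spirals in the brick wall

The vertices of the brick wall are the lattice points, its edges are the horizontal unit segments
and the vertical unit segments from `(x, y)` to `(x, y + 1)` with `x + y` even; the bricks are the
rectangles `[a, a + 2] × [b, b + 1]` with `a + b` even. -/

namespace Pool.Agent.Q146.HexComb

open Pool.Agent.Results.MP_ca213f_co.AllArms (V Adj)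

/-- One step of an arm from `u` to `v`; `f` is the brick to which the edge is assigned. -/
inductive SF (n : ℤ) : V → V → V → Prop
  | lc (m : ℤ) (h : 1 ≤ m) : SF n (4 * m + 1, 1 - 2 * m) (4 * m, 1 - 2 * m) (4 * m, -(2 * m))
  | le (m i : ℤ) (h : 1 ≤ m) (h1 : -(2 * m) ≤ i) (h2 : i ≤ 2 * m) :
      SF n (2 * i, 1 - 2 * m) (2 * i - 1, 1 - 2 * m) (2 * i - 2, -(2 * m))
  | lo (m i : ℤ) (h : 1 ≤ m) (h1 : -(2 * m) ≤ i) (h2 : i < 2 * m) :
      SF n (2 * i + 1, 1 - 2 * m) (2 * i, 1 - 2 * m) (2 * i - 1, 1 - 2 * m)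
  | rc (j : ℤ) (h : n ≤ j) :
      SF n (4 * n - 4 * j - 1, 2 * j) (4 * n - 4 * j, 2 * j) (4 * n - 4 * j - 2, 2 * j)
  | re (j i : ℤ) (h : 1 ≤ j) (h1 : i ≤ 2 * j)
      (h2 : (n ≤ j ∧ 2 * n - 2 * j ≤ i) ∨ (j < n ∧ 1 ≤ i)) :
      SF n (2 * i, 2 * j) (2 * i + 1, 2 * j) (2 * i, 2 * j)
  | ro (j i : ℤ) (h : 1 ≤ j) (h1 : i < 2 * j)
      (h2 : (n ≤ j ∧ 2 * n - 2 * j ≤ i) ∨ (j < n ∧ 1 ≤ i)) :
      SF n (2 * i + 1, 2 * j) (2 * i + 2, 2 * j) (2 * i + 1, 2 * j - 1)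
  | da (m j : ℤ) (h : 1 ≤ m) (h1 : 1 - m ≤ j) (h2 : j ≤ m) :
      SF n (4 * m + 1, 2 * j) (4 * m + 1, 2 * j - 1) (4 * m + 1, 2 * j - 1)
  | db (m j : ℤ) (h : 1 ≤ m) (h1 : 1 - m ≤ j) (h2 : j < m) :
      SF n (4 * m + 1, 2 * j + 1) (4 * m, 2 * j + 1) (4 * m, 2 * j)
  | dc (m j : ℤ) (h : 1 ≤ m) (h1 : 1 - m ≤ j) (h2 : j < m) :
      SF n (4 * m, 2 * j + 1) (4 * m, 2 * j) (4 * m - 2, 2 * j)
  | dd (m j : ℤ) (h : 1 ≤ m) (h1 : 1 - m ≤ j) (h2 : j < m) :
      SF n (4 * m, 2 * j) (4 * m + 1, 2 * j) (4 * m - 1, 2 * j - 1)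
  | ue (m j : ℤ) (h : 0 ≤ m) (h1 : -m ≤ j) (h2 : j < n + m) :
      SF n (-(4 * m) - 1, 2 * j + 1) (-(4 * m) - 1, 2 * j + 2) (-(4 * m) - 3, 2 * j + 1)
  | uf (m j : ℤ) (h : 0 ≤ m) (h1 : 1 - m ≤ j) (h2 : j < n + m) :
      SF n (-(4 * m) - 1, 2 * j) (-(4 * m), 2 * j) (-(4 * m) - 2, 2 * j)
  | ug (m j : ℤ) (h : 0 ≤ m) (h1 : 1 - m ≤ j ∨ (m = 0 ∧ j = 0)) (h2 : j < n + m) :
      SF n (-(4 * m), 2 * j) (-(4 * m), 2 * j + 1) (-(4 * m), 2 * j)
  | uh (m j : ℤ) (h : 0 ≤ m) (h1 : 1 - m ≤ j ∨ (m = 0 ∧ j = 0)) (h2 : j < n + m) :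
      SF n (-(4 * m), 2 * j + 1) (-(4 * m) - 1, 2 * j + 1) (-(4 * m) - 1, 2 * j + 1)

variable {n : ℤ}

theorem SF.adj {u v f : V} (h : SF n u v f) : Adj u v := by
  have key : ∀ a b c d : ℤ, ((a = c ∧ (b = d + 1 ∨ d = b + 1)) ∨ (b = d ∧ (a = c + 1 ∨ c = a + 1))) →
      Adj (a, b) (c, d) := fun a b c d h => h
  cases h <;> apply key <;> omega

theorem SF.cases_eq {u v f : V} (h : SF n u v f) :
    (∃ m, 1 ≤ m ∧ u = (4 * m + 1, 1 - 2 * m) ∧ v = (4 * m, 1 - 2 * m) ∧ f = (4 * m, -(2 * m))) ∨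
    (∃ m i, 1 ≤ m ∧ -(2 * m) ≤ i ∧ i ≤ 2 * m ∧ u = (2 * i, 1 - 2 * m) ∧
      v = (2 * i - 1, 1 - 2 * m) ∧ f = (2 * i - 2, -(2 * m))) ∨
    (∃ m i, 1 ≤ m ∧ -(2 * m) ≤ i ∧ i < 2 * m ∧ u = (2 * i + 1, 1 - 2 * m) ∧
      v = (2 * i, 1 - 2 * m) ∧ f = (2 * i - 1, 1 - 2 * m)) ∨
    (∃ j, n ≤ j ∧ u = (4 * n - 4 * j - 1, 2 * j) ∧ v = (4 * n - 4 * j, 2 * j) ∧
      f = (4 * n - 4 * j - 2, 2 * j)) ∨
    (∃ j i, 1 ≤ j ∧ i ≤ 2 * j ∧ ((n ≤ j ∧ 2 * n - 2 * j ≤ i) ∨ (j < n ∧ 1 ≤ i)) ∧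
      u = (2 * i, 2 * j) ∧ v = (2 * i + 1, 2 * j) ∧ f = (2 * i, 2 * j)) ∨
    (∃ j i, 1 ≤ j ∧ i < 2 * j ∧ ((n ≤ j ∧ 2 * n - 2 * j ≤ i) ∨ (j < n ∧ 1 ≤ i)) ∧
      u = (2 * i + 1, 2 * j) ∧ v = (2 * i + 2, 2 * j) ∧ f = (2 * i + 1, 2 * j - 1)) ∨
    (∃ m j, 1 ≤ m ∧ 1 - m ≤ j ∧ j ≤ m ∧ u = (4 * m + 1, 2 * j) ∧ v = (4 * m + 1, 2 * j - 1) ∧
      f = (4 * m + 1, 2 * j - 1)) ∨
    (∃ m j, 1 ≤ m ∧ 1 - m ≤ j ∧ j < m ∧ u = (4 * m + 1, 2 * j + 1) ∧ v = (4 * m, 2 * j + 1) ∧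
      f = (4 * m, 2 * j)) ∨
    (∃ m j, 1 ≤ m ∧ 1 - m ≤ j ∧ j < m ∧ u = (4 * m, 2 * j + 1) ∧ v = (4 * m, 2 * j) ∧
      f = (4 * m - 2, 2 * j)) ∨
    (∃ m j, 1 ≤ m ∧ 1 - m ≤ j ∧ j < m ∧ u = (4 * m, 2 * j) ∧ v = (4 * m + 1, 2 * j) ∧
      f = (4 * m - 1, 2 * j - 1)) ∨
    (∃ m j, 0 ≤ m ∧ -m ≤ j ∧ j < n + m ∧ u = (-(4 * m) - 1, 2 * j + 1) ∧
      v = (-(4 * m) - 1, 2 * j + 2) ∧ f = (-(4 * m) - 3, 2 * j + 1)) ∨
    (∃ m j, 0 ≤ m ∧ 1 - m ≤ j ∧ j < n + m ∧ u = (-(4 * m) - 1, 2 * j) ∧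
      v = (-(4 * m), 2 * j) ∧ f = (-(4 * m) - 2, 2 * j)) ∨
    (∃ m j, 0 ≤ m ∧ (1 - m ≤ j ∨ (m = 0 ∧ j = 0)) ∧ j < n + m ∧ u = (-(4 * m), 2 * j) ∧
      v = (-(4 * m), 2 * j + 1) ∧ f = (-(4 * m), 2 * j)) ∨
    (∃ m j, 0 ≤ m ∧ (1 - m ≤ j ∨ (m = 0 ∧ j = 0)) ∧ j < n + m ∧ u = (-(4 * m), 2 * j + 1) ∧
      v = (-(4 * m) - 1, 2 * j + 1) ∧ f = (-(4 * m) - 1, 2 * j + 1)) := by
  cases h with
  | lc m h => exact Or.inl ⟨m, h, rfl, rfl, rfl⟩
  | le m i h h1 h2 => exact .inr (.inl ⟨m, i, h, h1, h2, rfl, rfl, rfl⟩)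
  | lo m i h h1 h2 => exact .inr (.inr (.inl ⟨m, i, h, h1, h2, rfl, rfl, rfl⟩))
  | rc j h => exact .inr (.inr (.inr (.inl ⟨j, h, rfl, rfl, rfl⟩)))
  | re j i h h1 h2 => exact .inr (.inr (.inr (.inr (.inl ⟨j, i, h, h1, h2, rfl, rfl, rfl⟩))))
  | ro j i h h1 h2 => exact .inr (.inr (.inr (.inr (.inr (.inl ⟨j, i, h, h1, h2, rfl, rfl, rfl⟩)))))
  | da m j h h1 h2 => exact .inr (.inr (.inr (.inr (.inr (.inr (.inl ⟨m, j, h, h1, h2, rfl, rfl, rfl⟩))))))
  | db m j h h1 h2 => exact .inr (.inr (.inr (.inr (.inr (.inr (.inr (.inl ⟨m, j, h, h1, h2, rfl, rfl, rfl⟩)))))))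
  | dc m j h h1 h2 => exact .inr (.inr (.inr (.inr (.inr (.inr (.inr (.inr (.inl ⟨m, j, h, h1, h2, rfl, rfl, rfl⟩))))))))
  | dd m j h h1 h2 => exact .inr (.inr (.inr (.inr (.inr (.inr (.inr (.inr (.inr (.inl ⟨m, j, h, h1, h2, rfl, rfl, rfl⟩)))))))))
  | ue m j h h1 h2 => exact .inr (.inr (.inr (.inr (.inr (.inr (.inr (.inr (.inr (.inr (.inl ⟨m, j, h, h1, h2, rfl, rfl, rfl⟩))))))))))
  | uf m j h h1 h2 => exact .inr (.inr (.inr (.inr (.inr (.inr (.inr (.inr (.inr (.inr (.inr (.inl ⟨m, j, h, h1, h2, rfl, rfl, rfl⟩)))))))))))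
  | ug m j h h1 h2 => exact .inr (.inr (.inr (.inr (.inr (.inr (.inr (.inr (.inr (.inr (.inr (.inr (.inl ⟨m, j, h, h1, h2, rfl, rfl, rfl⟩))))))))))))
  | uh m j h h1 h2 => exact .inr (.inr (.inr (.inr (.inr (.inr (.inr (.inr (.inr (.inr (.inr (.inr (.inr ⟨m, j, h, h1, h2, rfl, rfl, rfl⟩))))))))))))

/-- Determinism, injectivity of the step, and injectivity of the assignment of bricks. -/
theorem SF.unique (hn : 1 ≤ n) {u v f u' v' f' : V} (h : SF n u v f) (h' : SF n u' v' f')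
    (he : u = u' ∨ v = v' ∨ f = f') : u = u' ∧ v = v' ∧ f = f' := by
  rcases h.cases_eq with ⟨m, a1, rfl, rfl, rfl⟩ | ⟨m, i, a1, a2, a3, rfl, rfl, rfl⟩ |
    ⟨m, i, a1, a2, a3, rfl, rfl, rfl⟩ | ⟨j, a1, rfl, rfl, rfl⟩ | ⟨j, i, a1, a2, a3, rfl, rfl, rfl⟩ |
    ⟨j, i, a1, a2, a3, rfl, rfl, rfl⟩ | ⟨m, j, a1, a2, a3, rfl, rfl, rfl⟩ |
    ⟨m, j, a1, a2, a3, rfl, rfl, rfl⟩ | ⟨m, j, a1, a2, a3, rfl, rfl, rfl⟩ |
    ⟨m, j, a1, a2, a3, rfl, rfl, rfl⟩ | ⟨m, j, a1, a2, a3, rfl, rfl, rfl⟩ |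
    ⟨m, j, a1, a2, a3, rfl, rfl, rfl⟩ | ⟨m, j, a1, a2, a3, rfl, rfl, rfl⟩ |
    ⟨m, j, a1, a2, a3, rfl, rfl, rfl⟩ <;>
  rcases h'.cases_eq with ⟨m', b1, rfl, rfl, rfl⟩ | ⟨m', i', b1, b2, b3, rfl, rfl, rfl⟩ |
    ⟨m', i', b1, b2, b3, rfl, rfl, rfl⟩ | ⟨j', b1, rfl, rfl, rfl⟩ |
    ⟨j', i', b1, b2, b3, rfl, rfl, rfl⟩ | ⟨j', i', b1, b2, b3, rfl, rfl, rfl⟩ |
    ⟨m', j', b1, b2, b3, rfl, rfl, rfl⟩ | ⟨m', j', b1, b2, b3, rfl, rfl, rfl⟩ |
    ⟨m', j', b1, b2, b3, rfl, rfl, rfl⟩ | ⟨m', j', b1, b2, b3, rfl, rfl, rfl⟩ |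
    ⟨m', j', b1, b2, b3, rfl, rfl, rfl⟩ | ⟨m', j', b1, b2, b3, rfl, rfl, rfl⟩ |
    ⟨m', j', b1, b2, b3, rfl, rfl, rfl⟩ | ⟨m', j', b1, b2, b3, rfl, rfl, rfl⟩ <;>
  simp only [Prod.mk.injEq] at he ⊢ <;> omega

/-- the corners and the midpoints of the long sides of a brick, in cyclic order -/
def corner (f : V) : Fin 6 → V :=
  ![(f.1, f.2), (f.1 + 1, f.2), (f.1 + 2, f.2), (f.1 + 2, f.2 + 1), (f.1 + 1, f.2 + 1),
    (f.1, f.2 + 1)]

/-- the unordered pair `{u, v}` is a side of the brick `f` -/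
def IsSide (f u v : V) : Prop :=
  (f.1 + f.2) % 2 = 0 ∧
    ∃ s : Fin 6, (u = corner f s ∧ v = corner f (s + 1)) ∨ (v = corner f s ∧ u = corner f (s + 1))

theorem SF.isSide {u v f : V} (h : SF n u v f) : IsSide f u v := by
  have key : ∀ (u v f : V) (s : Fin 6), (f.1 + f.2) % 2 = 0 →
      (u.1 = (corner f s).1 ∧ u.2 = (corner f s).2) →
      (v.1 = (corner f (s + 1)).1 ∧ v.2 = (corner f (s + 1)).2) → IsSide f u v :=
    fun u v f s h1 h2 h3 => ⟨h1, s, Or.inl ⟨Prod.ext h2.1 h2.2, Prod.ext h3.1 h3.2⟩⟩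
  have key' : ∀ (u v f : V) (s : Fin 6), (f.1 + f.2) % 2 = 0 →
      (v.1 = (corner f s).1 ∧ v.2 = (corner f s).2) →
      (u.1 = (corner f (s + 1)).1 ∧ u.2 = (corner f (s + 1)).2) → IsSide f u v :=
    fun u v f s h1 h2 h3 => ⟨h1, s, Or.inr ⟨Prod.ext h2.1 h2.2, Prod.ext h3.1 h3.2⟩⟩
  cases h with
  | lc m h => exact key _ _ _ 4 (by simp only; omega) (by simp [corner]; omega) (by simp [corner]; omega)
  | le m i h h1 h2 => exact key _ _ _ 3 (by simp only; omega) (by simp [corner]; omega) (by simp [corner]; omega)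
  | lo m i h h1 h2 => exact key' _ _ _ 1 (by simp only; omega) (by simp [corner]) (by simp [corner]; omega)
  | rc j h => exact key _ _ _ 1 (by simp only; omega) (by simp [corner]; omega) (by simp [corner])
  | re j i h h1 h2 => exact key _ _ _ 0 (by simp only; omega) (by simp [corner]) (by simp [corner])
  | ro j i h h1 h2 => exact key' _ _ _ 4 (by simp only; omega) (by simp [corner]; omega) (by simp [corner])
  | da m j h h1 h2 => exact key _ _ _ 5 (by simp only; omega) (by simp [corner]) (by simp [corner])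
  | db m j h h1 h2 => exact key _ _ _ 4 (by simp only; omega) (by simp [corner]) (by simp [corner])
  | dc m j h h1 h2 => exact key' _ _ _ 2 (by simp only; omega) (by simp [corner]) (by simp [corner])
  | dd m j h h1 h2 => exact key' _ _ _ 3 (by simp only; omega) (by simp [corner]; omega) (by simp [corner])
  | ue m j h h1 h2 => exact key _ _ _ 2 (by simp only; omega) (by simp [corner]; omega) (by simp [corner]; omega)
  | uf m j h h1 h2 => exact key _ _ _ 1 (by simp only; omega) (by simp [corner]; omega) (by simp [corner])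
  | ug m j h h1 h2 => exact key' _ _ _ 5 (by simp only; omega) (by simp [corner]) (by simp [corner])
  | uh m j h h1 h2 => exact key' _ _ _ 0 (by simp only; omega) (by simp [corner]) (by simp [corner])

/-- the vertices of the arms -/
def W (n : ℤ) (u : V) : Prop := ∃ v f, SF n u v f

/-- the successor -/
noncomputable def nx (n : ℤ) (u : V) : V :=
  open Classical in if h : W n u then h.choose else u

theorem SF.nx_eq (hn : 1 ≤ n) {u v f : V} (h : SF n u v f) : nx n u = v := by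
  have hW : W n u := ⟨v, f, h⟩
  unfold nx
  rw [dif_pos hW]
  obtain ⟨g, hg⟩ := hW.choose_spec
  exact (hg.unique hn h (Or.inl rfl)).2.1

/-- A step leads to a vertex of the arms. -/
theorem SF.next (hn : 1 ≤ n) {u v f : V} (h : SF n u v f) : W n v := by
  rcases h.cases_eq with ⟨m, a1, rfl, rfl, rfl⟩ | ⟨m, i, a1, a2, a3, rfl, rfl, rfl⟩ |
    ⟨m, i, a1, a2, a3, rfl, rfl, rfl⟩ | ⟨j, a1, rfl, rfl, rfl⟩ | ⟨j, i, a1, a2, a3, rfl, rfl, rfl⟩ |
    ⟨j, i, a1, a2, a3, rfl, rfl, rfl⟩ | ⟨m, j, a1, a2, a3, rfl, rfl, rfl⟩ |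
    ⟨m, j, a1, a2, a3, rfl, rfl, rfl⟩ | ⟨m, j, a1, a2, a3, rfl, rfl, rfl⟩ |
    ⟨m, j, a1, a2, a3, rfl, rfl, rfl⟩ | ⟨m, j, a1, a2, a3, rfl, rfl, rfl⟩ |
    ⟨m, j, a1, a2, a3, rfl, rfl, rfl⟩ | ⟨m, j, a1, a2, a3, rfl, rfl, rfl⟩ |
    ⟨m, j, a1, a2, a3, rfl, rfl, rfl⟩
  · have := SF.le (n := n) m (2 * m) a1 (by omega) (by omega)
    rw [show 2 * (2 * m) = 4 * m by ring] at this
    exact ⟨_, _, this⟩
  · by_cases h : i = -(2 * m)
    · subst h
      have := SF.ue (n := n) m (-m) (by omega) (by omega) (by omega)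
      rw [show -(4 * m) - 1 = 2 * -(2 * m) - 1 by ring, show 2 * -m + 1 = 1 - 2 * m by ring] at this
      exact ⟨_, _, this⟩
    · have := SF.lo (n := n) m (i - 1) a1 (by omega) (by omega)
      rw [show 2 * (i - 1) + 1 = 2 * i - 1 by ring] at this
      exact ⟨_, _, this⟩
  · exact ⟨_, _, SF.le (n := n) m i a1 (by omega) (by omega)⟩
  · have := SF.re (n := n) j (2 * n - 2 * j) (by omega) (by omega) (by omega)
    rw [show 2 * (2 * n - 2 * j) = 4 * n - 4 * j by ring] at this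
    exact ⟨_, _, this⟩
  · by_cases h : i = 2 * j
    · subst h
      have := SF.da (n := n) j j (by omega) (by omega) (by omega)
      rw [show 4 * j = 2 * (2 * j) by ring] at this
      exact ⟨_, _, this⟩
    · exact ⟨_, _, SF.ro (n := n) j i (by omega) (by omega) (by omega)⟩
  · have := SF.re (n := n) j (i + 1) (by omega) (by omega) (by omega)
    rw [show 2 * (i + 1) = 2 * i + 2 by ring] at this
    exact ⟨_, _, this⟩
  · by_cases h : j = 1 - m
    · subst h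
      have := SF.lc (n := n) m (by omega)
      rw [show 1 - 2 * m = 2 * (1 - m) - 1 by ring] at this
      exact ⟨_, _, this⟩
    · have := SF.db (n := n) m (j - 1) (by omega) (by omega) (by omega)
      rw [show 2 * (j - 1) + 1 = 2 * j - 1 by ring] at this
      exact ⟨_, _, this⟩
  · exact ⟨_, _, SF.dc (n := n) m j (by omega) (by omega) (by omega)⟩
  · exact ⟨_, _, SF.dd (n := n) m j (by omega) (by omega) (by omega)⟩
  · exact ⟨_, _, SF.da (n := n) m j (by omega) (by omega) (by omega)⟩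
  · by_cases h : j + 1 = n + m
    · have := SF.rc (n := n) (n + m) (by omega)
      rw [show 4 * n - 4 * (n + m) - 1 = -(4 * m) - 1 by ring,
        show 2 * (n + m) = 2 * j + 2 by rw [← h]; ring] at this
      exact ⟨_, _, this⟩
    · have := SF.uf (n := n) m (j + 1) (by omega) (by omega) (by omega)
      rw [show 2 * (j + 1) = 2 * j + 2 by ring] at this
      exact ⟨_, _, this⟩
  · exact ⟨_, _, SF.ug (n := n) m j (by omega) (by omega) (by omega)⟩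
  · exact ⟨_, _, SF.uh (n := n) m j (by omega) (by omega) (by omega)⟩
  · exact ⟨_, _, SF.ue (n := n) m j (by omega) (by omega) (by omega)⟩

/-- the starting points of the arms -/
def st {k : ℕ} (i : Fin k) : V := if i.val = 0 then (0, 0) else (2, 2 * i.val)

theorem st_W {k : ℕ} (hk : 1 ≤ k) (i : Fin k) : W k (st i) := by
  unfold st
  split_ifs with h
  · have := SF.ug (n := (k : ℤ)) 0 0 (by omega) (by omega) (by omega)
    simp only [mul_zero, neg_zero] at this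
    exact ⟨_, _, this⟩
  · have := SF.re (n := (k : ℤ)) (i.val : ℤ) 1 (by omega) (by omega) (by have := i.2; omega)
    simp only [mul_one] at this
    exact ⟨_, _, this⟩

theorem st_injective {k : ℕ} : Function.Injective (st (k := k)) := by
  intro i j h
  unfold st at h
  apply Fin.ext
  split_ifs at h <;> simp only [Prod.mk.injEq] at h <;> omega

theorem st_not {k : ℕ} (i : Fin k) {u v f : V} (h : SF k u v f) : v ≠ st i := by
  intro he
  have hi := i.2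
  unfold st at he
  split_ifs at he with h0 <;>
  rcases h.cases_eq with ⟨m, a1, rfl, rfl, rfl⟩ | ⟨m, i, a1, a2, a3, rfl, rfl, rfl⟩ |
    ⟨m, i, a1, a2, a3, rfl, rfl, rfl⟩ | ⟨j, a1, rfl, rfl, rfl⟩ | ⟨j, i, a1, a2, a3, rfl, rfl, rfl⟩ |
    ⟨j, i, a1, a2, a3, rfl, rfl, rfl⟩ | ⟨m, j, a1, a2, a3, rfl, rfl, rfl⟩ |
    ⟨m, j, a1, a2, a3, rfl, rfl, rfl⟩ | ⟨m, j, a1, a2, a3, rfl, rfl, rfl⟩ |
    ⟨m, j, a1, a2, a3, rfl, rfl, rfl⟩ | ⟨m, j, a1, a2, a3, rfl, rfl, rfl⟩ |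
    ⟨m, j, a1, a2, a3, rfl, rfl, rfl⟩ | ⟨m, j, a1, a2, a3, rfl, rfl, rfl⟩ |
    ⟨m, j, a1, a2, a3, rfl, rfl, rfl⟩ <;> simp only [Prod.mk.injEq] at he <;> omega

/-- the vertices of an arm -/
noncomputable def arm {k : ℕ} (i : Fin k) (l : ℕ) : V := (nx k)^[l] (st i)

theorem arm_succ {k : ℕ} (i : Fin k) (l : ℕ) : arm i (l + 1) = nx k (arm i l) := by
  rw [arm, Function.iterate_succ_apply', arm]

theorem arm_W {k : ℕ} (hk : 1 ≤ k) (i : Fin k) (l : ℕ) : W k (arm i l) := by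
  induction l with
  | zero => exact st_W hk i
  | succ l ih =>
    obtain ⟨v, f, h⟩ := ih
    rw [arm_succ, h.nx_eq (by omega)]
    exact h.next (by omega)

theorem arm_step {k : ℕ} (hk : 1 ≤ k) (i : Fin k) (l : ℕ) : ∃ f, SF k (arm i l) (arm i (l + 1)) f := by
  obtain ⟨v, f, h⟩ := arm_W hk i l
  refine ⟨f, ?_⟩
  rw [arm_succ, h.nx_eq (by omega)]
  exact h

theorem arm_injective {k : ℕ} (hk : 1 ≤ k) {i j : Fin k} {a b : ℕ} (h : arm i a = arm j b) :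
    i = j ∧ a = b := by
  induction a generalizing b with
  | zero =>
    cases b with
    | zero => exact ⟨st_injective h, rfl⟩
    | succ b =>
      obtain ⟨f, hf⟩ := arm_step hk j b
      exact absurd h.symm (st_not i hf)
  | succ a ih =>
    cases b with
    | zero =>
      obtain ⟨f, hf⟩ := arm_step hk i a
      exact absurd h (st_not j hf)
    | succ b =>
      obtain ⟨f, hf⟩ := arm_step hk i a
      obtain ⟨g, hg⟩ := arm_step hk j b
      have := (hf.unique (by omega) hg (Or.inr (Or.inl h))).1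
      obtain ⟨h1, h2⟩ := ih this
      exact ⟨h1, by omega⟩

/-! ### Every brick has a side on an arm -/

theorem exists_side {n : ℤ} (hn : 1 ≤ n) (f : V) (hf : (f.1 + f.2) % 2 = 0) :
    ∃ u v g : V, SF n u v g ∧ IsSide f u v := by
  obtain ⟨a, b⟩ := f
  simp only at hf
  rcases Int.even_or_odd' b with ⟨j, rfl | rfl⟩
  · obtain ⟨i, rfl⟩ : ∃ i, a = 2 * i := ⟨a / 2, by omega⟩
    -- even row
    by_cases c1 : 1 ≤ j ∧ i ≤ 2 * j ∧ ((n ≤ j ∧ 2 * n - 2 * j ≤ i) ∨ (j < n ∧ 1 ≤ i))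
    · have h := SF.re (n := n) j i c1.1 c1.2.1 c1.2.2
      exact ⟨_, _, _, h, h.isSide⟩
    by_cases c2 : n ≤ j ∧ i = 2 * n - 2 * j - 1
    · have h := SF.rc (n := n) j c2.1
      rw [show 4 * n - 4 * j - 2 = 2 * i by rw [c2.2]; ring] at h
      exact ⟨_, _, _, h, h.isSide⟩
    by_cases c3 : j ≤ -1 ∧ i = -(2 * j)
    · have h := SF.lc (n := n) (-j) (by omega)
      rw [show (4 * -j, -(2 * -j)) = ((2 * i, 2 * j) : V) by
        rw [c3.2]; exact Prod.ext (by simp only; ring) (by simp only; ring)] at h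
      exact ⟨_, _, _, h, h.isSide⟩
    by_cases c4 : j ≤ -1 ∧ 2 * j - 1 ≤ i ∧ i ≤ -(2 * j) - 1
    · have h := SF.le (n := n) (-j) (i + 1) (by omega) (by omega) (by omega)
      rw [show (2 * (i + 1) - 2, -(2 * -j)) = ((2 * i, 2 * j) : V) from
        Prod.ext (by simp only; ring) (by simp only; ring)] at h
      exact ⟨_, _, _, h, h.isSide⟩
    by_cases c5 : 1 ≤ i
    · rcases Int.even_or_odd' i with ⟨m, rfl | rfl⟩
      · have h := SF.db (n := n) m j (by omega) (by omega) (by omega)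
        rw [show 4 * m = 2 * (2 * m) by ring] at h
        exact ⟨_, _, _, h, h.isSide⟩
      · have h := SF.dc (n := n) (m + 1) j (by omega) (by omega) (by omega)
        rw [show 4 * (m + 1) - 2 = 2 * (2 * m + 1) by ring] at h
        exact ⟨_, _, _, h, h.isSide⟩
    by_cases c6 : i = -1 ∧ j = 0
    · have h := SF.ug (n := n) 0 0 (by omega) (by omega) (by omega)
      refine ⟨_, _, _, h, ?_⟩
      rw [c6.1, c6.2]
      exact ⟨by norm_num, 2, Or.inl ⟨by simp [corner], by simp [corner]⟩⟩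
    · rcases Int.even_or_odd' (-i) with ⟨m, hm | hm⟩
      · have h := SF.ug (n := n) m j (by omega) (by omega) (by omega)
        rw [show -(4 * m) = 2 * i by omega] at h
        exact ⟨_, _, _, h, h.isSide⟩
      · have h := SF.uf (n := n) m j (by omega) (by omega) (by omega)
        rw [show -(4 * m) - 2 = 2 * i by omega] at h
        exact ⟨_, _, _, h, h.isSide⟩
  · obtain ⟨i, rfl⟩ : ∃ i, a = 2 * i + 1 := ⟨(a - 1) / 2, by omega⟩
    -- odd row
    by_cases c1 : 0 ≤ j ∧ i ≤ 2 * j + 1 ∧ ((n ≤ j + 1 ∧ 2 * n - 2 * j - 2 ≤ i) ∨ (j + 1 < n ∧ 1 ≤ i))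
    · have h := SF.ro (n := n) (j + 1) i (by omega) (by omega) (by omega)
      rw [show 2 * (j + 1) - 1 = 2 * j + 1 by ring] at h
      exact ⟨_, _, _, h, h.isSide⟩
    by_cases c2 : j ≤ -1 ∧ 2 * j - 1 ≤ i ∧ i ≤ -(2 * j) - 2
    · have h := SF.lo (n := n) (-j) (i + 1) (by omega) (by omega) (by omega)
      rw [show (2 * (i + 1) - 1, 1 - 2 * -j) = ((2 * i + 1, 2 * j + 1) : V) from
        Prod.ext (by simp only; ring) (by simp only; ring)] at h
      exact ⟨_, _, _, h, h.isSide⟩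
    by_cases c3 : 1 ≤ i
    · rcases Int.even_or_odd' i with ⟨m, rfl | rfl⟩
      · have h := SF.da (n := n) m (j + 1) (by omega) (by omega) (by omega)
        rw [show 4 * m + 1 = 2 * (2 * m) + 1 by ring, show 2 * (j + 1) - 1 = 2 * j + 1 by ring] at h
        exact ⟨_, _, _, h, h.isSide⟩
      · have h := SF.dd (n := n) (m + 1) (j + 1) (by omega) (by omega) (by omega)
        rw [show (4 * (m + 1) - 1, 2 * (j + 1) - 1) = ((2 * (2 * m + 1) + 1, 2 * j + 1) : V) from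
          Prod.ext (by simp only; ring) (by simp only; ring)] at h
        exact ⟨_, _, _, h, h.isSide⟩
    by_cases c4 : i = 0
    · have h := SF.re (n := n) (j + 1) 1 (by omega) (by omega) (by omega)
      refine ⟨_, _, _, h, ?_⟩
      rw [c4]
      refine ⟨by simp only; omega, 3, Or.inr ⟨?_, ?_⟩⟩
      · simp [corner]; omega
      · simp [corner]; omega
    · rcases Int.even_or_odd' (-i) with ⟨m, hm | hm⟩
      · have h := SF.ue (n := n) (m - 1) j (by omega) (by omega) (by omega)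
        rw [show -(4 * (m - 1)) - 3 = 2 * i + 1 by omega] at h
        exact ⟨_, _, _, h, h.isSide⟩
      · have h := SF.uh (n := n) m j (by omega) (by omega) (by omega)
        rw [show -(4 * m) - 1 = 2 * i + 1 by omega] at h
        exact ⟨_, _, _, h, h.isSide⟩

/-! ### Every vertex of `W` is on an arm -/

/-- `u` is a vertex of one of the `k` arms -/
def Reach (k : ℕ) (u : V) : Prop := ∃ (i : Fin k) (l : ℕ), arm i l = u

theorem Reach.next {k : ℕ} (hk : 1 ≤ k) {u v f : V} (h : Reach k u) (h' : SF k u v f) :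
    Reach k v := by
  obtain ⟨i, l, hl⟩ := h
  refine ⟨i, l + 1, ?_⟩
  rw [arm_succ, hl]
  exact h'.nx_eq (by omega)

theorem Reach.cast {k : ℕ} {a b c d : ℤ} (h : Reach k (a, b)) (h1 : a = c) (h2 : b = d) :
    Reach k (c, d) := by
  subst h1; subst h2; exact h

theorem reach_R {k : ℕ} (hk : 1 ≤ k) {j i0 : ℤ} (hj : 1 ≤ j) (h0 : Reach k (2 * i0, 2 * j))
    (hi : ((k : ℤ) ≤ j ∧ 2 * (k : ℤ) - 2 * j ≤ i0) ∨ (j < k ∧ 1 ≤ i0)) (i : ℤ) (hi0 : i0 ≤ i) :
    i ≤ 2 * j → Reach k (2 * i, 2 * j) ∧ Reach k (2 * i + 1, 2 * j) := by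
  refine Int.le_induction (motive := fun i _ => i ≤ 2 * j →
    Reach k (2 * i, 2 * j) ∧ Reach k (2 * i + 1, 2 * j)) ?_ ?_ i hi0
  · intro h
    exact ⟨h0, h0.next hk (SF.re (n := (k : ℤ)) j i0 hj h hi)⟩
  · intro i h1 ih h
    obtain ⟨h2, h3⟩ := ih (by omega)
    have h4 := h3.next hk (SF.ro (n := (k : ℤ)) j i hj (by omega) (by omega))
    have h5 : Reach k (2 * (i + 1), 2 * j) := h4.cast (by ring) rfl
    exact ⟨h5, h5.next hk (SF.re (n := (k : ℤ)) j (i + 1) hj h (by omega))⟩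

theorem reach_D {k : ℕ} (hk : 1 ≤ k) {m : ℤ} (hm : 1 ≤ m) (h0 : Reach k (4 * m + 1, 2 * m))
    (j : ℤ) (hj : j ≤ m) : 1 - m ≤ j → Reach k (4 * m + 1, 2 * j) := by
  refine Int.le_induction_down (motive := fun j _ => 1 - m ≤ j → Reach k (4 * m + 1, 2 * j))
    ?_ ?_ j hj
  · intro _
    exact h0
  · intro j h1 ih h
    have h2 := ih (by omega)
    have h3 := h2.next hk (SF.da (n := (k : ℤ)) m j hm (by omega) h1)
    have h4 : Reach k (4 * m + 1, 2 * (j - 1) + 1) := h3.cast rfl (by ring)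
    have h5 := h4.next hk (SF.db (n := (k : ℤ)) m (j - 1) hm (by omega) (by omega))
    have h6 := h5.next hk (SF.dc (n := (k : ℤ)) m (j - 1) hm (by omega) (by omega))
    exact h6.next hk (SF.dd (n := (k : ℤ)) m (j - 1) hm (by omega) (by omega))

theorem reach_L {k : ℕ} (hk : 1 ≤ k) {m : ℤ} (hm : 1 ≤ m) (h0 : Reach k (4 * m + 1, 1 - 2 * m))
    (i : ℤ) (hi : i ≤ 2 * m) : -(2 * m) ≤ i →
    Reach k (2 * i + 1, 1 - 2 * m) ∧ Reach k (2 * i, 1 - 2 * m) := by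
  refine Int.le_induction_down (motive := fun i _ => -(2 * m) ≤ i →
    Reach k (2 * i + 1, 1 - 2 * m) ∧ Reach k (2 * i, 1 - 2 * m)) ?_ ?_ i hi
  · intro _
    have h1 := h0.next hk (SF.lc (n := (k : ℤ)) m hm)
    exact ⟨h0.cast (by ring) rfl, h1.cast (by ring) rfl⟩
  · intro i h1 ih h
    obtain ⟨h2, h3⟩ := ih (by omega)
    have h4 := h3.next hk (SF.le (n := (k : ℤ)) m i hm (by omega) h1)
    have h5 : Reach k (2 * (i - 1) + 1, 1 - 2 * m) := h4.cast (by ring) rfl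
    exact ⟨h5, h5.next hk (SF.lo (n := (k : ℤ)) m (i - 1) hm (by omega) (by omega))⟩

theorem reach_U {k : ℕ} (hk : 1 ≤ k) {m j0 : ℤ} (hm : 0 ≤ m) (hj0 : -m ≤ j0)
    (h0 : Reach k (-(4 * m) - 1, 2 * j0 + 1)) (j : ℤ) (hj : j0 ≤ j) : j < k + m →
    Reach k (-(4 * m) - 1, 2 * j + 1) := by
  refine Int.le_induction (motive := fun j _ => j < k + m →
    Reach k (-(4 * m) - 1, 2 * j + 1)) ?_ ?_ j hj
  · intro _
    exact h0
  · intro j h1 ih h
    have h2 := ih (by omega)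
    have h3 := h2.next hk (SF.ue (n := (k : ℤ)) m j hm (by omega) (by omega))
    have h4 : Reach k (-(4 * m) - 1, 2 * (j + 1)) := h3.cast rfl (by ring)
    have h5 := h4.next hk (SF.uf (n := (k : ℤ)) m (j + 1) hm (by omega) (by omega))
    have h6 := h5.next hk (SF.ug (n := (k : ℤ)) m (j + 1) hm (by omega) (by omega))
    exact h6.next hk (SF.uh (n := (k : ℤ)) m (j + 1) hm (by omega) (by omega))

/-- the left strand number `m` is on the arms -/
def StrandU (k : ℕ) (m : ℤ) : Prop := ∀ j : ℤ, -m ≤ j → j < k + m →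
  Reach k (-(4 * m) - 1, 2 * j + 1)

/-- the top line and the right strand number `m` are on the arms -/
def LineR (k : ℕ) (j : ℤ) : Prop := ∀ i : ℤ, i ≤ 2 * j →
  (((k : ℤ) ≤ j ∧ 2 * (k : ℤ) - 2 * j ≤ i) ∨ (j < k ∧ 1 ≤ i)) →
  Reach k (2 * i, 2 * j) ∧ Reach k (2 * i + 1, 2 * j)

theorem strandU_zero {k : ℕ} (hk : 1 ≤ k) : StrandU k 0 := by
  have h0 : Reach k (0, 0) := ⟨⟨0, by omega⟩, 0, by simp [arm, st]⟩
  have h1 : Reach k (-(4 * 0), 2 * 0) := h0.cast (by norm_num) (by norm_num)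
  have h2 := h1.next hk (SF.ug (n := (k : ℤ)) 0 0 (by omega) (by omega) (by omega))
  have h3 := h2.next hk (SF.uh (n := (k : ℤ)) 0 0 (by omega) (by omega) (by omega))
  intro j hj hj'
  exact reach_U hk (le_refl 0) (by omega) h3 j (by omega) hj'

theorem strandU_of_lineR {k : ℕ} (hk : 1 ≤ k) {m : ℤ} (hm : 1 ≤ m) (h : LineR k m) :
    StrandU k m := by
  have h1 := (h (2 * m) (le_refl _) (by omega)).2
  have h2 : Reach k (4 * m + 1, 2 * m) := h1.cast (by ring) rfl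
  have h3 := reach_D hk hm h2 (1 - m) (by omega) (le_refl _)
  have h4 := h3.next hk (SF.da (n := (k : ℤ)) m (1 - m) hm (by omega) (by omega))
  have h5 : Reach k (4 * m + 1, 1 - 2 * m) := h4.cast rfl (by ring)
  have h6 := (reach_L hk hm h5 (-(2 * m)) (by omega) (le_refl _)).2
  have h7 := h6.next hk (SF.le (n := (k : ℤ)) m (-(2 * m)) hm (le_refl _) (by omega))
  have h8 : Reach k (-(4 * m) - 1, 2 * (-m) + 1) := h7.cast (by ring) (by ring)
  intro j hj hj'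
  exact reach_U hk (by omega) (le_refl _) h8 j hj hj'

theorem lineR_of {k : ℕ} (hk : 1 ≤ k) {j : ℤ} (hj : 1 ≤ j)
    (h : (k : ℤ) ≤ j → StrandU k (j - k)) : LineR k j := by
  by_cases hkj : (k : ℤ) ≤ j
  · have h1 := h hkj (j - 1) (by omega) (by omega)
    have h2 := h1.next hk (SF.ue (n := (k : ℤ)) (j - k) (j - 1) (by omega) (by omega) (by omega))
    have h3 : Reach k (4 * (k : ℤ) - 4 * j - 1, 2 * j) := h2.cast (by ring) (by ring)
    have h4 := h3.next hk (SF.rc (n := (k : ℤ)) j hkj)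
    have h5 : Reach k (2 * (2 * (k : ℤ) - 2 * j), 2 * j) := h4.cast (by ring) rfl
    intro i hi hi'
    exact reach_R hk hj h5 (by omega) i (by omega) hi
  · have h0 : Reach k (2 * 1, 2 * j) := by
      refine ⟨⟨j.toNat, by omega⟩, 0, ?_⟩
      have h1 : j.toNat ≠ 0 := by omega
      have h2 : ((j.toNat : ℕ) : ℤ) = j := by omega
      simp only [arm, st, Function.iterate_zero, id_eq]
      rw [if_neg h1, h2]
      norm_num
    intro i hi hi'
    exact reach_R hk hj h0 (by omega) i (by omega) hi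

theorem all_lines {k : ℕ} (hk : 1 ≤ k) (M : ℕ) :
    (1 ≤ M → LineR k M) ∧ StrandU k M := by
  induction M using Nat.strong_induction_on with
  | _ M ih =>
    rcases Nat.eq_zero_or_pos M with rfl | hM
    · exact ⟨fun h => by omega, by exact_mod_cast strandU_zero hk⟩
    · have h1 : LineR k M := by
        apply lineR_of hk (by omega)
        intro h
        have h2 := (ih (M - k) (by omega)).2
        rw [show ((M - k : ℕ) : ℤ) = (M : ℤ) - k by omega] at h2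
        exact h2
      exact ⟨fun _ => h1, strandU_of_lineR hk (by omega) h1⟩

theorem lineR_all {k : ℕ} (hk : 1 ≤ k) {j : ℤ} (hj : 1 ≤ j) : LineR k j := by
  have := (all_lines hk j.toNat).1 (by omega)
  rwa [show ((j.toNat : ℕ) : ℤ) = j by omega] at this

theorem strandU_all {k : ℕ} (hk : 1 ≤ k) {m : ℤ} (hm : 0 ≤ m) : StrandU k m := by
  have := (all_lines hk m.toNat).2
  rwa [show ((m.toNat : ℕ) : ℤ) = m by omega] at this

theorem covered {k : ℕ} (hk : 1 ≤ k) {u v f : V} (h : SF k u v f) : Reach k u := by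
  have hD : ∀ m : ℤ, 1 ≤ m → Reach k (4 * m + 1, 2 * m) := fun m hm =>
    ((lineR_all hk hm) (2 * m) (le_refl _) (by omega)).2.cast (by ring) rfl
  have hL : ∀ m : ℤ, 1 ≤ m → Reach k (4 * m + 1, 1 - 2 * m) := fun m hm =>
    ((reach_D hk hm (hD m hm) (1 - m) (by omega) (le_refl _)).next hk
      (SF.da (n := (k : ℤ)) m (1 - m) hm (by omega) (by omega))).cast rfl (by ring)
  cases h with
  | lc m h => exact hL m h
  | le m i h h1 h2 => exact (reach_L hk h (hL m h) i h2 h1).2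
  | lo m i h h1 h2 => exact (reach_L hk h (hL m h) i (by omega) h1).1
  | rc j h =>
    exact ((strandU_all hk (by omega : (0 : ℤ) ≤ j - k) (j - 1) (by omega) (by omega)).next hk
      (SF.ue (n := (k : ℤ)) (j - k) (j - 1) (by omega) (by omega) (by omega))).cast (by ring)
        (by ring)
  | re j i h h1 h2 => exact (lineR_all hk h i h1 h2).1
  | ro j i h h1 h2 => exact (lineR_all hk h i (by omega) h2).2
  | da m j h h1 h2 => exact reach_D hk h (hD m h) j h2 h1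
  | db m j h h1 h2 =>
    exact ((reach_D hk h (hD m h) (j + 1) (by omega) (by omega)).next hk
      (SF.da (n := (k : ℤ)) m (j + 1) h (by omega) (by omega))).cast rfl (by ring)
  | dc m j h h1 h2 =>
    exact (((reach_D hk h (hD m h) (j + 1) (by omega) (by omega)).next hk
      (SF.da (n := (k : ℤ)) m (j + 1) h (by omega) (by omega))).cast rfl (by ring)).next hk
      (SF.db (n := (k : ℤ)) m j h h1 h2)
  | dd m j h h1 h2 =>
    exact ((((reach_D hk h (hD m h) (j + 1) (by omega) (by omega)).next hk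
      (SF.da (n := (k : ℤ)) m (j + 1) h (by omega) (by omega))).cast rfl (by ring)).next hk
      (SF.db (n := (k : ℤ)) m j h h1 h2)).next hk (SF.dc (n := (k : ℤ)) m j h h1 h2)
  | ue m j h h1 h2 => exact strandU_all hk h j h1 h2
  | uf m j h h1 h2 =>
    exact ((strandU_all hk h (j - 1) (by omega) (by omega)).next hk
      (SF.ue (n := (k : ℤ)) m (j - 1) h (by omega) (by omega))).cast rfl (by ring)
  | ug m j h h1 h2 =>
    by_cases h3 : m = 0 ∧ j = 0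
    · rw [h3.1, h3.2]
      exact ⟨⟨0, by omega⟩, 0, by simp [arm, st]⟩
    · exact (((strandU_all hk h (j - 1) (by omega) (by omega)).next hk
        (SF.ue (n := (k : ℤ)) m (j - 1) h (by omega) (by omega))).cast rfl (by ring)).next hk
        (SF.uf (n := (k : ℤ)) m j h (by omega) h2)
  | uh m j h h1 h2 =>
    by_cases h3 : m = 0 ∧ j = 0
    · have h0 : Reach k (-(4 * m), 2 * j) := by
        rw [h3.1, h3.2]
        exact ⟨⟨0, by omega⟩, 0, by simp [arm, st]⟩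
      exact h0.next hk (SF.ug (n := (k : ℤ)) m j h (by omega) h2)
    · exact ((((strandU_all hk h (j - 1) (by omega) (by omega)).next hk
        (SF.ue (n := (k : ℤ)) m (j - 1) h (by omega) (by omega))).cast rfl (by ring)).next hk
        (SF.uf (n := (k : ℤ)) m j h (by omega) h2)).next hk
        (SF.ug (n := (k : ℤ)) m j h (by omega) h2)

end Pool.Agent.Q146.HexComb
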