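import Mathlib
import Pool.Agent.Q146.HexComb

set_option autoImplicit false

/-! # From the brick wall to the honeycomb -/

namespace Pool.Agent.Q146.HexGeom

open Pool.Agent.Results.MP_ca213f_co.AllArms (V Adj Plane pt pt_zero pt_one ext2 dist_sq lerp edge
  IsArc edge_comm continuous_lerp)
open Pool.Agent.Q146.HexComb (corner IsSide)

/-! ### The triangle wave -/

/-- The piecewise linear function with value `1` at even and `-1` at odd integers. -/
noncomputable def tri (x : ℝ) : ℝ := |4 * Int.fract (x / 2) - 2| - 1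

theorem tri_le (x : ℝ) : |tri x| ≤ 1 := by
  unfold tri
  have h0 := Int.fract_nonneg (x / 2)
  have h1 := Int.fract_lt_one (x / 2)
  rw [abs_le]
  constructor
  · have := abs_nonneg (4 * Int.fract (x / 2) - 2)
    linarith
  · have : |4 * Int.fract (x / 2) - 2| ≤ 2 := by
      rw [abs_le]; constructor <;> linarith
    linarith

theorem tri_lip_aux {x y : ℝ} (h : y ≤ x) : |tri x - tri y| ≤ 2 * (x - y) := by
  by_cases h1 : 1 ≤ x - y
  · have h2 := abs_le.1 (tri_le x)
    have h3 := abs_le.1 (tri_le y)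
    rw [abs_le]
    constructor <;> linarith
  · push Not at h1
    have fx := Int.fract_nonneg (x / 2)
    have fx' := Int.fract_lt_one (x / 2)
    have fy := Int.fract_nonneg (y / 2)
    have fy' := Int.fract_lt_one (y / 2)
    have ex := Int.floor_add_fract (x / 2)
    have ey := Int.floor_add_fract (y / 2)
    have hle : ⌊y / 2⌋ ≤ ⌊x / 2⌋ := Int.floor_le_floor (by linarith)
    have hlt : ⌊x / 2⌋ ≤ ⌊y / 2⌋ + 1 := by
      have : (⌊x / 2⌋ : ℝ) < ⌊y / 2⌋ + 2 := by linarith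
      have : ⌊x / 2⌋ < ⌊y / 2⌋ + 2 := by exact_mod_cast this
      omega
    rcases (by omega : ⌊x / 2⌋ = ⌊y / 2⌋ ∨ ⌊x / 2⌋ = ⌊y / 2⌋ + 1) with h2 | h2
    · have h3 : (⌊x / 2⌋ : ℝ) = ⌊y / 2⌋ := by exact_mod_cast h2
      unfold tri
      have h4 : |4 * Int.fract (x / 2) - 2 - (4 * Int.fract (y / 2) - 2)| = 2 * (x - y) := by
        rw [abs_of_nonneg] <;> linarith
      have h5 := abs_abs_sub_abs_le_abs_sub (4 * Int.fract (x / 2) - 2) (4 * Int.fract (y / 2) - 2)
      rw [h4] at h5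
      have h6 : |4 * Int.fract (x / 2) - 2| - 1 - (|4 * Int.fract (y / 2) - 2| - 1) =
          |4 * Int.fract (x / 2) - 2| - |4 * Int.fract (y / 2) - 2| := by ring
      rw [h6]
      exact h5
    · have h3 : (⌊x / 2⌋ : ℝ) = ⌊y / 2⌋ + 1 := by exact_mod_cast h2
      unfold tri
      have h4 : |4 * Int.fract (x / 2) - 2| = 2 - 4 * Int.fract (x / 2) := by
        rw [abs_of_nonpos] <;> linarith
      have h5 : |4 * Int.fract (y / 2) - 2| = 4 * Int.fract (y / 2) - 2 := by
        rw [abs_of_nonneg]; linarith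
      rw [h4, h5, abs_le]
      constructor <;> linarith

theorem tri_lip (x y : ℝ) : |tri x - tri y| ≤ 2 * |x - y| := by
  rcases le_total y x with h | h
  · rw [abs_of_nonneg (sub_nonneg.2 h)]
    exact tri_lip_aux h
  · rw [abs_sub_comm, abs_sub_comm x y, abs_of_nonneg (sub_nonneg.2 h)]
    exact tri_lip_aux h

theorem tri_even {m : ℤ} (hm : m % 2 = 0) {t : ℝ} (h : |t| ≤ 1) : tri (m + t) = 1 - 2 * |t| := by
  obtain ⟨k, rfl⟩ : ∃ k, m = 2 * k := ⟨m / 2, by omega⟩
  rw [abs_le] at h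
  unfold tri
  have e : (((2 * k : ℤ) : ℝ) + t) / 2 = k + t / 2 := by push_cast; ring
  rw [e, Int.fract_intCast_add]
  rcases le_or_gt 0 t with h0 | h0
  · rw [Int.fract_eq_self.2 ⟨by linarith, by linarith⟩, abs_of_nonneg h0, abs_of_nonpos (by linarith)]
    ring
  · have : Int.fract (t / 2) = t / 2 + 1 := by
      rw [Int.fract_eq_iff]
      exact ⟨by linarith, by linarith, -1, by push_cast; ring⟩
    rw [this, abs_of_neg h0, abs_of_nonneg (by linarith)]
    ring

theorem tri_odd {m : ℤ} (hm : m % 2 = 1) {t : ℝ} (h : |t| ≤ 1) : tri (m + t) = 2 * |t| - 1 := by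
  obtain ⟨k, rfl⟩ : ∃ k, m = 2 * k + 1 := ⟨m / 2, by omega⟩
  rw [abs_le] at h
  unfold tri
  have e : (((2 * k + 1 : ℤ) : ℝ) + t) / 2 = k + (1 + t) / 2 := by push_cast; ring
  rw [e, Int.fract_intCast_add]
  rcases eq_or_lt_of_le h.2 with h0 | h0
  · subst h0
    norm_num
  · rw [Int.fract_eq_self.2 ⟨by linarith, by linarith⟩]
    congr 1
    rw [show 4 * ((1 + t) / 2) - 2 = 2 * t by ring, abs_mul, abs_of_nonneg (by norm_num : (0:ℝ) ≤ 2)]

theorem tri_int_even {m : ℤ} (hm : m % 2 = 0) : tri m = 1 := by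
  have := tri_even hm (t := 0) (by norm_num)
  simpa using this

theorem tri_int_odd {m : ℤ} (hm : m % 2 = 1) : tri m = -1 := by
  have := tri_odd hm (t := 0) (by norm_num)
  simpa using this

/-- On the unit interval starting at an integer the triangle wave is linear. -/
theorem tri_affine (m : ℤ) {t : ℝ} (h0 : 0 ≤ t) (h1 : t ≤ 1) :
    tri (m + t) = (1 - t) * tri m + t * tri (m + 1 : ℤ) := by
  have ht : |t| ≤ 1 := by rw [abs_of_nonneg h0]; exact h1
  rcases Int.emod_two_eq_zero_or_one m with h | h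
  · rw [tri_even h ht, tri_int_even h, tri_int_odd (by omega : (m + 1) % 2 = 1), abs_of_nonneg h0]
    ring
  · rw [tri_odd h ht, tri_int_odd h, tri_int_even (by omega : (m + 1) % 2 = 0), abs_of_nonneg h0]
    ring

/-! ### The map from the brick wall to the honeycomb -/

/-- `√3` -/
noncomputable def s3 : ℝ := Real.sqrt 3

theorem s3_sq : s3 * s3 = 3 := Real.mul_self_sqrt (by norm_num)

theorem s3_pos : 0 < s3 := Real.sqrt_pos.2 (by norm_num)

theorem s3_ge : 1 ≤ s3 := by
  have := s3_sq; have := s3_pos; nlinarith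

theorem s3_le : s3 ≤ 2 := by
  have := s3_sq; have := s3_pos; nlinarith

/-- the map -/
noncomputable def hx (z : Plane) : Plane :=
  pt (s3 / 2 * z 0) (3 / 2 * z 1 + tri (z 0) * tri (z 1) / 4)

theorem hx_zero (z : Plane) : hx z 0 = s3 / 2 * z 0 := pt_zero _ _
theorem hx_one (z : Plane) : hx z 1 = 3 / 2 * z 1 + tri (z 0) * tri (z 1) / 4 := pt_one _ _

theorem tri_mul_lip (a b c d : ℝ) : |tri a * tri b - tri c * tri d| ≤ 2 * |a - c| + 2 * |b - d| := by
  have e : tri a * tri b - tri c * tri d = (tri a - tri c) * tri b + tri c * (tri b - tri d) := by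
    ring
  rw [e]
  have h1 : |(tri a - tri c) * tri b| ≤ 2 * |a - c| := by
    rw [abs_mul]
    calc |tri a - tri c| * |tri b| ≤ |tri a - tri c| * 1 :=
          mul_le_mul_of_nonneg_left (tri_le b) (abs_nonneg _)
      _ ≤ 2 * |a - c| := by rw [mul_one]; exact tri_lip a c
  have h2 : |tri c * (tri b - tri d)| ≤ 2 * |b - d| := by
    rw [abs_mul]
    calc |tri c| * |tri b - tri d| ≤ 1 * |tri b - tri d| :=
          mul_le_mul_of_nonneg_right (tri_le c) (abs_nonneg _)
      _ ≤ 2 * |b - d| := by rw [one_mul]; exact tri_lip b d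
  calc _ ≤ |(tri a - tri c) * tri b| + |tri c * (tri b - tri d)| := abs_add_le _ _
    _ ≤ _ := by linarith

theorem abs_sub_le_dist (z w : Plane) (i : Fin 2) : |z i - w i| ≤ dist z w := by
  have h := dist_sq z w
  have h2 : |z i - w i| ^ 2 ≤ dist z w ^ 2 := by
    rw [h, sq_abs]
    fin_cases i
    · simp only [Fin.zero_eta]
      nlinarith [sq_nonneg (z 1 - w 1)]
    · simp only [Fin.mk_one]
      nlinarith [sq_nonneg (z 0 - w 0)]
  exact (sq_le_sq₀ (abs_nonneg _) dist_nonneg).1 h2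

theorem dist_le_abs (z w : Plane) : dist z w ≤ |z 0 - w 0| + |z 1 - w 1| := by
  have h := dist_sq z w
  have h2 : dist z w ^ 2 ≤ (|z 0 - w 0| + |z 1 - w 1|) ^ 2 := by
    rw [h, ← sq_abs (z 0 - w 0), ← sq_abs (z 1 - w 1)]
    nlinarith [abs_nonneg (z 0 - w 0), abs_nonneg (z 1 - w 1)]
  exact (sq_le_sq₀ dist_nonneg (by positivity)).1 h2

theorem hx_antilipschitz : AntilipschitzWith 4 hx := by
  apply AntilipschitzWith.of_le_mul_dist
  intro z w
  have h0 := abs_sub_le_dist (hx z) (hx w) 0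
  have h1 := abs_sub_le_dist (hx z) (hx w) 1
  rw [hx_zero, hx_zero] at h0
  rw [hx_one, hx_one] at h1
  have h2 := tri_mul_lip (z 0) (z 1) (w 0) (w 1)
  have h3 := dist_le_abs z w
  have e0 : |s3 / 2 * z 0 - s3 / 2 * w 0| = s3 / 2 * |z 0 - w 0| := by
    rw [← mul_sub, abs_mul, abs_of_pos (by have := s3_pos; positivity)]
  rw [e0] at h0
  have e1 : 3 / 2 * |z 1 - w 1| ≤ |3 / 2 * z 1 + tri (z 0) * tri (z 1) / 4 -
      (3 / 2 * w 1 + tri (w 0) * tri (w 1) / 4)| + |tri (z 0) * tri (z 1) - tri (w 0) * tri (w 1)| / 4 := by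
    have e2 : 3 / 2 * (z 1 - w 1) = (3 / 2 * z 1 + tri (z 0) * tri (z 1) / 4 -
      (3 / 2 * w 1 + tri (w 0) * tri (w 1) / 4)) - (tri (z 0) * tri (z 1) - tri (w 0) * tri (w 1)) / 4 := by
      ring
    have e3 : 3 / 2 * |z 1 - w 1| = |3 / 2 * (z 1 - w 1)| := by
      rw [abs_mul, abs_of_pos (by norm_num : (0:ℝ) < 3 / 2)]
    have e4 : |tri (z 0) * tri (z 1) - tri (w 0) * tri (w 1)| / 4 =
        |(tri (z 0) * tri (z 1) - tri (w 0) * tri (w 1)) / 4| := by
      rw [abs_div, abs_of_pos (by norm_num : (0:ℝ) < 4)]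
    rw [e3, e2, e4]
    exact abs_sub _ _
  have h4 : |z 0 - w 0| ≤ 2 * dist (hx z) (hx w) := by
    have := s3_ge
    nlinarith [abs_nonneg (z 0 - w 0)]
  show dist z w ≤ 4 * dist (hx z) (hx w)
  linarith

theorem hx_lipschitz : LipschitzWith 4 hx := by
  apply LipschitzWith.of_dist_le_mul
  intro z w
  have h0 := abs_sub_le_dist z w 0
  have h1 := abs_sub_le_dist z w 1
  have h2 := tri_mul_lip (z 0) (z 1) (w 0) (w 1)
  have h3 := dist_le_abs (hx z) (hx w)
  rw [hx_zero, hx_zero, hx_one, hx_one] at h3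
  have e0 : |s3 / 2 * z 0 - s3 / 2 * w 0| = s3 / 2 * |z 0 - w 0| := by
    rw [← mul_sub, abs_mul, abs_of_pos (by have := s3_pos; positivity)]
  have e1 : |3 / 2 * z 1 + tri (z 0) * tri (z 1) / 4 - (3 / 2 * w 1 + tri (w 0) * tri (w 1) / 4)| ≤
      3 / 2 * |z 1 - w 1| + |tri (z 0) * tri (z 1) - tri (w 0) * tri (w 1)| / 4 := by
    have e2 : 3 / 2 * z 1 + tri (z 0) * tri (z 1) / 4 - (3 / 2 * w 1 + tri (w 0) * tri (w 1) / 4) =
      3 / 2 * (z 1 - w 1) + (tri (z 0) * tri (z 1) - tri (w 0) * tri (w 1)) / 4 := by ring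
    have e3 : 3 / 2 * |z 1 - w 1| = |3 / 2 * (z 1 - w 1)| := by
      rw [abs_mul, abs_of_pos (by norm_num : (0:ℝ) < 3 / 2)]
    have e4 : |tri (z 0) * tri (z 1) - tri (w 0) * tri (w 1)| / 4 =
        |(tri (z 0) * tri (z 1) - tri (w 0) * tri (w 1)) / 4| := by
      rw [abs_div, abs_of_pos (by norm_num : (0:ℝ) < 4)]
    rw [e3, e2, e4]
    exact abs_add_le _ _
  rw [e0] at h3
  have h5 : s3 / 2 * |z 0 - w 0| ≤ |z 0 - w 0| := by
    have := s3_le
    nlinarith [abs_nonneg (z 0 - w 0)]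
  have h6 : 0 ≤ dist z w := dist_nonneg
  show dist (hx z) (hx w) ≤ 4 * dist z w
  linarith

theorem hx_isClosedEmbedding : Topology.IsClosedEmbedding hx :=
  hx_antilipschitz.isClosedEmbedding hx_lipschitz.uniformContinuous

/-- the segment between two points -/
def seg (a b : Plane) : Set Plane := {z | ∃ t : ℝ, 0 ≤ t ∧ t ≤ 1 ∧ z = (1 - t) • a + t • b}

theorem seg_comm (a b : Plane) : seg a b = seg b a := by
  ext z
  constructor <;> rintro ⟨t, h0, h1, rfl⟩ <;> refine ⟨1 - t, by linarith, by linarith, ?_⟩ <;>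
    rw [add_comm, sub_sub_cancel]

/-- The map is affine on the edges. -/
theorem hx_lerp_h (a b : ℤ) {t : ℝ} (h0 : 0 ≤ t) (h1 : t ≤ 1) :
    hx (lerp (a, b) (a + 1, b) t) = (1 - t) • hx (pt a b) + t • hx (pt (a + 1 : ℤ) b) := by
  have e : (lerp (a, b) (a + 1, b) t) = pt (a + t) b := by
    unfold lerp
    apply ext2
    · simp only [pt_zero]; push_cast; ring
    · simp only [pt_one]; ring
  rw [e]
  apply ext2
  · simp only [hx_zero, pt_zero, PiLp.add_apply, PiLp.smul_apply, smul_eq_mul]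
    push_cast; ring
  · simp only [hx_one, pt_zero, pt_one, PiLp.add_apply, PiLp.smul_apply, smul_eq_mul]
    rw [tri_affine a h0 h1]; ring

theorem hx_lerp_v (a b : ℤ) {t : ℝ} (h0 : 0 ≤ t) (h1 : t ≤ 1) :
    hx (lerp (a, b) (a, b + 1) t) = (1 - t) • hx (pt a b) + t • hx (pt a (b + 1 : ℤ)) := by
  have e : (lerp (a, b) (a, b + 1) t) = pt a (b + t) := by
    unfold lerp
    apply ext2
    · simp only [pt_zero]; ring
    · simp only [pt_one]; push_cast; ring
  rw [e]
  apply ext2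
  · simp only [hx_zero, pt_zero, PiLp.add_apply, PiLp.smul_apply, smul_eq_mul]
    ring
  · simp only [hx_one, pt_zero, pt_one, PiLp.add_apply, PiLp.smul_apply, smul_eq_mul]
    rw [tri_affine b h0 h1]; push_cast; ring

/-- the image of a lattice point -/
noncomputable def hv (u : V) : Plane := hx (pt u.1 u.2)

theorem hx_edge_h (a b : ℤ) : hx '' edge (a, b) (a + 1, b) = seg (hv (a, b)) (hv (a + 1, b)) := by
  ext z
  constructor
  · rintro ⟨_, ⟨t, h0, h1, rfl⟩, rfl⟩
    exact ⟨t, h0, h1, hx_lerp_h a b h0 h1⟩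
  · rintro ⟨t, h0, h1, rfl⟩
    exact ⟨_, ⟨t, h0, h1, rfl⟩, hx_lerp_h a b h0 h1⟩

theorem hx_edge_v (a b : ℤ) : hx '' edge (a, b) (a, b + 1) = seg (hv (a, b)) (hv (a, b + 1)) := by
  ext z
  constructor
  · rintro ⟨_, ⟨t, h0, h1, rfl⟩, rfl⟩
    exact ⟨t, h0, h1, hx_lerp_v a b h0 h1⟩
  · rintro ⟨t, h0, h1, rfl⟩
    exact ⟨_, ⟨t, h0, h1, rfl⟩, hx_lerp_v a b h0 h1⟩

/-! ### The hexagon -/

/-- The regular hexagon with sides of length `1`: the points whose scalar products with the three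
unit vectors `(1, 0)`, `(1/2, √3/2)`, `(1/2, -√3/2)` have absolute value at most `√3/2`. -/
def H : Set Plane := {z | |z 0| ≤ s3 / 2 ∧ |z 0 / 2 + s3 / 2 * z 1| ≤ s3 / 2 ∧
  |z 0 / 2 - s3 / 2 * z 1| ≤ s3 / 2}

/-- rotation by a sixth of a turn -/
noncomputable def rot : Plane ≃ᵢ Plane where
  toFun z := pt (z 0 / 2 - s3 / 2 * z 1) (s3 / 2 * z 0 + z 1 / 2)
  invFun z := pt (z 0 / 2 + s3 / 2 * z 1) (-(s3 / 2 * z 0) + z 1 / 2)
  left_inv z := by
    have := s3_sq
    apply ext2
    · simp only [pt_zero, pt_one]; linear_combination (z 0 / 4) * this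
    · simp only [pt_zero, pt_one]; linear_combination (z 1 / 4) * this
  right_inv z := by
    have := s3_sq
    apply ext2
    · simp only [pt_zero, pt_one]; linear_combination (z 0 / 4) * this
    · simp only [pt_zero, pt_one]; linear_combination (z 1 / 4) * this
  isometry_toFun := by
    apply Isometry.of_dist_eq
    intro z w
    have hs := s3_sq
    have h : dist (pt (z 0 / 2 - s3 / 2 * z 1) (s3 / 2 * z 0 + z 1 / 2))
        (pt (w 0 / 2 - s3 / 2 * w 1) (s3 / 2 * w 0 + w 1 / 2)) ^ 2 = dist z w ^ 2 := by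
      rw [dist_sq, dist_sq]
      simp only [pt_zero, pt_one]
      linear_combination (((z 0 - w 0) ^ 2 + (z 1 - w 1) ^ 2) / 4) * hs
    exact (sq_eq_sq₀ dist_nonneg dist_nonneg).1 h

theorem rot_zero (z : Plane) : rot z 0 = z 0 / 2 - s3 / 2 * z 1 := pt_zero _ _
theorem rot_one (z : Plane) : rot z 1 = s3 / 2 * z 0 + z 1 / 2 := pt_one _ _

theorem rot_mem_H (z : Plane) : rot z ∈ H ↔ z ∈ H := by
  have hs := s3_sq
  unfold H
  simp only [Set.mem_ofPred_eq, rot_zero, rot_one]
  have e1 : (z 0 / 2 - s3 / 2 * z 1) / 2 + s3 / 2 * (s3 / 2 * z 0 + z 1 / 2) = z 0 := by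
    linear_combination (z 0 / 4) * hs
  have e2 : (z 0 / 2 - s3 / 2 * z 1) / 2 - s3 / 2 * (s3 / 2 * z 0 + z 1 / 2) =
      -(z 0 / 2 + s3 / 2 * z 1) := by
    linear_combination (-z 0 / 4) * hs
  rw [e1, e2, abs_neg]
  tauto

theorem rot_image_H : rot '' H = H := by
  ext z
  constructor
  · rintro ⟨w, hw, rfl⟩
    exact (rot_mem_H w).2 hw
  · intro hz
    refine ⟨rot.symm z, ?_, rot.apply_symm_apply z⟩
    rw [← rot_mem_H, rot.apply_symm_apply]
    exact hz

theorem rot_seg (a b : Plane) : rot '' seg a b = seg (rot a) (rot b) := by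
  have key : ∀ t : ℝ, rot ((1 - t) • a + t • b) = (1 - t) • rot a + t • rot b := by
    intro t
    apply ext2
    · simp only [rot_zero, PiLp.add_apply, PiLp.smul_apply, smul_eq_mul]; ring
    · simp only [rot_one, PiLp.add_apply, PiLp.smul_apply, smul_eq_mul]; ring
  ext z
  constructor
  · rintro ⟨_, ⟨t, h0, h1, rfl⟩, rfl⟩
    exact ⟨t, h0, h1, key t⟩
  · rintro ⟨t, h0, h1, rfl⟩
    exact ⟨_, ⟨t, h0, h1, rfl⟩, key t⟩

/-- the corners of the hexagon -/
noncomputable def hc : Fin 6 → Plane :=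
  ![pt (-(s3 / 2)) (-(1 / 2)), pt 0 (-1), pt (s3 / 2) (-(1 / 2)), pt (s3 / 2) (1 / 2), pt 0 1,
    pt (-(s3 / 2)) (1 / 2)]

theorem rot_hc (s : Fin 6) : rot (hc s) = hc (s + 1) := by
  have hs := s3_sq
  fin_cases s
  · apply ext2
    · rw [rot_zero]; simp [hc]; linear_combination 0 * hs
    · rw [rot_one]; simp [hc]; linear_combination (-1 / 4) * hs
  · apply ext2
    · rw [rot_zero]; simp [hc]
    · rw [rot_one]; simp [hc]; norm_num
  · apply ext2
    · rw [rot_zero]; simp [hc]; linear_combination 0 * hs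
    · rw [rot_one]; simp [hc]; linear_combination (1 / 4) * hs
  · apply ext2
    · rw [rot_zero]; simp [hc]; linear_combination 0 * hs
    · rw [rot_one]; simp [hc]; linear_combination (1 / 4) * hs
  · apply ext2
    · rw [rot_zero]; simp [hc]
    · rw [rot_one]; simp [hc]
  · apply ext2
    · rw [rot_zero]; simp [hc]; linear_combination 0 * hs
    · rw [rot_one]; simp [hc]; linear_combination (-1 / 4) * hs

/-- The marked arc, a side of the hexagon. -/
def base : Set Plane := seg (hc 0) (hc 1)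

/-- Rotations map the marked side to all sides. -/
theorem exists_rot (s : Fin 6) : ∃ g : Plane ≃ᵢ Plane, g '' H = H ∧
    g '' base = seg (hc s) (hc (s + 1)) := by
  have key : ∀ k : ℕ, ∃ g : Plane ≃ᵢ Plane, g '' H = H ∧
      g '' base = seg (hc (Fin.ofNat 6 k)) (hc (Fin.ofNat 6 k + 1)) := by
    intro k
    induction k with
    | zero => exact ⟨IsometryEquiv.refl _, Set.image_id _, Set.image_id _⟩
    | succ k ih =>
      obtain ⟨g, h1, h2⟩ := ih
      refine ⟨g.trans rot, ?_, ?_⟩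
      · rw [show ⇑(g.trans rot) = rot ∘ g from rfl, Set.image_comp, h1, rot_image_H]
      · rw [show ⇑(g.trans rot) = rot ∘ g from rfl, Set.image_comp, h2, rot_seg, rot_hc, rot_hc]
        have e : Fin.ofNat 6 (k + 1) = Fin.ofNat 6 k + 1 := by
          apply Fin.ext
          simp [Fin.ofNat, Fin.val_add]
        rw [e]
  obtain ⟨g, h1, h2⟩ := key s.val
  refine ⟨g, h1, ?_⟩
  have e : Fin.ofNat 6 s.val = s := by
    apply Fin.ext
    simp [Fin.ofNat, Nat.mod_eq_of_lt s.2]
  rw [e] at h2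
  exact h2

/-! ### The tiles -/

/-- the centre of the hexagon belonging to the brick `f` -/
noncomputable def cen (f : V) : Plane := pt (s3 / 2 * (f.1 + 1)) (3 / 2 * f.2 + 3 / 4)

/-- the hexagon belonging to the brick `f` -/
def tile (f : V) : Set Plane := {z | z - cen f ∈ H}

theorem hv_corner {f : V} (hf : (f.1 + f.2) % 2 = 0) (s : Fin 6) :
    hv (corner f s) = cen f + hc s := by
  obtain ⟨a, b⟩ := f
  simp only at hf
  have key : ∀ x y : ℤ, hv (x, y) = pt (s3 / 2 * x) (3 / 2 * y + tri x * tri y / 4) := fun x y => by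
    unfold hv hx
    simp only [pt_zero, pt_one]
  have hp : (tri a * tri b = 1 ∧ tri (a + 1 : ℤ) * tri b = -1 ∧ tri (a + 2 : ℤ) * tri b = 1) ∧
      (tri (a + 2 : ℤ) * tri (b + 1 : ℤ) = -1 ∧ tri (a + 1 : ℤ) * tri (b + 1 : ℤ) = 1 ∧
        tri a * tri (b + 1 : ℤ) = -1) := by
    rcases Int.emod_two_eq_zero_or_one a with ha | ha
    · rw [tri_int_even ha, tri_int_odd (by omega : (a + 1) % 2 = 1),
        tri_int_even (by omega : (a + 2) % 2 = 0), tri_int_even (by omega : b % 2 = 0),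
        tri_int_odd (by omega : (b + 1) % 2 = 1)]
      norm_num
    · rw [tri_int_odd ha, tri_int_even (by omega : (a + 1) % 2 = 0),
        tri_int_odd (by omega : (a + 2) % 2 = 1), tri_int_odd (by omega : b % 2 = 1),
        tri_int_even (by omega : (b + 1) % 2 = 0)]
      norm_num
  obtain ⟨⟨h0, h1, h2⟩, h3, h4, h5⟩ := hp
  fin_cases s
  · show hv (a, b) = cen (a, b) + pt (-(s3 / 2)) (-(1 / 2))
    rw [key, h0]
    unfold cen
    apply ext2
    · simp only [pt_zero, PiLp.add_apply]; ring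
    · simp only [pt_one, PiLp.add_apply]; ring
  · show hv (a + 1, b) = cen (a, b) + pt 0 (-1)
    rw [key, h1]
    unfold cen
    apply ext2
    · simp only [pt_zero, PiLp.add_apply]; push_cast; ring
    · simp only [pt_one, PiLp.add_apply]; ring
  · show hv (a + 2, b) = cen (a, b) + pt (s3 / 2) (-(1 / 2))
    rw [key, h2]
    unfold cen
    apply ext2
    · simp only [pt_zero, PiLp.add_apply]; push_cast; ring
    · simp only [pt_one, PiLp.add_apply]; ring
  · show hv (a + 2, b + 1) = cen (a, b) + pt (s3 / 2) (1 / 2)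
    rw [key, h3]
    unfold cen
    apply ext2
    · simp only [pt_zero, PiLp.add_apply]; push_cast; ring
    · simp only [pt_one, PiLp.add_apply]; push_cast; ring
  · show hv (a + 1, b + 1) = cen (a, b) + pt 0 1
    rw [key, h4]
    unfold cen
    apply ext2
    · simp only [pt_zero, PiLp.add_apply]; push_cast; ring
    · simp only [pt_one, PiLp.add_apply]; push_cast; ring
  · show hv (a, b + 1) = cen (a, b) + pt (-(s3 / 2)) (1 / 2)
    rw [key, h5]
    unfold cen
    apply ext2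
    · simp only [pt_zero, PiLp.add_apply]; ring
    · simp only [pt_one, PiLp.add_apply]; push_cast; ring

theorem seg_add (c a b : Plane) : (fun z => c + z) '' seg a b = seg (c + a) (c + b) := by
  have key : ∀ t : ℝ, c + ((1 - t) • a + t • b) = (1 - t) • (c + a) + t • (c + b) := by
    intro t
    apply ext2
    · simp only [PiLp.add_apply, PiLp.smul_apply, smul_eq_mul]; ring
    · simp only [PiLp.add_apply, PiLp.smul_apply, smul_eq_mul]; ring
  ext z
  constructor
  · rintro ⟨_, ⟨t, h0, h1, rfl⟩, rfl⟩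
    exact ⟨t, h0, h1, key t⟩
  · rintro ⟨t, h0, h1, rfl⟩
    exact ⟨_, ⟨t, h0, h1, rfl⟩, key t⟩

/-- The edges of a brick are mapped to the sides of the hexagon. -/
theorem hx_side {f : V} (s : Fin 6) :
    hx '' edge (corner f s) (corner f (s + 1)) = seg (hv (corner f s)) (hv (corner f (s + 1))) := by
  obtain ⟨a, b⟩ := f
  fin_cases s
  · exact hx_edge_h a b
  · have := hx_edge_h (a + 1) b
    rw [show a + 1 + 1 = a + 2 by ring] at this
    exact this
  · exact hx_edge_v (a + 2) b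
  · have := hx_edge_h (a + 1) (b + 1)
    rw [show a + 1 + 1 = a + 2 by ring, edge_comm, seg_comm] at this
    exact this
  · have := hx_edge_h a (b + 1)
    rw [edge_comm, seg_comm] at this
    exact this
  · have := hx_edge_v a b
    rw [edge_comm, seg_comm] at this
    exact this

/-- For every side of a brick there is an isometry mapping the hexagon to the corresponding tile
and the marked side to the image of the side. -/
theorem exists_iso {f u v : V} (h : IsSide f u v) :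
    ∃ g : Plane ≃ᵢ Plane, g '' H = tile f ∧ g '' base = hx '' edge u v := by
  obtain ⟨hf, s, hs⟩ := h
  obtain ⟨g, h1, h2⟩ := exists_rot s
  refine ⟨g.trans (IsometryEquiv.addLeft (cen f)), ?_, ?_⟩
  · rw [show ⇑(g.trans (IsometryEquiv.addLeft (cen f))) = (fun z => cen f + z) ∘ g from rfl,
      Set.image_comp, h1]
    ext z
    constructor
    · rintro ⟨w, hw, rfl⟩
      show cen f + w - cen f ∈ H
      rw [add_sub_cancel_left]
      exact hw
    · intro hz
      exact ⟨z - cen f, hz, by simp⟩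
  · rw [show ⇑(g.trans (IsometryEquiv.addLeft (cen f))) = (fun z => cen f + z) ∘ g from rfl,
      Set.image_comp, h2, seg_add, ← hv_corner hf, ← hv_corner hf]
    rcases hs with ⟨rfl, rfl⟩ | ⟨rfl, rfl⟩
    · rw [hx_side]
    · rw [edge_comm, hx_side]

/-- the height of the line number `b` above the abscissa `X` -/
noncomputable def line (b : ℤ) (X : ℝ) : ℝ := 3 / 2 * b + tri X * tri b / 4

theorem tri_mul_bound (X : ℝ) (b : ℤ) : |tri X * tri b| ≤ 1 := by
  rw [abs_mul]
  calc |tri X| * |tri b| ≤ 1 * 1 :=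
        mul_le_mul (tri_le X) (tri_le b) (abs_nonneg _) zero_le_one
    _ = 1 := one_mul 1

theorem line_mono {b c : ℤ} (h : b < c) (X : ℝ) : line b X + 1 ≤ line c X := by
  unfold line
  have h1 := abs_le.1 (tri_mul_bound X b)
  have h2 := abs_le.1 (tri_mul_bound X c)
  have h3 : (b : ℝ) + 1 ≤ c := by exact_mod_cast h
  linarith

theorem mem_tile {f : V} (hf : (f.1 + f.2) % 2 = 0) (z : Plane) : z ∈ tile f ↔
    |2 * z 0 / s3 - (f.1 + 1)| ≤ 1 ∧ line f.2 (2 * z 0 / s3) ≤ z 1 ∧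
      z 1 ≤ line (f.2 + 1) (2 * z 0 / s3) := by
  have hs := s3_sq
  have hp := s3_pos
  obtain ⟨a, b⟩ := f
  simp only at hf ⊢
  obtain ⟨t, ht⟩ : ∃ t, t = 2 * z 0 / s3 - (a + 1) := ⟨_, rfl⟩
  have e0 : 2 * z 0 / s3 = ((a + 1 : ℤ) : ℝ) + t := by rw [ht]; push_cast; ring
  have e1 : z 0 = s3 / 2 * (t + (a + 1)) := by
    rw [ht]; field_simp; ring
  rw [← ht]
  unfold tile H cen
  simp only [Set.mem_ofPred_eq, PiLp.sub_apply, pt_zero, pt_one]
  rw [show z 0 - s3 / 2 * (a + 1) = s3 / 2 * t by rw [e1]; ring]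
  obtain ⟨w, hw⟩ : ∃ w, w = z 1 - (3 / 2 * b + 3 / 4) := ⟨_, rfl⟩
  rw [← hw]
  have a1 : |s3 / 2 * t| ≤ s3 / 2 ↔ |t| ≤ 1 := by
    rw [abs_mul, abs_of_pos (by positivity)]
    constructor
    · intro h
      by_contra h'
      push Not at h'
      nlinarith
    · intro h
      nlinarith
  have a2 : ∀ r : ℝ, |s3 / 2 * r| ≤ s3 / 2 ↔ |r| ≤ 1 := by
    intro r
    rw [abs_mul, abs_of_pos (by positivity)]
    constructor
    · intro h
      by_contra h'
      push Not at h'
      nlinarith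
    · intro h
      nlinarith
  rw [a1, show s3 / 2 * t / 2 + s3 / 2 * w = s3 / 2 * (t / 2 + w) by ring,
    show s3 / 2 * t / 2 - s3 / 2 * w = s3 / 2 * (t / 2 - w) by ring, a2, a2]
  have hline : |t| ≤ 1 → line b (2 * z 0 / s3) = 3 / 2 * b + (2 * |t| - 1) / 4 ∧
      line (b + 1) (2 * z 0 / s3) = 3 / 2 * b + 3 / 2 + (1 - 2 * |t|) / 4 := by
    intro h
    unfold line
    rw [e0]
    rcases Int.emod_two_eq_zero_or_one a with ha | ha
    · rw [tri_odd (by omega : (a + 1) % 2 = 1) h, tri_int_even (by omega : b % 2 = 0),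
        tri_int_odd (by omega : (b + 1) % 2 = 1)]
      push_cast
      constructor <;> ring
    · rw [tri_even (by omega : (a + 1) % 2 = 0) h, tri_int_odd (by omega : b % 2 = 1),
        tri_int_even (by omega : (b + 1) % 2 = 0)]
      push_cast
      constructor <;> ring
  have hz1 : z 1 = w + (3 / 2 * b + 3 / 4) := by rw [hw]; ring
  constructor
  · rintro ⟨h1, h2, h3⟩
    obtain ⟨l1, l2⟩ := hline h1
    rw [l1, l2, hz1]
    rw [abs_le] at h2 h3
    refine ⟨h1, ?_, ?_⟩
    · rcases abs_cases t with ⟨h, -⟩ | ⟨h, -⟩ <;> rw [h] <;> linarith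
    · rcases abs_cases t with ⟨h, -⟩ | ⟨h, -⟩ <;> rw [h] <;> linarith
  · rintro ⟨h1, h2, h3⟩
    obtain ⟨l1, l2⟩ := hline h1
    rw [l1, hz1] at h2
    rw [l2, hz1] at h3
    refine ⟨h1, ?_, ?_⟩
    · rw [abs_le]
      have := neg_abs_le t
      have := le_abs_self t
      constructor <;> linarith
    · rw [abs_le]
      have := neg_abs_le t
      have := le_abs_self t
      constructor <;> linarith

/-- the bricks -/
def Brick : Type := {f : V // (f.1 + f.2) % 2 = 0}

instance : Countable Brick := by unfold Brick; infer_instance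

theorem tiles_cover : ⋃ f : Brick, tile f.1 = Set.univ := by
  rw [Set.eq_univ_iff_forall]
  intro z
  obtain ⟨X, hX⟩ : ∃ X, X = 2 * z 0 / s3 := ⟨_, rfl⟩
  have key : ∃ b : ℤ, line b X ≤ z 1 ∧ z 1 ≤ line (b + 1) X := by
    obtain ⟨b, hb⟩ : ∃ b, b = ⌊z 1 / (3 / 2)⌋ := ⟨_, rfl⟩
    have h1 : (b : ℝ) ≤ z 1 / (3 / 2) := by rw [hb]; exact Int.floor_le _
    have h2 : z 1 / (3 / 2) < b + 1 := by rw [hb]; exact Int.lt_floor_add_one _
    have h3 : 3 / 2 * (b : ℝ) ≤ z 1 := by
      have := mul_le_mul_of_nonneg_left h1 (by norm_num : (0:ℝ) ≤ 3 / 2)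
      linarith
    have h4 : z 1 < 3 / 2 * (b : ℝ) + 3 / 2 := by
      have := mul_lt_mul_of_pos_left h2 (by norm_num : (0:ℝ) < 3 / 2)
      linarith
    have c0 := abs_le.1 (tri_mul_bound X (b - 1))
    have c2 := abs_le.1 (tri_mul_bound X (b + 1 + 1))
    by_cases g1 : z 1 < line b X
    · refine ⟨b - 1, ?_, ?_⟩
      · unfold line; push_cast; push_cast at c0; linarith
      · rw [sub_add_cancel]; exact g1.le
    · by_cases g2 : line (b + 1) X < z 1
      · refine ⟨b + 1, g2.le, ?_⟩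
        unfold line; push_cast; push_cast at c2; linarith
      · push Not at g1 g2
        exact ⟨b, g1, g2⟩
  obtain ⟨b, hb1, hb2⟩ := key
  obtain ⟨k, hk⟩ : ∃ k : ℤ, k = round ((X - (b + 1)) / 2) := ⟨_, rfl⟩
  have hr := abs_sub_round ((X - (b + 1)) / 2)
  rw [← hk] at hr
  refine Set.mem_iUnion.2 ⟨⟨(2 * k + b, b), by simp only; omega⟩, ?_⟩
  rw [mem_tile (by simp only; omega), ← hX]
  refine ⟨?_, hb1, hb2⟩
  simp only
  push_cast
  rw [show X - (2 * (k : ℝ) + b + 1) = 2 * ((X - (b + 1)) / 2 - k) by ring, abs_mul,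
    abs_of_pos (by norm_num : (0:ℝ) < 2)]
  linarith

theorem interior_tile {f : V} (hf : (f.1 + f.2) % 2 = 0) {z : Plane} (hz : z ∈ interior (tile f)) :
    |2 * z 0 / s3 - (f.1 + 1)| < 1 ∧ line f.2 (2 * z 0 / s3) < z 1 ∧
      z 1 < line (f.2 + 1) (2 * z 0 / s3) := by
  have hp := s3_pos
  rw [mem_interior_iff_mem_nhds, Metric.mem_nhds_iff] at hz
  obtain ⟨ε, hε, hb⟩ := hz
  have key : ∀ s t : ℝ, s ^ 2 + t ^ 2 < ε ^ 2 → z + pt s t ∈ tile f := by
    intro s t hst
    apply hb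
    rw [Metric.mem_ball]
    have e := dist_sq (z + pt s t) z
    have e2 : dist (z + pt s t) z ^ 2 < ε ^ 2 := by
      rw [e]
      simpa using hst
    exact (sq_lt_sq₀ dist_nonneg hε.le).1 e2
  have k1 := key (ε / 2) 0 (by nlinarith)
  have k2 := key (-ε / 2) 0 (by nlinarith)
  have k3 := key 0 (ε / 2) (by nlinarith)
  have k4 := key 0 (-ε / 2) (by nlinarith)
  rw [mem_tile hf] at k1 k2 k3 k4
  simp only [PiLp.add_apply, pt_zero, pt_one, add_zero] at k1 k2 k3 k4
  refine ⟨?_, ?_, ?_⟩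
  · have e1 : 2 * (z 0 + ε / 2) / s3 = 2 * z 0 / s3 + ε / s3 := by ring
    have e2 : 2 * (z 0 + -ε / 2) / s3 = 2 * z 0 / s3 - ε / s3 := by ring
    have e3 : 0 < ε / s3 := by positivity
    have h1 := abs_le.1 k1.1
    have h2 := abs_le.1 k2.1
    rw [e1] at h1
    rw [e2] at h2
    rw [abs_lt]
    constructor <;> linarith
  · linarith [k4.2.1]
  · linarith [k3.2.2]

theorem tiles_disjoint (f g : Brick) (h : f ≠ g) : Disjoint (interior (tile f.1)) (interior (tile g.1)) := by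
  rw [Set.disjoint_left]
  intro z h1 h2
  obtain ⟨⟨a, b⟩, hf⟩ := f
  obtain ⟨⟨c, d⟩, hg⟩ := g
  obtain ⟨a1, a2, a3⟩ := interior_tile hf h1
  obtain ⟨b1, b2, b3⟩ := interior_tile hg h2
  simp only at hf hg a1 a2 a3 b1 b2 b3
  rcases lt_trichotomy b d with hbd | hbd | hbd
  · rcases (show b + 1 ≤ d by omega).eq_or_lt with h3 | h3
    · rw [h3] at a3; linarith
    · have := line_mono h3 (2 * z 0 / s3); linarith
  · subst hbd
    rw [abs_lt] at a1 b1
    have c1 : (a : ℝ) < c + 2 := by linarith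
    have c2 : (c : ℝ) < a + 2 := by linarith
    have c3 : a < c + 2 := by exact_mod_cast c1
    have c4 : c < a + 2 := by exact_mod_cast c2
    apply h
    apply Subtype.ext
    exact Prod.ext (by simp only; omega) rfl
  · rcases (show d + 1 ≤ b by omega).eq_or_lt with h3 | h3
    · rw [h3] at b3; linarith
    · have := line_mono h3 (2 * z 0 / s3); linarith

/-! ### The marked side is an arc in the hexagon -/

theorem base_arc : IsArc base := by
  refine ⟨fun t => (1 - (t : ℝ)) • hc 0 + (t : ℝ) • hc 1, ?_, ?_⟩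
  · have hcont : Continuous (fun t : Set.Icc (0 : ℝ) 1 => (1 - (t : ℝ)) • hc 0 + (t : ℝ) • hc 1) := by
      fun_prop
    have hi : Function.Injective (fun t : Set.Icc (0 : ℝ) 1 => (1 - (t : ℝ)) • hc 0 + (t : ℝ) • hc 1) := by
      intro s t h
      have h1 := congrArg (fun z : Plane => z 1) h
      simp only [PiLp.add_apply, PiLp.smul_apply, smul_eq_mul] at h1
      apply Subtype.ext
      simp [hc] at h1
      linarith
    exact (hcont.isClosedEmbedding hi).isEmbedding
  · ext z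
    constructor
    · rintro ⟨t, rfl⟩
      exact ⟨t, t.2.1, t.2.2, rfl⟩
    · rintro ⟨t, h0, h1, rfl⟩
      exact ⟨⟨t, h0, h1⟩, rfl⟩

theorem base_sub : base ⊆ H := by
  have hs := s3_sq
  have hp := s3_pos
  rintro z ⟨t, h0, h1, rfl⟩
  have e0 : ((1 - t) • hc 0 + t • hc 1) 0 = -(s3 / 2) * (1 - t) := by
    simp [hc]; ring
  have e1 : ((1 - t) • hc 0 + t • hc 1) 1 = -(1 / 2) - t / 2 := by
    simp [hc]; ring
  show |_| ≤ _ ∧ |_| ≤ _ ∧ |_| ≤ _
  rw [e0, e1]
  refine ⟨?_, ?_, ?_⟩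
  · rw [abs_le]; constructor <;> nlinarith
  · rw [abs_le]; constructor <;> nlinarith
  · rw [abs_le]; constructor <;> nlinarith

end Pool.Agent.Q146.HexGeom
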