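import Mathlib

set_option autoImplicit false

/-! Irreducible monohedral multiple tilings of density `2` by congruent rectangles with sides `1`
and `3`, and by congruent right triangles with legs `1` and `3`. -/

namespace Pool.Agent.Q146.IrrDouble

/-- The Euclidean plane. -/
abbrev Plane := EuclideanSpace ℝ (Fin 2)

/-- A multiple tiling of density `d`: every point on the boundary of no tile lies in the interiors
of exactly `d` tiles. -/
def IsMultipleTiling {ι : Type} (T : ι → Set Plane) (d : ℕ) : Prop :=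
  ∀ p : Plane, (∀ i, p ∉ frontier (T i)) → {i | p ∈ interior (T i)}.encard = d

/-- Every tile is congruent to `P` (reflections allowed). -/
def IsMonohedral {ι : Type} (P : Set Plane) (T : ι → Set Plane) : Prop :=
  ∀ i, ∃ g : Plane ≃ᵢ Plane, g '' P = T i

/-- A multiple tiling of density `d` is reducible if its tiles can be split into at least two
nonempty subfamilies (the fibres of `c`), each of which is a multiple tiling of some density
`d' < d`. -/
def IsReducible {ι : Type} (T : ι → Set Plane) (d : ℕ) : Prop :=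
  ∃ (κ : Type) (c : ι → κ), (∃ i j, c i ≠ c j) ∧
    ∀ k ∈ Set.range c, ∃ d' : ℕ, 1 ≤ d' ∧ d' < d ∧
      IsMultipleTiling (fun i : {i : ι // c i = k} => T i) d'

/-- A (nondegenerate) parallelogram. -/
def IsParallelogram (P : Set Plane) : Prop :=
  ∃ a u v : Plane, LinearIndependent ℝ ![u, v] ∧
    P = {p | ∃ s t : ℝ, 0 ≤ s ∧ s ≤ 1 ∧ 0 ≤ t ∧ t ≤ 1 ∧ p = a + s • u + t • v}

/-- A (nondegenerate) triangle. -/
def IsTriangle (P : Set Plane) : Prop :=
  ∃ a b c : Plane, AffineIndependent ℝ ![a, b, c] ∧ P = convexHull ℝ {a, b, c}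

/-! ### Half-planes -/

/-- The linear functional `A x + B y`. -/
noncomputable def fn (A B : ℝ) : Plane →L[ℝ] ℝ :=
  A • EuclideanSpace.proj (0 : Fin 2) + B • EuclideanSpace.proj (1 : Fin 2)

lemma fn_apply (A B : ℝ) (p : Plane) : fn A B p = A * p 0 + B * p 1 := by
  simp [fn]

lemma fn_ne {A B : ℝ} (h : A ≠ 0 ∨ B ≠ 0) : fn A B ≠ 0 := by
  intro h0
  have h1 : fn A B (EuclideanSpace.single 0 1) = 0 := by rw [h0]; rfl
  have h2 : fn A B (EuclideanSpace.single 1 1) = 0 := by rw [h0]; rfl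
  rw [fn_apply] at h1 h2
  simp at h1 h2
  tauto

lemma interior_ge {A B c : ℝ} (h : A ≠ 0 ∨ B ≠ 0) :
    interior {p : Plane | c ≤ A * p 0 + B * p 1} = {p : Plane | c < A * p 0 + B * p 1} := by
  have h1 : {p : Plane | c ≤ A * p 0 + B * p 1} = fn A B ⁻¹' Set.Ici c := by
    ext p; simp [fn_apply, Set.mem_preimage]
  have h2 : {p : Plane | c < A * p 0 + B * p 1} = fn A B ⁻¹' Set.Ioi c := by
    ext p; simp [fn_apply, Set.mem_preimage]
  rw [h1, h2, ← interior_Ici,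
    ← ((fn A B).isOpenMap_of_ne_zero (fn_ne h)).preimage_interior_eq_interior_preimage
      (fn A B).continuous]

/-- The rectangle `[0,3] × [0,1]`. -/
def R0 : Set Plane := {p | 0 ≤ p 0 ∧ p 0 ≤ 3 ∧ 0 ≤ p 1 ∧ p 1 ≤ 1}

/-- The right triangle with vertices `(0,0)`, `(3,0)`, `(0,1)`. -/
def T0 : Set Plane := {p | 0 ≤ p 0 ∧ 0 ≤ p 1 ∧ p 0 + 3 * p 1 ≤ 3}

lemma interior_R0 : interior R0 = {p | 0 < p 0 ∧ p 0 < 3 ∧ 0 < p 1 ∧ p 1 < 1} := by
  have h : R0 = {p : Plane | (0:ℝ) ≤ 1 * p 0 + 0 * p 1} ∩ ({p : Plane | (-3:ℝ) ≤ (-1) * p 0 + 0 * p 1} ∩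
      ({p : Plane | (0:ℝ) ≤ 0 * p 0 + 1 * p 1} ∩ {p : Plane | (-1:ℝ) ≤ 0 * p 0 + (-1) * p 1})) := by
    ext p
    simp only [R0, Set.mem_inter_iff, Set.mem_ofPred_eq]
    constructor
    · rintro ⟨h1, h2, h3, h4⟩; refine ⟨?_, ?_, ?_, ?_⟩ <;> linarith
    · rintro ⟨h1, h2, h3, h4⟩; refine ⟨?_, ?_, ?_, ?_⟩ <;> linarith
  rw [h, interior_inter, interior_inter, interior_inter, interior_ge (by norm_num),
    interior_ge (by norm_num), interior_ge (by norm_num), interior_ge (by norm_num)]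
  ext p
  simp only [Set.mem_inter_iff, Set.mem_ofPred_eq]
  constructor
  · rintro ⟨h1, h2, h3, h4⟩; refine ⟨?_, ?_, ?_, ?_⟩ <;> linarith
  · rintro ⟨h1, h2, h3, h4⟩; refine ⟨?_, ?_, ?_, ?_⟩ <;> linarith

lemma interior_T0 : interior T0 = {p | 0 < p 0 ∧ 0 < p 1 ∧ p 0 + 3 * p 1 < 3} := by
  have h : T0 = {p : Plane | (0:ℝ) ≤ 1 * p 0 + 0 * p 1} ∩
      ({p : Plane | (0:ℝ) ≤ 0 * p 0 + 1 * p 1} ∩ {p : Plane | (-3:ℝ) ≤ (-1) * p 0 + (-3) * p 1}) := by
    ext p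
    simp only [T0, Set.mem_inter_iff, Set.mem_ofPred_eq]
    constructor
    · rintro ⟨h1, h2, h3⟩; refine ⟨?_, ?_, ?_⟩ <;> linarith
    · rintro ⟨h1, h2, h3⟩; refine ⟨?_, ?_, ?_⟩ <;> linarith
  rw [h, interior_inter, interior_inter, interior_ge (by norm_num),
    interior_ge (by norm_num), interior_ge (by norm_num)]
  ext p
  simp only [Set.mem_inter_iff, Set.mem_ofPred_eq]
  constructor
  · rintro ⟨h1, h2, h3⟩; refine ⟨?_, ?_, ?_⟩ <;> linarith
  · rintro ⟨h1, h2, h3⟩; refine ⟨?_, ?_, ?_⟩ <;> linarith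

lemma R0_par : IsParallelogram R0 := by
  refine ⟨0, !₂[(3:ℝ), 0], !₂[(0:ℝ), 1], ?_, ?_⟩
  · rw [LinearIndependent.pair_iff]
    intro s t h
    have h0 := congrArg (fun v : Plane => v 0) h
    have h1 := congrArg (fun v : Plane => v 1) h
    simp at h0 h1
    exact ⟨h0, h1⟩
  · ext p
    simp only [R0, Set.mem_ofPred_eq]
    constructor
    · rintro ⟨h1, h2, h3, h4⟩
      refine ⟨p 0 / 3, p 1, by linarith, by linarith, h3, h4, ?_⟩
      ext i; fin_cases i <;> simp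
    · rintro ⟨s, t, h1, h2, h3, h4, rfl⟩
      simp only [PiLp.add_apply, PiLp.smul_apply, smul_eq_mul]
      simp
      refine ⟨h1, ?_, h3, h4⟩
      linarith

lemma T0_tri : IsTriangle T0 := by
  refine ⟨0, !₂[(3:ℝ), 0], !₂[(0:ℝ), 1], ?_, ?_⟩
  · rw [affineIndependent_iff_linearIndependent_vsub ℝ _ (0 : Fin 3)]
    have : (fun i : {x : Fin 3 // x ≠ 0} => (![(0:Plane), !₂[(3:ℝ), 0], !₂[(0:ℝ), 1]] i -ᵥ
        ![(0:Plane), !₂[(3:ℝ), 0], !₂[(0:ℝ), 1]] 0 : Plane)) =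
        ![!₂[(3:ℝ), 0], !₂[(0:ℝ), 1]] ∘ (fun i : {x : Fin 3 // x ≠ 0} =>
          if (i : Fin 3) = 1 then (0 : Fin 2) else 1) := by
      funext ⟨i, hi⟩
      fin_cases i
      · exact absurd rfl hi
      · simp
      · simp
    rw [this]
    apply LinearIndependent.comp
    · rw [LinearIndependent.pair_iff]
      intro s t h
      have h0 := congrArg (fun v : Plane => v 0) h
      have h1 := congrArg (fun v : Plane => v 1) h
      simp at h0 h1
      exact ⟨h0, h1⟩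
    · rintro ⟨i, hi⟩ ⟨j, hj⟩ h
      fin_cases i <;> fin_cases j <;>
        first | exact absurd rfl hi | exact absurd rfl hj | rfl | simp at h
  · ext p
    rw [convexHull_insert (by simp), convexHull_pair]
    simp only [T0, Set.mem_ofPred_eq, convexJoin, Set.mem_iUnion, Set.mem_singleton_iff,
      exists_prop, exists_eq_left]
    constructor
    · rintro ⟨h1, h2, h3⟩
      by_cases hs : p 0 / 3 + p 1 = 0
      · have e0 : p 0 = 0 := by linarith
        have e1 : p 1 = 0 := by linarith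
        refine ⟨!₂[(3:ℝ), 0], left_mem_segment _ _ _, ?_⟩
        have : p = 0 := by ext i; fin_cases i <;> simp [e0, e1]
        rw [this]; exact left_mem_segment _ _ _
      · have hpos : 0 < p 0 / 3 + p 1 := lt_of_le_of_ne (by positivity) (Ne.symm hs)
        set w := p 0 / 3 + p 1 with hw
        refine ⟨(p 0 / 3 / w) • !₂[(3:ℝ), 0] + (p 1 / w) • !₂[(0:ℝ), 1], ?_, ?_⟩
        · refine ⟨p 0 / 3 / w, p 1 / w, by positivity, by positivity, ?_, rfl⟩
          rw [← add_div]; exact div_self hs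
        · refine ⟨1 - w, w, by linarith, hpos.le, by ring, ?_⟩
          ext i; fin_cases i
          · simp; field_simp
          · simp; field_simp
    · rintro ⟨q, ⟨a, b, ha, hb, hab, rfl⟩, c, d, hc, hd, hcd, rfl⟩
      simp only [PiLp.add_apply, PiLp.smul_apply, smul_eq_mul]
      simp
      refine ⟨by positivity, by positivity, ?_⟩
      have : d * (a + b) ≤ 1 := by rw [hab]; linarith
      nlinarith

/-! ### Irreducibility from an odd cycle -/

/-- Two tiles are linked if some point off all boundaries is interior to both. -/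
def Link {ι : Type} (T : ι → Set Plane) (i j : ι) : Prop :=
  i ≠ j ∧ ∃ p : Plane, (∀ k, p ∉ frontier (T k)) ∧ p ∈ interior (T i) ∧ p ∈ interior (T j)

lemma Link.xor {ι : Type} {T : ι → Set Plane} (hT : IsMultipleTiling T 2) {κ : Type} {c : ι → κ}
    (hc : ∀ k ∈ Set.range c, ∃ d' : ℕ, 1 ≤ d' ∧ d' < 2 ∧
      IsMultipleTiling (fun i : {i : ι // c i = k} => T i) d') {i j : ι} (h : Link T i j)
    {k : κ} (hk : k ∈ Set.range c) : ¬ (c i = k ↔ c j = k) := by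
  obtain ⟨hij, p, hp, hpi, hpj⟩ := h
  obtain ⟨d', hd1, hd2, hd⟩ := hc k hk
  have hd' : d' = 1 := by omega
  subst hd'
  have h1 := hd p (fun i => hp i)
  have h2 := hT p hp
  rw [Nat.cast_one, Set.encard_eq_one] at h1
  obtain ⟨⟨x, hx⟩, hx'⟩ := h1
  have hxm : (⟨x, hx⟩ : {i : ι // c i = k}) ∈
      {i : {i : ι // c i = k} | p ∈ interior (T i)} := by rw [hx']; rfl
  rw [Set.mem_ofPred_eq] at hxm
  have huniq : ∀ y, c y = k → p ∈ interior (T y) → y = x := by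
    intro y hy hpy
    have : (⟨y, hy⟩ : {i : ι // c i = k}) ∈
      {i : {i : ι // c i = k} | p ∈ interior (T i)} := hpy
    rw [hx'] at this
    exact congrArg Subtype.val this
  intro hiff
  by_cases hi : c i = k
  · have hj := hiff.mp hi
    exact hij ((huniq i hi hpi).trans (huniq j hj hpj).symm)
  · have hj : ¬ c j = k := fun h => hi (hiff.mpr h)
    have hxi : x ≠ i := by rintro rfl; exact hi hx
    have hxj : x ≠ j := by rintro rfl; exact hj hx
    have hsub : ({x, i, j} : Set ι) ⊆ {i | p ∈ interior (T i)} := by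
      rintro y (rfl | rfl | rfl)
      · exact hxm
      · exact hpi
      · exact hpj
    have hcard := Set.encard_le_encard hsub
    rw [h2, Set.encard_insert_of_notMem (by simp [hxi, hxj]), Set.encard_pair hij] at hcard
    norm_num at hcard

lemma irreducible_of_cycle {ι : Type} {T : ι → Set Plane} (hT : IsMultipleTiling T 2)
    {a b c d e : ι} (h1 : Link T a b) (h2 : Link T b c) (h3 : Link T c d) (h4 : Link T d e)
    (h5 : Link T e a) : ¬ IsReducible T 2 := by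
  rintro ⟨κ, col, -, hcol⟩
  have hk : col a ∈ Set.range col := ⟨a, rfl⟩
  have g1 := h1.xor hT hcol hk
  have g2 := h2.xor hT hcol hk
  have g3 := h3.xor hT hcol hk
  have g4 := h4.xor hT hcol hk
  have g5 := h5.xor hT hcol hk
  tauto

/-! ### The placements -/

/-- Integer positions: lower left corner and orientation (`false`: horizontal). -/
abbrev Z := ℤ × ℤ × Bool

/-- The positions used. -/
def Good (z : Z) : Prop :=
  if z.2.2 then (z.1 + 2 * z.2.1) % 9 = 2 ∨ (z.1 + 2 * z.2.1) % 9 = 3 ∨ (z.1 + 2 * z.2.1) % 9 = 8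
  else (z.1 + 2 * z.2.1) % 9 = 0 ∨ (z.1 + 2 * z.2.1) % 9 = 4 ∨ (z.1 + 2 * z.2.1) % 9 = 7

/-- The index set of the double tiling by rectangles. -/
abbrev I := {z : Z // Good z}

/-- Interchange of coordinates. -/
noncomputable def sw : Plane ≃ᵢ Plane :=
  (LinearIsometryEquiv.piLpCongrLeft 2 ℝ ℝ (Equiv.swap (0 : Fin 2) 1)).toIsometryEquiv

lemma sw_zero (p : Plane) : sw p 0 = p 1 := by
  show (LinearIsometryEquiv.piLpCongrLeft 2 ℝ ℝ (Equiv.swap (0 : Fin 2) 1)) p 0 = p 1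
  rw [LinearIsometryEquiv.piLpCongrLeft_apply]
  simp [Equiv.piCongrLeft']

lemma sw_one (p : Plane) : sw p 1 = p 0 := by
  show (LinearIsometryEquiv.piLpCongrLeft 2 ℝ ℝ (Equiv.swap (0 : Fin 2) 1)) p 1 = p 0
  rw [LinearIsometryEquiv.piLpCongrLeft_apply]
  simp [Equiv.piCongrLeft']

/-- Local coordinates of the tile at `z`. -/
noncomputable def loc (z : Z) : Plane ≃ᵢ Plane :=
  if z.2.2 then (IsometryEquiv.subRight (!₂[(z.1 : ℝ), (z.2.1 : ℝ)] : Plane)).trans sw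
  else IsometryEquiv.subRight (!₂[(z.1 : ℝ), (z.2.1 : ℝ)] : Plane)

lemma loc_h (x y : ℤ) (p : Plane) :
    loc (x, y, false) p 0 = p 0 - x ∧ loc (x, y, false) p 1 = p 1 - y := by
  simp [loc]

lemma loc_v (x y : ℤ) (p : Plane) :
    loc (x, y, true) p 0 = p 1 - y ∧ loc (x, y, true) p 1 = p 0 - x := by
  simp [loc, sw_zero, sw_one]

/-- Local coordinates with an additional point reflection. -/
noncomputable def loc' (z : Z) (h : Bool) : Plane ≃ᵢ Plane :=
  if h then (loc z).trans (IsometryEquiv.subLeft (!₂[(3 : ℝ), (1 : ℝ)] : Plane)) else loc z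

lemma loc'_t (z : Z) (p : Plane) :
    loc' z true p 0 = 3 - loc z p 0 ∧ loc' z true p 1 = 1 - loc z p 1 := by
  simp [loc']

lemma loc'_f (z : Z) (p : Plane) : loc' z false p = loc z p := by
  simp [loc']

/-- The rectangle at `z`. -/
noncomputable def bar (z : I) : Set Plane := loc z.1 ⁻¹' R0

/-- The two triangles cut from the rectangle at `z` by its diagonal. -/
noncomputable def tri (z : I × Bool) : Set Plane := loc' z.1.1 z.2 ⁻¹' T0

lemma bar_mono : IsMonohedral R0 bar := fun z =>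
  ⟨(loc z.1).symm, by rw [bar, ← IsometryEquiv.image_symm]⟩

lemma tri_mono : IsMonohedral T0 tri := fun z =>
  ⟨(loc' z.1.1 z.2).symm, by rw [tri, ← IsometryEquiv.image_symm]⟩

lemma interior_bar (z : I) : interior (bar z) = loc z.1 ⁻¹' interior R0 :=
  ((loc z.1).toHomeomorph.preimage_interior R0).symm

lemma interior_tri (z : I × Bool) : interior (tri z) = loc' z.1.1 z.2 ⁻¹' interior T0 :=
  ((loc' z.1.1 z.2).toHomeomorph.preimage_interior T0).symm

lemma mem_interior_of_notMem_frontier {S : Set Plane} {p : Plane} (h : p ∉ frontier S)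
    (hp : p ∈ S) : p ∈ interior S := by
  by_contra hc
  exact h ⟨subset_closure hp, hc⟩

lemma mem_bar_h (x y : ℤ) (h : Good (x, y, false)) (p : Plane) :
    p ∈ bar ⟨(x, y, false), h⟩ ↔ x ≤ p 0 ∧ p 0 ≤ x + 3 ∧ y ≤ p 1 ∧ p 1 ≤ y + 1 := by
  simp only [bar, R0, Set.mem_preimage, Set.mem_ofPred_eq]
  rw [(loc_h x y p).1, (loc_h x y p).2]
  constructor <;> (rintro ⟨h1, h2, h3, h4⟩; refine ⟨?_, ?_, ?_, ?_⟩ <;> linarith)

lemma mem_bar_v (x y : ℤ) (h : Good (x, y, true)) (p : Plane) :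
    p ∈ bar ⟨(x, y, true), h⟩ ↔ x ≤ p 0 ∧ p 0 ≤ x + 1 ∧ y ≤ p 1 ∧ p 1 ≤ y + 3 := by
  simp only [bar, R0, Set.mem_preimage, Set.mem_ofPred_eq]
  rw [(loc_v x y p).1, (loc_v x y p).2]
  constructor <;> (rintro ⟨h1, h2, h3, h4⟩; refine ⟨?_, ?_, ?_, ?_⟩ <;> linarith)

lemma mem_ibar_h (x y : ℤ) (h : Good (x, y, false)) (p : Plane) :
    p ∈ interior (bar ⟨(x, y, false), h⟩) ↔
      x < p 0 ∧ p 0 < x + 3 ∧ y < p 1 ∧ p 1 < y + 1 := by
  rw [interior_bar, interior_R0]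
  simp only [Set.mem_preimage, Set.mem_ofPred_eq]
  rw [(loc_h x y p).1, (loc_h x y p).2]
  constructor <;> (rintro ⟨h1, h2, h3, h4⟩; refine ⟨?_, ?_, ?_, ?_⟩ <;> linarith)

lemma mem_ibar_v (x y : ℤ) (h : Good (x, y, true)) (p : Plane) :
    p ∈ interior (bar ⟨(x, y, true), h⟩) ↔
      x < p 0 ∧ p 0 < x + 1 ∧ y < p 1 ∧ p 1 < y + 3 := by
  rw [interior_bar, interior_R0]
  simp only [Set.mem_preimage, Set.mem_ofPred_eq]
  rw [(loc_v x y p).1, (loc_v x y p).2]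
  constructor <;> (rintro ⟨h1, h2, h3, h4⟩; refine ⟨?_, ?_, ?_, ?_⟩ <;> linarith)

/-- Membership of the unit cell `(m,n)` in the rectangle at `z`. -/
def Cov (m n : ℤ) (z : Z) : Prop :=
  if z.2.2 then z.1 = m ∧ z.2.1 ≤ n ∧ n ≤ z.2.1 + 2 else z.2.1 = n ∧ z.1 ≤ m ∧ m ≤ z.1 + 2

lemma mem_interior_bar_iff (p : Plane) (hp : ∀ z, p ∉ frontier (bar z)) (z : I) :
    p ∈ interior (bar z) ↔ Cov ⌊p 0⌋ ⌊p 1⌋ z.1 := by
  obtain ⟨⟨x, y, b⟩, hz⟩ := z
  have f0 := Int.floor_le (p 0)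
  have f0' := Int.lt_floor_add_one (p 0)
  have f1 := Int.floor_le (p 1)
  have f1' := Int.lt_floor_add_one (p 1)
  cases b
  · simp only [Cov, Bool.false_eq_true, if_false]
    constructor
    · rw [mem_ibar_h]
      rintro ⟨h1, h2, h3, h4⟩
      refine ⟨?_, ?_, ?_⟩
      · symm; rw [Int.floor_eq_iff]; exact ⟨h3.le, h4⟩
      · exact Int.le_floor.mpr h1.le
      · have : ⌊p 0⌋ < x + 3 := Int.floor_lt.mpr (by push_cast; exact h2)
        omega
    · rintro ⟨h1, h2, h3⟩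
      apply mem_interior_of_notMem_frontier (hp _)
      rw [mem_bar_h]
      have h1' : (y : ℝ) = ⌊p 1⌋ := by exact_mod_cast h1
      have h2' : (x : ℝ) ≤ ⌊p 0⌋ := by exact_mod_cast h2
      have h3' : (⌊p 0⌋ : ℝ) ≤ x + 2 := by exact_mod_cast h3
      refine ⟨?_, ?_, ?_, ?_⟩ <;> linarith
  · simp only [Cov, if_true]
    constructor
    · rw [mem_ibar_v]
      rintro ⟨h1, h2, h3, h4⟩
      refine ⟨?_, ?_, ?_⟩
      · symm; rw [Int.floor_eq_iff]; exact ⟨h1.le, h2⟩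
      · exact Int.le_floor.mpr h3.le
      · have : ⌊p 1⌋ < y + 3 := Int.floor_lt.mpr (by push_cast; exact h4)
        omega
    · rintro ⟨h1, h2, h3⟩
      apply mem_interior_of_notMem_frontier (hp _)
      rw [mem_bar_v]
      have h1' : (x : ℝ) = ⌊p 0⌋ := by exact_mod_cast h1
      have h2' : (y : ℝ) ≤ ⌊p 1⌋ := by exact_mod_cast h2
      have h3' : (⌊p 1⌋ : ℝ) ≤ y + 2 := by exact_mod_cast h3
      refine ⟨?_, ?_, ?_, ?_⟩ <;> linarith

lemma two_of {A : Set Z} (z w : Z) (hzw : z ≠ w) (h : ∀ v, v ∈ A ↔ v = z ∨ v = w) :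
    A.encard = 2 := by
  have : A = {z, w} := by ext v; rw [h]; simp
  rw [this, Set.encard_pair hzw]

lemma cov_card (m n : ℤ) : {z : Z | Good z ∧ Cov m n z}.encard = 2 := by
  have hr : (m + 2 * n) % 9 = 0 ∨ (m + 2 * n) % 9 = 1 ∨ (m + 2 * n) % 9 = 2 ∨
      (m + 2 * n) % 9 = 3 ∨ (m + 2 * n) % 9 = 4 ∨ (m + 2 * n) % 9 = 5 ∨ (m + 2 * n) % 9 = 6 ∨
      (m + 2 * n) % 9 = 7 ∨ (m + 2 * n) % 9 = 8 := by omega
  rcases hr with h | h | h | h | h | h | h | h | h
  · apply two_of (m, n, false) (m - 2, n, false) (by simp; omega)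
    rintro ⟨x, y, b⟩
    cases b <;> simp [Good, Cov] <;> omega
  · apply two_of (m - 1, n, false) (m, n - 1, true) (by simp)
    rintro ⟨x, y, b⟩
    cases b <;> simp [Good, Cov] <;> omega
  · apply two_of (m - 2, n, false) (m, n, true) (by simp)
    rintro ⟨x, y, b⟩
    cases b <;> simp [Good, Cov] <;> omega
  · apply two_of (m, n, true) (m, n - 2, true) (by simp; omega)
    rintro ⟨x, y, b⟩
    cases b <;> simp [Good, Cov] <;> omega
  · apply two_of (m, n, false) (m, n - 1, true) (by simp)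
    rintro ⟨x, y, b⟩
    cases b <;> simp [Good, Cov] <;> omega
  · apply two_of (m - 1, n, false) (m, n - 1, true) (by simp)
    rintro ⟨x, y, b⟩
    cases b <;> simp [Good, Cov] <;> omega
  · apply two_of (m - 2, n, false) (m, n - 2, true) (by simp)
    rintro ⟨x, y, b⟩
    cases b <;> simp [Good, Cov] <;> omega
  · apply two_of (m, n, false) (m, n - 2, true) (by simp)
    rintro ⟨x, y, b⟩
    cases b <;> simp [Good, Cov] <;> omega
  · apply two_of (m - 1, n, false) (m, n, true) (by simp)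
    rintro ⟨x, y, b⟩
    cases b <;> simp [Good, Cov] <;> omega

lemma bar_tiling : IsMultipleTiling bar 2 := by
  intro p hp
  have h1 : (Subtype.val '' {z : I | p ∈ interior (bar z)}) =
      {z : Z | Good z ∧ Cov ⌊p 0⌋ ⌊p 1⌋ z} := by
    ext z
    simp only [Set.mem_image, Set.mem_ofPred_eq]
    constructor
    · rintro ⟨z', hz', rfl⟩
      exact ⟨z'.2, (mem_interior_bar_iff p hp z').mp hz'⟩
    · rintro ⟨hg, hc⟩
      exact ⟨⟨z, hg⟩, (mem_interior_bar_iff p hp ⟨z, hg⟩).mpr hc, rfl⟩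
  have h2 := (Subtype.val_injective (p := Good)).encard_image {z : I | p ∈ interior (bar z)}
  rw [← h2, h1]
  exact_mod_cast cov_card _ _

/-! ### The triangles -/

lemma tri_subset (z : I) (h : Bool) : tri (z, h) ⊆ bar z := by
  intro p hp
  simp only [tri, bar, Set.mem_preimage] at hp ⊢
  cases h
  · rw [loc'_f] at hp
    simp only [T0, R0, Set.mem_ofPred_eq] at hp ⊢
    obtain ⟨h1, h2, h3⟩ := hp
    refine ⟨h1, ?_, h2, ?_⟩ <;> linarith
  · simp only [T0, R0, Set.mem_ofPred_eq] at hp ⊢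
    rw [(loc'_t _ _).1, (loc'_t _ _).2] at hp
    obtain ⟨h1, h2, h3⟩ := hp
    refine ⟨?_, ?_, ?_, ?_⟩ <;> linarith

lemma tri_cover (z : I) (p : Plane) (hp : p ∈ bar z) : ∃ h, p ∈ tri (z, h) := by
  simp only [tri, bar, Set.mem_preimage, R0, Set.mem_ofPred_eq] at hp ⊢
  obtain ⟨h1, h2, h3, h4⟩ := hp
  rcases le_total (loc z.1 p 0 + 3 * loc z.1 p 1) 3 with h | h
  · refine ⟨false, ?_⟩
    rw [loc'_f]
    simp only [T0, Set.mem_ofPred_eq]
    exact ⟨h1, h3, h⟩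
  · refine ⟨true, ?_⟩
    simp only [T0, Set.mem_ofPred_eq]
    rw [(loc'_t _ _).1, (loc'_t _ _).2]
    refine ⟨?_, ?_, ?_⟩ <;> linarith

lemma tri_disjoint (z : I) (p : Plane) (h1 : p ∈ interior (tri (z, false)))
    (h2 : p ∈ interior (tri (z, true))) : False := by
  rw [interior_tri, interior_T0] at h1 h2
  simp only [Set.mem_preimage, Set.mem_ofPred_eq] at h1 h2
  rw [loc'_f] at h1
  rw [(loc'_t _ _).1, (loc'_t _ _).2] at h2
  obtain ⟨a1, a2, a3⟩ := h1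
  obtain ⟨b1, b2, b3⟩ := h2
  linarith

lemma isClosed_ge (A B c : ℝ) : IsClosed {p : Plane | c ≤ A * p 0 + B * p 1} := by
  have h1 : {p : Plane | c ≤ A * p 0 + B * p 1} = fn A B ⁻¹' Set.Ici c := by
    ext p; simp [fn_apply, Set.mem_preimage]
  rw [h1]; exact isClosed_Ici.preimage (fn A B).continuous

lemma isClosed_R0 : IsClosed R0 := by
  have h : R0 = {p : Plane | (0:ℝ) ≤ 1 * p 0 + 0 * p 1} ∩ ({p : Plane | (-3:ℝ) ≤ (-1) * p 0 + 0 * p 1} ∩
      ({p : Plane | (0:ℝ) ≤ 0 * p 0 + 1 * p 1} ∩ {p : Plane | (-1:ℝ) ≤ 0 * p 0 + (-1) * p 1})) := by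
    ext p
    simp only [R0, Set.mem_inter_iff, Set.mem_ofPred_eq]
    constructor
    · rintro ⟨h1, h2, h3, h4⟩; refine ⟨?_, ?_, ?_, ?_⟩ <;> linarith
    · rintro ⟨h1, h2, h3, h4⟩; refine ⟨?_, ?_, ?_, ?_⟩ <;> linarith
  rw [h]
  exact (isClosed_ge _ _ _).inter ((isClosed_ge _ _ _).inter
    ((isClosed_ge _ _ _).inter (isClosed_ge _ _ _)))

lemma isClosed_T0 : IsClosed T0 := by
  have h : T0 = {p : Plane | (0:ℝ) ≤ 1 * p 0 + 0 * p 1} ∩
      ({p : Plane | (0:ℝ) ≤ 0 * p 0 + 1 * p 1} ∩ {p : Plane | (-3:ℝ) ≤ (-1) * p 0 + (-3) * p 1}) := by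
    ext p
    simp only [T0, Set.mem_inter_iff, Set.mem_ofPred_eq]
    constructor
    · rintro ⟨h1, h2, h3⟩; refine ⟨?_, ?_, ?_⟩ <;> linarith
    · rintro ⟨h1, h2, h3⟩; refine ⟨?_, ?_, ?_⟩ <;> linarith
  rw [h]
  exact (isClosed_ge _ _ _).inter ((isClosed_ge _ _ _).inter (isClosed_ge _ _ _))

lemma isClosed_bar (z : I) : IsClosed (bar z) :=
  isClosed_R0.preimage (loc z.1).continuous

lemma isClosed_tri (z : I × Bool) : IsClosed (tri z) :=
  isClosed_T0.preimage (loc' z.1.1 z.2).continuous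

lemma notMem_frontier {S : Set Plane} (hS : IsClosed S) {p : Plane}
    (h : p ∈ S → p ∈ interior S) : p ∉ frontier S := by
  intro hf
  have h1 : p ∈ S := by
    have := hf.1; rwa [hS.closure_eq] at this
  exact hf.2 (h h1)

lemma tri_tiling : IsMultipleTiling tri 2 := by
  intro p hp
  have hint : ∀ z h, p ∈ tri (z, h) → p ∈ interior (tri (z, h)) := fun z h hz =>
    mem_interior_of_notMem_frontier (hp (z, h)) hz
  have hbar : ∀ z, p ∉ frontier (bar z) := by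
    intro z
    apply notMem_frontier (isClosed_bar z)
    intro hz
    obtain ⟨h, hh⟩ := tri_cover z p hz
    exact interior_mono (tri_subset z h) (hint z h hh)
  have h1 := bar_tiling p hbar
  have h2 : {z | p ∈ interior (bar z)} = Prod.fst '' {i : I × Bool | p ∈ interior (tri i)} := by
    ext z
    simp only [Set.mem_image, Set.mem_ofPred_eq, Prod.exists, exists_and_right, exists_eq_right]
    constructor
    · intro hz
      obtain ⟨h, hh⟩ := tri_cover z p (interior_subset hz)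
      exact ⟨h, hint z h hh⟩
    · rintro ⟨h, hh⟩
      exact interior_mono (tri_subset z h) hh
  have hinj : Set.InjOn Prod.fst {i : I × Bool | p ∈ interior (tri i)} := by
    rintro ⟨z, h⟩ hz ⟨z', h'⟩ hz' (rfl : z = z')
    cases h <;> cases h'
    · rfl
    · exact (tri_disjoint z p hz hz').elim
    · exact (tri_disjoint z p hz' hz).elim
    · rfl
  rw [← hinj.encard_image, ← h2]
  exact h1

/-! ### Sample points -/

/-- The point `(a/20, b/20)`. -/
noncomputable def pt (a b : ℤ) : Plane := !₂[(a : ℝ) / 20, (b : ℝ) / 20]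

lemma pt_zero (a b : ℤ) : pt a b 0 = (a : ℝ) / 20 := by simp [pt]
lemma pt_one (a b : ℤ) : pt a b 1 = (b : ℝ) / 20 := by simp [pt]

lemma pt_bar_h {x y : ℤ} {h : Good (x, y, false)} {a b : ℤ} :
    (pt a b ∈ bar ⟨(x, y, false), h⟩ ↔
      20 * x ≤ a ∧ a ≤ 20 * x + 60 ∧ 20 * y ≤ b ∧ b ≤ 20 * y + 20) ∧
    (pt a b ∈ interior (bar ⟨(x, y, false), h⟩) ↔
      20 * x < a ∧ a < 20 * x + 60 ∧ 20 * y < b ∧ b < 20 * y + 20) := by
  constructor
  · rw [mem_bar_h, pt_zero, pt_one]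
    constructor
    · rintro ⟨h1, h2, h3, h4⟩
      refine ⟨?_, ?_, ?_, ?_⟩ <;> (rify; linarith)
    · rintro ⟨h1, h2, h3, h4⟩
      rify at h1 h2 h3 h4
      refine ⟨?_, ?_, ?_, ?_⟩ <;> linarith
  · rw [mem_ibar_h, pt_zero, pt_one]
    constructor
    · rintro ⟨h1, h2, h3, h4⟩
      refine ⟨?_, ?_, ?_, ?_⟩ <;> (rify; linarith)
    · rintro ⟨h1, h2, h3, h4⟩
      rify at h1 h2 h3 h4
      refine ⟨?_, ?_, ?_, ?_⟩ <;> linarith

lemma pt_bar_v {x y : ℤ} {h : Good (x, y, true)} {a b : ℤ} :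
    (pt a b ∈ bar ⟨(x, y, true), h⟩ ↔
      20 * x ≤ a ∧ a ≤ 20 * x + 20 ∧ 20 * y ≤ b ∧ b ≤ 20 * y + 60) ∧
    (pt a b ∈ interior (bar ⟨(x, y, true), h⟩) ↔
      20 * x < a ∧ a < 20 * x + 20 ∧ 20 * y < b ∧ b < 20 * y + 60) := by
  constructor
  · rw [mem_bar_v, pt_zero, pt_one]
    constructor
    · rintro ⟨h1, h2, h3, h4⟩
      refine ⟨?_, ?_, ?_, ?_⟩ <;> (rify; linarith)
    · rintro ⟨h1, h2, h3, h4⟩
      rify at h1 h2 h3 h4
      refine ⟨?_, ?_, ?_, ?_⟩ <;> linarith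
  · rw [mem_ibar_v, pt_zero, pt_one]
    constructor
    · rintro ⟨h1, h2, h3, h4⟩
      refine ⟨?_, ?_, ?_, ?_⟩ <;> (rify; linarith)
    · rintro ⟨h1, h2, h3, h4⟩
      rify at h1 h2 h3 h4
      refine ⟨?_, ?_, ?_, ?_⟩ <;> linarith

lemma pt_tri_hf {x y : ℤ} {h : Good (x, y, false)} {a b : ℤ} :
    (pt a b ∈ tri (⟨(x, y, false), h⟩, false) ↔
      20 * x ≤ a ∧ 20 * y ≤ b ∧ (a - 20 * x) + 3 * (b - 20 * y) ≤ 60) ∧
    (pt a b ∈ interior (tri (⟨(x, y, false), h⟩, false)) ↔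
      20 * x < a ∧ 20 * y < b ∧ (a - 20 * x) + 3 * (b - 20 * y) < 60) := by
  rw [interior_tri, interior_T0]
  simp only [tri, T0, Set.mem_preimage, Set.mem_ofPred_eq]
  rw [loc'_f, (loc_h x y _).1, (loc_h x y _).2, pt_zero, pt_one]
  refine ⟨⟨?_, ?_⟩, ⟨?_, ?_⟩⟩
  · rintro ⟨h1, h2, h3⟩; refine ⟨?_, ?_, ?_⟩ <;> (rify; linarith)
  · rintro ⟨h1, h2, h3⟩; rify at h1 h2 h3; refine ⟨?_, ?_, ?_⟩ <;> linarith
  · rintro ⟨h1, h2, h3⟩; refine ⟨?_, ?_, ?_⟩ <;> (rify; linarith)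
  · rintro ⟨h1, h2, h3⟩; rify at h1 h2 h3; refine ⟨?_, ?_, ?_⟩ <;> linarith

lemma pt_tri_ht {x y : ℤ} {h : Good (x, y, false)} {a b : ℤ} :
    (pt a b ∈ tri (⟨(x, y, false), h⟩, true) ↔
      a ≤ 20 * x + 60 ∧ b ≤ 20 * y + 20 ∧ 60 ≤ (a - 20 * x) + 3 * (b - 20 * y)) ∧
    (pt a b ∈ interior (tri (⟨(x, y, false), h⟩, true)) ↔
      a < 20 * x + 60 ∧ b < 20 * y + 20 ∧ 60 < (a - 20 * x) + 3 * (b - 20 * y)) := by
  rw [interior_tri, interior_T0]
  simp only [tri, T0, Set.mem_preimage, Set.mem_ofPred_eq]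
  rw [(loc'_t _ _).1, (loc'_t _ _).2, (loc_h x y _).1, (loc_h x y _).2, pt_zero, pt_one]
  refine ⟨⟨?_, ?_⟩, ⟨?_, ?_⟩⟩
  · rintro ⟨h1, h2, h3⟩; refine ⟨?_, ?_, ?_⟩ <;> (rify; linarith)
  · rintro ⟨h1, h2, h3⟩; rify at h1 h2 h3; refine ⟨?_, ?_, ?_⟩ <;> linarith
  · rintro ⟨h1, h2, h3⟩; refine ⟨?_, ?_, ?_⟩ <;> (rify; linarith)
  · rintro ⟨h1, h2, h3⟩; rify at h1 h2 h3; refine ⟨?_, ?_, ?_⟩ <;> linarith

lemma pt_tri_vf {x y : ℤ} {h : Good (x, y, true)} {a b : ℤ} :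
    (pt a b ∈ tri (⟨(x, y, true), h⟩, false) ↔
      20 * y ≤ b ∧ 20 * x ≤ a ∧ (b - 20 * y) + 3 * (a - 20 * x) ≤ 60) ∧
    (pt a b ∈ interior (tri (⟨(x, y, true), h⟩, false)) ↔
      20 * y < b ∧ 20 * x < a ∧ (b - 20 * y) + 3 * (a - 20 * x) < 60) := by
  rw [interior_tri, interior_T0]
  simp only [tri, T0, Set.mem_preimage, Set.mem_ofPred_eq]
  rw [loc'_f, (loc_v x y _).1, (loc_v x y _).2, pt_zero, pt_one]
  refine ⟨⟨?_, ?_⟩, ⟨?_, ?_⟩⟩
  · rintro ⟨h1, h2, h3⟩; refine ⟨?_, ?_, ?_⟩ <;> (rify; linarith)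
  · rintro ⟨h1, h2, h3⟩; rify at h1 h2 h3; refine ⟨?_, ?_, ?_⟩ <;> linarith
  · rintro ⟨h1, h2, h3⟩; refine ⟨?_, ?_, ?_⟩ <;> (rify; linarith)
  · rintro ⟨h1, h2, h3⟩; rify at h1 h2 h3; refine ⟨?_, ?_, ?_⟩ <;> linarith

lemma pt_tri_vt {x y : ℤ} {h : Good (x, y, true)} {a b : ℤ} :
    (pt a b ∈ tri (⟨(x, y, true), h⟩, true) ↔
      b ≤ 20 * y + 60 ∧ a ≤ 20 * x + 20 ∧ 60 ≤ (b - 20 * y) + 3 * (a - 20 * x)) ∧
    (pt a b ∈ interior (tri (⟨(x, y, true), h⟩, true)) ↔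
      b < 20 * y + 60 ∧ a < 20 * x + 20 ∧ 60 < (b - 20 * y) + 3 * (a - 20 * x)) := by
  rw [interior_tri, interior_T0]
  simp only [tri, T0, Set.mem_preimage, Set.mem_ofPred_eq]
  rw [(loc'_t _ _).1, (loc'_t _ _).2, (loc_v x y _).1, (loc_v x y _).2, pt_zero, pt_one]
  refine ⟨⟨?_, ?_⟩, ⟨?_, ?_⟩⟩
  · rintro ⟨h1, h2, h3⟩; refine ⟨?_, ?_, ?_⟩ <;> (rify; linarith)
  · rintro ⟨h1, h2, h3⟩; rify at h1 h2 h3; refine ⟨?_, ?_, ?_⟩ <;> linarith
  · rintro ⟨h1, h2, h3⟩; refine ⟨?_, ?_, ?_⟩ <;> (rify; linarith)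
  · rintro ⟨h1, h2, h3⟩; rify at h1 h2 h3; refine ⟨?_, ?_, ?_⟩ <;> linarith

lemma pt_generic {a b : ℤ} (h1 : a % 20 ≠ 0) (h2 : b % 20 ≠ 0) (h3 : (a + 3 * b) % 20 ≠ 0)
    (h4 : (3 * a + b) % 20 ≠ 0) :
    (∀ z, pt a b ∉ frontier (bar z)) ∧ ∀ z, pt a b ∉ frontier (tri z) := by
  constructor
  · rintro ⟨⟨x, y, o⟩, hz⟩
    apply notMem_frontier (isClosed_bar _)
    cases o
    · rw [pt_bar_h.1, pt_bar_h.2]; omega
    · rw [pt_bar_v.1, pt_bar_v.2]; omega
  · rintro ⟨⟨⟨x, y, o⟩, hz⟩, h⟩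
    apply notMem_frontier (isClosed_tri _)
    cases o <;> cases h
    · rw [pt_tri_hf.1, pt_tri_hf.2]; omega
    · rw [pt_tri_ht.1, pt_tri_ht.2]; omega
    · rw [pt_tri_vf.1, pt_tri_vf.2]; omega
    · rw [pt_tri_vt.1, pt_tri_vt.2]; omega

/-- The five tiles of the odd cycle. -/
def zA : I := ⟨(0, 0, false), by simp [Good]⟩
def zB : I := ⟨(1, -1, true), by simp [Good]⟩
def zC : I := ⟨(1, 1, true), by simp [Good]⟩
def zD : I := ⟨(0, 2, false), by simp [Good]⟩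
def zE : I := ⟨(2, 0, true), by simp [Good]⟩

lemma bar_irreducible : ¬ IsReducible bar 2 := by
  have g1 := pt_generic (a := 26) (b := 3) (by norm_num) (by norm_num) (by norm_num) (by norm_num)
  have g2 := pt_generic (a := 22) (b := 31) (by norm_num) (by norm_num) (by norm_num) (by norm_num)
  have g3 := pt_generic (a := 26) (b := 43) (by norm_num) (by norm_num) (by norm_num) (by norm_num)
  have g4 := pt_generic (a := 43) (b := 43) (by norm_num) (by norm_num) (by norm_num) (by norm_num)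
  have g5 := pt_generic (a := 45) (b := 4) (by norm_num) (by norm_num) (by norm_num) (by norm_num)
  refine irreducible_of_cycle bar_tiling (a := zA) (b := zB) (c := zC) (d := zD) (e := zE)
    ⟨fun h => absurd (congrArg Subtype.val h) (by decide), _, g1.1, pt_bar_h.2.mpr (by norm_num), pt_bar_v.2.mpr (by norm_num)⟩
    ⟨fun h => absurd (congrArg Subtype.val h) (by decide), _, g2.1, pt_bar_v.2.mpr (by norm_num), pt_bar_v.2.mpr (by norm_num)⟩
    ⟨fun h => absurd (congrArg Subtype.val h) (by decide), _, g3.1, pt_bar_v.2.mpr (by norm_num), pt_bar_h.2.mpr (by norm_num)⟩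
    ⟨fun h => absurd (congrArg Subtype.val h) (by decide), _, g4.1, pt_bar_h.2.mpr (by norm_num), pt_bar_v.2.mpr (by norm_num)⟩
    ⟨fun h => absurd (congrArg Subtype.val h) (by decide), _, g5.1, pt_bar_v.2.mpr (by norm_num), pt_bar_h.2.mpr (by norm_num)⟩

lemma tri_irreducible : ¬ IsReducible tri 2 := by
  have g1 := pt_generic (a := 26) (b := 3) (by norm_num) (by norm_num) (by norm_num) (by norm_num)
  have g2 := pt_generic (a := 22) (b := 31) (by norm_num) (by norm_num) (by norm_num) (by norm_num)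
  have g3 := pt_generic (a := 26) (b := 43) (by norm_num) (by norm_num) (by norm_num) (by norm_num)
  have g4 := pt_generic (a := 43) (b := 43) (by norm_num) (by norm_num) (by norm_num) (by norm_num)
  have g5 := pt_generic (a := 45) (b := 4) (by norm_num) (by norm_num) (by norm_num) (by norm_num)
  refine irreducible_of_cycle tri_tiling (a := (zA, false)) (b := (zB, false)) (c := (zC, false))
    (d := (zD, false)) (e := (zE, false))
    ⟨fun h => absurd (congrArg (fun z : I × Bool => z.1.1) h) (by decide), _, g1.2, pt_tri_hf.2.mpr (by norm_num), pt_tri_vf.2.mpr (by norm_num)⟩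
    ⟨fun h => absurd (congrArg (fun z : I × Bool => z.1.1) h) (by decide), _, g2.2, pt_tri_vf.2.mpr (by norm_num), pt_tri_vf.2.mpr (by norm_num)⟩
    ⟨fun h => absurd (congrArg (fun z : I × Bool => z.1.1) h) (by decide), _, g3.2, pt_tri_vf.2.mpr (by norm_num), pt_tri_hf.2.mpr (by norm_num)⟩
    ⟨fun h => absurd (congrArg (fun z : I × Bool => z.1.1) h) (by decide), _, g4.2, pt_tri_hf.2.mpr (by norm_num), pt_tri_vf.2.mpr (by norm_num)⟩
    ⟨fun h => absurd (congrArg (fun z : I × Bool => z.1.1) h) (by decide), _, g5.2, pt_tri_vf.2.mpr (by norm_num), pt_tri_hf.2.mpr (by norm_num)⟩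

end Pool.Agent.Q146.IrrDouble
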