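import Mathlib

/-!
# A max-sum matching whose open diametral balls have no common point

`400` points in dimension `401`, in four classes of `100` points: the `i`-th point of class `j` is
`c_j e_(j,i) + u_j g` for an orthonormal system `e_(j,i), g`, with `c = (12, 5, √72, √72)` and
`u = (0, 0, 1, 1)`. Class `0` is matched with class `1` and class `2` with class `3`. The potentials
`y = (9, 4, 6, 6)` satisfy `|p - q| ≤ y_p + y_q` with equality on the matching, so the matching is
max-sum; summing the inner products `⟨x - p, x - q⟩` over the matching shows that no point `x` lies in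
all open balls.
-/

set_option autoImplicit false

namespace Q146.MaxSum

open Finset

/-- index type of the points -/
abbrev I : Type := Fin 4 × Fin 100

/-- index type of the coordinates -/
abbrev K : Type := Option I

/-- the ambient space -/
abbrev F : Type := EuclideanSpace ℝ K

noncomputable def c : Fin 4 → ℝ := ![12, 5, Real.sqrt 72, Real.sqrt 72]
noncomputable def u : Fin 4 → ℝ := ![0, 0, 1, 1]
noncomputable def y : Fin 4 → ℝ := ![9, 4, 6, 6]

/-- squares of the `c_j` -/
noncomputable def c2 : Fin 4 → ℝ := ![144, 25, 72, 72]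

theorem c_sq (j : Fin 4) : c j ^ 2 = c2 j := by
  fin_cases j <;> simp [c, c2] <;> norm_num

theorem c_pos (j : Fin 4) : 0 < c j := by
  fin_cases j <;> simp [c]

noncomputable def pt (a : I) : F :=
  EuclideanSpace.single (some a) (c a.1) + EuclideanSpace.single none (u a.1)

theorem inner_pt (a b : I) :
    inner ℝ (pt a) (pt b) = (if a = b then c2 a.1 else 0) + u a.1 * u b.1 := by
  simp only [pt, inner_add_left, inner_add_right, EuclideanSpace.inner_single_left,
    PiLp.single_apply]
  by_cases h : a = b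
  · subst h
    simp [← c_sq]
    ring
  · simp [h]

theorem dist_sq (a b : I) (h : a ≠ b) :
    dist (pt a) (pt b) ^ 2 = c2 a.1 + c2 b.1 + (u a.1 - u b.1) ^ 2 := by
  rw [dist_eq_norm, norm_sub_sq_real, ← real_inner_self_eq_norm_sq, ← real_inner_self_eq_norm_sq,
    inner_pt, inner_pt, inner_pt]
  simp [h]
  ring

theorem pt_injective : Function.Injective pt := by
  intro a b hab
  by_contra h
  have h1 := dist_sq a b h
  rw [hab, dist_self] at h1
  have h2 : 0 < c2 a.1 := by rw [← c_sq]; have := c_pos a.1; positivity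
  have h3 : 0 < c2 b.1 := by rw [← c_sq]; have := c_pos b.1; positivity
  nlinarith [sq_nonneg (u a.1 - u b.1)]

theorem table (j k : Fin 4) : c2 j + c2 k + (u j - u k) ^ 2 ≤ (y j + y k) ^ 2 := by
  fin_cases j <;> fin_cases k <;> simp [c2, u, y] <;> norm_num

theorem y_pos (j : Fin 4) : 0 < y j := by
  fin_cases j <;> simp [y]

theorem dist_le (a b : I) (h : a ≠ b) : dist (pt a) (pt b) ≤ y a.1 + y b.1 := by
  have h1 := dist_sq a b h
  have h2 := table a.1 b.1
  have h3 := y_pos a.1
  have h4 := y_pos b.1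
  exact le_of_sq_le_sq (by linarith) (by linarith)

/-- partner class -/
def pc : Fin 4 → Fin 4 := ![1, 0, 3, 2]

theorem pc_pc : ∀ j, pc (pc j) = j := by decide
theorem pc_ne : ∀ j, pc j ≠ j := by decide

/-- the matching -/
def s (a : I) : I := (pc a.1, a.2)

theorem s_s (a : I) : s (s a) = a := by simp [s, pc_pc]
theorem s_ne (a : I) : s a ≠ a := fun h => pc_ne a.1 (congrArg Prod.fst h)

theorem table_eq (j : Fin 4) : c2 j + c2 (pc j) + (u j - u (pc j)) ^ 2 = (y j + y (pc j)) ^ 2 := by
  fin_cases j <;> simp [c2, u, y, pc] <;> norm_num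

theorem dist_eq (a : I) : dist (pt a) (pt (s a)) = y a.1 + y (pc a.1) := by
  have h1 := dist_sq a (s a) (s_ne a).symm
  have h2 := table_eq a.1
  have h3 := y_pos a.1
  have h4 := y_pos (pc a.1)
  have h5 : dist (pt a) (pt (s a)) ^ 2 = (y a.1 + y (pc a.1)) ^ 2 := h1.trans h2
  exact (sq_eq_sq₀ dist_nonneg (by linarith)).1 h5

/-- the matching is max-sum -/
theorem max_sum (t : Equiv.Perm I) (ht : ∀ a, t a ≠ a) :
    ∑ a, dist (pt a) (pt (t a)) ≤ ∑ a, dist (pt a) (pt (s a)) := by
  have h1 : ∑ a, dist (pt a) (pt (t a)) ≤ ∑ a, (y a.1 + y (t a).1) :=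
    sum_le_sum fun a _ => dist_le a (t a) (ht a).symm
  have h2 : ∑ a : I, y (t a).1 = ∑ a : I, y a.1 := Equiv.sum_comp t (fun a => y a.1)
  let S : Equiv.Perm I := ⟨s, s, s_s, s_s⟩
  have h3 : ∑ a : I, y (pc a.1) = ∑ a : I, y a.1 := Equiv.sum_comp S (fun a => y a.1)
  rw [sum_add_distrib, h2] at h1
  have h4 : ∑ a, dist (pt a) (pt (s a)) = ∑ a : I, y a.1 + ∑ a : I, y a.1 := by
    rw [sum_congr rfl fun a _ => dist_eq a, sum_add_distrib, h3]
  rw [h4]
  exact h1

theorem sum_inner_s : ∑ a, inner ℝ (pt a) (pt (s a)) = 200 := by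
  have h1 : ∀ a : I, inner ℝ (pt a) (pt (s a)) = u a.1 * u (pc a.1) := by
    intro a
    rw [inner_pt, if_neg (s_ne a).symm, zero_add]
    rfl
  rw [sum_congr rfl fun a _ => h1 a, Fintype.sum_prod_type]
  simp only [sum_const, card_univ, Fintype.card_fin, Fin.sum_univ_four, nsmul_eq_mul]
  simp [u, pc]
  norm_num

theorem sum_u : ∑ a : I, u a.1 = 200 := by
  rw [Fintype.sum_prod_type]
  simp only [sum_const, card_univ, Fintype.card_fin, Fin.sum_univ_four, nsmul_eq_mul]
  simp [u]
  norm_num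

theorem sum_c2 : ∑ a : I, c2 a.1 = 31300 := by
  rw [Fintype.sum_prod_type]
  simp only [sum_const, card_univ, Fintype.card_fin, Fin.sum_univ_four, nsmul_eq_mul]
  simp [c2]
  norm_num

theorem norm_sum : ‖∑ a, pt a‖ ^ 2 = 71300 := by
  have h1 : ∀ a : I, inner ℝ (pt a) (∑ b, pt b) = c2 a.1 + u a.1 * 200 := by
    intro a
    rw [inner_sum, sum_congr rfl fun b _ => inner_pt a b, sum_add_distrib, ← mul_sum, sum_u,
      sum_ite_eq, if_pos (mem_univ a)]
  rw [← real_inner_self_eq_norm_sq, sum_inner, sum_congr rfl fun a _ => h1 a, sum_add_distrib,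
    ← sum_mul, sum_u, sum_c2]
  norm_num

/-- no point lies in all open balls -/
theorem no_point (x : F) (h : ∀ a, dist x (midpoint ℝ (pt a) (pt (s a))) < dist (pt a) (pt (s a)) / 2) :
    False := by
  have h1 : ∀ a, inner ℝ (x - pt a) (x - pt (s a)) < 0 := by
    intro a
    have h2 := h a
    have h3 : dist x (midpoint ℝ (pt a) (pt (s a))) ^ 2 < (dist (pt a) (pt (s a)) / 2) ^ 2 :=
      pow_lt_pow_left₀ h2 dist_nonneg (by norm_num)
    have h4 : x - midpoint ℝ (pt a) (pt (s a)) = (1 / 2 : ℝ) • ((x - pt a) + (x - pt (s a))) := by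
      rw [midpoint_eq_smul_add, invOf_eq_inv]
      module
    have h5 : pt a - pt (s a) = (x - pt (s a)) - (x - pt a) := by abel
    have key : ∀ X Y : F, ‖(1 / 2 : ℝ) • (X + Y)‖ ^ 2 < (‖Y - X‖ / 2) ^ 2 → inner ℝ X Y < 0 := by
      intro X Y hXY
      have h6 := real_inner_comm X Y
      rw [norm_smul, mul_pow, div_pow, norm_add_sq_real, norm_sub_sq_real, h6] at hXY
      norm_num at hXY
      linarith
    rw [dist_eq_norm, dist_eq_norm, h4, h5] at h3
    exact key _ _ h3
  have h2 : ∑ a, inner ℝ (x - pt a) (x - pt (s a)) < 0 := by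
    have : ∑ a : I, inner ℝ (x - pt a) (x - pt (s a)) < ∑ a : I, (0 : ℝ) :=
      sum_lt_sum_of_nonempty ⟨(0, 0), mem_univ _⟩ fun a _ => h1 a
    simpa using this
  let S : Equiv.Perm I := ⟨s, s, s_s, s_s⟩
  have h3 : ∑ a, inner ℝ (x - pt a) (x - pt (s a)) =
      400 * ‖x‖ ^ 2 - 2 * inner ℝ x (∑ a, pt a) + 200 := by
    have e1 : ∀ a, inner ℝ (x - pt a) (x - pt (s a)) =
        ‖x‖ ^ 2 - inner ℝ x (pt (s a)) - inner ℝ x (pt a) + inner ℝ (pt a) (pt (s a)) := by
      intro a
      rw [inner_sub_left, inner_sub_right, inner_sub_right, real_inner_self_eq_norm_sq,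
        real_inner_comm x (pt a)]
      ring
    have e2 : ∑ a, inner ℝ x (pt (s a)) = inner ℝ x (∑ a, pt a) := by
      rw [inner_sum]
      exact Equiv.sum_comp S (fun a => inner ℝ x (pt a))
    rw [sum_congr rfl fun a _ => e1 a, sum_add_distrib, sum_sub_distrib, sum_sub_distrib, e2,
      sum_inner_s, ← inner_sum]
    simp
    ring
  have h4 : 0 ≤ ‖(400 : ℝ) • x - ∑ a, pt a‖ ^ 2 := sq_nonneg _
  rw [norm_sub_sq_real, norm_smul, norm_sum, real_inner_smul_left, mul_pow] at h4
  norm_num at h4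
  linarith

end Q146.MaxSum
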