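import Pool.Agent.Q146.OctaDefs

set_option autoImplicit false

/-!
# Truncated octahedra have more touching triplets and quadruples than octahedra
-/

namespace Q146.Octa

open Finset

/-- Integer model: `(a, b, h)` stands for the point `(a, b, √2 h)`. -/
abbrev P := ℤ × ℤ × ℤ

/-- squared distance in the model -/
def q (x y : P) : ℤ := (x.1 - y.1) ^ 2 + (x.2.1 - y.2.1) ^ 2 + 2 * (x.2.2 - y.2.2) ^ 2

lemma q_comm (x y : P) : q x y = q y x := by unfold q; ring

lemma q_add (x y v : P) : q (x + v) (y + v) = q x y := by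
  unfold q; simp

/-- sets of `m` points at pairwise squared distance `4` -/
def Cl (m : ℕ) (X : Finset P) : Finset (Finset P) :=
  (X.powersetCard m).filter (fun S => ∀ x ∈ S, ∀ y ∈ S, x ≠ y → q x y = 4)

lemma mem_Cl {m : ℕ} {X S : Finset P} :
    S ∈ Cl m X ↔ S ⊆ X ∧ S.card = m ∧ ∀ x ∈ S, ∀ y ∈ S, x ≠ y → q x y = 4 := by
  unfold Cl
  rw [mem_filter, mem_powersetCard, and_assoc]

/-- number of cliques in `N` all of whose points are at squared distance `4` from `0` -/
def cnt (m : ℕ) (N : Finset P) : ℕ := ((Cl m N).filter (fun S => ∀ x ∈ S, q x 0 = 4)).card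

/-- Adding a point. -/
lemma add_point {m : ℕ} {X N : Finset P} {v : P} (hv : v ∉ X) (hN : ∀ o ∈ N, o + v ∈ X) :
    (Cl (m + 1) X).card + cnt m N ≤ (Cl (m + 1) (insert v X)).card := by
  classical
  unfold cnt
  set F := (Cl m N).filter (fun S => ∀ x ∈ S, q x 0 = 4) with hF
  set g : Finset P → Finset P := fun S => insert v (S.map (addRightEmbedding v)) with hg
  have hmemF : ∀ S ∈ F, S ⊆ N ∧ S.card = m ∧ (∀ x ∈ S, ∀ y ∈ S, x ≠ y → q x y = 4) ∧
      ∀ x ∈ S, q x 0 = 4 := by
    intro S hS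
    rw [hF, mem_filter, mem_Cl] at hS
    exact ⟨hS.1.1, hS.1.2.1, hS.1.2.2, hS.2⟩
  have hsub : ∀ S ∈ F, S.map (addRightEmbedding v) ⊆ X := by
    intro S hS p hp
    rw [mem_map] at hp
    obtain ⟨o, ho, rfl⟩ := hp
    exact hN o ((hmemF S hS).1 ho)
  have hvn : ∀ S ∈ F, v ∉ S.map (addRightEmbedding v) := fun S hS h => hv (hsub S hS h)
  have hinj : Set.InjOn g (F : Set (Finset P)) := by
    intro S hS T hT hST
    have h1 : (insert v (S.map (addRightEmbedding v))).erase v =
        (insert v (T.map (addRightEmbedding v))).erase v := by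
      have : g S = g T := hST
      rw [hg] at this
      simpa using congrArg (fun Z => Z.erase v) this
    rw [erase_insert (hvn S hS), erase_insert (hvn T hT)] at h1
    exact Finset.map_injective _ h1
  have hdisj : Disjoint (Cl (m + 1) X) (F.image g) := by
    rw [Finset.disjoint_left]
    intro Z hZ hZ'
    rw [mem_image] at hZ'
    obtain ⟨S, hS, rfl⟩ := hZ'
    rw [mem_Cl] at hZ
    exact hv (hZ.1 (mem_insert_self _ _))
  have hss : Cl (m + 1) X ∪ F.image g ⊆ Cl (m + 1) (insert v X) := by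
    intro Z hZ
    rw [mem_union] at hZ
    rcases hZ with hZ | hZ
    · rw [mem_Cl] at hZ ⊢
      exact ⟨hZ.1.trans (subset_insert _ _), hZ.2⟩
    · rw [mem_image] at hZ
      obtain ⟨S, hS, rfl⟩ := hZ
      obtain ⟨h1, h2, h3, h4⟩ := hmemF S hS
      rw [mem_Cl]
      refine ⟨insert_subset_insert _ (hsub S hS), ?_, ?_⟩
      · rw [hg]
        simp only
        rw [card_insert_of_notMem (hvn S hS), card_map, h2]
      · intro x hx y hy hxy
        simp only [hg, mem_insert, mem_map, addRightEmbedding_apply] at hx hy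
        rcases hx with rfl | ⟨a, ha, rfl⟩
        · rcases hy with rfl | ⟨b, hb, rfl⟩
          · exact absurd rfl hxy
          · have := h4 b hb
            have h5 := q_add b 0 x
            rw [zero_add] at h5
            rw [q_comm, h5, this]
        · rcases hy with rfl | ⟨b, hb, rfl⟩
          · have := h4 a ha
            have h5 := q_add a 0 y
            rw [zero_add] at h5
            rw [h5, this]
          · rw [q_add]
            exact h3 a ha b hb (fun h => hxy (by rw [h]))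
  calc (Cl (m + 1) X).card + F.card = (Cl (m + 1) X).card + (F.image g).card := by
        rw [card_image_of_injOn hinj]
    _ = (Cl (m + 1) X ∪ F.image g).card := (card_union_of_disjoint hdisj).symm
    _ ≤ _ := card_le_card hss

/-- the four neighbours below (above) -/
def low (e : ℤ) : Finset P := {(-1, -1, e), (1, -1, e), (-1, 1, e), (1, 1, e)}

/-- neighbours, `l`: the one on the left is present, `b`: the one behind is present -/
def nbr (e : ℤ) (l b : Bool) : Finset P :=
  low e ∪ (if l then {(-2, 0, 0)} else ∅) ∪ (if b then {(0, -2, 0)} else ∅)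

lemma cnt2 : ∀ l b : Bool, cnt 2 (nbr 1 l b) = 4 + 2 * l.toNat + 2 * b.toNat ∧
    cnt 2 (nbr (-1) l b) = 4 + 2 * l.toNat + 2 * b.toNat := by decide

lemma cnt3 : ∀ l b : Bool, cnt 3 (nbr 1 l b) = l.toNat + b.toNat ∧
    cnt 3 (nbr (-1) l b) = l.toNat + b.toNat := by decide

/-- the `n`-th cell of the `s × s` layer at height `h` -/
def cell (s : ℕ) (h : ℤ) (n : ℕ) : P :=
  (2 * ((n / s : ℕ) : ℤ) - (s - 1), 2 * ((n % s : ℕ) : ℤ) - (s - 1), h)

/-- the first `r` cells of the `s × s` layer at height `h` -/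
def lay (s : ℕ) (h : ℤ) (r : ℕ) : Finset P := (range r).image (cell s h)

/-- the `s × s` layer at height `h` is contained in `X` -/
def Full (X : Finset P) (s : ℕ) (h : ℤ) : Prop :=
  ∀ i j : ℕ, i < s → j < s → ((2 * (i : ℤ) - (s - 1), 2 * (j : ℤ) - (s - 1), h) : P) ∈ X

lemma cell_inj {s : ℕ} {h : ℤ} {m n : ℕ} (hmn : cell s h m = cell s h n) : m = n := by
  unfold cell at hmn
  simp only [Prod.mk.injEq] at hmn
  have h1 : m / s = n / s := by
    have := hmn.1
    have h2 : ((m / s : ℕ) : ℤ) = ((n / s : ℕ) : ℤ) := by linarith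
    exact_mod_cast h2
  have h2 : m % s = n % s := by
    have := hmn.2.1
    have h2 : ((m % s : ℕ) : ℤ) = ((n % s : ℕ) : ℤ) := by linarith
    exact_mod_cast h2
  rw [← Nat.div_add_mod m s, ← Nat.div_add_mod n s, h1, h2]

lemma lay_succ (s : ℕ) (h : ℤ) (r : ℕ) : lay s h (r + 1) = insert (cell s h r) (lay s h r) := by
  unfold lay
  rw [range_add_one, image_insert]

lemma mem_lay {s : ℕ} {h : ℤ} {r : ℕ} {p : P} : p ∈ lay s h r ↔ ∃ n < r, cell s h n = p := by
  unfold lay
  simp

lemma cell_mem_lay {s : ℕ} {h : ℤ} {r n : ℕ} (hn : n < r) : cell s h n ∈ lay s h r :=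
  mem_lay.2 ⟨n, hn, rfl⟩

lemma full_lay {s : ℕ} {h : ℤ} : Full (lay s h (s * s)) s h := by
  intro i j hi hj
  rw [mem_lay]
  have hs : 0 < s := by omega
  refine ⟨i * s + j, ?_, ?_⟩
  · have : (i + 1) * s ≤ s * s := Nat.mul_le_mul_right s hi
    nlinarith
  · unfold cell
    have h1 : (i * s + j) / s = i := by
      rw [mul_comm, Nat.mul_add_div hs, Nat.div_eq_of_lt hj, add_zero]
    have h2 : (i * s + j) % s = j := by
      rw [mul_comm, Nat.mul_add_mod, Nat.mod_eq_of_lt hj]
    rw [h1, h2]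

/-- Adding the first `r` cells of a smaller layer next to a full layer. -/
lemma add_layer {X : Finset P} {s : ℕ} {h e : ℤ} (he : e = 1 ∨ e = -1) (hs : 0 < s)
    (hfull : Full X (s + 1) h) (hX : ∀ p ∈ X, p.2.2 ≠ h + e) :
    ∀ r ≤ s * s, (X ∪ lay s (h + e) r).card = X.card + r ∧
      (Cl 3 X).card + 8 * r ≤
        (Cl 3 (X ∪ lay s (h + e) r)).card + 2 * ((r + s - 1) / s) + 2 * min r s ∧
      (Cl 4 X).card + 2 * r ≤
        (Cl 4 (X ∪ lay s (h + e) r)).card + ((r + s - 1) / s) + min r s := by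
  intro r
  induction r with
  | zero =>
    intro _
    have h0 : lay s (h + e) 0 = ∅ := by unfold lay; simp
    rw [h0, union_empty]
    refine ⟨rfl, ?_, ?_⟩ <;> simp
  | succ r ih =>
    intro hr
    obtain ⟨ih1, ih2, ih3⟩ := ih (by omega)
    set Y := X ∪ lay s (h + e) r with hY
    have hYs : X ∪ lay s (h + e) (r + 1) = insert (cell s (h + e) r) Y := by
      rw [lay_succ, hY, union_insert]
    have hvY : cell s (h + e) r ∉ Y := by
      rw [hY, mem_union]
      rintro (h1 | h1)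
      · exact hX _ h1 rfl
      · rw [mem_lay] at h1
        obtain ⟨n, hn, hn2⟩ := h1
        exact absurd (cell_inj hn2) (by omega)
    have hrs : r / s < s := Nat.div_lt_of_lt_mul (by omega)
    have hms : r % s < s := Nat.mod_lt _ hs
    -- the lower neighbours
    have hlow : ∀ o ∈ low (-e), o + cell s (h + e) r ∈ Y := by
      intro o ho
      rw [hY, mem_union]
      left
      unfold low at ho
      simp only [mem_insert, mem_singleton] at ho
      unfold cell
      rcases ho with rfl | rfl | rfl | rfl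
      · have := hfull (r / s) (r % s) (by omega) (by omega)
        convert this using 1
        simp only [Prod.mk_add_mk, Prod.mk.injEq]
        push_cast
        refine ⟨by ring, by ring, by ring⟩
      · have := hfull (r / s + 1) (r % s) (by omega) (by omega)
        convert this using 1
        simp only [Prod.mk_add_mk, Prod.mk.injEq]
        push_cast
        refine ⟨by ring, by ring, by ring⟩
      · have := hfull (r / s) (r % s + 1) (by omega) (by omega)
        convert this using 1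
        simp only [Prod.mk_add_mk, Prod.mk.injEq]
        push_cast
        refine ⟨by ring, by ring, by ring⟩
      · have := hfull (r / s + 1) (r % s + 1) (by omega) (by omega)
        convert this using 1
        simp only [Prod.mk_add_mk, Prod.mk.injEq]
        push_cast
        refine ⟨by ring, by ring, by ring⟩
    -- the two neighbours in the layer
    have hleft : s ≤ r → ((-2, 0, 0) : P) + cell s (h + e) r ∈ Y := by
      intro hsr
      rw [hY, mem_union]
      right
      have h1 : cell s (h + e) (r - s) = ((-2, 0, 0) : P) + cell s (h + e) r := by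
        unfold cell
        have h2 : (r - s) % s = r % s := by
          rw [Nat.mod_eq_sub_mod hsr]
        have h3 : r / s = (r - s) / s + 1 := by
          rw [Nat.div_eq r s, if_pos ⟨hs, hsr⟩]
        rw [h2, h3]
        simp only [Prod.mk_add_mk, Prod.mk.injEq]
        push_cast
        refine ⟨by ring, by ring, by ring⟩
      rw [← h1]
      exact cell_mem_lay (by omega)
    have hback : r % s ≠ 0 → ((0, -2, 0) : P) + cell s (h + e) r ∈ Y := by
      intro hr0
      rw [hY, mem_union]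
      right
      have hr1 : 1 ≤ r := by
        rcases Nat.eq_zero_or_pos r with h0 | h0
        · rw [h0] at hr0; simp at hr0
        · exact h0
      have h1 : cell s (h + e) (r - 1) = ((0, -2, 0) : P) + cell s (h + e) r := by
        unfold cell
        have h4 : r - 1 = s * (r / s) + (r % s - 1) := by
          have := Nat.div_add_mod r s
          omega
        have h2 : (r - 1) % s = r % s - 1 := by
          rw [h4, Nat.mul_add_mod, Nat.mod_eq_of_lt (by omega)]
        have h3 : (r - 1) / s = r / s := by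
          rw [h4, Nat.mul_add_div hs, Nat.div_eq_of_lt (by omega : r % s - 1 < s), add_zero]
        rw [h2, h3]
        simp only [Prod.mk_add_mk, Prod.mk.injEq]
        have h5 : ((r % s - 1 : ℕ) : ℤ) = ((r % s : ℕ) : ℤ) - 1 := by
          rw [Nat.cast_sub (by omega)]; simp
        rw [h5]
        refine ⟨by ring, by ring, by ring⟩
      rw [← h1]
      exact cell_mem_lay (by omega)
    set l : Bool := decide (s ≤ r) with hl
    set b : Bool := decide (r % s ≠ 0) with hb
    have hN : ∀ o ∈ nbr (-e) l b, o + cell s (h + e) r ∈ Y := by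
      intro o ho
      unfold nbr at ho
      rw [mem_union, mem_union] at ho
      rcases ho with (ho | ho) | ho
      · exact hlow o ho
      · by_cases h1 : s ≤ r
        · simp only [hl, h1, decide_true, if_true, mem_singleton] at ho
          rw [ho]; exact hleft h1
        · simp [hl, h1] at ho
      · by_cases h1 : r % s ≠ 0
        · simp only [hb, h1, not_false_eq_true, decide_true, if_true, mem_singleton, ne_eq] at ho
          rw [ho]; exact hback h1
        · simp [hb, h1] at ho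
    have hc2 : cnt 2 (nbr (-e) l b) = 4 + 2 * l.toNat + 2 * b.toNat := by
      rcases he with rfl | rfl
      · exact (cnt2 l b).2
      · rw [neg_neg]; exact (cnt2 l b).1
    have hc3 : cnt 3 (nbr (-e) l b) = l.toNat + b.toNat := by
      rcases he with rfl | rfl
      · exact (cnt3 l b).2
      · rw [neg_neg]; exact (cnt3 l b).1
    have k2 := add_point (m := 2) hvY hN
    have k3 := add_point (m := 3) hvY hN
    rw [hc2] at k2
    rw [hc3] at k3
    norm_num at k2 k3
    have hdiv : (r + 1 + s - 1) / s = (r + s - 1) / s + (if s ∣ r then 1 else 0) := by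
      have h1 : r + 1 + s - 1 = (r + s - 1) + 1 := by omega
      rw [h1, Nat.succ_div]
      congr 1
      have h2 : r + s - 1 + 1 = r + s := by omega
      rw [h2]
      simp [Nat.dvd_add_self_right]
    have hlN : l.toNat = if s ≤ r then 1 else 0 := by
      by_cases h1 : s ≤ r <;> simp [hl, h1]
    have hbN : b.toNat = if s ∣ r then 0 else 1 := by
      by_cases h1 : s ∣ r
      · have : r % s = 0 := Nat.mod_eq_zero_of_dvd h1
        simp [hb, h1, this]
      · have : r % s ≠ 0 := fun h2 => h1 (Nat.dvd_of_mod_eq_zero h2)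
        simp [hb, h1, this]
    rw [hYs, hdiv]
    rw [hlN, hbN] at k2 k3
    refine ⟨?_, ?_, ?_⟩
    · rw [card_insert_of_notMem hvY, ih1]; ring
    · split_ifs at k2 ⊢ <;> omega
    · split_ifs at k3 ⊢ <;> omega

/-- lattice condition -/
def Par (c : ℤ) (X : Finset P) : Prop := ∀ p ∈ X, 2 ∣ p.1 + p.2.2 + c ∧ 2 ∣ p.2.1 + p.2.2 + c

lemma par_lay {s : ℕ} {h c : ℤ} (r : ℕ) (hc : 2 ∣ h + c - (s - 1)) : Par c (lay s h r) := by
  intro p hp
  rw [mem_lay] at hp
  obtain ⟨n, -, rfl⟩ := hp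
  unfold cell
  simp only
  constructor <;> omega

lemma Par.union {c : ℤ} {X Y : Finset P} (hX : Par c X) (hY : Par c Y) : Par c (X ∪ Y) := by
  intro p hp
  rw [mem_union] at hp
  rcases hp with hp | hp
  · exact hX p hp
  · exact hY p hp

lemma height_lay {s : ℕ} {h : ℤ} {r : ℕ} {p : P} (hp : p ∈ lay s h r) : p.2.2 = h := by
  rw [mem_lay] at hp
  obtain ⟨n, -, rfl⟩ := hp
  rfl

lemma Full.mono {X Y : Finset P} {s : ℕ} {h : ℤ} (hX : Full X s h) (hXY : X ⊆ Y) : Full Y s h :=
  fun i j hi hj => hXY (hX i j hi hj)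

/-- adding a full layer -/
lemma add_full {X : Finset P} {s : ℕ} {h e : ℤ} (he : e = 1 ∨ e = -1) (hs : 0 < s)
    (hfull : Full X (s + 1) h) (hX : ∀ p ∈ X, p.2.2 ≠ h + e) :
    (X ∪ lay s (h + e) (s * s)).card = X.card + s * s ∧
      (Cl 3 X).card + 8 * (s * s) ≤ (Cl 3 (X ∪ lay s (h + e) (s * s))).card + 4 * s ∧
      (Cl 4 X).card + 2 * (s * s) ≤ (Cl 4 (X ∪ lay s (h + e) (s * s))).card + 2 * s := by
  obtain ⟨h1, h2, h3⟩ := add_layer he hs hfull hX (s * s) le_rfl
  have h4 : (s * s + s - 1) / s = s := by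
    have : s * s + s - 1 = s * s + (s - 1) := by omega
    rw [this, Nat.mul_add_div hs, Nat.div_eq_of_lt (by omega), add_zero]
  have h5 : min (s * s) s = s := min_eq_right (Nat.le_mul_of_pos_left s hs)
  rw [h4, h5] at h2 h3
  refine ⟨h1, by omega, by omega⟩

/-- The state after `t` layers above and `d` layers below the middle layer. -/
def State (K t d : ℕ) : Prop :=
  ∃ X : Finset P, Par ((K : ℤ) - 1) X ∧ (∀ p ∈ X, -(d : ℤ) ≤ p.2.2 ∧ p.2.2 ≤ t) ∧
    Full X (K - t) t ∧ Full X (K - d) (-(d : ℤ)) ∧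
    6 * (X.card : ℤ) = 6 * (K : ℤ) ^ 2 +
      (((K : ℤ) - 1) * K * (2 * K - 1) - ((K : ℤ) - t - 1) * (K - t) * (2 * (K - t) - 1)) +
      (((K : ℤ) - 1) * K * (2 * K - 1) - ((K : ℤ) - d - 1) * (K - d) * (2 * (K - d) - 1)) ∧
    8 * (X.card : ℤ) ≤ (Cl 3 X).card + 8 * (K : ℤ) ^ 2 +
      2 * (((K : ℤ) - 1) * K - ((K : ℤ) - t - 1) * (K - t)) +
      2 * (((K : ℤ) - 1) * K - ((K : ℤ) - d - 1) * (K - d)) ∧
    2 * (X.card : ℤ) ≤ (Cl 4 X).card + 2 * (K : ℤ) ^ 2 +
      (((K : ℤ) - 1) * K - ((K : ℤ) - t - 1) * (K - t)) +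
      (((K : ℤ) - 1) * K - ((K : ℤ) - d - 1) * (K - d))

lemma state_zero (K : ℕ) : State K 0 0 := by
  refine ⟨lay K 0 (K * K), par_lay _ (by omega), ?_, ?_, ?_, ?_, ?_, ?_⟩
  · intro p hp
    have := height_lay hp
    simp [this]
  · simpa using full_lay
  · simpa using full_lay
  all_goals
    have hc : (lay K 0 (K * K)).card = K * K := by
      unfold lay
      rw [card_image_of_injective _ (fun a b hab => cell_inj hab), card_range]
    rw [hc]
    push_cast
  · ring
  · have : (0 : ℤ) ≤ (Cl 3 (lay K 0 (K * K))).card := by positivity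
    nlinarith
  · have : (0 : ℤ) ≤ (Cl 4 (lay K 0 (K * K))).card := by positivity
    nlinarith

lemma state_up {K t d : ℕ} (ht : t + 1 < K) (h : State K t d) : State K (t + 1) d := by
  obtain ⟨X, hpar, hht, hft, hfd, h1, h2, h3⟩ := h
  have hs : 0 < K - t - 1 := by omega
  have hft' : Full X (K - t - 1 + 1) t := by
    have : K - t - 1 + 1 = K - t := by omega
    rw [this]; exact hft
  have hX : ∀ p ∈ X, p.2.2 ≠ (t : ℤ) + 1 := fun p hp => by
    have := (hht p hp).2
    omega
  obtain ⟨g1, g2, g3⟩ := add_full (Or.inl rfl) hs hft' hX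
  set s := K - t - 1 with hsdef
  have hsZ : (s : ℤ) = K - t - 1 := by omega
  set Y := X ∪ lay s ((t : ℤ) + 1) (s * s) with hY
  refine ⟨Y, hpar.union (par_lay _ (by omega)), ?_, ?_, hfd.mono subset_union_left, ?_, ?_, ?_⟩
  · intro p hp
    rw [hY, mem_union] at hp
    rcases hp with hp | hp
    · have := hht p hp
      push_cast
      omega
    · have := height_lay hp
      push_cast
      omega
  · have h4 : K - (t + 1) = s := by omega
    rw [h4]
    push_cast
    exact full_lay.mono subset_union_right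
  · have g1Z : (Y.card : ℤ) = X.card + s * s := by exact_mod_cast g1
    rw [g1Z, hsZ]
    push_cast
    linear_combination h1
  · have g1Z : (Y.card : ℤ) = X.card + s * s := by exact_mod_cast g1
    have g2Z : ((Cl 3 X).card : ℤ) + 8 * (s * s) ≤ (Cl 3 Y).card + 4 * s := by exact_mod_cast g2
    rw [g1Z]
    rw [hsZ] at g2Z ⊢
    push_cast
    nlinarith
  · have g1Z : (Y.card : ℤ) = X.card + s * s := by exact_mod_cast g1
    have g3Z : ((Cl 4 X).card : ℤ) + 2 * (s * s) ≤ (Cl 4 Y).card + 2 * s := by exact_mod_cast g3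
    rw [g1Z]
    rw [hsZ] at g3Z ⊢
    push_cast
    nlinarith

lemma state_down {K t d : ℕ} (hd : d + 1 < K) (h : State K t d) : State K t (d + 1) := by
  obtain ⟨X, hpar, hht, hft, hfd, h1, h2, h3⟩ := h
  have hs : 0 < K - d - 1 := by omega
  have hfd' : Full X (K - d - 1 + 1) (-(d : ℤ)) := by
    have : K - d - 1 + 1 = K - d := by omega
    rw [this]; exact hfd
  have hX : ∀ p ∈ X, p.2.2 ≠ -(d : ℤ) + -1 := fun p hp => by
    have := (hht p hp).1
    omega
  obtain ⟨g1, g2, g3⟩ := add_full (Or.inr rfl) hs hfd' hX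
  set s := K - d - 1 with hsdef
  have hsZ : (s : ℤ) = K - d - 1 := by omega
  set Y := X ∪ lay s (-(d : ℤ) + -1) (s * s) with hY
  refine ⟨Y, hpar.union (par_lay _ (by omega)), ?_, hft.mono subset_union_left, ?_, ?_, ?_, ?_⟩
  · intro p hp
    rw [hY, mem_union] at hp
    rcases hp with hp | hp
    · have := hht p hp
      push_cast
      omega
    · have := height_lay hp
      push_cast
      omega
  · have h4 : K - (d + 1) = s := by omega
    have h5 : -((d + 1 : ℕ) : ℤ) = -(d : ℤ) + -1 := by push_cast; ring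
    rw [h4, h5]
    exact full_lay.mono subset_union_right
  · have g1Z : (Y.card : ℤ) = X.card + s * s := by exact_mod_cast g1
    rw [g1Z, hsZ]
    push_cast
    linear_combination h1
  · have g1Z : (Y.card : ℤ) = X.card + s * s := by exact_mod_cast g1
    have g2Z : ((Cl 3 X).card : ℤ) + 8 * (s * s) ≤ (Cl 3 Y).card + 4 * s := by exact_mod_cast g2
    rw [g1Z]
    rw [hsZ] at g2Z ⊢
    push_cast
    nlinarith
  · have g1Z : (Y.card : ℤ) = X.card + s * s := by exact_mod_cast g1
    have g3Z : ((Cl 4 X).card : ℤ) + 2 * (s * s) ≤ (Cl 4 Y).card + 2 * s := by exact_mod_cast g3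
    rw [g1Z]
    rw [hsZ] at g3Z ⊢
    push_cast
    nlinarith

lemma state_all {K : ℕ} : ∀ t < K, ∀ d < K, State K t d := by
  intro t
  induction t with
  | zero =>
    intro _ d
    induction d with
    | zero => intro _; exact state_zero K
    | succ d ih => intro hd; exact state_down hd (ih (by omega))
  | succ t ih => intro ht d hd; exact state_up ht (ih (by omega) d hd)

/-- The truncated octahedron with a partial layer. -/
lemma exists_model {K w r : ℕ} (hw : 1 ≤ w) (hwK : w < K) (hr : r ≤ w * w) :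
    ∃ X : Finset P, Par ((K : ℤ) - 1) X ∧
      6 * (X.card : ℤ) = 6 * (K : ℤ) ^ 2 + 2 * (((K : ℤ) - 1) * K * (2 * K - 1)) -
        (w : ℤ) * (w + 1) * (2 * w + 1) + 6 * r ∧
      8 * (X.card : ℤ) + 2 * w ^ 2 - 2 * w ≤
        (Cl 3 X).card + 8 * (K : ℤ) ^ 2 + 4 * (((K : ℤ) - 1) * K) ∧
      2 * (X.card : ℤ) + w ^ 2 - w ≤
        (Cl 4 X).card + 2 * (K : ℤ) ^ 2 + 2 * (((K : ℤ) - 1) * K) := by
  obtain ⟨X, hpar, hht, hft, hfd, h1, h2, h3⟩ := state_all (K := K) (K - w - 1) (by omega)
    (K - 1) (by omega)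
  have e1 : ((K - w - 1 : ℕ) : ℤ) = K - w - 1 := by omega
  have e2 : ((K - 1 : ℕ) : ℤ) = K - 1 := by omega
  have hft' : Full X (w + 1) ((K - w - 1 : ℕ) : ℤ) := by
    have : K - (K - w - 1) = w + 1 := by omega
    rw [this] at hft; exact hft
  have hX : ∀ p ∈ X, p.2.2 ≠ ((K - w - 1 : ℕ) : ℤ) + 1 := fun p hp => by
    have := (hht p hp).2
    omega
  obtain ⟨g1, g2, g3⟩ := add_layer (Or.inl rfl) (by omega : 0 < w) hft' hX r hr
  rw [e1, e2] at h1 h2 h3
  have hdiv : (r + w - 1) / w ≤ w := by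
    have h4 : (w * w + w - 1) / w = w := by
      have : w * w + w - 1 = w * w + (w - 1) := by omega
      rw [this, Nat.mul_add_div (by omega), Nat.div_eq_of_lt (by omega), add_zero]
    calc (r + w - 1) / w ≤ (w * w + w - 1) / w := Nat.div_le_div_right (by omega)
      _ = w := h4
  have hmin : min r w ≤ w := min_le_right _ _
  set Y := X ∪ lay w (((K - w - 1 : ℕ) : ℤ) + 1) r with hY
  have g1Z : (Y.card : ℤ) = X.card + r := by exact_mod_cast g1
  have g2' : (Cl 3 X).card + 8 * r ≤ (Cl 3 Y).card + 4 * w := by omega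
  have g3' : (Cl 4 X).card + 2 * r ≤ (Cl 4 Y).card + 2 * w := by omega
  have g2Z : ((Cl 3 X).card : ℤ) + 8 * r ≤ (Cl 3 Y).card + 4 * w := by exact_mod_cast g2'
  have g3Z : ((Cl 4 X).card : ℤ) + 2 * r ≤ (Cl 4 Y).card + 2 * w := by exact_mod_cast g3'
  refine ⟨Y, hpar.union (par_lay _ (by omega)), ?_, ?_, ?_⟩
  · rw [g1Z]
    linear_combination h1
  · rw [g1Z]
    nlinarith
  · rw [g1Z]
    nlinarith

/-! ### Passing to three-space -/

/-- the embedding of the model -/
noncomputable def phi (p : P) : E3 := !₂[(p.1 : ℝ), (p.2.1 : ℝ), √2 * (p.2.2 : ℝ)]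

lemma dist_phi (x y : P) : dist (phi x) (phi y) = √(q x y : ℝ) := by
  rw [EuclideanSpace.dist_eq, Fin.sum_univ_three]
  congr 1
  unfold phi q
  simp only [Real.dist_eq, sq_abs, Matrix.cons_val_zero, Matrix.cons_val_one, Matrix.cons_val]
  have h2 : √2 * √2 = (2 : ℝ) := Real.mul_self_sqrt (by norm_num)
  push_cast
  linear_combination ((x.2.2 : ℝ) - y.2.2) ^ 2 * h2

lemma phi_inj : Function.Injective phi := by
  intro x y hxy
  have h0 : dist (phi x) (phi y) = 0 := by rw [hxy, dist_self]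
  rw [dist_phi, Real.sqrt_eq_zero (by unfold q; positivity)] at h0
  have h1 : q x y = 0 := by exact_mod_cast h0
  unfold q at h1
  have b1 := sq_nonneg (x.1 - y.1)
  have b2 := sq_nonneg (x.2.1 - y.2.1)
  have b3 := sq_nonneg (x.2.2 - y.2.2)
  have a1 : (x.1 - y.1) ^ 2 = 0 := by linarith
  have a2 : (x.2.1 - y.2.1) ^ 2 = 0 := by linarith
  have a3 : (x.2.2 - y.2.2) ^ 2 = 0 := by linarith
  rw [sq_eq_zero_iff] at a1 a2 a3
  refine Prod.ext (by linarith) (Prod.ext (by linarith) (by linarith))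

lemma four_le_q {c : ℤ} {x y : P} (hx : 2 ∣ x.1 + x.2.2 + c ∧ 2 ∣ x.2.1 + x.2.2 + c)
    (hy : 2 ∣ y.1 + y.2.2 + c ∧ 2 ∣ y.2.1 + y.2.2 + c) (hxy : x ≠ y) : 4 ≤ q x y := by
  obtain ⟨a, b, h⟩ := x
  obtain ⟨a', b', h'⟩ := y
  unfold q
  simp only at hx hy ⊢
  have hA : 2 ∣ (a - a') - (h - h') := by omega
  have hB : 2 ∣ (b - b') - (h - h') := by omega
  have hne : ¬ (a - a' = 0 ∧ b - b' = 0 ∧ h - h' = 0) := by
    rintro ⟨h1, h2, h3⟩
    apply hxy
    rw [Prod.mk.injEq, Prod.mk.injEq]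
    refine ⟨by linarith, by linarith, by linarith⟩
  generalize a - a' = A at *
  generalize b - b' = B at *
  generalize h - h' = H at *
  have key : ∀ z : ℤ, (z = 0) ∨ (1 ≤ z ^ 2 ∧ (z = 1 ∨ z = -1)) ∨ 4 ≤ z ^ 2 := by
    intro z
    rcases lt_trichotomy z 0 with h1 | h1 | h1
    · rcases eq_or_lt_of_le (show z ≤ -1 by omega) with h2 | h2
      · right; left; rw [h2]; norm_num
      · right; right; nlinarith
    · left; exact h1
    · rcases eq_or_lt_of_le (show 1 ≤ z by omega) with h2 | h2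
      · right; left; rw [← h2]; norm_num
      · right; right; nlinarith
  rcases key H with h1 | ⟨h1, h1'⟩ | h1
  · subst h1
    rcases key A with h2 | ⟨h2, h2'⟩ | h2
    · rcases key B with h3 | ⟨h3, h3'⟩ | h3
      · exact absurd ⟨h2, h3, rfl⟩ hne
      · omega
      · nlinarith [sq_nonneg A]
    · omega
    · nlinarith [sq_nonneg B]
  · have hA1 : 1 ≤ A ^ 2 := by
      rcases key A with h2 | ⟨h2, h2'⟩ | h2
      · omega
      · exact h2
      · linarith
    have hB1 : 1 ≤ B ^ 2 := by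
      rcases key B with h2 | ⟨h2, h2'⟩ | h2
      · omega
      · exact h2
      · linarith
    nlinarith
  · nlinarith [sq_nonneg A, sq_nonneg B]

/-- the packing belonging to a set of points of the model -/
noncomputable def toE (X : Finset P) : Finset E3 := X.map ⟨phi, phi_inj⟩

lemma card_toE (X : Finset P) : (toE X).card = X.card := card_map _

lemma packing_toE {c : ℤ} {X : Finset P} (h : Par c X) : IsPacking (toE X) := by
  intro x hx y hy hxy
  unfold toE at hx hy
  rw [mem_map] at hx hy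
  obtain ⟨x', hx', rfl⟩ := hx
  obtain ⟨y', hy', rfl⟩ := hy
  simp only [Function.Embedding.coeFn_mk] at hxy ⊢
  have hne : x' ≠ y' := fun h => hxy (by rw [h])
  have h4 := four_le_q (h x' hx') (h y' hy') hne
  rw [interior_closedBall _ (by norm_num), interior_closedBall _ (by norm_num)]
  apply Metric.ball_disjoint_ball
  rw [dist_phi]
  have : ((4 : ℤ) : ℝ) ≤ (q x' y' : ℝ) := by exact_mod_cast h4
  calc (1 : ℝ) + 1 = √(2 ^ 2) := by rw [Real.sqrt_sq (by norm_num)]; norm_num
    _ ≤ √(q x' y' : ℝ) := Real.sqrt_le_sqrt (by push_cast at this; linarith)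

lemma touching_toE (m : ℕ) (X : Finset P) : (Cl m X).card ≤ touching m (toE X) := by
  classical
  unfold touching
  have hfin : {S : Finset E3 | S ⊆ toE X ∧ S.card = m ∧
      ∀ x ∈ S, ∀ y ∈ S, x ≠ y → dist x y = 2}.Finite := by
    apply Set.Finite.subset (toE X).powerset.finite_toSet
    rintro S ⟨hS, -⟩
    rw [mem_coe, mem_powerset]
    exact hS
  have h1 : ((Cl m X).image toE).card = (Cl m X).card :=
    card_image_of_injective _ (Finset.map_injective _)
  rw [← h1, ← Set.ncard_coe_finset]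
  apply Set.ncard_le_ncard _ hfin
  intro T hT
  rw [mem_coe, mem_image] at hT
  obtain ⟨S, hS, rfl⟩ := hT
  rw [mem_Cl] at hS
  refine ⟨map_subset_map.2 hS.1, ?_, ?_⟩
  · rw [card_toE, hS.2.1]
  · intro x hx y hy hxy
    unfold toE at hx hy
    rw [mem_map] at hx hy
    obtain ⟨x', hx', rfl⟩ := hx
    obtain ⟨y', hy', rfl⟩ := hy
    simp only [Function.Embedding.coeFn_mk] at hxy ⊢
    have hne : x' ≠ y' := fun h => hxy (by rw [h])
    rw [dist_phi, hS.2.2 x' hx' y' hy' hne]
    have : (((4 : ℤ) : ℝ)) = 2 ^ 2 := by norm_num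
    rw [this, Real.sqrt_sq (by norm_num)]

/-! ### The choice of the parameters -/

lemma three_nk (k : ℕ) : 3 * nk k = 2 * k ^ 3 + k := by
  unfold nk
  apply Nat.mul_div_cancel'
  have h : k % 3 = 0 ∨ k % 3 = 1 ∨ k % 3 = 2 := by omega
  rcases h with h | h | h <;>
  · apply Nat.dvd_of_mod_eq_zero
    simp [Nat.add_mod, Nat.mul_mod, Nat.pow_mod, h]

/-- The size of the top layer. -/
lemma exists_w {k : ℕ} (hk : 6 ≤ k) : ∃ w r : ℕ, 1 ≤ w ∧ w ≤ k ∧ r ≤ w * w ∧
    w * (w + 1) * (2 * w + 1) = 6 * (2 * k ^ 2 + 2 * k + 1) + 6 * r := by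
  classical
  have hdvd : ∀ w : ℕ, 6 ∣ w * (w + 1) * (2 * w + 1) := by
    intro w
    induction w with
    | zero => simp
    | succ w ih =>
      have : (w + 1) * (w + 1 + 1) * (2 * (w + 1) + 1) =
          w * (w + 1) * (2 * w + 1) + 6 * (w + 1) ^ 2 := by ring
      rw [this]
      exact dvd_add ih (Dvd.intro _ rfl)
  have hex : ∃ w, 6 * (2 * k ^ 2 + 2 * k + 1) ≤ w * (w + 1) * (2 * w + 1) := by
    refine ⟨k, ?_⟩
    have h1 : 6 * k ^ 2 ≤ k ^ 3 := by
      have : k ^ 3 = k * k ^ 2 := by ring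
      rw [this]
      exact Nat.mul_le_mul_right _ hk
    have h2 : 6 * k ≤ k ^ 2 := by nlinarith
    nlinarith
  set w := Nat.find hex with hw
  have h1 := Nat.find_spec hex
  rw [← hw] at h1
  have hw1 : 1 ≤ w := by
    rcases Nat.eq_zero_or_pos w with h0 | h0
    · rw [h0] at h1; omega
    · exact h0
  have hwk : w ≤ k := by
    apply Nat.find_min' hex
    have h1 : 6 * k ^ 2 ≤ k ^ 3 := by
      have : k ^ 3 = k * k ^ 2 := by ring
      rw [this]
      exact Nat.mul_le_mul_right _ hk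
    have h2 : 6 * k ≤ k ^ 2 := by nlinarith
    nlinarith
  have h2 : ¬ (6 * (2 * k ^ 2 + 2 * k + 1) ≤ (w - 1) * (w - 1 + 1) * (2 * (w - 1) + 1)) :=
    Nat.find_min hex (by omega)
  obtain ⟨v, hv⟩ : ∃ v, w = v + 1 := ⟨w - 1, by omega⟩
  rw [hv] at h1 h2
  have e1 : v + 1 - 1 = v := by omega
  rw [e1] at h2
  push Not at h2
  obtain ⟨c, hc⟩ := hdvd (v + 1)
  rw [hc] at h1
  refine ⟨v + 1, c - (2 * k ^ 2 + 2 * k + 1), by omega, by omega, ?_, ?_⟩
  · have h3 : (v + 1) * (v + 1 + 1) * (2 * (v + 1) + 1) =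
        v * (v + 1) * (2 * v + 1) + 6 * ((v + 1) * (v + 1)) := by ring
    rw [h3] at hc
    omega
  · rw [hc]
    omega

/-- For large `k` the top layer is large. -/
lemma w_large3 {k w : ℕ} (hk : 56 ≤ k)
    (h : 6 * (2 * k ^ 2 + 2 * k + 1) ≤ w * (w + 1) * (2 * w + 1)) : 12 * k + 4 + w < w * w := by
  by_contra hcon
  push Not at hcon
  rcases Nat.lt_or_ge w 27 with h1 | h1
  · have h2 : w * (w + 1) * (2 * w + 1) ≤ 26 * (26 + 1) * (2 * 26 + 1) := by
      have : w ≤ 26 := by omega
      gcongr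
    nlinarith
  · rcases Nat.lt_or_ge w 28 with h2 | h2
    · have h3 : w = 27 := by omega
      subst h3
      have : 59 ≤ k := by omega
      nlinarith
    · have hZ : (6 : ℤ) * (2 * k ^ 2 + 2 * k + 1) ≤ w * (w + 1) * (2 * w + 1) := by exact_mod_cast h
      have hcZ : (w : ℤ) * w ≤ 12 * k + 4 + w := by exact_mod_cast hcon
      have hwZ : (28 : ℤ) ≤ w := by exact_mod_cast h2
      have hkZ : (56 : ℤ) ≤ k := by exact_mod_cast hk
      have h5 : ((w : ℤ) * w - w - 4) * (w * w - w + 8) ≤ (12 * k) * (12 * k + 12) := by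
        have h6 : (w : ℤ) * w - w - 4 ≤ 12 * k := by linarith
        have h7 : (w : ℤ) * w - w + 8 ≤ 12 * k + 12 := by linarith
        have h8 : (0 : ℤ) ≤ (w : ℤ) * w - w + 8 := by nlinarith
        have h9 : (0 : ℤ) ≤ 12 * (k : ℤ) := by linarith
        exact mul_le_mul h6 h7 h8 h9
      have h6 : 12 * ((w : ℤ) * (w + 1) * (2 * w + 1)) <
          ((w : ℤ) * w - w - 4) * (w * w - w + 8) + 72 := by
        nlinarith [mul_nonneg (mul_nonneg (sub_nonneg.2 hwZ) (sub_nonneg.2 hwZ))
          (mul_nonneg (sub_nonneg.2 hwZ) (sub_nonneg.2 hwZ)),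
          mul_nonneg (mul_nonneg (sub_nonneg.2 hwZ) (sub_nonneg.2 hwZ)) (sub_nonneg.2 hwZ),
          mul_nonneg (sub_nonneg.2 hwZ) (sub_nonneg.2 hwZ)]
      nlinarith

lemma w_large4 {k w : ℕ} (hk : 18 ≤ k)
    (h : 6 * (2 * k ^ 2 + 2 * k + 1) ≤ w * (w + 1) * (2 * w + 1)) : 8 * k + 2 + w < w * w := by
  by_contra hcon
  push Not at hcon
  rcases Nat.lt_or_ge w 13 with h1 | h1
  · have h2 : w * (w + 1) * (2 * w + 1) ≤ 12 * (12 + 1) * (2 * 12 + 1) := by
      have : w ≤ 12 := by omega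
      gcongr
    nlinarith
  · rcases Nat.lt_or_ge w 14 with h2 | h2
    · have h3 : w = 13 := by omega
      subst h3
      have : 20 ≤ k := by omega
      nlinarith
    · have hZ : (6 : ℤ) * (2 * k ^ 2 + 2 * k + 1) ≤ w * (w + 1) * (2 * w + 1) := by exact_mod_cast h
      have hcZ : (w : ℤ) * w ≤ 8 * k + 2 + w := by exact_mod_cast hcon
      have hwZ : (14 : ℤ) ≤ w := by exact_mod_cast h2
      have hkZ : (18 : ℤ) ≤ k := by exact_mod_cast hk
      have h5 : ((w : ℤ) * w - w - 2) * (w * w - w + 6) ≤ (8 * k) * (8 * k + 8) := by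
        have h6 : (w : ℤ) * w - w - 2 ≤ 8 * k := by linarith
        have h7 : (w : ℤ) * w - w + 6 ≤ 8 * k + 8 := by linarith
        have h8 : (0 : ℤ) ≤ (w : ℤ) * w - w + 6 := by nlinarith
        have h9 : (0 : ℤ) ≤ 8 * (k : ℤ) := by linarith
        exact mul_le_mul h6 h7 h8 h9
      have h6 : 16 * ((w : ℤ) * (w + 1) * (2 * w + 1)) <
          3 * (((w : ℤ) * w - w - 2) * (w * w - w + 6)) + 96 := by
        nlinarith [mul_nonneg (mul_nonneg (sub_nonneg.2 hwZ) (sub_nonneg.2 hwZ))
          (mul_nonneg (sub_nonneg.2 hwZ) (sub_nonneg.2 hwZ)),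
          mul_nonneg (mul_nonneg (sub_nonneg.2 hwZ) (sub_nonneg.2 hwZ)) (sub_nonneg.2 hwZ),
          mul_nonneg (sub_nonneg.2 hwZ) (sub_nonneg.2 hwZ)]
      nlinarith

/-- The packing of `n_k` balls. -/
lemma exists_packing {k : ℕ} (hk : 6 ≤ k) : ∃ (C : Finset E3) (w : ℕ), IsPacking C ∧
    C.card = nk k ∧ 6 * (2 * k ^ 2 + 2 * k + 1) ≤ w * (w + 1) * (2 * w + 1) ∧
    8 * (C.card : ℤ) + 2 * w ^ 2 - 2 * w ≤
      touching 3 C + 8 * ((k : ℤ) + 1) ^ 2 + 4 * (k * (k + 1)) ∧
    2 * (C.card : ℤ) + w ^ 2 - w ≤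
      touching 4 C + 2 * ((k : ℤ) + 1) ^ 2 + 2 * (k * (k + 1)) := by
  obtain ⟨w, r, h1, h2, h3, h4⟩ := exists_w hk
  obtain ⟨X, hX, g1, g2, g3⟩ := exists_model (K := k + 1) h1 (by omega) h3
  have e1 : (((k + 1 : ℕ) : ℤ)) = k + 1 := by push_cast; ring
  rw [e1] at g1 g2 g3
  have h4Z : (w : ℤ) * (w + 1) * (2 * w + 1) = 6 * (2 * k ^ 2 + 2 * k + 1) + 6 * r := by
    exact_mod_cast h4
  have hn : X.card = nk k := by
    have h5 : 3 * ((nk k : ℕ) : ℤ) = 2 * k ^ 3 + k := by exact_mod_cast three_nk k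
    have h6 : 6 * (X.card : ℤ) = 6 * (nk k : ℕ) := by
      rw [g1]
      linear_combination -2 * h5 - h4Z
    omega
  have t3 := touching_toE 3 X
  have t4 := touching_toE 4 X
  have t3Z : ((Cl 3 X).card : ℤ) ≤ touching 3 (toE X) := by exact_mod_cast t3
  have t4Z : ((Cl 4 X).card : ℤ) ≤ touching 4 (toE X) := by exact_mod_cast t4
  refine ⟨toE X, w, packing_toE hX, by rw [card_toE, hn], by omega, ?_, ?_⟩
  · rw [card_toE]
    linarith
  · rw [card_toE]
    linarith

/-- Triplets. -/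
theorem triplets {k : ℕ} (hk : 56 ≤ k) : ∃ C : Finset E3, IsPacking C ∧ C.card = nk k ∧
    tk k < touching 3 C := by
  obtain ⟨C, w, h1, h2, h3, h4, -⟩ := exists_packing (k := k) (by omega)
  refine ⟨C, h1, h2, ?_⟩
  have hw := w_large3 hk h3
  have hwZ : (12 : ℤ) * k + 4 + w < w * w := by exact_mod_cast hw
  have h5 : 3 * ((nk k : ℕ) : ℤ) = 2 * k ^ 3 + k := by exact_mod_cast three_nk k
  rw [h2] at h4
  have h6 : 4 * ((k : ℤ) - 1) * k * (4 * k - 5) < 3 * touching 3 C := by
    nlinarith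
  have h7 : 4 * ((k : ℚ) - 1) * k * (4 * k - 5) < 3 * touching 3 C := by exact_mod_cast h6
  unfold tk
  linarith

/-- Quadruples. -/
theorem quadruples {k : ℕ} (hk : 18 ≤ k) : ∃ C : Finset E3, IsPacking C ∧ C.card = nk k ∧
    qk k < touching 4 C := by
  obtain ⟨C, w, h1, h2, h3, -, h4⟩ := exists_packing (k := k) (by omega)
  refine ⟨C, h1, h2, ?_⟩
  have hw := w_large4 hk h3
  have hwZ : (8 : ℤ) * k + 2 + w < w * w := by exact_mod_cast hw
  have h5 : 3 * ((nk k : ℕ) : ℤ) = 2 * k ^ 3 + k := by exact_mod_cast three_nk k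
  rw [h2] at h4
  have h6 : 4 * ((k : ℤ) - 2) * (k - 1) * k < 3 * touching 4 C := by
    nlinarith
  have h7 : 4 * ((k : ℚ) - 2) * (k - 1) * k < 3 * touching 4 C := by exact_mod_cast h6
  unfold qk
  linarith

end Q146.Octa
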