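import Mathlib

set_option autoImplicit false

/-!
# Touching triplets and quadruples of unit ball packings: definitions

Shared by the two hand-ins on MP_b59a08_co.
-/

namespace Q146.Octa

/-- Euclidean three-space. -/
abbrev E3 := EuclideanSpace ℝ (Fin 3)

/-- `C` is the set of the centres of a packing of unit balls: the closed balls of radius one about
the points of `C` have pairwise disjoint interiors. -/
def IsPacking (C : Finset E3) : Prop :=
  ∀ x ∈ C, ∀ y ∈ C, x ≠ y →
    Disjoint (interior (Metric.closedBall x 1)) (interior (Metric.closedBall y 1))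

/-- The number of the unordered sets of `m` balls of the packing with centres `C` that touch
pairwise (two unit balls of a packing touch when their centres are at distance exactly `2`).
For `m = 3` these are the touching triplets, for `m = 4` the touching quadruples. -/
noncomputable def touching (m : ℕ) (C : Finset E3) : ℕ :=
  {S : Finset E3 | S ⊆ C ∧ S.card = m ∧ ∀ x ∈ S, ∀ y ∈ S, x ≠ y → dist x y = 2}.ncard

/-- `n_k = (2 k ^ 3 + k) / 3` (the division is exact). -/
def nk (k : ℕ) : ℕ := (2 * k ^ 3 + k) / 3

/-- `t_k = 4 / 3 * (k - 1) * k * (4 * k - 5)`. -/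
def tk (k : ℕ) : ℚ := 4 / 3 * ((k : ℚ) - 1) * k * (4 * k - 5)

/-- `q_k = 4 / 3 * (k - 2) * (k - 1) * k`. -/
def qk (k : ℕ) : ℚ := 4 / 3 * ((k : ℚ) - 2) * ((k : ℚ) - 1) * k

end Q146.Octa
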