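import Mathlib

/-!
The inequality behind the largest square in an odd-dimensional cube: if `u, v : ι → ℝ`, the index
set has odd cardinality, `∑ u² = ∑ v²`, `∑ u v = 0` and `|u j| + |v j| ≤ 1`, then
`∑ (u² + v²) ≤ card ι - 3/4`.
-/

set_option autoImplicit false

namespace Q146.OddSquare

open Finset

/-- `g δ = δ - δ²/2`: subadditivity in the form needed. -/
lemma sum_g {ι : Type*} (s : Finset ι) (δ : ι → ℝ) (t : ℝ) (ht1 : t ≤ 1)
    (h0 : ∀ j ∈ s, 0 ≤ δ j) (h1 : ∀ j ∈ s, δ j ≤ 1) (hs : t ≤ ∑ j ∈ s, δ j) :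
    t - t ^ 2 / 2 ≤ ∑ j ∈ s, (δ j - δ j ^ 2 / 2) := by
  have hg0 : ∀ j ∈ s, 0 ≤ δ j - δ j ^ 2 / 2 := by
    intro j hj
    nlinarith [h0 j hj, h1 j hj]
  by_cases hex : ∃ j ∈ s, t ≤ δ j
  · obtain ⟨j, hj, hjt⟩ := hex
    have hle : δ j - δ j ^ 2 / 2 ≤ ∑ j ∈ s, (δ j - δ j ^ 2 / 2) :=
      single_le_sum (f := fun j => δ j - δ j ^ 2 / 2) hg0 hj
    have h2 := h1 j hj
    nlinarith
  · push Not at hex
    have h3 : ∀ j ∈ s, δ j * (1 - t / 2) ≤ δ j - δ j ^ 2 / 2 := by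
      intro j hj
      nlinarith [h0 j hj, hex j hj]
    have h4 : (∑ j ∈ s, δ j) * (1 - t / 2) ≤ ∑ j ∈ s, (δ j - δ j ^ 2 / 2) := by
      rw [sum_mul]
      exact sum_le_sum h3
    nlinarith

/-- the heart of the matter -/
lemma core {ι : Type*} [Fintype ι] [DecidableEq ι] (u v : ι → ℝ)
    (hb : ∀ j, |u j| + |v j| ≤ 1) (hy : ∑ j, u j * v j = 0) (P : Finset ι)
    (hP : 1 ≤ ∑ j ∈ P, (1 - |u j ^ 2 - v j ^ 2|)) (j₀ : ι) (hj₀ : j₀ ∈ P)
    (hx₀ : |u j₀ ^ 2 - v j₀ ^ 2| < 1 / 2) (hy₀ : 0 ≤ u j₀ * v j₀) :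
    3 / 4 ≤ ∑ j, (1 - u j ^ 2 - v j ^ 2) := by
  -- pointwise facts
  have F1 : ∀ j, 2 * |u j * v j| ≤ 1 - u j ^ 2 - v j ^ 2 := by
    intro j
    have h1 := hb j
    rw [abs_mul]
    nlinarith [abs_nonneg (u j), abs_nonneg (v j), sq_abs (u j), sq_abs (v j)]
  have F2 : ∀ j, (1 - |u j ^ 2 - v j ^ 2|) - (1 - |u j ^ 2 - v j ^ 2|) ^ 2 / 2
      ≤ 1 - u j ^ 2 - v j ^ 2 := by
    intro j
    have h1 := hb j
    have h2 := abs_nonneg (u j)
    have h3 := abs_nonneg (v j)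
    have e : (1 - |u j ^ 2 - v j ^ 2|) - (1 - |u j ^ 2 - v j ^ 2|) ^ 2 / 2
        = (1 - (u j ^ 2 - v j ^ 2) ^ 2) / 2 := by
      have := sq_abs (u j ^ 2 - v j ^ 2)
      linear_combination (-1 / 2) * this
    rw [e, ← sq_abs (u j), ← sq_abs (v j)]
    have hp : 0 ≤ 1 - (|u j| + |v j|) ^ 2 := by nlinarith
    have hq : 0 ≤ 1 - (|u j| - |v j|) ^ 2 := by nlinarith
    nlinarith [mul_nonneg hp hq]
  have F0 : ∀ j, |u j ^ 2 - v j ^ 2| ≤ 1 := by
    intro j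
    have h1 := hb j
    have h2 := abs_nonneg (u j)
    have h3 := abs_nonneg (v j)
    rw [abs_le, ← sq_abs (u j), ← sq_abs (v j)]
    constructor <;> nlinarith
  have L0 : ∀ j, 0 ≤ 1 - u j ^ 2 - v j ^ 2 := fun j => by
    have := F1 j
    have h := abs_nonneg (u j * v j)
    linarith
  set x₀ := |u j₀ ^ 2 - v j₀ ^ 2| with hx₀def
  have hx₀nn : 0 ≤ x₀ := abs_nonneg _
  set L := ∑ j, (1 - u j ^ 2 - v j ^ 2) with hL
  -- first bound
  have B1 : (1 - u j₀ ^ 2 - v j₀ ^ 2) + 2 * (u j₀ * v j₀) ≤ L := by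
    have h1 : ∑ j ∈ univ.erase j₀, (-(2 * (u j * v j)))
        ≤ ∑ j ∈ univ.erase j₀, (1 - u j ^ 2 - v j ^ 2) := by
      apply sum_le_sum
      intro j _
      have := F1 j
      have h := neg_abs_le (u j * v j)
      linarith
    have h2 : ∑ j ∈ univ.erase j₀, (-(2 * (u j * v j))) = 2 * (u j₀ * v j₀) := by
      have h3 : ∑ j, (u j * v j) = u j₀ * v j₀ + ∑ j ∈ univ.erase j₀, (u j * v j) := by
        rw [add_sum_erase univ (fun j => u j * v j) (mem_univ j₀)]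
      rw [sum_neg_distrib, ← mul_sum]
      rw [hy] at h3
      linarith
    have h3 : L = (1 - u j₀ ^ 2 - v j₀ ^ 2) + ∑ j ∈ univ.erase j₀, (1 - u j ^ 2 - v j ^ 2) := by
      rw [hL, add_sum_erase univ (fun j => 1 - u j ^ 2 - v j ^ 2) (mem_univ j₀)]
    linarith
  -- second bound
  have B2 : (1 - u j₀ ^ 2 - v j₀ ^ 2) + (x₀ - x₀ ^ 2 / 2) ≤ L := by
    have h1 : x₀ ≤ ∑ j ∈ P.erase j₀, (1 - |u j ^ 2 - v j ^ 2|) := by
      have := add_sum_erase P (fun j => 1 - |u j ^ 2 - v j ^ 2|) hj₀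
      linarith
    have h2 := sum_g (P.erase j₀) (fun j => 1 - |u j ^ 2 - v j ^ 2|) x₀ (by linarith)
      (fun j _ => by have := F0 j; linarith) (fun j _ => by
        have := abs_nonneg (u j ^ 2 - v j ^ 2); linarith) h1
    have h3 : ∑ j ∈ P.erase j₀, ((1 - |u j ^ 2 - v j ^ 2|) - (1 - |u j ^ 2 - v j ^ 2|) ^ 2 / 2)
        ≤ ∑ j ∈ univ.erase j₀, (1 - u j ^ 2 - v j ^ 2) := by
      calc _ ≤ ∑ j ∈ P.erase j₀, (1 - u j ^ 2 - v j ^ 2) := sum_le_sum fun j _ => F2 j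
        _ ≤ _ := sum_le_sum_of_subset_of_nonneg (erase_subset_erase _ (subset_univ _))
            fun j _ _ => L0 j
    have h4 : L = (1 - u j₀ ^ 2 - v j₀ ^ 2) + ∑ j ∈ univ.erase j₀, (1 - u j ^ 2 - v j ^ 2) := by
      rw [hL, add_sum_erase univ (fun j => 1 - u j ^ 2 - v j ^ 2) (mem_univ j₀)]
    linarith
  -- conclusion
  by_contra hcon
  push Not at hcon
  set r := u j₀ ^ 2 + v j₀ ^ 2 with hr
  set y := 2 * (u j₀ * v j₀) with hy'
  have hr0 : 0 ≤ r := by positivity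
  have hy0 : 0 ≤ y := by linarith
  have hrel : r ^ 2 = x₀ ^ 2 + y ^ 2 := by
    rw [hx₀def, sq_abs]; ring
  have c1 : y + 1 / 4 < r := by linarith
  have c2 : x₀ - x₀ ^ 2 / 2 + 1 / 4 < r := by linarith
  have hg : 0 ≤ x₀ - x₀ ^ 2 / 2 := by nlinarith
  rcases le_total y (x₀ - x₀ ^ 2 / 2) with h | h
  · have h5 : (x₀ - x₀ ^ 2 / 2 + 1 / 4) ^ 2 < x₀ ^ 2 + (x₀ - x₀ ^ 2 / 2) ^ 2 := by
      have : (x₀ - x₀ ^ 2 / 2 + 1 / 4) ^ 2 < r ^ 2 := by
        apply pow_lt_pow_left₀ c2 (by linarith) (by norm_num)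
      have h6 : y ^ 2 ≤ (x₀ - x₀ ^ 2 / 2) ^ 2 := pow_le_pow_left₀ hy0 h 2
      linarith
    nlinarith
  · have h5 : (y + 1 / 4) ^ 2 < x₀ ^ 2 + y ^ 2 := by
      have : (y + 1 / 4) ^ 2 < r ^ 2 := by
        apply pow_lt_pow_left₀ c1 (by linarith) (by norm_num)
      linarith
    nlinarith

theorem main {ι : Type*} [Fintype ι] [DecidableEq ι] (hodd : Odd (Fintype.card ι)) (u v : ι → ℝ)
    (hb : ∀ j, |u j| + |v j| ≤ 1) (hx : ∑ j, u j ^ 2 = ∑ j, v j ^ 2)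
    (hy : ∑ j, u j * v j = 0) :
    ∑ j, (u j ^ 2 + v j ^ 2) ≤ Fintype.card ι - 3 / 4 := by
  have key : 3 / 4 ≤ ∑ j, (1 - u j ^ 2 - v j ^ 2) := by
    -- the majority class
    obtain ⟨P, hP⟩ : ∃ P : Finset ι, 1 ≤ ∑ j ∈ P, (1 - |u j ^ 2 - v j ^ 2|) := by
      have F0 : ∀ j, |u j ^ 2 - v j ^ 2| ≤ 1 := by
        intro j
        have h1 := hb j
        have h2 := abs_nonneg (u j)
        have h3 := abs_nonneg (v j)
        rw [abs_le, ← sq_abs (u j), ← sq_abs (v j)]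
        constructor <;> nlinarith
      set A := univ.filter (fun j => 0 ≤ u j ^ 2 - v j ^ 2) with hA
      set B := univ.filter (fun j => ¬ 0 ≤ u j ^ 2 - v j ^ 2) with hB
      have hcard : A.card + B.card = Fintype.card ι := by
        rw [hA, hB, card_filter_add_card_filter_not, card_univ]
      have hsum : ∑ j ∈ A, (u j ^ 2 - v j ^ 2) + ∑ j ∈ B, (u j ^ 2 - v j ^ 2) = 0 := by
        rw [hA, hB, sum_filter_add_sum_filter_not, sum_sub_distrib, hx, sub_self]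
      have hAabs : ∑ j ∈ A, |u j ^ 2 - v j ^ 2| = ∑ j ∈ A, (u j ^ 2 - v j ^ 2) := by
        apply sum_congr rfl
        intro j hj
        rw [hA, mem_filter] at hj
        exact abs_of_nonneg hj.2
      have hBabs : ∑ j ∈ B, |u j ^ 2 - v j ^ 2| = - ∑ j ∈ B, (u j ^ 2 - v j ^ 2) := by
        rw [← sum_neg_distrib]
        apply sum_congr rfl
        intro j hj
        rw [hB, mem_filter] at hj
        exact abs_of_neg (not_le.1 hj.2)
      have heq : ∑ j ∈ A, |u j ^ 2 - v j ^ 2| = ∑ j ∈ B, |u j ^ 2 - v j ^ 2| := by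
        rw [hAabs, hBabs]; linarith
      have hAle : ∑ j ∈ A, |u j ^ 2 - v j ^ 2| ≤ A.card := by
        calc _ ≤ ∑ j ∈ A, (1 : ℝ) := sum_le_sum fun j _ => F0 j
          _ = _ := by simp
      have hBle : ∑ j ∈ B, |u j ^ 2 - v j ^ 2| ≤ B.card := by
        calc _ ≤ ∑ j ∈ B, (1 : ℝ) := sum_le_sum fun j _ => F0 j
          _ = _ := by simp
      obtain ⟨k, hk⟩ := hodd
      rcases Nat.lt_or_ge B.card A.card with h | h
      · refine ⟨A, ?_⟩
        rw [sum_sub_distrib, sum_const, nsmul_eq_mul, mul_one, heq]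
        have : (B.card : ℝ) + 1 ≤ A.card := by exact_mod_cast h
        linarith
      · have h' : A.card < B.card := by omega
        refine ⟨B, ?_⟩
        rw [sum_sub_distrib, sum_const, nsmul_eq_mul, mul_one, ← heq]
        have : (A.card : ℝ) + 1 ≤ B.card := by exact_mod_cast h'
        linarith
    by_cases hsmall : ∃ j₀ ∈ P, |u j₀ ^ 2 - v j₀ ^ 2| < 1 / 2
    · obtain ⟨j₀, hj₀, hx₀⟩ := hsmall
      rcases le_total 0 (u j₀ * v j₀) with h | h
      · exact core u v hb hy P hP j₀ hj₀ hx₀ h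
      · have := core u (fun j => - v j) (by simpa using hb) (by simpa using hy) P
          (by simpa using hP) j₀ hj₀ (by simpa using hx₀) (by simpa using h)
        simpa using this
    · push Not at hsmall
      have F0 : ∀ j, |u j ^ 2 - v j ^ 2| ≤ 1 := by
        intro j
        have h1 := hb j
        have h2 := abs_nonneg (u j)
        have h3 := abs_nonneg (v j)
        rw [abs_le, ← sq_abs (u j), ← sq_abs (v j)]
        constructor <;> nlinarith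
      have F2 : ∀ j ∈ P, (3 / 4) * (1 - |u j ^ 2 - v j ^ 2|) ≤ 1 - u j ^ 2 - v j ^ 2 := by
        intro j hj
        have h1 := hb j
        have h2 := abs_nonneg (u j)
        have h3 := abs_nonneg (v j)
        have h4 := hsmall j hj
        have h5 := F0 j
        have hp : 0 ≤ 1 - (|u j| + |v j|) ^ 2 := by nlinarith
        have hq : 0 ≤ 1 - (|u j| - |v j|) ^ 2 := by nlinarith
        have h6 : (1 - |u j ^ 2 - v j ^ 2| ^ 2) / 2 ≤ 1 - u j ^ 2 - v j ^ 2 := by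
          rw [sq_abs, ← sq_abs (u j), ← sq_abs (v j)]
          nlinarith [mul_nonneg hp hq]
        nlinarith
      have L0 : ∀ j, 0 ≤ 1 - u j ^ 2 - v j ^ 2 := fun j => by
        have h1 := hb j
        have h2 := abs_nonneg (u j)
        have h3 := abs_nonneg (v j)
        rw [← sq_abs (u j), ← sq_abs (v j)]
        nlinarith [mul_nonneg h2 h3]
      calc (3 / 4 : ℝ) ≤ (3 / 4) * ∑ j ∈ P, (1 - |u j ^ 2 - v j ^ 2|) := by linarith
        _ = ∑ j ∈ P, (3 / 4) * (1 - |u j ^ 2 - v j ^ 2|) := by rw [mul_sum]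
        _ ≤ ∑ j ∈ P, (1 - u j ^ 2 - v j ^ 2) := sum_le_sum F2
        _ ≤ _ := sum_le_sum_of_subset_of_nonneg (subset_univ _) fun j _ _ => L0 j
  have h2 : ∑ j, (1 - u j ^ 2 - v j ^ 2) = Fintype.card ι - ∑ j, (u j ^ 2 + v j ^ 2) := by
    rw [show (fun j => 1 - u j ^ 2 - v j ^ 2) = fun j => 1 - (u j ^ 2 + v j ^ 2) by
      funext j; ring, sum_sub_distrib]
    simp
  linarith

end Q146.OddSquare
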