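import Mathlib

/-!
# Families of points whose small subsets are shattered by balls of one radius
-/

set_option autoImplicit false

namespace Pool.Agent.Q146.Pandi

open Finset

variable {E : Type*} [NormedAddCommGroup E] [InnerProductSpace ℝ E]

/-- All subfamilies of at most `d` points of `b` are shattered by balls of radius `r`, strictly. -/
def Shat {B : Type*} (d : ℕ) (b : B → E) (r : ℝ) : Prop :=
  ∀ S T : Finset B, S.card ≤ d → ∃ c : E, ∀ i ∈ S,
    (i ∈ T → dist c (b i) < r) ∧ (i ∉ T → r < dist c (b i))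

variable {B : Type*} [Fintype B] [DecidableEq B]

theorem star {d : ℕ} {b : B → E} {r : ℝ} (hr : 0 < r) (h : Shat d b r) (l : B → ℝ)
    (S : Finset B) (hS : S.card ≤ d) (hsupp : ∀ i, i ∉ S → l i = 0) (hne : ∃ i, l i ≠ 0) (a : E)
    (hrel : ∑ i, l i • (b i - a) = 0) (hL : 0 ≤ ∑ i, l i) :
    ∑ i, l i * (‖b i - a‖ ^ 2 - r ^ 2) < 0 := by
  classical
  obtain ⟨c, hc⟩ := h S (univ.filter fun i => 0 < l i) hS
  have hterm : ∀ i, l i ≠ 0 → l i * (‖c - b i‖ ^ 2 - r ^ 2) < 0 := by
    intro i hi
    have hiS : i ∈ S := by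
      by_contra hn
      exact hi (hsupp i hn)
    have h1 := hc i hiS
    rcases lt_or_gt_of_ne hi with h2 | h2
    · have h3 : r < dist c (b i) := h1.2 (by simp [not_lt.2 h2.le])
      rw [dist_eq_norm] at h3
      have h4 : 0 < ‖c - b i‖ ^ 2 - r ^ 2 := by nlinarith
      nlinarith
    · have h3 : dist c (b i) < r := h1.1 (by simp [h2])
      rw [dist_eq_norm] at h3
      have h4 : ‖c - b i‖ ^ 2 - r ^ 2 < 0 := by nlinarith [norm_nonneg (c - b i)]
      nlinarith
  have hsum : ∑ i, l i * (‖c - b i‖ ^ 2 - r ^ 2) < 0 := by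
    obtain ⟨i0, hi0⟩ := hne
    have : ∑ i, l i * (‖c - b i‖ ^ 2 - r ^ 2) < ∑ i : B, (0 : ℝ) := by
      apply Finset.sum_lt_sum
      · intro i _
        by_cases hi : l i = 0
        · simp [hi]
        · exact (hterm i hi).le
      · exact ⟨i0, mem_univ _, hterm i0 hi0⟩
    simpa using this
  have hid : ∑ i, l i * (‖c - b i‖ ^ 2 - r ^ 2) =
      (∑ i, l i) * ‖c - a‖ ^ 2 - 2 * inner ℝ (c - a) (∑ i, l i • (b i - a)) +
        ∑ i, l i * (‖b i - a‖ ^ 2 - r ^ 2) := by
    rw [inner_sum, Finset.sum_mul, Finset.mul_sum, ← Finset.sum_sub_distrib,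
      ← Finset.sum_add_distrib]
    apply Finset.sum_congr rfl
    intro i _
    have h1 : c - b i = (c - a) - (b i - a) := by abel
    rw [h1, norm_sub_sq_real, inner_smul_right]
    ring
  rw [hid, hrel, inner_zero_right] at hsum
  have : 0 ≤ (∑ i, l i) * ‖c - a‖ ^ 2 := by positivity
  linarith

theorem star2 {d : ℕ} {b : B → E} {r : ℝ} (hr : 0 < r) (h : Shat d b r) (l : B → ℝ)
    (S : Finset B) (hS : S.card ≤ d) (hsupp : ∀ i, i ∉ S → l i = 0) (hne : ∃ i, l i ≠ 0) (a : E)
    (hrel : ∑ i, l i • (b i - a) = 0) :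
    (0 < ∑ i, l i ∧ ∑ i, l i * (‖b i - a‖ ^ 2 - r ^ 2) < 0) ∨
      (∑ i, l i < 0 ∧ 0 < ∑ i, l i * (‖b i - a‖ ^ 2 - r ^ 2)) := by
  have hneg : (0 ≤ ∑ i, (-l i)) → ∑ i, (-l i) * (‖b i - a‖ ^ 2 - r ^ 2) < 0 := by
    intro h0
    refine star hr h (fun i => -l i) S hS (fun i hi => by simp [hsupp i hi]) ?_ a ?_ h0
    · obtain ⟨i, hi⟩ := hne
      exact ⟨i, by simpa using hi⟩
    · simp only [neg_smul, Finset.sum_neg_distrib, hrel, neg_zero]
  have hpos := star hr h l S hS hsupp hne a hrel
  simp only [neg_mul, Finset.sum_neg_distrib] at hneg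
  rcases lt_trichotomy (∑ i, l i) 0 with h1 | h1 | h1
  · right
    exact ⟨h1, by linarith [hneg (by linarith)]⟩
  · exfalso
    have h2 := hpos h1.ge
    have h3 := hneg (by linarith)
    linarith
  · left
    exact ⟨h1, hpos h1.le⟩

theorem exists_rel [FiniteDimensional ℝ E] (y : B → E) (V : Finset B)
    (hV : Module.finrank ℝ E < V.card) :
    ∃ l : B → ℝ, (∀ i, i ∉ V → l i = 0) ∧ (∃ i, l i ≠ 0) ∧ ∑ i, l i • y i = 0 := by
  classical
  have h1 : LinearMap.ker (Fintype.linearCombination ℝ (fun i : V => y i)) ≠ ⊥ := by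
    apply LinearMap.ker_ne_bot_of_finrank_lt
    simpa using hV
  obtain ⟨w, hw, hw0⟩ := (Submodule.ne_bot_iff _).1 h1
  rw [LinearMap.mem_ker, Fintype.linearCombination_apply] at hw
  refine ⟨fun i => if h : i ∈ V then w ⟨i, h⟩ else 0, fun i hi => by simp [hi], ?_, ?_⟩
  · by_contra hcon
    push Not at hcon
    apply hw0
    funext i
    have := hcon i.1
    simpa using this
  · rw [← hw, ← Finset.sum_subset (subset_univ V)]
    · rw [← Finset.sum_coe_sort V]
      apply Finset.sum_congr rfl
      intro i _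
      simp
    · intro i _ hi
      simp [hi]

theorem circuit [FiniteDimensional ℝ E] {b : B → E} {r : ℝ} (hr : 0 < r)
    (h : Shat (Module.finrank ℝ E + 1) b r) (a : E) (m : B → ℝ) (U : Finset B)
    (hU : U.card ≤ Module.finrank ℝ E + 2) (hsupp : ∀ i, i ∉ U → m i = 0)
    (hpos : ∀ i ∈ U, 0 < m i * (r ^ 2 - ‖b i - a‖ ^ 2)) (hne : U.Nonempty)
    (h0 : ∑ i, m i = 0) (h1 : ∑ i, m i • b i = 0) : False := by
  classical
  have hrel : ∑ i, m i • (b i - a) = 0 := by
    simp only [smul_sub, Finset.sum_sub_distrib, h1, ← Finset.sum_smul, h0, zero_smul, sub_zero]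
  have hmne : ∀ i ∈ U, m i ≠ 0 := by
    intro i hi h2
    have := hpos i hi
    rw [h2] at this
    simp at this
  rcases Nat.lt_or_ge (Module.finrank ℝ E + 1) U.card with hc | hc
  swap
  · obtain ⟨i, hi⟩ := hne
    rcases star2 hr h m U hc hsupp ⟨i, hmne i hi⟩ a hrel with h2 | h2
    · linarith [h2.1]
    · linarith [h2.1]
  have hQm : ∑ i, m i * (‖b i - a‖ ^ 2 - r ^ 2) < 0 := by
    obtain ⟨i0, hi0⟩ := hne
    have : ∑ i, m i * (‖b i - a‖ ^ 2 - r ^ 2) < ∑ i : B, (0 : ℝ) := by
      apply Finset.sum_lt_sum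
      · intro i _
        by_cases hi : i ∈ U
        · have := hpos i hi
          nlinarith
        · simp [hsupp i hi]
      · exact ⟨i0, mem_univ _, by have := hpos i0 hi0; nlinarith⟩
    simpa using this
  obtain ⟨i0, hi0⟩ := hne
  have hV : (U.erase i0).card ≤ Module.finrank ℝ E + 1 := by
    rw [card_erase_of_mem hi0]; omega
  obtain ⟨l, hl1, hl2, hl3⟩ : ∃ l : B → ℝ, (∀ i, i ∉ U → l i = 0) ∧ (∑ i, l i < 0 ∧
      0 < ∑ i, l i * (‖b i - a‖ ^ 2 - r ^ 2)) ∧ ∑ i, l i • (b i - a) = 0 := by
    obtain ⟨l, hl1, hl2, hl3⟩ := exists_rel (fun i => b i - a) (U.erase i0)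
      (by rw [card_erase_of_mem hi0]; omega)
    have hl1' : ∀ i, i ∉ U → l i = 0 := fun i hi => hl1 i (fun h2 => hi (mem_of_mem_erase h2))
    rcases star2 hr h l (U.erase i0) hV hl1 hl2 a hl3 with h2 | h2
    · refine ⟨fun i => -l i, fun i hi => by simp [hl1' i hi], ⟨?_, ?_⟩, ?_⟩
      · simp only [Finset.sum_neg_distrib]; linarith [h2.1]
      · simp only [neg_mul, Finset.sum_neg_distrib]; linarith [h2.2]
      · simp only [neg_smul, Finset.sum_neg_distrib, hl3, neg_zero]
    · exact ⟨l, hl1', h2, hl3⟩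
  set Ql := ∑ i, l i * (‖b i - a‖ ^ 2 - r ^ 2) with hQl
  set Qm := ∑ i, m i * (‖b i - a‖ ^ 2 - r ^ 2) with hQm'
  set s := Ql / (-Qm) with hs
  have hspos : 0 < s := div_pos hl2.2 (by linarith)
  have hsQ : s * Qm = - Ql := by
    have hQ0 : Qm ≠ 0 := hQm.ne
    rw [hs, div_mul_eq_mul_div, mul_comm, div_neg, mul_div_assoc, mul_comm, div_mul_cancel₀ _ hQ0]
  have hcomb : ∀ t : ℝ, (∀ i, i ∉ U → l i + t * m i = 0) ∧
      ∑ i, (l i + t * m i) = ∑ i, l i ∧
      ∑ i, (l i + t * m i) * (‖b i - a‖ ^ 2 - r ^ 2) = Ql + t * Qm ∧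
      ∑ i, (l i + t * m i) • (b i - a) = 0 := by
    intro t
    refine ⟨fun i hi => by simp [hl1 i hi, hsupp i hi], ?_, ?_, ?_⟩
    · rw [Finset.sum_add_distrib, ← Finset.mul_sum, h0]; ring
    · rw [hQl, hQm', Finset.mul_sum, ← Finset.sum_add_distrib]
      apply Finset.sum_congr rfl
      intro i _
      ring
    · simp only [add_smul, Finset.sum_add_distrib, hl3, mul_smul, ← Finset.smul_sum, hrel,
        smul_zero, add_zero]
  -- signs
  have hsign : ∀ i ∈ U, 0 < m i * (l i + s * m i) := by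
    intro i hi
    by_contra hcon
    push Not at hcon
    have hmi := hmne i hi
    -- choose t = - l i / m i ≥ s
    set t := - l i / m i with ht
    have ht0 : l i + t * m i = 0 := by
      rw [ht]; field_simp; ring
    have hts : s ≤ t := by
      have h2 : m i * (l i + s * m i) = (s - t) * (m i) ^ 2 := by
        have : l i = - t * m i := by linarith
        rw [this]; ring
      rw [h2] at hcon
      have h3 : 0 < (m i) ^ 2 := by positivity
      by_contra h4
      push Not at h4
      have : 0 < (s - t) * (m i) ^ 2 := mul_pos (by linarith) h3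
      linarith
    obtain ⟨c1, c2, c3, c4⟩ := hcomb t
    have hne' : ∃ i, l i + t * m i ≠ 0 := by
      by_contra hcon2
      push Not at hcon2
      have : ∑ i, (l i + t * m i) = 0 := Finset.sum_eq_zero fun i _ => hcon2 i
      linarith [hl2.1]
    have hcard : (U.erase i).card ≤ Module.finrank ℝ E + 1 := by
      rw [card_erase_of_mem hi]; omega
    have hsup2 : ∀ j, j ∉ U.erase i → l j + t * m j = 0 := by
      intro j hj
      by_cases hji : j = i
      · rw [hji]; exact ht0
      · exact c1 j (fun h2 => hj (mem_erase.2 ⟨hji, h2⟩))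
    rcases star2 hr h (fun j => l j + t * m j) (U.erase i) hcard hsup2 hne' a c4 with h2 | h2
    · have := h2.1
      rw [c2] at this
      linarith [hl2.1]
    · have h3 := h2.2
      rw [c3] at h3
      nlinarith
  obtain ⟨c1, c2, c3, c4⟩ := hcomb s
  have hfin : ∑ i, (l i + s * m i) * (‖b i - a‖ ^ 2 - r ^ 2) < 0 := by
    have : ∑ i, (l i + s * m i) * (‖b i - a‖ ^ 2 - r ^ 2) < ∑ i : B, (0 : ℝ) := by
      have key : ∀ i ∈ U, (l i + s * m i) * (‖b i - a‖ ^ 2 - r ^ 2) < 0 := by
        intro i hi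
        have e1 := hsign i hi
        have e2 := hpos i hi
        have hm2 : 0 < (m i) ^ 2 := by have := hmne i hi; positivity
        have e3 : 0 < (m i * (l i + s * m i)) * (m i * (r ^ 2 - ‖b i - a‖ ^ 2)) := mul_pos e1 e2
        have e4 : (m i * (l i + s * m i)) * (m i * (r ^ 2 - ‖b i - a‖ ^ 2)) =
          (m i) ^ 2 * (-((l i + s * m i) * (‖b i - a‖ ^ 2 - r ^ 2))) := by ring
        rw [e4] at e3
        have := (pos_iff_pos_of_mul_pos e3).1 hm2
        linarith
      apply Finset.sum_lt_sum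
      · intro i _
        by_cases hi : i ∈ U
        · exact (key i hi).le
        · simp [c1 i hi]
      · exact ⟨i0, mem_univ _, key i0 hi0⟩
    simpa using this
  rw [c3, hsQ] at hfin
  linarith

omit [NormedAddCommGroup E] [InnerProductSpace ℝ E] in
theorem sum_swap {ι : Type*} [Fintype ι] {M : Type*} [AddCommGroup M] [Module ℝ M]
    (T : ι → B) (w : ι → ℝ) (X : B → ℝ) (y : B → M) :
    ∑ j, (∑ k, if T k = j then w k * X j else 0) • y j = ∑ k, w k • X (T k) • y (T k) := by
  simp only [Finset.sum_smul]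
  rw [Finset.sum_comm]
  apply Finset.sum_congr rfl
  intro k _
  rw [Finset.sum_eq_single (T k)]
  · simp [mul_smul]
  · intro j _ hj
    rw [if_neg (fun h2 => hj h2.symm), zero_smul]
  · simp

/-- Any ball cuts the family like a half-space. -/
theorem separate [FiniteDimensional ℝ E] {b : B → E} {r : ℝ} (hr : 0 < r)
    (h : Shat (Module.finrank ℝ E + 1) b r) (a : E) (ha : ∀ i, ‖b i - a‖ ≠ r) :
    ∃ f : Module.Dual ℝ (E × ℝ), ∀ i, (‖b i - a‖ < r → 0 < f (b i, 1)) ∧
      (r < ‖b i - a‖ → f (b i, 1) < 0) := by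
  classical
  set X : B → ℝ := fun i => if ‖b i - a‖ < r then 1 else -1 with hX
  set s : Set (E × ℝ) := Set.range (fun i => X i • (b i, (1 : ℝ))) with hs
  have hXpos : ∀ i, 0 < X i * (r ^ 2 - ‖b i - a‖ ^ 2) := by
    intro i
    simp only [hX]
    split_ifs with h1
    · nlinarith [norm_nonneg (b i - a)]
    · have h2 : r < ‖b i - a‖ := lt_of_le_of_ne (not_lt.1 h1) (ha i).symm
      nlinarith
  have h0 : (0 : E × ℝ) ∉ convexHull ℝ s := by
    intro hmem
    obtain ⟨ι, _, z, w, hz, hind, hw, hw1, hw0⟩ := eq_pos_convex_span_of_mem_convexHull hmem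
    have hT : ∀ k : ι, ∃ i : B, X i • (b i, (1 : ℝ)) = z k := fun k => hz ⟨k, rfl⟩
    choose T hT using hT
    have hTinj : Function.Injective T := by
      intro k k' hk
      apply hind.injective
      rw [← hT k, ← hT k', hk]
    have hcard : Fintype.card ι ≤ Module.finrank ℝ E + 2 := by
      have := hind.card_le_finrank_succ
      have h2 : Module.finrank ℝ (vectorSpan ℝ (Set.range z)) ≤ Module.finrank ℝ (E × ℝ) :=
        Submodule.finrank_le _
      simp only [Module.finrank_prod, Module.finrank_self] at h2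
      omega
    set m : B → ℝ := fun j => ∑ k, if T k = j then w k * X j else 0 with hm
    have hmT : ∀ k, m (T k) = w k * X (T k) := by
      intro k
      simp only [hm]
      rw [Finset.sum_eq_single k]
      · simp
      · intro k' _ hk'
        rw [if_neg (fun h2 => hk' (hTinj h2))]
      · simp
    have e1 : ∑ k, w k • X (T k) • b (T k) = 0 := by
      have := congrArg Prod.fst hw0
      rw [Prod.fst_sum] at this
      simp only [← hT] at this
      simpa using this
    have e2 : ∑ k, w k * X (T k) = 0 := by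
      have := congrArg Prod.snd hw0
      rw [Prod.snd_sum] at this
      simp only [← hT] at this
      simpa using this
    have hne : Nonempty ι := by
      by_contra hcon
      rw [not_nonempty_iff] at hcon
      simp at hw1
    apply circuit hr h a m (univ.image T)
    · exact (card_image_le).trans (by simpa using hcard)
    · intro i hi
      simp only [hm]
      apply Finset.sum_eq_zero
      intro k _
      rw [if_neg]
      intro h2
      exact hi (mem_image.2 ⟨k, mem_univ _, h2⟩)
    · intro i hi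
      obtain ⟨k, -, rfl⟩ := mem_image.1 hi
      rw [hmT, mul_assoc]
      exact mul_pos (hw k) (hXpos _)
    · obtain ⟨k⟩ := hne
      exact ⟨T k, mem_image_of_mem _ (mem_univ _)⟩
    · have := sum_swap T w X (fun _ => (1 : ℝ))
      simp only [smul_eq_mul, mul_one] at this
      simp only [hm]
      rw [this, e2]
    · simp only [hm]
      rw [sum_swap T w X b, e1]
  have hfin : s.Finite := Set.finite_range _
  obtain ⟨f, u, hf0, hf⟩ := geometric_hahn_banach_point_closed (convex_convexHull ℝ s)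
    (hfin.isClosed_convexHull ℝ) h0
  rw [map_zero] at hf0
  have hfX : ∀ i, 0 < X i * f (b i, 1) := by
    intro i
    have h1 := hf (X i • (b i, (1 : ℝ))) (subset_convexHull ℝ s ⟨i, rfl⟩)
    rw [map_smul, smul_eq_mul] at h1
    linarith
  refine ⟨(f : (E × ℝ) →ₗ[ℝ] ℝ), fun i => ⟨fun h1 => ?_, fun h1 => ?_⟩⟩
  · have := hfX i
    simp only [hX, if_pos h1, one_mul] at this
    exact this
  · have := hfX i
    simp only [hX, if_neg (not_lt.2 h1.le)] at this
    have h2 : 0 < -f (b i, 1) := by linarith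
    have : f (b i, 1) < 0 := by linarith
    exact this

/-- There are no `finrank E + 1` balls of the same radius which cut out all subsets. -/
theorem no_realization [FiniteDimensional ℝ E] {d : ℕ} (hd : Module.finrank ℝ E + 1 = d)
    (a : Fin d → E) (b : Finset (Fin d) → E) {r : ℝ} (hr : 0 < r) (h : Shat d b r)
    (hab : ∀ i T, (i ∈ T → dist (a i) (b T) < r) ∧ (i ∉ T → r < dist (a i) (b T))) : False := by
  classical
  have hne : ∀ i T, ‖b T - a i‖ ≠ r := by
    intro i T
    have := hab i T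
    rw [dist_comm, dist_eq_norm] at this
    by_cases hi : i ∈ T
    · exact (this.1 hi).ne
    · exact (this.2 hi).ne'
  have hsep : ∀ i, ∃ f : Module.Dual ℝ (E × ℝ), ∀ T, (‖b T - a i‖ < r → 0 < f (b T, 1)) ∧
      (r < ‖b T - a i‖ → f (b T, 1) < 0) := fun i =>
    separate hr (by rw [hd]; exact h) (a i) (hne i)
  choose f hf using hsep
  have hf' : ∀ i T, (i ∈ T → 0 < f i (b T, 1)) ∧ (i ∉ T → f i (b T, 1) < 0) := by
    intro i T
    have h1 := hab i T
    rw [dist_comm, dist_eq_norm] at h1
    exact ⟨fun hi => (hf i T).1 (h1.1 hi), fun hi => (hf i T).2 (h1.2 hi)⟩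
  set v : Option (Fin d) → Module.Dual ℝ (E × ℝ) := fun o =>
    Option.elim o (LinearMap.snd ℝ E ℝ) f with hv
  have hker : LinearMap.ker (Fintype.linearCombination ℝ v) ≠ ⊥ := by
    apply LinearMap.ker_ne_bot_of_finrank_lt
    rw [Subspace.dual_finrank_eq]
    simp [Module.finrank_prod]
    omega
  obtain ⟨t, ht, ht0⟩ := (Submodule.ne_bot_iff _).1 hker
  rw [LinearMap.mem_ker, Fintype.linearCombination_apply] at ht
  have hev : ∀ T, t none + ∑ i, t (some i) * f i (b T, 1) = 0 := by
    intro T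
    have h1 := congrArg (fun g : Module.Dual ℝ (E × ℝ) => g (b T, 1)) ht
    simp only [LinearMap.coe_sum, Finset.sum_apply, LinearMap.smul_apply, LinearMap.zero_apply,
      Fintype.sum_option, smul_eq_mul, hv, Option.elim] at h1
    simpa using h1
  have key : ∀ t : Option (Fin d) → ℝ, t ≠ 0 → 0 ≤ t none →
      (∀ T, t none + ∑ i, t (some i) * f i (b T, 1) = 0) → False := by
    intro t ht0 hnn hev
    have h1 := hev (univ.filter fun i => 0 < t (some i))
    have hterm : ∀ i, 0 ≤ t (some i) * f i (b (univ.filter fun i => 0 < t (some i)), 1) := by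
      intro i
      rcases lt_trichotomy (t (some i)) 0 with h2 | h2 | h2
      · have := (hf' i (univ.filter fun i => 0 < t (some i))).2 (by simp [not_lt.2 h2.le])
        nlinarith
      · simp [h2]
      · have := (hf' i (univ.filter fun i => 0 < t (some i))).1 (by simp [h2])
        positivity
    have hs0 : ∑ i, t (some i) * f i (b (univ.filter fun i => 0 < t (some i)), 1) = 0 := by
      have := Finset.sum_nonneg (s := univ) fun i _ => hterm i
      linarith
    have hall := (Finset.sum_eq_zero_iff_of_nonneg (fun i _ => hterm i)).1 hs0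
    apply ht0
    funext o
    cases o with
    | none => simp only [Pi.zero_apply]; linarith
    | some i =>
      have h2 := hall i (mem_univ i)
      rcases mul_eq_zero.1 h2 with h3 | h3
      · exact h3
      · exfalso
        by_cases hi : i ∈ (univ.filter fun i => 0 < t (some i))
        · exact ((hf' i _).1 hi).ne' h3
        · exact ((hf' i _).2 hi).ne h3
  rcases le_total 0 (t none) with h1 | h1
  · exact key t ht0 h1 hev
  · refine key (-t) (neg_ne_zero.2 ht0) (by simpa using h1) ?_
    intro T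
    have := hev T
    simp only [Pi.neg_apply, neg_mul, Finset.sum_neg_distrib]
    linarith

end Pool.Agent.Q146.Pandi
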