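import Mathlib

/-!
# Distance from a point of a simplex to its skeleton

Let `x = ∑ λ_i v_i` be a convex combination of `n` points. Some `m` of the points have a convex
combination at squared distance at most `(n - m) / (m (n - 1)) * ∑ λ_i |v_i - x|^2` from `x`.

Proof. For a probability vector `μ` with at most `r` nonzero entries put
`Φ_r(μ) = |c(μ)|^2 + κ_r (∑ μ_i |w_i|^2 - |c(μ)|^2)`, where `w_i = v_i - x`, `c(μ) = ∑ μ_i w_i` and
`κ_r = (r - m) / (m (r - 1))`. Remove the index `j` with probability proportional to `1 / μ_j` and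
distribute its weight equally among the other indices: this does not increase the expectation of `Φ`.
-/

set_option autoImplicit false

namespace Q146.Skeleton

open Finset

variable {ι : Type*} [DecidableEq ι] {E : Type*} [NormedAddCommGroup E] [InnerProductSpace ℝ E]

/-- weighted Cauchy–Schwarz inequality for vectors -/
theorem cs (J : Finset ι) (μ a : ι → ℝ) (v : ι → E) (hμ : ∀ i ∈ J, 0 < μ i) :
    ‖∑ i ∈ J, a i • v i‖ ^ 2 ≤ (∑ i ∈ J, a i ^ 2 / μ i) * ∑ i ∈ J, μ i * ‖v i‖ ^ 2 := by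
  have h1 : ‖∑ i ∈ J, a i • v i‖ ≤ ∑ i ∈ J, |a i| * ‖v i‖ := by
    refine (norm_sum_le _ _).trans (le_of_eq ?_)
    exact sum_congr rfl fun i _ => by rw [norm_smul, Real.norm_eq_abs]
  have h2 : (∑ i ∈ J, |a i| * ‖v i‖) ^ 2 ≤ (∑ i ∈ J, a i ^ 2 / μ i) * ∑ i ∈ J, μ i * ‖v i‖ ^ 2 := by
    refine sum_sq_le_sum_mul_sum_of_sq_le_mul J (fun i hi => ?_) (fun i hi => ?_) (fun i hi => le_of_eq ?_)
    · have := hμ i hi; positivity
    · have := hμ i hi; positivity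
    · have := (hμ i hi).ne'
      rw [mul_pow, sq_abs]
      field_simp
  exact (pow_le_pow_left₀ (norm_nonneg _) h1 2).trans h2

/-- Bessel inequality for the functions `1` and `1/μ` in `L²(μ)` -/
theorem bessel (J : Finset ι) (μ : ι → ℝ) (w : ι → E) (hμ : ∀ i ∈ J, 0 < μ i)
    (hs : ∑ i ∈ J, μ i = 1) :
    ∑ j ∈ J, μ j * ‖(∑ i ∈ J, w i) - (J.card : ℝ) • w j‖ ^ 2 ≤
      (∑ i ∈ J, 1 / μ i) * (∑ i ∈ J, μ i * ‖w i‖ ^ 2 - ‖∑ i ∈ J, μ i • w i‖ ^ 2) := by
  set N : ℝ := (J.card : ℝ) with hN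
  set T : E := ∑ i ∈ J, w i with hT
  set c : E := ∑ i ∈ J, μ i • w i with hc
  set S : ℝ := ∑ i ∈ J, μ i * ‖w i‖ ^ 2 with hS
  set H : ℝ := ∑ i ∈ J, 1 / μ i with hH
  have hJ : J.Nonempty := by
    by_contra h
    rw [not_nonempty_iff_eq_empty] at h
    subst h
    simp at hs
  have hHpos : 0 < H := sum_pos (fun i hi => one_div_pos.2 (hμ i hi)) hJ
  have hGN : N ^ 2 ≤ H := by
    have h1 : (∑ i ∈ J, (1 : ℝ)) ^ 2 ≤ (∑ i ∈ J, 1 / μ i) * ∑ i ∈ J, μ i := by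
      refine sum_sq_le_sum_mul_sum_of_sq_le_mul J (fun i hi => ?_) (fun i hi => ?_) (fun i hi => le_of_eq ?_)
      · have := hμ i hi; positivity
      · exact (hμ i hi).le
      · have := (hμ i hi).ne'
        field_simp
    have h2 : ∑ i ∈ J, (1 : ℝ) = N := by simp [hN]
    rw [hs, mul_one, h2, ← hH] at h1
    exact h1
  -- left side
  have hL : ∑ j ∈ J, μ j * ‖T - N • w j‖ ^ 2 = ‖T‖ ^ 2 - 2 * N * inner ℝ T c + N ^ 2 * S := by
    have h1 : ∀ j ∈ J, μ j * ‖T - N • w j‖ ^ 2 =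
        μ j * ‖T‖ ^ 2 - 2 * N * (μ j * inner ℝ T (w j)) + N ^ 2 * (μ j * ‖w j‖ ^ 2) := by
      intro j _
      rw [norm_sub_sq_real, inner_smul_right, norm_smul, mul_pow, Real.norm_eq_abs, sq_abs]
      ring
    rw [sum_congr rfl h1, sum_add_distrib, sum_sub_distrib, ← sum_mul, hs, ← mul_sum, ← mul_sum,
      one_mul, hc, inner_sum]
    simp only [inner_smul_right]
    rfl
  rw [hL]
  -- first projection
  have hS' : ∑ j ∈ J, μ j * ‖w j - (1 / (H * μ j)) • T‖ ^ 2 = S - ‖T‖ ^ 2 / H := by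
    have h1 : ∀ j ∈ J, μ j * ‖w j - (1 / (H * μ j)) • T‖ ^ 2 =
        μ j * ‖w j‖ ^ 2 - 2 / H * inner ℝ (w j) T + ‖T‖ ^ 2 / H ^ 2 * (1 / μ j) := by
      intro j hj
      have hj' := (hμ j hj).ne'
      rw [norm_sub_sq_real, inner_smul_right, norm_smul, mul_pow, Real.norm_eq_abs, sq_abs]
      field_simp
    rw [sum_congr rfl h1, sum_add_distrib, sum_sub_distrib, ← mul_sum, ← mul_sum, ← sum_inner, ← hT,
      ← hH, real_inner_self_eq_norm_sq]
    field_simp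
    ring
  -- second projection
  have hy : ‖∑ j ∈ J, (H * μ j - N) • (w j - (1 / (H * μ j)) • T)‖ ^ 2 ≤
      (∑ j ∈ J, (H * μ j - N) ^ 2 / μ j) * (S - ‖T‖ ^ 2 / H) := by
    rw [← hS']
    exact cs J μ _ _ hμ
  have hy1 : ∑ j ∈ J, (H * μ j - N) • (w j - (1 / (H * μ j)) • T) = H • c - N • T := by
    have h1 : ∀ j ∈ J, (H * μ j - N) • (w j - (1 / (H * μ j)) • T) =
        H • (μ j • w j) - N • w j - (1 - N / H * (1 / μ j)) • T := by
      intro j hj
      have hj' := (hμ j hj).ne'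
      rw [smul_sub, sub_smul, smul_smul, smul_smul]
      congr 2
      field_simp
    rw [sum_congr rfl h1, sum_sub_distrib, sum_sub_distrib, ← smul_sum, ← smul_sum, ← sum_smul,
      sum_sub_distrib, ← mul_sum, ← hH, ← hT, ← hc]
    have h2 : ∑ i ∈ J, (1 : ℝ) - N / H * H = 0 := by
      rw [div_mul_cancel₀ _ hHpos.ne']
      simp [hN]
    rw [h2, zero_smul, sub_zero]
  have hy2 : ∑ j ∈ J, (H * μ j - N) ^ 2 / μ j = H * (H - N ^ 2) := by
    have h1 : ∀ j ∈ J, (H * μ j - N) ^ 2 / μ j = H ^ 2 * μ j - 2 * H * N + N ^ 2 * (1 / μ j) := by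
      intro j hj
      have hj' := (hμ j hj).ne'
      field_simp
      ring
    rw [sum_congr rfl h1, sum_add_distrib, sum_sub_distrib, ← mul_sum, ← mul_sum, ← mul_sum, hs, ← hH,
      sum_const, nsmul_eq_mul, ← hN]
    ring
  rw [hy1, hy2] at hy
  have hy3 : ‖H • c - N • T‖ ^ 2 = H ^ 2 * ‖c‖ ^ 2 - 2 * H * N * inner ℝ T c + N ^ 2 * ‖T‖ ^ 2 := by
    rw [norm_sub_sq_real, norm_smul, norm_smul, inner_smul_left, inner_smul_right, mul_pow, mul_pow,
      Real.norm_eq_abs, Real.norm_eq_abs, sq_abs, sq_abs, real_inner_comm T c]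
    simp
    ring
  rw [hy3] at hy
  have hy4 : H * (H - N ^ 2) * (S - ‖T‖ ^ 2 / H) = H * (H - N ^ 2) * S - (H - N ^ 2) * ‖T‖ ^ 2 := by
    field_simp
  rw [hy4] at hy
  have h5 : H * (‖T‖ ^ 2 - 2 * N * inner ℝ T c + N ^ 2 * S) ≤ H * (H * (S - ‖c‖ ^ 2)) := by
    nlinarith
  exact le_of_mul_le_mul_left h5 hHpos

/-- Jensen inequality -/
theorem jensen (J : Finset ι) (μ : ι → ℝ) (w : ι → E) (hμ : ∀ i ∈ J, 0 ≤ μ i)
    (hs : ∑ i ∈ J, μ i = 1) : ‖∑ i ∈ J, μ i • w i‖ ^ 2 ≤ ∑ i ∈ J, μ i * ‖w i‖ ^ 2 := by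
  have h1 : ‖∑ i ∈ J, μ i • w i‖ ≤ ∑ i ∈ J, μ i * ‖w i‖ := by
    refine (norm_sum_le _ _).trans (le_of_eq ?_)
    exact sum_congr rfl fun i hi => by rw [norm_smul, Real.norm_of_nonneg (hμ i hi)]
  have h2 : (∑ i ∈ J, μ i * ‖w i‖) ^ 2 ≤ (∑ i ∈ J, μ i) * ∑ i ∈ J, μ i * ‖w i‖ ^ 2 := by
    refine sum_sq_le_sum_mul_sum_of_sq_le_mul J (fun i hi => hμ i hi) (fun i hi => ?_) (fun i hi => le_of_eq ?_)
    · have := hμ i hi; positivity
    · ring
  rw [hs, one_mul] at h2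
  exact (pow_le_pow_left₀ (norm_nonneg _) h1 2).trans h2

/-- The weights after removing `j` and distributing its weight equally. -/
noncomputable def red (μ : ι → ℝ) (r : ℝ) (j i : ι) : ℝ := μ i + μ j / r

theorem red_smul (J : Finset ι) (μ : ι → ℝ) (w : ι → E) (r : ℕ) (hr : 1 ≤ r) (hJ : J.card = r + 1)
    (j : ι) (hj : j ∈ J) :
    ∑ i ∈ J.erase j, red μ r j i • w i =
      ∑ i ∈ J, μ i • w i + (μ j / r) • ((∑ i ∈ J, w i) - (J.card : ℝ) • w j) := by
  have hr0 : (r : ℝ) ≠ 0 := by positivity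
  rw [← sum_erase_add J (fun i => μ i • w i) hj, ← sum_erase_add J w hj, hJ]
  simp only [red, add_smul, sum_add_distrib, ← smul_sum]
  push_cast
  have : μ j • w j = (μ j / r) • ((r : ℝ) • w j) := by
    rw [smul_smul, div_mul_cancel₀ _ hr0]
  rw [this]
  module

/-- one step of the reduction -/
theorem step (J : Finset ι) (μ : ι → ℝ) (w : ι → E) (hμ : ∀ i ∈ J, 0 < μ i)
    (hs : ∑ i ∈ J, μ i = 1) (r : ℕ) (hr : 1 ≤ r) (hJ : J.card = r + 1) (a b : ℝ)
    (ha1 : a ≤ 1) (hab : (b - a) * r ^ 2 = 1 - a) :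
    ∃ j ∈ J, (1 - a) * ‖∑ i ∈ J.erase j, red μ r j i • w i‖ ^ 2 +
        a * ∑ i ∈ J.erase j, red μ r j i * ‖w i‖ ^ 2 ≤
      (1 - b) * ‖∑ i ∈ J, μ i • w i‖ ^ 2 + b * ∑ i ∈ J, μ i * ‖w i‖ ^ 2 := by
  have hr0 : (0 : ℝ) < r := by positivity
  have hJne : J.Nonempty := by
    rw [← card_pos]; omega
  have hB := bessel J μ w hμ hs
  have e1 := fun j hj => red_smul J μ w r hr hJ j hj
  have e2 : ∀ j ∈ J, ∑ i ∈ J.erase j, red μ r j i * ‖w i‖ ^ 2 =
      ∑ i ∈ J, μ i * ‖w i‖ ^ 2 + (μ j / r) * ((∑ i ∈ J, ‖w i‖ ^ 2) - (J.card : ℝ) * ‖w j‖ ^ 2) := by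
    intro j hj
    have := red_smul J μ (fun i => ‖w i‖ ^ 2) r hr hJ j hj
    simpa only [smul_eq_mul] using this
  set T : E := ∑ i ∈ J, w i with hT
  set Q : ℝ := ∑ i ∈ J, ‖w i‖ ^ 2 with hQ
  set c : E := ∑ i ∈ J, μ i • w i with hc
  set S : ℝ := ∑ i ∈ J, μ i * ‖w i‖ ^ 2 with hS
  set H : ℝ := ∑ i ∈ J, 1 / μ i with hH
  set N : ℝ := (J.card : ℝ) with hN
  have key : ∑ j ∈ J, (1 / μ j) * ((1 - a) * ‖∑ i ∈ J.erase j, red μ r j i • w i‖ ^ 2 +
      a * ∑ i ∈ J.erase j, red μ r j i * ‖w i‖ ^ 2) ≤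
      ∑ j ∈ J, (1 / μ j) * ((1 - b) * ‖c‖ ^ 2 + b * S) := by
    have h1 : ∀ j ∈ J, (1 / μ j) * ((1 - a) * ‖∑ i ∈ J.erase j, red μ r j i • w i‖ ^ 2 +
        a * ∑ i ∈ J.erase j, red μ r j i * ‖w i‖ ^ 2) =
        ((1 - a) * ‖c‖ ^ 2 + a * S) * (1 / μ j) +
        (2 * (1 - a) / r * inner ℝ c (T - N • w j) +
        ((1 - a) / r ^ 2 * (μ j * ‖T - N • w j‖ ^ 2) + a / r * (Q - N * ‖w j‖ ^ 2))) := by
      intro j hj
      have hj' := (hμ j hj).ne'
      rw [e1 j hj, e2 j hj, norm_add_sq_real, inner_smul_right, norm_smul, mul_pow, Real.norm_eq_abs,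
        sq_abs]
      field_simp
      ring
    rw [sum_congr rfl h1, sum_add_distrib, sum_add_distrib, sum_add_distrib, ← mul_sum, ← mul_sum,
      ← mul_sum, ← mul_sum, ← hH, ← inner_sum, ← sum_mul, ← hH]
    have h2 : ∑ j ∈ J, (T - N • w j) = 0 := by
      rw [sum_sub_distrib, ← smul_sum, ← hT, sum_const, hN, Nat.cast_smul_eq_nsmul, sub_self]
    have h3 : ∑ j ∈ J, (Q - N * ‖w j‖ ^ 2) = 0 := by
      rw [sum_sub_distrib, ← mul_sum, ← hQ, sum_const, hN, nsmul_eq_mul, sub_self]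
    rw [h2, h3, inner_zero_right]
    have h4 : (1 - a) / r ^ 2 * ∑ j ∈ J, μ j * ‖T - N • w j‖ ^ 2 ≤
        (1 - a) / r ^ 2 * (H * (S - ‖c‖ ^ 2)) :=
      mul_le_mul_of_nonneg_left hB (div_nonneg (by linarith) (by positivity))
    have h5 : (1 - a) / r ^ 2 = b - a := by
      rw [← hab]; field_simp
    rw [h5] at h4
    rw [h5]
    nlinarith
  obtain ⟨j, hj, hle⟩ := exists_le_of_sum_le hJne key
  exact ⟨j, hj, le_of_mul_le_mul_left hle (one_div_pos.2 (hμ j hj))⟩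

/-- the coefficients -/
noncomputable def kap (m r : ℕ) : ℝ := ((r : ℝ) - m) / (m * ((r : ℝ) - 1))

theorem reduce (w : ι → E) (m : ℕ) (hm : 1 ≤ m) : ∀ r, m ≤ r → ∀ (J : Finset ι) (μ : ι → ℝ),
    J.card ≤ r → (∀ i ∈ J, 0 ≤ μ i) → ∑ i ∈ J, μ i = 1 →
    ∃ J' ⊆ J, J'.card ≤ m ∧ ∃ μ' : ι → ℝ, (∀ i ∈ J', 0 ≤ μ' i) ∧ ∑ i ∈ J', μ' i = 1 ∧
      ‖∑ i ∈ J', μ' i • w i‖ ^ 2 ≤
        (1 - kap m r) * ‖∑ i ∈ J, μ i • w i‖ ^ 2 + kap m r * ∑ i ∈ J, μ i * ‖w i‖ ^ 2 := by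
  intro r hr
  induction r, hr using Nat.le_induction with
  | base =>
    intro J μ hJ hμ hs
    refine ⟨J, Subset.rfl, hJ, μ, hμ, hs, ?_⟩
    simp [kap]
  | succ r hr ih =>
    have hm1 : (1 : ℝ) ≤ m := by exact_mod_cast hm
    have hrm : (m : ℝ) ≤ r := by exact_mod_cast hr
    have hmono : kap m r ≤ kap m (r + 1) := by
      unfold kap
      push_cast
      rcases Nat.eq_or_lt_of_le (hm.trans hr) with h | h
      · -- r = 1
        have hr1 : (r : ℝ) = 1 := by exact_mod_cast h.symm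
        have hm1' : (m : ℝ) = 1 := by linarith
        rw [hr1, hm1']; norm_num
      · have hr1 : (1 : ℝ) < r := by exact_mod_cast h
        rw [div_le_div_iff₀ (by nlinarith) (by nlinarith)]
        nlinarith [mul_nonneg (sub_nonneg.2 hm1) (sub_nonneg.2 hm1)]
    have hweak : ∀ (J : Finset ι) (μ : ι → ℝ), (∀ i ∈ J, 0 ≤ μ i) → ∑ i ∈ J, μ i = 1 →
        (1 - kap m r) * ‖∑ i ∈ J, μ i • w i‖ ^ 2 + kap m r * ∑ i ∈ J, μ i * ‖w i‖ ^ 2 ≤
        (1 - kap m (r + 1)) * ‖∑ i ∈ J, μ i • w i‖ ^ 2 + kap m (r + 1) * ∑ i ∈ J, μ i * ‖w i‖ ^ 2 := by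
      intro J μ hμ hs
      have := jensen J μ w hμ hs
      nlinarith
    intro J μ hJ hμ hs
    rcases Nat.lt_or_ge J.card (r + 1) with h | h
    · obtain ⟨J', h1, h2, μ', h3, h4, h5⟩ := ih J μ (by omega) hμ hs
      exact ⟨J', h1, h2, μ', h3, h4, h5.trans (hweak J μ hμ hs)⟩
    · have hcard : J.card = r + 1 := le_antisymm hJ h
      by_cases hz : ∃ j ∈ J, μ j = 0
      · obtain ⟨j, hj, hj0⟩ := hz
        have e1 : ∑ i ∈ J.erase j, μ i = 1 := by
          rw [← hs, ← sum_erase_add J μ hj, hj0, add_zero]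
        have e2 : ∑ i ∈ J.erase j, μ i • w i = ∑ i ∈ J, μ i • w i := by
          rw [← sum_erase_add J (fun i => μ i • w i) hj, hj0, zero_smul, add_zero]
        have e3 : ∑ i ∈ J.erase j, μ i * ‖w i‖ ^ 2 = ∑ i ∈ J, μ i * ‖w i‖ ^ 2 := by
          rw [← sum_erase_add J (fun i => μ i * ‖w i‖ ^ 2) hj, hj0, zero_mul, add_zero]
        have e4 : (J.erase j).card ≤ r := by rw [card_erase_of_mem hj]; omega
        obtain ⟨J', h1, h2, μ', h3, h4, h5⟩ := ih (J.erase j) μ e4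
          (fun i hi => hμ i (mem_of_mem_erase hi)) e1
        rw [e2, e3] at h5
        exact ⟨J', h1.trans (erase_subset _ _), h2, μ', h3, h4, h5.trans (hweak J μ hμ hs)⟩
      · push Not at hz
        have hpos : ∀ i ∈ J, 0 < μ i := fun i hi => lt_of_le_of_ne (hμ i hi) (hz i hi).symm
        have hr1 : 1 ≤ r := hm.trans hr
        have hr0 : (1 : ℝ) ≤ r := by exact_mod_cast hr1
        have ha1 : kap m r ≤ 1 := by
          unfold kap
          rcases Nat.eq_or_lt_of_le hr1 with h' | h'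
          · have : (r : ℝ) = 1 := by exact_mod_cast h'.symm
            rw [this]; norm_num
          · have hr1 : (1 : ℝ) < r := by exact_mod_cast h'
            rw [div_le_one (by nlinarith)]
            nlinarith
        have hab : (kap m (r + 1) - kap m r) * r ^ 2 = 1 - kap m r := by
          unfold kap
          push_cast
          rcases Nat.eq_or_lt_of_le hr1 with h' | h'
          · have h1 : (r : ℝ) = 1 := by exact_mod_cast h'.symm
            have h2 : (m : ℝ) = 1 := by linarith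
            rw [h1, h2]; norm_num
          · have hr1 : (1 : ℝ) < r := by exact_mod_cast h'
            have hr2 : (r : ℝ) - 1 ≠ 0 := by linarith
            have hr3 : (r : ℝ) ≠ 0 := by linarith
            have hm2 : (m : ℝ) ≠ 0 := by linarith
            rw [add_sub_cancel_right]
            field_simp
            ring
        obtain ⟨j, hj, hle⟩ := step J μ w hpos hs r hr1 hcard _ _ ha1 hab
        have e1 : ∑ i ∈ J.erase j, red μ r j i = 1 := by
          have := red_smul J μ (fun _ => (1 : ℝ)) r hr1 hcard j hj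
          simp only [smul_eq_mul, mul_one, sum_const, nsmul_eq_mul, sub_self, mul_zero, add_zero] at this
          rw [this, hs]
        have e4 : (J.erase j).card ≤ r := by rw [card_erase_of_mem hj]; omega
        obtain ⟨J', h1, h2, μ', h3, h4, h5⟩ := ih (J.erase j) (red μ r j) e4
          (fun i hi => by
            have g1 := hμ i (mem_of_mem_erase hi)
            have g2 := hμ j hj
            unfold red; positivity) e1
        exact ⟨J', h1.trans (erase_subset _ _), h2, μ', h3, h4, h5.trans hle⟩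

end Q146.Skeleton
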