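import Mathlib
import Pool.Agent.Helper2.NewtonSmooth

/-!
# Right pyramids over cubes and their Newton covering numbers

`E (n+1)` is Euclidean space, the last coordinate is the axis of the pyramid, the first `n`
coordinates carry the base cube `[0,1]^n`.
-/

set_option autoImplicit false

namespace Q146.TallPyramid

open Set Metric
open Pool.Agent.Helper2.NewtonCover (E Covers newton exists_covers)

/-- Rotations that push the unit `n`-cube strictly inside the prism over the unit `n`-cube. -/
theorem exists_rot (n : ℕ) : ∃ (A : ((Fin n → ℝ) × ℝ) →ₗ[ℝ] ((Fin n → ℝ) × ℝ)) (ρ : ℝ), 0 ≤ ρ ∧ ρ < 1 ∧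
    (∀ p, ∑ i, (A p).1 i ^ 2 + (A p).2 ^ 2 = ∑ i, p.1 i ^ 2 + p.2 ^ 2) ∧
    ∀ v : Fin n → ℝ, (∀ i, |v i| ≤ 1 / 2) → ∀ i, |(A (v, 0)).1 i| ≤ ρ / 2 := by
  induction n with
  | zero =>
    refine ⟨LinearMap.id, 0, le_rfl, one_pos, fun p => by simp, fun v _ i => i.elim0⟩
  | succ n ih =>
    obtain ⟨A, ρ, hρ0, hρ1, hA, hcube⟩ := ih
    set s : ℝ := (1 - ρ) / 2 with hs
    have hs0 : 0 < s := by rw [hs]; linarith
    have hs1 : s < 1 := by rw [hs]; linarith
    set c : ℝ := Real.sqrt (1 - s ^ 2) with hc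
    have hcs : c ^ 2 + s ^ 2 = 1 := by
      rw [hc, Real.sq_sqrt (by nlinarith)]; ring
    have hc0 : 0 ≤ c := Real.sqrt_nonneg _
    have hc1 : c < 1 := by nlinarith
    -- the new map
    let B : ((Fin (n + 1) → ℝ) × ℝ) →ₗ[ℝ] ((Fin (n + 1) → ℝ) × ℝ) :=
      { toFun := fun p => (Fin.cons (c * p.1 0 - s * p.2) (A (Fin.tail p.1, s * p.1 0 + c * p.2)).1,
          (A (Fin.tail p.1, s * p.1 0 + c * p.2)).2)
        map_add' := by
          intro p q
          have h1 : (Fin.tail (p + q).1, s * (p + q).1 0 + c * (p + q).2) =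
              (Fin.tail p.1, s * p.1 0 + c * p.2) + (Fin.tail q.1, s * q.1 0 + c * q.2) := by
            ext i
            · simp [Fin.tail]
            · simp; ring
          rw [h1, map_add]
          ext i
          · refine Fin.cases ?_ (fun j => ?_) i
            · simp; ring
            · simp
          · simp
        map_smul' := by
          intro r p
          have h1 : (Fin.tail (r • p).1, s * (r • p).1 0 + c * (r • p).2) =
              r • (Fin.tail p.1, s * p.1 0 + c * p.2) := by
            ext i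
            · simp [Fin.tail]
            · simp; ring
          rw [h1, map_smul]
          ext i
          · refine Fin.cases ?_ (fun j => ?_) i
            · simp; ring
            · simp
          · simp }
    have hB : ∀ p, B p = (Fin.cons (c * p.1 0 - s * p.2)
        (A (Fin.tail p.1, s * p.1 0 + c * p.2)).1,
          (A (Fin.tail p.1, s * p.1 0 + c * p.2)).2) := fun p => rfl
    refine ⟨B, max c (ρ + s), hc0.trans (le_max_left _ _), max_lt hc1 (by rw [hs]; linarith), ?_, ?_⟩
    · intro p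
      rw [hB]
      simp only [Fin.sum_univ_succ, Fin.cons_zero, Fin.cons_succ]
      have := hA (Fin.tail p.1, s * p.1 0 + c * p.2)
      simp only [Fin.tail] at this
      rw [add_assoc, this]
      linear_combination (p.1 0 ^ 2 + p.2 ^ 2) * hcs
    · intro v hv i
      rw [hB]
      refine Fin.cases ?_ (fun j => ?_) i
      · simp only [Fin.cons_zero, mul_zero, sub_zero]
        rw [abs_mul, abs_of_nonneg hc0]
        have h1 := hv 0
        have h2 : c * |v 0| ≤ c * (1 / 2) := mul_le_mul_of_nonneg_left h1 hc0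
        have h3 := le_max_left c (ρ + s)
        linarith
      · simp only [Fin.cons_succ, mul_zero, add_zero]
        have h1 : ((Fin.tail v, s * v 0) : (Fin n → ℝ) × ℝ) = (Fin.tail v, 0) + (s * v 0) • (0, 1) := by
          ext i <;> simp
        rw [h1, map_add, map_smul]
        have h2 : |(A (0, 1)).1 j| ≤ 1 := by
          have h3 := hA (0, 1)
          simp at h3
          have h4 : (A (0, 1)).1 j ^ 2 ≤ ∑ i, (A (0, 1)).1 i ^ 2 :=
            Finset.single_le_sum (f := fun i => (A (0, 1)).1 i ^ 2) (fun i _ => sq_nonneg _)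
              (Finset.mem_univ j)
          rw [← sq_le_one_iff_abs_le_one]
          nlinarith [sq_nonneg (A (0, 1)).2]
        have h5 : |(A (Fin.tail v, 0)).1 j| ≤ ρ / 2 := hcube _ (fun i => hv i.succ) j
        have h6 : |s * v 0| ≤ s / 2 := by
          rw [abs_mul, abs_of_pos hs0]
          have := mul_le_mul_of_nonneg_left (hv 0) hs0.le
          linarith
        have h7 : |s * v 0 * (A (0, 1)).1 j| ≤ s / 2 := by
          rw [abs_mul]
          calc |s * v 0| * |(A (0, 1)).1 j| ≤ s / 2 * 1 :=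
                mul_le_mul h6 h2 (abs_nonneg _) (by linarith)
            _ = s / 2 := mul_one _
        simp only [Prod.fst_add, Pi.add_apply, Prod.smul_fst, Pi.smul_apply, smul_eq_mul]
        have h8 := abs_add_le ((A (Fin.tail v, 0)).1 j) (s * v 0 * (A (0, 1)).1 j)
        have h9 := le_max_right c (ρ + s)
        linarith

/-- The right pyramid of height `h` over the unit `n`-cube: the convex hull of the base
`[0,1]^n × {0}` and the apex `(1/2, ..., 1/2, h)`. -/
def pyramid (n : ℕ) (h : ℝ) : Set (E (n + 1)) :=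
  convexHull ℝ ({x | (∀ i : Fin n, 0 ≤ x i.castSucc ∧ x i.castSucc ≤ 1) ∧ x (Fin.last n) = 0} ∪
    {x | (∀ i : Fin n, x i.castSucc = 1 / 2) ∧ x (Fin.last n) = h})

/-- The unit cube `[0,1]^n`. -/
def cube (n : ℕ) : Set (E n) := {x | ∀ i, 0 ≤ x i ∧ x i ≤ 1}

theorem mem_pyramid {n : ℕ} {h : ℝ} (hh : 0 < h) (x : E (n + 1)) :
    x ∈ pyramid n h ↔ (0 ≤ x (Fin.last n) ∧ x (Fin.last n) ≤ h) ∧
      ∀ i : Fin n, |x i.castSucc - 1 / 2| ≤ (1 - x (Fin.last n) / h) / 2 := by
  constructor
  · intro hx
    have hconv : Convex ℝ {x : E (n + 1) | (0 ≤ x (Fin.last n) ∧ x (Fin.last n) ≤ h) ∧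
        ∀ i : Fin n, |x i.castSucc - 1 / 2| ≤ (1 - x (Fin.last n) / h) / 2} := by
      intro x hx y hy a b ha hb hab
      obtain ⟨⟨h1, h2⟩, h3⟩ := hx
      obtain ⟨⟨h4, h5⟩, h6⟩ := hy
      refine ⟨⟨?_, ?_⟩, fun i => ?_⟩
      · simp only [PiLp.add_apply, PiLp.smul_apply, smul_eq_mul]; positivity
      · simp only [PiLp.add_apply, PiLp.smul_apply, smul_eq_mul]
        have := mul_le_mul_of_nonneg_left h2 ha
        have := mul_le_mul_of_nonneg_left h5 hb
        have : a * h + b * h = h := by rw [← add_mul, hab, one_mul]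
        linarith
      · simp only [PiLp.add_apply, PiLp.smul_apply, smul_eq_mul]
        have e1 := abs_le.1 (h3 i)
        have e2 := abs_le.1 (h6 i)
        have hb' : b = 1 - a := by linarith
        subst hb'
        rw [add_div, mul_div_assoc, mul_div_assoc]
        rw [abs_le]
        constructor
        · nlinarith [mul_le_mul_of_nonneg_left e1.1 ha, mul_le_mul_of_nonneg_left e2.1 hb]
        · nlinarith [mul_le_mul_of_nonneg_left e1.2 ha, mul_le_mul_of_nonneg_left e2.2 hb]
    refine convexHull_min ?_ hconv hx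
    rintro x (⟨h1, h2⟩ | ⟨h1, h2⟩)
    · refine ⟨⟨h2.ge, by rw [h2]; exact hh.le⟩, fun i => ?_⟩
      rw [h2, zero_div, sub_zero, abs_le]
      have := h1 i
      constructor <;> linarith
    · refine ⟨⟨by rw [h2]; exact hh.le, h2.le⟩, fun i => ?_⟩
      rw [h1 i, h2, div_self hh.ne']
      simp
  · rintro ⟨⟨h1, h2⟩, h3⟩
    set y := x (Fin.last n) with hy
    let ap : E (n + 1) := WithLp.toLp 2 (Fin.snoc (fun _ => (1/2 : ℝ)) h)
    have hap : ap ∈ {x : E (n + 1) | (∀ i : Fin n, x i.castSucc = 1 / 2) ∧ x (Fin.last n) = h} := by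
      refine ⟨fun i => ?_, ?_⟩
      · simp [ap]
      · simp [ap]
    rcases eq_or_lt_of_le h2 with h4 | h4
    · -- the apex
      refine subset_convexHull ℝ _ (Or.inr ⟨fun i => ?_, h4⟩)
      have := h3 i
      rw [h4, div_self hh.ne'] at this
      rw [sub_self, zero_div] at this
      have h5 := abs_nonpos_iff.1 this
      linarith
    · have hpos : 0 < 1 - y / h := by
        rw [sub_pos, div_lt_one hh]; exact h4
      let b : E (n + 1) := WithLp.toLp 2
        (Fin.snoc (fun i => 1 / 2 + (x i.castSucc - 1 / 2) / (1 - y / h)) 0)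
      have hb : b ∈ {x : E (n + 1) | (∀ i : Fin n, 0 ≤ x i.castSucc ∧ x i.castSucc ≤ 1) ∧
          x (Fin.last n) = 0} := by
        refine ⟨fun i => ?_, ?_⟩
        · have h5 : |(x i.castSucc - 1 / 2) / (1 - y / h)| ≤ 1 / 2 := by
            rw [abs_div, abs_of_pos hpos, div_le_iff₀ hpos]
            have := h3 i
            linarith
          have h6 := abs_le.1 h5
          simp only [b, Fin.snoc_castSucc]
          constructor <;> linarith
        · simp [b]
      have hx : x = (1 - y / h) • b + (y / h) • ap := by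
        ext i
        refine Fin.lastCases ?_ (fun j => ?_) i
        · simp only [PiLp.add_apply, PiLp.smul_apply, smul_eq_mul, b, ap, Fin.snoc_last]
          rw [← hy]
          field_simp
          ring
        · simp only [PiLp.add_apply, PiLp.smul_apply, smul_eq_mul, b, ap, Fin.snoc_castSucc]
          field_simp
          ring
      have m1 : b ∈ pyramid n h := subset_convexHull ℝ _ (Or.inl hb)
      have m2 : ap ∈ pyramid n h := subset_convexHull ℝ _ (Or.inr hap)
      have h7 : 0 ≤ y / h := by positivity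
      have h8 : 1 - y / h + y / h = 1 := by ring
      rw [hx]
      exact (convex_convexHull ℝ _) m1 m2 hpos.le h7 h8

/-! ### The upper bound -/

/-- coordinates: base coordinates and height -/
def toD (n : ℕ) : E (n + 1) ≃ₗ[ℝ] ((Fin n → ℝ) × ℝ) where
  toFun x := (fun i => x i.castSucc, x (Fin.last n))
  invFun p := WithLp.toLp 2 (Fin.snoc p.1 p.2)
  map_add' x y := by ext i <;> simp
  map_smul' r x := by ext i <;> simp
  left_inv x := by
    ext i
    refine Fin.lastCases ?_ (fun j => ?_) i <;> simp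
  right_inv p := by
    ext i <;> simp

theorem norm_sq_eq {n : ℕ} (x : E (n + 1)) :
    ‖x‖ ^ 2 = ∑ i, ((toD n x).1 i) ^ 2 + (toD n x).2 ^ 2 := by
  rw [EuclideanSpace.norm_sq_eq, Fin.sum_univ_castSucc]
  simp [toD]

/-- For large `h` two copies of the pyramid suffice. -/
theorem covers_two {n : ℕ} (hn : 1 ≤ n) : ∃ h₀ : ℝ, 0 < h₀ ∧ ∀ h, h₀ ≤ h → Covers (pyramid n h) 2 := by
  obtain ⟨A, ρ, hρ0, hρ1, hA, hcube⟩ := exists_rot n
  have hρ : 0 < 1 - ρ := by linarith
  refine ⟨4 * (n + 1) / (1 - ρ), by positivity, fun h hh => ?_⟩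
  have hh0 : 0 < h := lt_of_lt_of_le (by positivity) hh
  have hhn : 4 * (n + 1) ≤ (1 - ρ) * h := by
    rw [div_le_iff₀ hρ] at hh; linarith
  -- the isometry
  let L : E (n + 1) →ₗᵢ[ℝ] E (n + 1) :=
    { toLinearMap := (toD n).symm.toLinearMap ∘ₗ A ∘ₗ (toD n).toLinearMap
      norm_map' := by
        intro x
        have h1 : ‖((toD n).symm.toLinearMap ∘ₗ A ∘ₗ (toD n).toLinearMap) x‖ ^ 2 = ‖x‖ ^ 2 := by
          rw [norm_sq_eq, norm_sq_eq]
          simp only [LinearMap.comp_apply, LinearEquiv.coe_coe, LinearEquiv.apply_symm_apply]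
          exact hA _
        exact (sq_eq_sq₀ (norm_nonneg _) (norm_nonneg _)).1 h1 }
  let Le : E (n + 1) ≃ₗᵢ[ℝ] E (n + 1) := L.toLinearIsometryEquiv rfl
  have hLe : ∀ x, toD n (Le x) = A (toD n x) := by
    intro x
    show toD n ((toD n).symm (A (toD n x))) = _
    rw [LinearEquiv.apply_symm_apply]
  let c0 : E (n + 1) := (toD n).symm (fun _ => 1 / 2, 0)
  let c1 : E (n + 1) := (toD n).symm (fun _ => 1 / 2, n + 1)
  let Ψ : E (n + 1) ≃ᵢ E (n + 1) :=
    ((IsometryEquiv.subRight c0).trans Le.toIsometryEquiv).trans (IsometryEquiv.addRight c1)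
  have hΨ : ∀ x, Ψ x = Le (x - c0) + c1 := fun x => rfl
  set t : ℝ := (1 - ρ) / 8 with ht
  have ht0 : 0 < t := by positivity
  have ht1 : t ≤ 1 / 8 := by rw [ht]; linarith
  let tv : E (n + 1) := (toD n).symm (0, t)
  have htv : ∀ i : Fin n, tv i.castSucc = 0 := by intro i; simp [tv, toD]
  have htv' : tv (Fin.last n) = t := by simp [tv, toD]
  -- the open pyramid
  let O : Set (E (n + 1)) := {x | 0 < x (Fin.last n) ∧
    ∀ i : Fin n, |x i.castSucc - 1 / 2| < (1 - x (Fin.last n) / h) / 2}
  have hO : IsOpen O := by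
    have : O = {x : E (n + 1) | 0 < x (Fin.last n)} ∩
        ⋂ i : Fin n, {x : E (n + 1) | |x i.castSucc - 1 / 2| < (1 - x (Fin.last n) / h) / 2} := by
      ext x; simp [O]
    rw [this]
    refine (isOpen_lt continuous_const (by fun_prop)).inter (isOpen_iInter_of_finite fun i => ?_)
    exact isOpen_lt (by fun_prop) (by fun_prop)
  have hOP : O ⊆ pyramid n h := by
    rintro x ⟨h1, h2⟩
    rw [mem_pyramid hh0]
    refine ⟨⟨h1.le, ?_⟩, fun i => (h2 i).le⟩
    have h3 := h2 ⟨0, hn⟩
    have h4 : 0 < (1 - x (Fin.last n) / h) / 2 := lt_of_le_of_lt (abs_nonneg _) h3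
    have h5 : x (Fin.last n) / h < 1 := by linarith
    rw [div_lt_one hh0] at h5
    exact h5.le
  refine ⟨![IsometryEquiv.addRight tv, Ψ.symm], (fun x => x - tv) ⁻¹' O ∪ Ψ ⁻¹' O,
    (hO.preimage (by fun_prop)).union (hO.preimage Ψ.continuous), ?_, ?_⟩
  · intro x hx
    rw [mem_pyramid hh0] at hx
    obtain ⟨⟨h1, h2⟩, h3⟩ := hx
    rcases lt_or_ge t (x (Fin.last n)) with hxt | hxt
    · left
      refine ⟨?_, fun i => ?_⟩
      · show 0 < (x - tv) (Fin.last n)
        rw [PiLp.sub_apply, htv']; linarith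
      · show |(x - tv) i.castSucc - 1 / 2| < (1 - (x - tv) (Fin.last n) / h) / 2
        rw [PiLp.sub_apply, PiLp.sub_apply, htv', htv, sub_zero]
        have h6 := sub_div (x (Fin.last n)) t h
        rw [h6]
        have h4 := h3 i
        have h5 : 0 < t / h := by positivity
        linarith
    · right
      have e1 : toD n (x - c0) = (fun i => x i.castSucc - 1 / 2, 0) + x (Fin.last n) • (0, 1) := by
        rw [map_sub]
        simp only [c0, LinearEquiv.apply_symm_apply]
        ext i
        · simp [toD]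
        · simp [toD]
      have e2 : toD n (Ψ x) = A (fun i => x i.castSucc - 1 / 2, 0) + x (Fin.last n) • A (0, 1) +
          (fun _ => 1 / 2, (n : ℝ) + 1) := by
        rw [hΨ, map_add, hLe, e1, map_add, map_smul]
        simp only [c1, LinearEquiv.apply_symm_apply]
      have hv : ∀ i : Fin n, |x i.castSucc - 1 / 2| ≤ 1 / 2 := by
        intro i
        have := h3 i
        have h5 : 0 ≤ x (Fin.last n) / h := by positivity
        linarith
      have f1 := hcube (fun i => x i.castSucc - 1 / 2) hv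
      have f2 : |(A (fun i => x i.castSucc - 1 / 2, 0)).2| ≤ n := by
        have h4 := hA (fun i => x i.castSucc - 1 / 2, 0)
        have h5 : ∑ i : Fin n, (x i.castSucc - 1 / 2) ^ 2 ≤ ∑ i : Fin n, (1 : ℝ) := by
          refine Finset.sum_le_sum fun i _ => ?_
          have := abs_le.1 (hv i)
          nlinarith
        simp only [Finset.sum_const, Finset.card_univ, Fintype.card_fin, nsmul_eq_mul, mul_one] at h5
        have h6 : 0 ≤ ∑ i, (A (fun i => x i.castSucc - 1 / 2, 0)).1 i ^ 2 :=
          Finset.sum_nonneg fun i _ => sq_nonneg _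
        have h7 : (A (fun i => x i.castSucc - 1 / 2, 0)).2 ^ 2 ≤ n := by
          simp only at h4
          nlinarith
        have h8 : (1 : ℝ) ≤ n := by exact_mod_cast hn
        apply abs_le_of_sq_le_sq _ (by linarith)
        nlinarith
      have f3 : ∑ i, (A (0, 1)).1 i ^ 2 + (A (0, 1)).2 ^ 2 = 1 := by
        have := hA (0, 1)
        simpa using this
      have f3' : 0 ≤ ∑ i, (A (0, 1)).1 i ^ 2 := Finset.sum_nonneg fun i _ => sq_nonneg _
      have f4 : ∀ i, |(A (0, 1)).1 i| ≤ 1 := by
        intro j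
        have h4 : (A (0, 1)).1 j ^ 2 ≤ ∑ i, (A (0, 1)).1 i ^ 2 :=
          Finset.single_le_sum (f := fun i => (A (0, 1)).1 i ^ 2) (fun i _ => sq_nonneg _)
            (Finset.mem_univ j)
        rw [← sq_le_one_iff_abs_le_one]
        nlinarith [sq_nonneg (A (0, 1)).2]
      have f5 : |(A (0, 1)).2| ≤ 1 := by
        rw [← sq_le_one_iff_abs_le_one]
        nlinarith
      have g1 : ∀ r : ℝ, |r| ≤ 1 → |x (Fin.last n) * r| ≤ t := by
        intro r hr
        rw [abs_mul, abs_of_nonneg h1]
        calc x (Fin.last n) * |r| ≤ t * 1 := mul_le_mul hxt hr (abs_nonneg _) ht0.le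
          _ = t := mul_one _
      have k1 : ∀ i : Fin n, (Ψ x) i.castSucc = (A (fun i => x i.castSucc - 1 / 2, 0)).1 i +
          x (Fin.last n) * (A (0, 1)).1 i + 1 / 2 := by
        intro i
        have := congrArg (fun p => p.1 i) e2
        simpa [toD] using this
      have k2 : (Ψ x) (Fin.last n) = (A (fun i => x i.castSucc - 1 / 2, 0)).2 +
          x (Fin.last n) * (A (0, 1)).2 + (n + 1) := by
        have := congrArg (fun p => p.2) e2
        simpa [toD] using this
      have m1 := abs_le.1 (g1 _ f5)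
      have m2 := abs_le.1 f2
      have m3 : (Ψ x) (Fin.last n) / h ≤ (1 - ρ) / 2 := by
        rw [div_le_iff₀ hh0, k2]
        linarith
      refine ⟨?_, fun i => ?_⟩
      · rw [k2]; linarith
      · rw [k1]
        have m4 := abs_le.1 (g1 _ (f4 i))
        have m5 := abs_le.1 (f1 i)
        rw [abs_lt]
        constructor <;> linarith
  · rintro x (hx | hx)
    · refine mem_iUnion.2 ⟨0, x - tv, hOP hx, ?_⟩
      simp
    · refine mem_iUnion.2 ⟨1, Ψ x, hOP hx, ?_⟩
      simp

/-! ### Lower bounds -/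

theorem pyramid_compact {n : ℕ} {h : ℝ} (hh : 0 < h) : IsCompact (pyramid n h) := by
  have hcl : IsClosed (pyramid n h) := by
    have : pyramid n h = ({x : E (n + 1) | 0 ≤ x (Fin.last n)} ∩ {x : E (n + 1) | x (Fin.last n) ≤ h}) ∩
        ⋂ i : Fin n, {x : E (n + 1) | |x i.castSucc - 1 / 2| ≤ (1 - x (Fin.last n) / h) / 2} := by
      ext x
      rw [mem_pyramid hh]
      simp
    rw [this]
    refine ((isClosed_le continuous_const (by fun_prop)).inter
      (isClosed_le (by fun_prop) continuous_const)).inter (isClosed_iInter fun i => ?_)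
    exact isClosed_le (by fun_prop) (by fun_prop)
  refine Metric.isCompact_of_isClosed_isBounded hcl ?_
  refine (Metric.isBounded_iff_subset_closedBall (0 : E (n + 1))).2 ⟨n + 1 + h, fun x hx => ?_⟩
  rw [mem_pyramid hh] at hx
  obtain ⟨⟨h1, h2⟩, h3⟩ := hx
  rw [mem_closedBall_zero_iff]
  have h4 : ‖x‖ ^ 2 ≤ n + h ^ 2 := by
    rw [EuclideanSpace.norm_sq_eq, Fin.sum_univ_castSucc]
    have h5 : ∑ i : Fin n, ‖x i.castSucc‖ ^ 2 ≤ ∑ i : Fin n, (1 : ℝ) := by
      refine Finset.sum_le_sum fun i _ => ?_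
      have h6 := h3 i
      have h7 : 0 ≤ x (Fin.last n) / h := by positivity
      have h8 : |x i.castSucc - 1 / 2| ≤ 1 / 2 := by linarith
      have h9 := abs_le.1 h8
      rw [Real.norm_eq_abs, sq_abs]
      nlinarith
    simp only [Finset.sum_const, Finset.card_univ, Fintype.card_fin, nsmul_eq_mul, mul_one] at h5
    have h6 : ‖x (Fin.last n)‖ ^ 2 ≤ h ^ 2 := by
      rw [Real.norm_eq_abs, sq_abs]
      nlinarith
    linarith
  have h5 : (0 : ℝ) ≤ n := Nat.cast_nonneg n
  nlinarith [norm_nonneg x]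

theorem pyramid_interior {n : ℕ} {h : ℝ} (hh : 0 < h) : (interior (pyramid n h)).Nonempty := by
  refine ⟨(toD n).symm (fun _ => 1 / 2, h / 2), ?_⟩
  rw [mem_interior]
  refine ⟨{x | (0 < x (Fin.last n) ∧ x (Fin.last n) < h) ∧
    ∀ i : Fin n, |x i.castSucc - 1 / 2| < (1 - x (Fin.last n) / h) / 2}, ?_, ?_, ?_⟩
  · rintro x ⟨⟨h1, h2⟩, h3⟩
    rw [mem_pyramid hh]
    exact ⟨⟨h1.le, h2.le⟩, fun i => (h3 i).le⟩
  · have : {x : E (n + 1) | (0 < x (Fin.last n) ∧ x (Fin.last n) < h) ∧
        ∀ i : Fin n, |x i.castSucc - 1 / 2| < (1 - x (Fin.last n) / h) / 2} =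
        ({x : E (n + 1) | 0 < x (Fin.last n)} ∩ {x : E (n + 1) | x (Fin.last n) < h}) ∩
        ⋂ i : Fin n, {x : E (n + 1) | |x i.castSucc - 1 / 2| < (1 - x (Fin.last n) / h) / 2} := by
      ext x; simp
    rw [this]
    refine ((isOpen_lt continuous_const (by fun_prop)).inter
      (isOpen_lt (by fun_prop) continuous_const)).inter (isOpen_iInter_of_finite fun i => ?_)
    exact isOpen_lt (by fun_prop) (by fun_prop)
  · refine ⟨⟨?_, ?_⟩, fun i => ?_⟩
    · simp [toD]; positivity
    · simp [toD]; linarith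
    · simp only [toD, LinearEquiv.coe_symm_mk']
      simp
      rw [div_div_cancel_left' hh.ne']
      norm_num

/-- `N*(P) = 2` for large `h`. -/
theorem newton_eq_two {n : ℕ} (hn : 1 ≤ n) : ∃ h₀ : ℝ, 0 < h₀ ∧ ∀ h, h₀ ≤ h →
    newton (pyramid n h) = 2 := by
  obtain ⟨h₀, h0, H⟩ := covers_two hn
  refine ⟨h₀, h0, fun h hh => le_antisymm (Nat.sInf_le (H h hh)) ?_⟩
  have hpos : 0 < h := lt_of_lt_of_le h0 hh
  refine le_csInf ⟨2, H h hh⟩ fun k hk => ?_
  by_contra hcon
  push Not at hcon
  exact Pool.Agent.Helper2.NewtonSmooth.not_covers_one (pyramid_compact hpos) (pyramid_interior hpos)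
    (by omega) hk

/-- A unit cube needs at least two copies. -/
theorem two_le_newton_cube {n : ℕ} (hn : 1 ≤ n) : 2 ≤ newton (cube n) := by
  have hk : IsCompact (cube n) := by
    have hcl : IsClosed (cube n) := by
      have : cube n = ⋂ i : Fin n, ({x : E n | 0 ≤ x i} ∩ {x : E n | x i ≤ 1}) := by
        ext x; simp [cube]
      rw [this]
      refine isClosed_iInter fun i => ?_
      exact (isClosed_le continuous_const (by fun_prop)).inter (isClosed_le (by fun_prop) continuous_const)
    refine Metric.isCompact_of_isClosed_isBounded hcl ?_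
    refine (Metric.isBounded_iff_subset_closedBall (0 : E n)).2 ⟨n, fun x hx => ?_⟩
    rw [mem_closedBall_zero_iff]
    have h5 : ‖x‖ ^ 2 ≤ n := by
      rw [EuclideanSpace.norm_sq_eq]
      calc ∑ i : Fin n, ‖x i‖ ^ 2 ≤ ∑ i : Fin n, (1 : ℝ) := by
            refine Finset.sum_le_sum fun i _ => ?_
            have := hx i
            rw [Real.norm_eq_abs, sq_abs]
            nlinarith
        _ = n := by simp
    have h6 : (1 : ℝ) ≤ n := by exact_mod_cast hn
    nlinarith [norm_nonneg x]
  have hi : (interior (cube n)).Nonempty := by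
    refine ⟨WithLp.toLp 2 fun _ => 1 / 2, ?_⟩
    rw [mem_interior]
    refine ⟨{x | ∀ i, 0 < x i ∧ x i < 1}, fun x hx i => ⟨(hx i).1.le, (hx i).2.le⟩, ?_, ?_⟩
    · have : {x : E n | ∀ i, 0 < x i ∧ x i < 1} = ⋂ i : Fin n, ({x : E n | 0 < x i} ∩ {x : E n | x i < 1}) := by
        ext x; simp
      rw [this]
      refine isOpen_iInter_of_finite fun i => ?_
      exact (isOpen_lt continuous_const (by fun_prop)).inter (isOpen_lt (by fun_prop) continuous_const)
    · intro i
      norm_num
  have : Nontrivial (E n) := by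
    have : Nonempty (Fin n) := ⟨⟨0, hn⟩⟩
    infer_instance
  obtain ⟨m, hm⟩ := exists_covers hk hi
  refine le_csInf ⟨m, hm⟩ fun k hk' => ?_
  by_contra hcon
  push Not at hcon
  exact Pool.Agent.Helper2.NewtonSmooth.not_covers_one hk hi (by omega) hk'

/-- At height `√(3n)/2` three vertices realise the diameter pairwise, so three copies are needed. -/
theorem three_le_newton {n : ℕ} (hn : 1 ≤ n) : 3 ≤ newton (pyramid n (Real.sqrt (3 * n) / 2)) := by
  have hn' : (1 : ℝ) ≤ n := by exact_mod_cast hn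
  set h : ℝ := Real.sqrt (3 * n) / 2 with hh
  have hpos : 0 < h := by rw [hh]; positivity
  have hsq : h ^ 2 = 3 * n / 4 := by
    rw [hh, div_pow, Real.sq_sqrt (by positivity)]; ring
  have hk := pyramid_compact (n := n) hpos
  have hi := pyramid_interior (n := n) hpos
  -- three points
  let p : Fin 3 → E (n + 1) := ![(toD n).symm (fun _ => 0, 0), (toD n).symm (fun _ => 1, 0),
    (toD n).symm (fun _ => 1 / 2, h)]
  have hp : ∀ j, p j ∈ pyramid n h := by
    intro j
    rw [mem_pyramid hpos]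
    fin_cases j
    · refine ⟨⟨?_, ?_⟩, fun i => ?_⟩
      · simp [p, toD]
      · simp [p, toD]; exact hpos.le
      · simp [p, toD]
    · refine ⟨⟨?_, ?_⟩, fun i => ?_⟩
      · simp [p, toD]
      · simp [p, toD]; exact hpos.le
      · simp [p, toD]; norm_num
    · refine ⟨⟨?_, ?_⟩, fun i => ?_⟩
      · simp [p, toD]; exact hpos.le
      · simp [p, toD]
      · simp [p, toD, div_self hpos.ne']
  have hdist : ∀ x y : E (n + 1), dist x y ^ 2 = ∑ i : Fin n, (x i.castSucc - y i.castSucc) ^ 2 +
      (x (Fin.last n) - y (Fin.last n)) ^ 2 := by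
    intro x y
    rw [dist_eq_norm, norm_sq_eq]
    simp [toD]
  have hpd : ∀ i j, i ≠ j → dist (p i) (p j) ^ 2 = n := by
    intro i j hij
    rw [hdist]
    fin_cases i <;> fin_cases j <;> simp_all [p, toD] <;> ring
  -- the diameter
  have hdiam : diam (pyramid n h) ≤ Real.sqrt n := by
    unfold pyramid
    rw [convexHull_diam]
    refine diam_le_of_forall_dist_le (Real.sqrt_nonneg _) ?_
    have hle : ∀ x y : E (n + 1), (∑ i : Fin n, (x i.castSucc - y i.castSucc) ^ 2 +
        (x (Fin.last n) - y (Fin.last n)) ^ 2 ≤ n) → dist x y ≤ Real.sqrt n := by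
      intro x y hxy
      rw [← hdist] at hxy
      exact Real.le_sqrt_of_sq_le hxy
    rintro x (⟨h1, h2⟩ | ⟨h1, h2⟩) y (⟨h3, h4⟩ | ⟨h3, h4⟩) <;> apply hle
    · rw [h2, h4]
      have : ∑ i : Fin n, (x i.castSucc - y i.castSucc) ^ 2 ≤ ∑ i : Fin n, (1 : ℝ) := by
        refine Finset.sum_le_sum fun i _ => ?_
        have := h1 i
        have := h3 i
        nlinarith
      simp only [Finset.sum_const, Finset.card_univ, Fintype.card_fin, nsmul_eq_mul, mul_one] at this
      linarith
    · rw [h2, h4]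
      have : ∑ i : Fin n, (x i.castSucc - y i.castSucc) ^ 2 ≤ ∑ i : Fin n, (1 / 4 : ℝ) := by
        refine Finset.sum_le_sum fun i _ => ?_
        have := h1 i
        rw [h3 i]
        nlinarith
      simp only [Finset.sum_const, Finset.card_univ, Fintype.card_fin, nsmul_eq_mul] at this
      nlinarith
    · rw [h2, h4]
      have : ∑ i : Fin n, (x i.castSucc - y i.castSucc) ^ 2 ≤ ∑ i : Fin n, (1 / 4 : ℝ) := by
        refine Finset.sum_le_sum fun i _ => ?_
        have := h3 i
        rw [h1 i]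
        nlinarith
      simp only [Finset.sum_const, Finset.card_univ, Fintype.card_fin, nsmul_eq_mul] at this
      nlinarith
    · have : ∑ i : Fin n, (x i.castSucc - y i.castSucc) ^ 2 = 0 := by
        refine Finset.sum_eq_zero fun i _ => ?_
        rw [h1 i, h3 i]; simp
      rw [this, h2, h4]
      simp
  obtain ⟨m, hm⟩ := exists_covers hk hi
  refine le_csInf ⟨m, hm⟩ fun k hk' => ?_
  by_contra hcon
  push Not at hcon
  obtain ⟨q, A, hq0, hq1, -, hcov, hA⟩ := Pool.Agent.Helper2.NewtonSmooth.borsuk hk hk'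
  have hsel : ∀ j, ∃ i, p j ∈ A i := fun j => mem_iUnion.1 (hcov (hp j))
  choose F hF using hsel
  obtain ⟨i, j, hij, hFij⟩ : ∃ i j, i ≠ j ∧ F i = F j := by
    have : Fintype.card (Fin k) < Fintype.card (Fin 3) := by simpa using hcon
    exact Fintype.exists_ne_map_eq_of_card_lt F this
  have h1 := hA (F i) (p i) (hF i) (p j) (hFij ▸ hF j)
  have h2 := hpd i j hij
  have h3 : q * diam (pyramid n h) ≤ q * Real.sqrt n := mul_le_mul_of_nonneg_left hdiam hq0
  have h4 : Real.sqrt n ^ 2 = n := Real.sq_sqrt (by positivity)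
  have h5 : 0 < Real.sqrt n := by positivity
  have h6 : dist (p i) (p j) < Real.sqrt n := by
    have : q * Real.sqrt n < 1 * Real.sqrt n := mul_lt_mul_of_pos_right hq1 h5
    linarith
  have h7 : dist (p i) (p j) ^ 2 < Real.sqrt n ^ 2 := pow_lt_pow_left₀ h6 dist_nonneg (by norm_num)
  linarith

end Q146.TallPyramid
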