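import Mathlib

set_option autoImplicit false

namespace Pool.Agent.Q146.Trains

/-- The arcs used at scale `i`: residues modulo `2 ℓ 3^i` in the block starting at `0` or at
`ℓ 3^i`, of length `ℓ (3^i - 1)`. -/
def InJ (l : ℤ) (i : ℕ) (b : Bool) (x : ℤ) : Prop :=
  ∃ k : ℤ, k * (2 * (l * 3 ^ i)) + (if b then l * 3 ^ i else 0) ≤ x ∧
    x ≤ k * (2 * (l * 3 ^ i)) + (if b then l * 3 ^ i else 0) + (l * 3 ^ i - l)

lemma InJ.sep {l : ℤ} (hl : 0 < l) {i : ℕ} {x y : ℤ} (hx : InJ l i false x)
    (hy : InJ l i true y) : l ≤ |x - y| := by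
  obtain ⟨k, hk1, hk2⟩ := hx
  obtain ⟨m, hm1, hm2⟩ := hy
  have hP : 0 < l * 3 ^ i := by positivity
  set P : ℤ := l * 3 ^ i with hPdef
  simp only [if_true, Bool.false_eq_true, if_false] at hk1 hk2 hm1 hm2
  rcases le_or_gt k m with h | h
  · have h1 : k * (2 * P) ≤ m * (2 * P) := by
      apply mul_le_mul_of_nonneg_right h; linarith
    rw [abs_sub_comm]
    have : l ≤ y - x := by linarith
    exact this.trans (le_abs_self _)
  · have h0 : m + 1 ≤ k := h
    have h1 : (m + 1) * (2 * P) ≤ k * (2 * P) := by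
      apply mul_le_mul_of_nonneg_right h0; linarith
    have : l ≤ x - y := by nlinarith
    exact this.trans (le_abs_self _)

lemma InJ.sep' {l : ℤ} (hl : 0 < l) {i : ℕ} {x y : ℤ} {b b' : Bool} (hb : b ≠ b')
    (hx : InJ l i b x) (hy : InJ l i b' y) : l ≤ |x - y| := by
  cases b <;> cases b' <;> simp at hb
  · exact InJ.sep hl hx hy
  · rw [abs_sub_comm]; exact InJ.sep hl hy hx

/-- Nested scales: every block of `ℓ (3^n - 1) + 1` consecutive integers contains one that meets
one prescribed constraint at each of the scales `0, …, n - 1`. -/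
lemma exists_nested {l : ℤ} (hl : 0 < l) (c : ℕ → ℤ) (side : ℕ → Bool) (n : ℕ) :
    ∀ a : ℤ, ∃ T : ℤ, a ≤ T ∧ T ≤ a + (l * 3 ^ n - l) ∧
      ∀ i < n, InJ l i (side i) (T - c i) := by
  induction n with
  | zero => intro a; exact ⟨a, le_refl _, by simp, by simp⟩
  | succ n ih =>
    intro a
    have hP : 0 < l * 3 ^ n := by positivity
    set P : ℤ := l * 3 ^ n with hPdef
    set r : ℤ := c n + (if side n then P else 0) with hr
    -- smallest b ≥ a with b ≡ r mod 2P
    set k : ℤ := -((r - a) / (2 * P)) with hk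
    have hMpos : 0 < 2 * P := by linarith
    have hdiv := Int.emod_add_mul_ediv (r - a) (2 * P)
    have hm0 := Int.emod_nonneg (r - a) hMpos.ne'
    have hm1 := Int.emod_lt_of_pos (r - a) hMpos
    set b : ℤ := r + k * (2 * P) with hb
    have hba : b = a + (r - a) % (2 * P) := by
      rw [hb, hk]; linarith
    obtain ⟨T, hT1, hT2, hT3⟩ := ih b
    refine ⟨T, by linarith, ?_, ?_⟩
    · have : l * 3 ^ (n + 1) = 3 * P := by rw [hPdef]; ring
      rw [this]; linarith
    · intro i hi
      rcases Nat.lt_succ_iff_lt_or_eq.mp hi with h | h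
      · exact hT3 i h
      · subst h
        refine ⟨k, ?_, ?_⟩
        · rw [← hPdef]; rw [hb, hr] at hT1; linarith
        · rw [← hPdef]; rw [hb, hr] at hT2; linarith

open Classical in
/-- Signed number of members of `S` between `0` and `p`. -/
noncomputable def cnt (S : ℤ → Prop) (p : ℤ) : ℤ :=
  (∑ k ∈ Finset.range p.toNat, if S (k : ℤ) then (1 : ℤ) else 0) -
    ∑ k ∈ Finset.range (-p).toNat, if S (-1 - (k : ℤ)) then (1 : ℤ) else 0

open Classical in
lemma cnt_succ (S : ℤ → Prop) (p : ℤ) :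
    cnt S (p + 1) = cnt S p + if S p then (1 : ℤ) else 0 := by
  unfold cnt
  rcases le_or_gt 0 p with h | h
  · obtain ⟨n, rfl⟩ := Int.eq_ofNat_of_zero_le h
    have h1 : ((n : ℤ) + 1).toNat = n + 1 := by omega
    have h2 : (-((n : ℤ) + 1)).toNat = 0 := by omega
    have h3 : (-(n : ℤ)).toNat = 0 := by omega
    have h4 : ((n : ℤ)).toNat = n := by omega
    rw [h1, h2, h3, h4, Finset.sum_range_succ]
    simp
  · obtain ⟨n, hn⟩ := Int.eq_ofNat_of_zero_le (show 0 ≤ -p - 1 by omega)
    have hp : p = -1 - (n : ℤ) := by omega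
    subst hp
    have h1 : (-1 - (n : ℤ) + 1).toNat = 0 := by omega
    have h2 : (-(-1 - (n : ℤ) + 1)).toNat = n := by omega
    have h3 : (-(-1 - (n : ℤ))).toNat = n + 1 := by omega
    have h4 : (-1 - (n : ℤ)).toNat = 0 := by omega
    rw [h1, h2, h3, h4, Finset.sum_range_succ]
    simp

lemma cnt_gap (S : ℤ → Prop) (a : ℤ) (ha : S a) (m : ℕ)
    (h : ∀ k, a < k → k < a + m + 1 → ¬ S k) : cnt S (a + m + 1) = cnt S a + 1 := by
  induction m with
  | zero =>
    have := cnt_succ S a
    simpa [ha] using this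
  | succ m ih =>
    have h1 := ih (fun k h1 h2 => h k h1 (by push_cast; linarith))
    have h2 : ¬ S (a + m + 1) := h _ (by omega) (by push_cast; omega)
    have h3 := cnt_succ S (a + m + 1)
    rw [if_neg h2] at h3
    have h4 : a + ((m + 1 : ℕ) : ℤ) + 1 = a + m + 1 + 1 := by push_cast; ring
    rw [h4, h3, h1]; ring

/-- Parity of `cnt`. -/
noncomputable def par (S : ℤ → Prop) (p : ℤ) : ℕ := (cnt S p % 2).toNat

lemma par_lt (S : ℤ → Prop) (p : ℤ) : par S p < 2 := by unfold par; omega

lemma par_gap (S : ℤ → Prop) (a b : ℤ) (hab : a < b) (ha : S a)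
    (h : ∀ k, a < k → k < b → ¬ S k) : par S a ≠ par S b := by
  obtain ⟨m, hm⟩ := Int.eq_ofNat_of_zero_le (show 0 ≤ b - a - 1 by omega)
  have hb : b = a + m + 1 := by omega
  have := cnt_gap S a ha m (fun k h1 h2 => h k h1 (by rw [hb]; exact h2))
  unfold par
  rw [hb, this]
  omega

section core

variable {d : ℕ} {ι : Type*} (ax : ι → Fin d) (D : ι → Fin d → ℤ) (e : ι → ℤ)

/-- Sign of the direction of travel. -/
def sg (x : ι) : ℤ := if D x (ax x) < e x then 1 else -1

/-- Lower endpoint. -/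
def lo (x : ι) : ℤ := min (D x (ax x)) (e x)

/-- Upper endpoint. -/
def hi (x : ι) : ℤ := max (D x (ax x)) (e x)

/-- Two lines run on the same axis-parallel line. -/
def Same (x y : ι) : Prop := ax x = ax y ∧ ∀ j, j ≠ ax x → D x j = D y j

lemma Same.symm {x y : ι} (h : Same ax D x y) : Same ax D y x :=
  ⟨h.1.symm, fun j hj => (h.2 j (by rw [h.1]; exact hj)).symm⟩

lemma Same.refl (x : ι) : Same ax D x x := ⟨rfl, fun _ _ => rfl⟩

lemma Same.trans {x y z : ι} (h : Same ax D x y) (h' : Same ax D y z) : Same ax D x z :=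
  ⟨h.1.trans h'.1, fun j hj => (h.2 j hj).trans (h'.2 j (by rw [← h.1]; exact hj))⟩

/-- The set of lower endpoints on the line of `x`. -/
def LS (x : ι) (k : ℤ) : Prop := ∃ y, Same ax D x y ∧ lo ax D e y = k

lemma LS_congr {x y : ι} (h : Same ax D x y) : LS ax D e x = LS ax D e y := by
  funext k
  apply propext
  constructor
  · rintro ⟨z, hz, hk⟩; exact ⟨z, (h.symm).trans ax D hz, hk⟩
  · rintro ⟨z, hz, hk⟩; exact ⟨z, h.trans ax D hz, hk⟩

/-- Number of the directed axis class. -/
def kap (x : ι) : ℕ := if D x (ax x) < e x then (ax x : ℕ) else 2 * d - 1 - (ax x : ℕ)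

/-- The coordinate of `x` relevant for the directed axis class `b`. -/
def cc (x : ι) (b : ℕ) : ℤ :=
  if h : b < d then D x ⟨b, h⟩ else if h' : 2 * d - 1 - b < d then - D x ⟨2 * d - 1 - b, h'⟩ else 0

lemma kap_lt (x : ι) : kap ax D e x < 2 * d := by
  have := (ax x).isLt
  unfold kap; split_ifs <;> omega

lemma cc_kap (x y : ι) : cc D x (kap ax D e y) = sg ax D e y * D x (ax y) := by
  have hy := (ax y).isLt
  unfold cc kap sg
  by_cases h1 : D y (ax y) < e y
  · simp [h1]
  · have h2 : ¬ (2 * d - 1 - (ax y : ℕ) < d) := by omega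
    have h3 : 2 * d - 1 - (2 * d - 1 - (ax y : ℕ)) < d := by omega
    have h4 : (⟨2 * d - 1 - (2 * d - 1 - (ax y : ℕ)), h3⟩ : Fin d) = ax y := by
      apply Fin.ext
      show 2 * d - 1 - (2 * d - 1 - (ax y : ℕ)) = (ax y : ℕ)
      omega
    simp only [h1, if_false]
    rw [dif_neg h2, dif_pos h3, h4]
    ring

lemma kap_ne {x y : ι} (h : ax x ≠ ax y) : kap ax D e x ≠ kap ax D e y := by
  have hx := (ax x).isLt
  have hy := (ax y).isLt
  have : (ax x : ℕ) ≠ (ax y : ℕ) := fun h' => h (Fin.ext h')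
  unfold kap; split_ifs <;> omega

/-- The endpoint of parity `ε`. -/
noncomputable def ep (x : ι) (ε : ℕ) : ℤ :=
  if par (LS ax D e x) (lo ax D e x) = ε then lo ax D e x else hi ax D e x

/-- The offsets of the constraints. -/
noncomputable def con (x : ι) (k : ℕ) : ℤ :=
  if k < 2 * d then cc D x ((k + 2 * d - kap ax D e x) % (2 * d))
  else - (sg ax D e x * ep ax D e x (k - 2 * d))

/-- The sides of the constraints. -/
noncomputable def sid (x : ι) (k : ℕ) : Bool :=
  if k < 2 * d then decide (kap ax D e x < (k + 2 * d - kap ax D e x) % (2 * d))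
  else decide (ep ax D e x (k - 2 * d) = hi ax D e x)

lemma partner (x y : ι) :
    ((kap ax D e x + kap ax D e y) % (2 * d) + 2 * d - kap ax D e x) % (2 * d) =
      kap ax D e y := by
  have hx := kap_lt ax D e x
  have hy := kap_lt ax D e y
  rcases lt_or_ge (kap ax D e x + kap ax D e y) (2 * d) with h | h
  · rw [Nat.mod_eq_of_lt h]
    have : kap ax D e x + kap ax D e y + 2 * d - kap ax D e x = kap ax D e y + 2 * d := by omega
    rw [this, Nat.add_mod_right, Nat.mod_eq_of_lt hy]
  · have h2 : (kap ax D e x + kap ax D e y) % (2 * d) = kap ax D e x + kap ax D e y - 2 * d := by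
      rw [Nat.mod_eq_sub_mod h, Nat.mod_eq_of_lt (by omega)]
    rw [h2]
    have : kap ax D e x + kap ax D e y - 2 * d + 2 * d - kap ax D e x = kap ax D e y := by omega
    rw [this, Nat.mod_eq_of_lt hy]

theorem core {l : ℤ} (hl : 0 < l) (hne : ∀ x, D x (ax x) ≠ e x)
    (hdisj : ∀ x y, x ≠ y → Same ax D x y →
      hi ax D e x ≤ lo ax D e y ∨ hi ax D e y ≤ lo ax D e x) :
    ∃ T : ι → ℤ,
      (∀ x, 0 ≤ T x + sg ax D e x * D x (ax x) ∧
        T x + sg ax D e x * D x (ax x) ≤ l * 3 ^ (2 * d + 2) - l) ∧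
      (∀ x y, ax x ≠ ax y →
        l ≤ |(T x + sg ax D e x * D y (ax x)) - (T y + sg ax D e y * D x (ax y))|) ∧
      (∀ x y, x ≠ y → Same ax D x y → hi ax D e x = lo ax D e y →
        l ≤ |(T x + sg ax D e x * hi ax D e x) - (T y + sg ax D e y * hi ax D e x)|) := by
  have hex : ∀ x, ∃ T : ℤ, -(sg ax D e x * D x (ax x)) ≤ T ∧
      T ≤ -(sg ax D e x * D x (ax x)) + (l * 3 ^ (2 * d + 2) - l) ∧
      ∀ i < 2 * d + 2, InJ l i (sid ax D e x i) (T - con ax D e x i) := fun x =>
    exists_nested hl (con ax D e x) (sid ax D e x) (2 * d + 2) _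
  choose T hT1 hT2 hT3 using hex
  refine ⟨T, fun x => ⟨by linarith [hT1 x], by linarith [hT2 x]⟩, ?_, ?_⟩
  · intro x y hxy
    have hdpos : 0 < 2 * d := by have := (ax x).isLt; omega
    have hk : (kap ax D e x + kap ax D e y) % (2 * d) < 2 * d := Nat.mod_lt _ hdpos
    have h1 := hT3 x _ (show (kap ax D e x + kap ax D e y) % (2 * d) < 2 * d + 2 by omega)
    have h2 := hT3 y _ (show (kap ax D e x + kap ax D e y) % (2 * d) < 2 * d + 2 by omega)
    have e2 := partner ax D e y x
    rw [add_comm (kap ax D e y)] at e2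
    simp only [con, sid, hk, if_true] at h1 h2
    rw [partner] at h1
    rw [e2] at h2
    rw [cc_kap] at h1 h2
    have hne' := kap_ne ax D e hxy
    have hs : decide (kap ax D e x < kap ax D e y) ≠ decide (kap ax D e y < kap ax D e x) := by
      rcases lt_or_gt_of_ne hne' with h | h
      · simp [h, h.le]
      · simp [h, h.le]
    have := InJ.sep' hl hs h1 h2
    have heq : T x - sg ax D e y * D x (ax y) - (T y - sg ax D e x * D y (ax x)) =
      (T x + sg ax D e x * D y (ax x)) - (T y + sg ax D e y * D x (ax y)) := by ring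
    rw [heq] at this
    exact this
  · intro x y hxy hs hp
    have hlohi : ∀ z, lo ax D e z < hi ax D e z := by
      intro z; unfold lo hi; rcases lt_or_gt_of_ne (hne z) with h | h
      · rw [min_eq_left h.le, max_eq_right h.le]; exact h
      · rw [min_eq_right h.le, max_eq_left h.le]; exact h
    have hgap : par (LS ax D e x) (lo ax D e x) ≠ par (LS ax D e x) (hi ax D e x) := by
      apply par_gap _ _ _ (hlohi x) ⟨x, Same.refl ax D x, rfl⟩
      rintro k hk1 hk2 ⟨z, hz, hzk⟩
      have hzx : x ≠ z := by rintro rfl; omega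
      have hz' := hlohi z
      rcases hdisj x z hzx hz with h | h
      · omega
      · omega
    set ε := par (LS ax D e x) (hi ax D e x) with hε
    have hε2 : ε < 2 := par_lt _ _
    have hLS := LS_congr ax D e hs
    have ex : ep ax D e x ε = hi ax D e x := by unfold ep; rw [if_neg hgap]
    have ey : ep ax D e y ε = lo ax D e y := by
      unfold ep; rw [if_pos]; rw [← hLS, ← hp]
    have h1 := hT3 x (2 * d + ε) (by omega)
    have h2 := hT3 y (2 * d + ε) (by omega)
    have hk : ¬ (2 * d + ε < 2 * d) := by omega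
    have hk' : 2 * d + ε - 2 * d = ε := by omega
    simp only [con, sid, hk, if_false, hk'] at h1 h2
    rw [ex] at h1
    rw [ey] at h2
    have hsid : decide (hi ax D e x = hi ax D e x) ≠ decide (lo ax D e y = hi ax D e y) := by
      have := (hlohi y).ne
      simp [this]
    have := InJ.sep' hl hsid h1 h2
    rw [← hp] at this
    have heq : T x - -(sg ax D e x * hi ax D e x) - (T y - -(sg ax D e y * hi ax D e x)) =
      (T x + sg ax D e x * hi ax D e x) - (T y + sg ax D e y * hi ax D e x) := by ring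
    rw [heq] at this
    exact this

end core

end Pool.Agent.Q146.Trains
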